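import Pool.Agent.FTN.CONS

set_option autoImplicit false

/-! FTN, module ID: the identities at `D = 0`. -/

open Real

namespace Pool.Agent.FTN

open Pool.Agent.FTA (TM Alg tmA slA SL Side Core PR Cmp Tr sn cn De kk T1 tt gram reA prA Compat InB sg PSDK scR acR)

namespace ID_

theorem sin_pi_mul (p : ℝ) : Real.sin (π * p) = 2 * (sn p * cn p) := by
  have h : π * p = 2 * (π * p / 2) := by ring
  rw [h, Real.sin_two_mul]
  unfold sn cn
  ring

theorem sq_one (p : ℝ) : sn p ^ 2 + cn p ^ 2 = 1 := by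
  unfold sn cn
  exact Real.sin_sq_add_cos_sq _

theorem T1_one : T1 1 = 1 := by
  unfold T1
  rw [Real.arcsin_one]
  have := Real.pi_ne_zero
  field_simp

theorem T1_neg : T1 (-1) = -1 := by
  unfold T1
  rw [Real.arcsin_neg, Real.arcsin_one]
  have := Real.pi_ne_zero
  field_simp

/-- the common part of `F (p, q, 1)` and `F (p, q, -1)` -/
theorem base (P : Par) (hP : Good P) (p q m M k : ℝ) (hm : m * M = p * q) :
    (1 + eps P) * p0 P p * p0 P q + (1 - sig P)⁻¹ * (pB P p * pB P q) * (1 - eps P)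
      + (sig P)⁻¹ * (pE P p * pE P q) * (1 - eps P)
      + ((1 + 2 * kap P) * (m * (1 - 2 * M) + k) - rh P * (De p * De q)) =
    1 - 1 / (P.n : ℝ) - (p + q) - kap P * (De p + De q) - 4 * kap P * (sn p * sn q) ^ 2 + (1 + 2 * kap P) * (m + k) := by
  have hp : sn p ^ 2 = p - De p := by unfold De; ring
  have hq : sn q ^ 2 = q - De q := by unfold De; ring
  have h1 : (sn p * sn q) ^ 2 = (p - De p) * (q - De q) := by
    rw [mul_pow, hp, hq]
  have hs : (1 - sig P)⁻¹ * (1 - sig P) = 1 := by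
    have := CONS_.sig_lt P hP
    exact inv_mul_cancel₀ (by linarith)
  have ht : (sig P)⁻¹ * (sig P) = 1 := by
    have := CONS_.sig_pos P hP
    exact inv_mul_cancel₀ (by linarith)
  have r1 := CONS_.rel P hP
  have r2 := CONS_.relc P hP
  rw [h1]
  unfold p0 pB pE rh
  simp only [div_eq_mul_inv] at r2 ⊢
  generalize (P.n : ℝ)⁻¹ = ni at *
  generalize (1 - sig P)⁻¹ = u at *
  generalize (sig P)⁻¹ = v at *
  generalize eps P = e at *
  generalize sig P = s at *
  generalize kap P = k' at *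
  generalize bet P = b at *
  generalize k3 P = c at *
  generalize De p = x at *
  generalize De q = y at *
  linear_combination (-2 * (1 + 2 * k')) * hm + (1 - e) * ((1 - s) * p * q + b * (p * y + q * x)) * hs
    + (1 - e) * (s * p * q + c * (p * y + q * x)) * ht + (p * y + q * x) * r1
    + ((1 - ni) - (p + q) - k' * (x + y)) * r2

theorem F_pos (P : Par) (hP : Good P) {p q : ℝ} (h : p ≤ q) : F P p q 1 =
    1 - 1 / (P.n : ℝ) - (p + q) - kap P * (De p + De q) - 4 * kap P * (sn p * sn q) ^ 2 + 2 * (1 + 2 * kap P) * p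
      - 4 * kap P * (sn p * cn p * (sn q * cn q)) := by
  have h1 := base P hP p q p q (kk p q) rfl
  unfold F Wf Rf
  rw [T1_one, abs_one, min_eq_left h, max_eq_right h, sin_pi_mul, sin_pi_mul]
  linear_combination h1

theorem F_neg (P : Par) (hP : Good P) {p q : ℝ} (h : p ≤ q) : F P p q (-1) =
    1 - 1 / (P.n : ℝ) - (p + q) - kap P * (De p + De q) - 4 * kap P * (sn p * sn q) ^ 2 + 2 * (1 + 2 * kap P) * kk p q
      + 4 * kap P * (sn p * cn p * (sn q * cn q)) := by
  have h1 := base P hP p q p q (kk p q) rfl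
  unfold F Wf Rf
  rw [T1_neg, abs_neg, abs_one, min_eq_left h, max_eq_right h, sin_pi_mul, sin_pi_mul]
  linear_combination h1

/-- the trigonometric identity -/
theorem trig (x X y Y z Z S : ℝ) (hx : x ^ 2 + X ^ 2 = 1) (hy : y ^ 2 + Y ^ 2 = 1)
    (hz : z ^ 2 + Z ^ 2 = 1) (hS : S = x * Y * Z + X * y * Z - X * Y * z + x * y * z) :
    -(x ^ 2 + y ^ 2 + z ^ 2) / 4 + ((x * y) ^ 2 + (x * z) ^ 2 + (y * z) ^ 2) / 2
      - (x * X * (y * Y) - x * X * (z * Z) - y * Y * (z * Z)) / 2 =
    S * (x * y * z) - S ^ 2 / 4 := by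
  subst hS
  linear_combination
    (-(1 / 2) * (y * Y * (z * Z)) + 1 / 4 * (y ^ 2 * (1 - z ^ 2) + z ^ 2 * (1 - y ^ 2))) * hx +
    (-(1 / 2) * (x * X * (z * Z)) + 1 / 4 * (x ^ 2 * (1 - z ^ 2) + z ^ 2 * X ^ 2)) * hy +
    (1 / 2 * (x * X * (y * Y)) + 1 / 4 * (x ^ 2 * Y ^ 2 + y ^ 2 * X ^ 2)) * hz

theorem two_sn_cn (e : ℝ) : 2 * (sn e * cn e) = Real.sin (π * e) := (sin_pi_mul e).symm

theorem S1 (a b c e : ℝ) (h : c = a + b - 2 * e) : 2 * (sn e * cn e) =
    sn a * cn b * cn c + cn a * sn b * cn c - cn a * cn b * sn c + sn a * sn b * sn c := by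
  rw [two_sn_cn]
  have h1 : π * e = (π * a / 2 + π * b / 2) - π * c / 2 := by
    rw [h]; ring
  rw [h1, Real.sin_sub, Real.sin_add, Real.cos_add]
  unfold sn cn
  ring

theorem S2 (a b c e : ℝ) (h : a + b + c = 2 + 2 * e) : 2 * (sn e * cn e) =
    sn a * cn b * (-cn c) + cn a * sn b * (-cn c) - cn a * cn b * sn c + sn a * sn b * sn c := by
  rw [two_sn_cn]
  have h1 : π * e = (π * a / 2 + π * b / 2 + π * c / 2) - π := by
    have : e = (a + b + c) / 2 - 1 := by linarith
    rw [this]; ring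
  rw [h1, Real.sin_sub_pi, Real.sin_add, Real.sin_add, Real.cos_add]
  unfold sn cn
  ring

end ID_

open ID_ in
theorem id_proof : Stmt_ID := by
  intro P hP a b c e ha hab hbc hc he
  have hac : a ≤ c := le_trans hab hbc
  have hDa : De a = a - sn a ^ 2 := rfl
  have hDb : De b = b - sn b ^ 2 := rfl
  have hDc : De c = c - sn c ^ 2 := rfl
  constructor
  · intro h
    have h1 := trig (sn a) (cn a) (sn b) (cn b) (sn c) (cn c) (2 * (sn e * cn e))
      (sq_one a) (sq_one b) (sq_one c) (S1 a b c e h)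
    rw [F_neg P hP hab, F_pos P hP hac, F_pos P hP hbc, hDa, hDb, hDc]
    linear_combination (8 * kap P) * h1 + (1 + 2 * kap P) * h
  · intro h
    have h1 := trig (sn a) (cn a) (sn b) (cn b) (sn c) (-cn c) (2 * (sn e * cn e))
      (sq_one a) (sq_one b) (by rw [neg_sq]; exact sq_one c) (S2 a b c e h)
    have k1 : kk a b = a + b - 1 := max_eq_left (by linarith)
    have k2 : kk a c = a + c - 1 := max_eq_left (by linarith)
    have k3 : kk b c = b + c - 1 := max_eq_left (by linarith)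
    rw [F_neg P hP hab, F_neg P hP hac, F_neg P hP hbc, k1, k2, k3, hDa, hDb, hDc]
    linear_combination (8 * kap P) * h1 - (3 * (1 + 2 * kap P)) * h

end Pool.Agent.FTN
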