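import Pool.Agent.FTN.CORE
import Pool.Agent.FTN.ID

open Real

namespace Pool.Agent.FTN

open Pool.Agent.FTA (TM Alg tmA slA SL Side Core PR Cmp Tr sn cn De kk T1 tt gram reA prA Compat InB sg PSDK scR acR asR dy cl cl8 cl4 pv)

theorem aff_proof : Stmt_AFF := by
  intro P ev K gm l0 l1 l2 z0 z1 z2 x0 x1 x2 d0 d1 d2 h
  have h2 : l2 = 1 - l0 - l1 := by linarith
  subst h2
  cases ev
  · show (reA.sub K.bs _ + _) + (_ + _) = _
    simp only [qP, poleO, poleE, poleA, evenP, oddP, Wp, Rp]
    generalize Alg.ac reA K.xx = u1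
    generalize P.cB reA = v1
    generalize P.cE reA = v2
    generalize P.rho reA = v3
    generalize Alg.ac reA K.xy = u2
    generalize Alg.ac reA (reA.sub (reA.cst false 0 0) K.xz) = u3
    simp only [reA]
    ring
  · simp only [qP, poleO, poleE, poleA, evenP, oddP, Wp, Rp]
    generalize Alg.ac reA K.xx = u1
    generalize P.cB reA = v1
    generalize P.cE reA = v2
    generalize P.rho reA = v3
    generalize Alg.ac reA K.xy = u2
    generalize Alg.ac reA K.xz = u3
    simp only [reA]
    ring

end Pool.Agent.FTN
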