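import Pool.Agent.FTN.Stmts
import Pool.Agent.FTA.SCHUR

/-! The kernel `arcsin <x, y>` is positive semidefinite on the unit sphere. -/

open Real Filter Topology

namespace Pool.Agent.FTN

open Pool.Agent.FTA (TM Alg tmA slA SL Side Core PR Cmp Tr sn cn De kk T1 tt gram reA prA Compat InB sg PSDK scR acR)

namespace ASN_

variable {X : Type}

theorem add {K L : X → X → ℝ} (hK : PSDK K) (hL : PSDK L) : PSDK (fun x y => K x y + L x y) := by
  refine ⟨fun x y => by simp only [hK.1 x y, hL.1 x y], fun n x c => ?_⟩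
  have h1 := hK.2 n x c
  have h2 := hL.2 n x c
  have h3 : ∑ i, ∑ j, c i * c j * (K (x i) (x j) + L (x i) (x j))
      = (∑ i, ∑ j, c i * c j * K (x i) (x j)) + ∑ i, ∑ j, c i * c j * L (x i) (x j) := by
    rw [← Finset.sum_add_distrib]
    apply Finset.sum_congr rfl
    intro i _
    rw [← Finset.sum_add_distrib]
    apply Finset.sum_congr rfl
    intro j _
    ring
  rw [h3]
  linarith

theorem smul {K : X → X → ℝ} (a : ℝ) (ha : 0 ≤ a) (hK : PSDK K) : PSDK (fun x y => a * K x y) := by
  refine ⟨fun x y => by simp only [hK.1 x y], fun n x c => ?_⟩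
  have h1 := hK.2 n x c
  have h3 : ∑ i, ∑ j, c i * c j * (a * K (x i) (x j)) = a * ∑ i, ∑ j, c i * c j * K (x i) (x j) := by
    rw [Finset.mul_sum]
    apply Finset.sum_congr rfl
    intro i _
    rw [Finset.mul_sum]
    apply Finset.sum_congr rfl
    intro j _
    ring
  rw [h3]
  exact mul_nonneg ha h1

theorem rank1 (f : X → ℝ) : PSDK (fun x y => f x * f y) := by
  refine ⟨fun x y => mul_comm _ _, fun n x c => ?_⟩
  have h3 : ∑ i, ∑ j, c i * c j * (f (x i) * f (x j)) = (∑ i, c i * f (x i)) ^ 2 := by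
    rw [sq, Finset.sum_mul_sum]
    apply Finset.sum_congr rfl
    intro i _
    apply Finset.sum_congr rfl
    intro j _
    ring
  rw [h3]
  positivity

theorem congr' {K L : X → X → ℝ} (h : ∀ x y, K x y = L x y) (hK : PSDK K) : PSDK L := by
  have : K = L := by funext x y; exact h x y
  rw [← this]; exact hK

theorem mul {K L : X → X → ℝ} (hK : PSDK K) (hL : PSDK L) : PSDK (fun x y => K x y * L x y) :=
  Pool.Agent.FTA.schur_proof X K L hK hL

theorem lim {K : ℕ → X → X → ℝ} {L : X → X → ℝ} (hK : ∀ m, PSDK (K m))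
    (h : ∀ x y, Tendsto (fun m => K m x y) atTop (𝓝 (L x y))) : PSDK L := by
  refine ⟨fun x y => ?_, fun n x c => ?_⟩
  · refine tendsto_nhds_unique (h x y) ?_
    refine (h y x).congr (fun m => (hK m).1 y x)
  · have ht : Tendsto (fun m => ∑ i, ∑ j, c i * c j * K m (x i) (x j)) atTop
        (𝓝 (∑ i, ∑ j, c i * c j * L (x i) (x j))) :=
      tendsto_finsetSum _ fun i _ => tendsto_finsetSum _ fun j _ => (h _ _).const_mul _
    exact ge_of_tendsto' ht (fun m => (hK m).2 n x c)

theorem zero : PSDK (fun _ _ : X => (0 : ℝ)) := by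
  refine congr' ?_ (rank1 (fun _ : X => (0 : ℝ)))
  intro x y; norm_num

theorem one : PSDK (fun _ _ : X => (1 : ℝ)) := by
  refine congr' ?_ (rank1 (fun _ : X => (1 : ℝ)))
  intro x y; norm_num

theorem fsum {K : ℕ → X → X → ℝ} (hK : ∀ m, PSDK (K m)) (m : ℕ) :
    PSDK (fun x y => ∑ k ∈ Finset.range m, K k x y) := by
  induction m with
  | zero => simpa using zero
  | succ m ih =>
    simp only [Finset.sum_range_succ]
    exact add ih (hK m)

theorem hsum {K : ℕ → X → X → ℝ} {L : X → X → ℝ} (hK : ∀ m, PSDK (K m))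
    (h : ∀ x y, HasSum (fun m => K m x y) (L x y)) : PSDK L :=
  lim (fsum hK) (fun x y => (h x y).tendsto_sum_nat)

theorem pow {K : X → X → ℝ} (hK : PSDK K) (m : ℕ) : PSDK (fun x y => K x y ^ m) := by
  induction m with
  | zero => simpa using one
  | succ m ih =>
    simp only [pow_succ]
    exact mul ih hK

theorem exp {K : X → X → ℝ} (hK : PSDK K) : PSDK (fun x y => Real.exp (K x y)) := by
  refine hsum (K := fun m x y => (1 / (m.factorial : ℝ)) * K x y ^ m) (fun m => smul _ (by positivity) (pow hK m)) (fun x y => ?_)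
  have h := NormedSpace.expSeries_div_hasSum_exp (K x y)
  rw [← Real.exp_eq_exp_ℝ] at h
  refine h.congr_fun ?_
  intro m; ring

theorem log {K : X → X → ℝ} (hK : PSDK K) (h1 : ∀ x y, |K x y| < 1) : PSDK (fun x y => -Real.log (1 - K x y)) := by
  refine hsum (K := fun m x y => (1 / ((m : ℝ) + 1)) * K x y ^ (m + 1)) (fun m => smul _ (by positivity) (pow hK (m + 1)))
    (fun x y => ?_)
  refine (Real.hasSum_pow_div_log_of_abs_lt_one (h1 x y)).congr_fun ?_
  intro m; ring

theorem rsq {K : X → X → ℝ} (hK : PSDK K) (h1 : ∀ x y, |K x y| < 1) : PSDK (fun x y => 1 / √(1 - K x y)) := by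
  refine congr' ?_ (exp (smul (1 / 2) (by norm_num) (log hK h1)))
  intro x y
  have h2 := abs_lt.1 (h1 x y)
  have h3 : 0 < 1 - K x y := by linarith
  rw [Real.sqrt_eq_rpow, Real.rpow_def_of_pos h3, one_div (Real.exp _), ← Real.exp_neg]
  congr 1; ring

end ASN_

open ASN_

theorem asn_proof (h1 : Stmt_TRC) : Stmt_ASN := by
  intro n
  have hin := (h1 n).1
  have hle : ∀ x y : Sp n, |(inner ℝ x.1 y.1 : ℝ)| ≤ 1 := by
    intro x y
    have := abs_real_inner_le_norm x.1 y.1
    rw [x.2, y.2] at this; linarith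
  refine ⟨fun x y => by show T1 _ = T1 _; rw [real_inner_comm], fun N x c => ?_⟩
  set t : Fin N → Fin N → ℝ := fun i j => inner ℝ (x i).1 (x j).1 with ht
  let g : ℝ → ℝ := fun s => ∑ i, ∑ j, c i * c j * Real.arcsin (s * t i j)
  have hne : ∀ s ∈ Set.Ioo (0 : ℝ) 1, ∀ i j, |s * t i j| < 1 := by
    intro s hs i j
    rw [abs_mul, abs_of_pos hs.1]
    calc s * |t i j| ≤ s * 1 := mul_le_mul_of_nonneg_left (hle _ _) hs.1.le
      _ < 1 := by linarith [hs.2]
  have hd : ∀ s ∈ Set.Ioo (0 : ℝ) 1, HasDerivAt g (∑ i, ∑ j, c i * c j * (1 / √(1 - (s * t i j) ^ 2) * t i j)) s := by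
    intro s hs
    refine HasDerivAt.fun_sum fun i _ => HasDerivAt.fun_sum fun j _ => ?_
    have h := hne s hs i j
    rw [abs_lt] at h
    have e : HasDerivAt (fun s : ℝ => s * t i j) (t i j) s := by
      simpa using (hasDerivAt_id s).mul_const (t i j)
    have e2 := Real.hasDerivAt_arcsin (x := s * t i j) (by linarith) (by linarith)
    exact (e2.comp s e).const_mul _
  have hcont : ContinuousOn g (Set.Icc 0 1) := by
    refine Continuous.continuousOn ?_
    refine continuous_finsetSum _ fun i _ => continuous_finsetSum _ fun j _ => ?_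
    exact continuous_const.mul (Real.continuous_arcsin.comp (continuous_id.mul continuous_const))
  have hmono : MonotoneOn g (Set.Icc 0 1) := by
    refine monotoneOn_of_deriv_nonneg (convex_Icc 0 1) hcont ?_ ?_
    · rw [interior_Icc]
      intro s hs
      exact (hd s hs).differentiableAt.differentiableWithinAt
    · rw [interior_Icc]
      intro s hs
      rw [(hd s hs).deriv]
      have hK2 : PSDK (fun x y : Sp n => s ^ 2 * (inner ℝ x.1 y.1) ^ 2) := smul _ (by positivity) (h1 n).2.1
      have hlt : ∀ x y : Sp n, |s ^ 2 * (inner ℝ x.1 y.1) ^ 2| < 1 := by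
        intro x y
        have a1 := hle x y
        have a2 : (inner ℝ x.1 y.1 : ℝ) ^ 2 ≤ 1 := by
          rw [← sq_abs]
          nlinarith [abs_nonneg (inner ℝ x.1 y.1 : ℝ)]
        have a3 : s ^ 2 < 1 := by nlinarith [hs.1, hs.2]
        rw [abs_of_nonneg (by positivity)]
        calc s ^ 2 * (inner ℝ x.1 y.1 : ℝ) ^ 2 ≤ s ^ 2 * 1 := mul_le_mul_of_nonneg_left a2 (by positivity)
          _ < 1 := by linarith
      have hp := (mul (rsq hK2 hlt) hin).2 N x c
      have e : ∀ i j, (s * t i j) ^ 2 = s ^ 2 * (inner ℝ (x i).1 (x j).1) ^ 2 := by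
        intro i j
        rw [mul_pow]
      simp only [e]
      exact hp
  have h01 := hmono (Set.left_mem_Icc.2 zero_le_one) (Set.right_mem_Icc.2 zero_le_one) zero_le_one
  have e0 : g 0 = 0 := by simp [g]
  have e1 : ∑ i, ∑ j, c i * c j * T1 (inner ℝ (x i).1 (x j).1) = 2 / π * g 1 := by
    show _ = 2 / π * ∑ i, ∑ j, c i * c j * Real.arcsin (1 * t i j)
    rw [Finset.mul_sum]
    refine Finset.sum_congr rfl fun i _ => ?_
    rw [Finset.mul_sum]
    refine Finset.sum_congr rfl fun j _ => ?_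
    rw [one_mul]
    unfold T1
    ring
  rw [e1]
  rw [e0] at h01
  have := Real.pi_pos
  positivity

end Pool.Agent.FTN
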