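import Pool.Agent.FTN.Stmts

/-! Directions at a pole of the sphere. -/

open Real

namespace Pool.Agent.FTN

open Pool.Agent.FTA (TM Alg tmA slA SL Side Core PR Cmp Tr sn cn De kk T1 tt gram reA prA Compat InB sg PSDK scR acR)

namespace AZN_

/-- coordinates of the projection to the orthogonal complement of `z` -/
lemma proj (n : ℕ) (z : En (n + 2)) (hz : ‖z‖ = 1) : ∃ g : En (n + 2) → En (n + 1), ∀ x y,
    inner ℝ (g x) (g y) = inner ℝ x y - inner ℝ z x * inner ℝ z y := by
  have hz0 : z ≠ 0 := by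
    intro h; rw [h] at hz; simp at hz
  have : Fact (Module.finrank ℝ (En (n + 2)) = (n + 1) + 1) := ⟨by simp⟩
  have hfr : Module.finrank ℝ (ℝ ∙ z)ᗮ = n + 1 := Submodule.finrank_orthogonal_span_singleton hz0
  let b : OrthonormalBasis (Fin (n + 1)) ℝ (ℝ ∙ z)ᗮ := (stdOrthonormalBasis ℝ (ℝ ∙ z)ᗮ).reindex (finCongr hfr)
  have hzz : inner ℝ z z = 1 := by
    rw [real_inner_self_eq_norm_sq, hz]; norm_num
  have hp : ∀ x : En (n + 2), x - inner ℝ z x • z ∈ (ℝ ∙ z)ᗮ := by
    intro x
    rw [Submodule.mem_orthogonal_singleton_iff_inner_right, inner_sub_right, inner_smul_right, hzz]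
    ring
  refine ⟨fun x => b.repr ⟨_, hp x⟩, fun x y => ?_⟩
  rw [LinearIsometryEquiv.inner_map_map, Submodule.coe_inner]
  show inner ℝ (x - inner ℝ z x • z) (y - inner ℝ z y • z) = _
  rw [inner_sub_left, inner_sub_right, inner_sub_right, inner_smul_left, inner_smul_right, inner_smul_left,
      inner_smul_right, hzz, real_inner_comm x z]
  simp
  ring

lemma sn_ang {n : ℕ} (x y : En n) : sn (ang x y) = √(1 - (inner ℝ x y) ^ 2) := by
  unfold sn ang
  have : π * (2 / π * arccos |inner ℝ x y|) / 2 = arccos |inner ℝ x y| := by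
    field_simp
  rw [this, Real.sin_arccos, sq_abs]

lemma sgp_sq (r : ℝ) : sgp r * sgp r = 1 := by
  unfold sgp; split_ifs <;> norm_num

lemma sgp_abs (r : ℝ) : |sgp r| = 1 := by
  unfold sgp; split_ifs <;> norm_num

lemma sgp_mul (r : ℝ) : sgp r * r = |r| := by
  unfold sgp; split_ifs with h
  · rw [abs_of_nonneg h]; ring
  · rw [abs_of_neg (lt_of_not_ge h)]; ring

end AZN_

open AZN_

theorem azn_proof : Stmt_AZN := by
  intro n z hz
  obtain ⟨g, hg⟩ := proj n z hz
  have hle : ∀ x : En (n + 2), ‖x‖ = 1 → |inner ℝ z x| ≤ 1 := by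
    intro x hx
    have := abs_real_inner_le_norm z x
    rw [hz, hx] at this; linarith
  have hnorm : ∀ x : En (n + 2), ‖x‖ = 1 → ‖g x‖ = sn (ang z x) := by
    intro x hx
    rw [sn_ang]
    have h1 : inner ℝ x x = 1 := by rw [real_inner_self_eq_norm_sq, hx]; norm_num
    have h2 := hg x x
    rw [real_inner_self_eq_norm_sq, h1] at h2
    rw [show 1 - (inner ℝ z x) ^ 2 = ‖g x‖ ^ 2 by rw [h2]; ring, Real.sqrt_sq (norm_nonneg _)]
  let e0 : En (n + 1) := EuclideanSpace.single 0 1
  have he0 : ‖e0‖ = 1 := by simp [e0]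
  refine ⟨fun x => if ‖g x‖ = 0 then e0 else (sgp (inner ℝ z x) / ‖g x‖) • g x, fun x hx => ?_, fun x y hx hy hax hay => ?_⟩
  · show ‖if ‖g x‖ = 0 then e0 else (sgp (inner ℝ z x) / ‖g x‖) • g x‖ = 1
    split_ifs with h
    · exact he0
    · rw [norm_smul, Real.norm_eq_abs, abs_div, sgp_abs, abs_norm]
      field_simp
  · have hne : ∀ x : En (n + 2), ‖x‖ = 1 → 0 < ang z x → ‖g x‖ ≠ 0 := by
      intro x hx ha h0
      rw [hnorm x hx, sn_ang] at h0
      have h1 : 1 - (inner ℝ z x) ^ 2 ≤ 0 := Real.sqrt_eq_zero'.1 h0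
      have h2 : |inner ℝ z x| = 1 := by
        apply le_antisymm (hle x hx)
        by_contra hc
        push Not at hc
        have := sq_abs (inner ℝ z x)
        nlinarith [abs_nonneg (inner ℝ z x)]
      unfold ang at ha
      rw [h2] at ha
      simp at ha
    have hx0 := hne x hx hax
    have hy0 := hne y hy hay
    simp only [if_neg hx0, if_neg hy0]
    rw [inner_smul_left, inner_smul_right, hg x y]
    unfold tz
    rw [← hnorm x hx, ← hnorm y hy, ← sgp_mul (inner ℝ z x), ← sgp_mul (inner ℝ z y)]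
    simp only [conj_trivial]
    field_simp

end Pool.Agent.FTN
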