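import Pool.Agent.FTN.TRC
import Pool.Agent.FTA.PT

/-! The circle. -/

open Real

namespace Pool.Agent.FTN

open Pool.Agent.FTA (TM Alg tmA slA SL Side Core PR Cmp Tr sn cn De kk T1 T2 tt gram reA prA Compat InB sg PSDK scR acR)

namespace BASE_

lemma T2_eq (t : ℝ) (ht : |t| ≤ 1) : T2 t = 2 * T1 |t| - 1 := by
  have hp := Real.pi_pos
  set θ := Real.arccos |t| with hθ
  have h0 : 0 ≤ θ := Real.arccos_nonneg _
  have h1 : θ ≤ π / 2 := Real.arccos_le_pi_div_two.2 (abs_nonneg _)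
  have hc : Real.cos θ = |t| := Real.cos_arccos (by linarith [abs_nonneg t]) ht
  have e : 2 * t ^ 2 - 1 = Real.sin (π / 2 - 2 * θ) := by
    rw [Real.sin_pi_div_two_sub, Real.cos_two_mul, hc, sq_abs]
  unfold T2 T1
  rw [e, Real.arcsin_sin (by linarith) (by linarith), Real.arcsin_eq_pi_div_two_sub_arccos, ← hθ]
  field_simp
  ring

lemma angle (x : En 2) (hx : ‖x‖ = 1) : ∃ φ : ℝ, x 0 = Real.cos φ ∧ x 1 = Real.sin φ := by
  have h1 : x 0 * x 0 + x 1 * x 1 = 1 := by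
    have := TRC_.sum_one x hx
    rwa [Fin.sum_univ_two] at this
  let u : ℂ := ⟨x 0, x 1⟩
  have hu : ‖u‖ = 1 := by
    have : ‖u‖ ^ 2 = 1 := by
      rw [← Complex.normSq_eq_norm_sq, Complex.normSq_apply]
      exact h1
    nlinarith [norm_nonneg u]
  refine ⟨Complex.arg u, ?_, ?_⟩
  · have := Complex.norm_mul_cos_arg u
    rw [hu, one_mul] at this
    exact this.symm
  · have := Complex.norm_mul_sin_arg u
    rw [hu, one_mul] at this
    exact this.symm

end BASE_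

open BASE_

theorem base_proof : Stmt_BASE := by
  intro N x w hx hw
  choose φ hc hs using fun i => angle (x i) (hx i)
  have hin : ∀ i j, (inner ℝ (x i) (x j) : ℝ) = Real.cos (φ i - φ j) := by
    intro i j
    rw [TRC_.inner_sum, Fin.sum_univ_two, hc, hc, hs, hs, Real.cos_sub]
  have h := Pool.Agent.FTA.pt_proof.2.2 N φ w
  have e : ∑ i, ∑ j, w i * w j * T1 |inner ℝ (x i) (x j)| =
      1 / 2 * (∑ i, ∑ j, w i * w j * T2 (Real.cos (φ i - φ j))) + 1 / 2 * (∑ i, w i) ^ 2 := by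
    rw [sq, Finset.sum_mul_sum, Finset.mul_sum, Finset.mul_sum, ← Finset.sum_add_distrib]
    refine Finset.sum_congr rfl fun i _ => ?_
    rw [Finset.mul_sum, Finset.mul_sum, ← Finset.sum_add_distrib]
    refine Finset.sum_congr rfl fun j _ => ?_
    rw [hin, T2_eq _ (Real.abs_cos_le_one _)]
    ring
  rw [e]
  have : (∑ i, w i) ^ 2 / ((2 : ℕ) : ℝ) = 1 / 2 * (∑ i, w i) ^ 2 := by push_cast; ring
  rw [this]
  have h' : 0 ≤ ∑ i, ∑ j, w i * w j * T2 (Real.cos (φ i - φ j)) := h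
  linarith

end Pool.Agent.FTN
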