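import Pool.Agent.FTN.CORE
import Pool.Agent.FTN.ID

set_option autoImplicit false

/-! The closed form of chart A. -/

open Real

namespace Pool.Agent.FTN

open Pool.Agent.FTA (TM Alg tmA slA SL Side Core PR Cmp Tr sn cn De kk T1 tt gram reA prA Compat InB sg PSDK scR acR asR dy cl cl8 cl4 pv)

noncomputable section

variable {P : Par}

namespace CA_

lemma mul_eq (x y : ℝ) : reA.mul x y = x * y := rfl
lemma add_eq (x y : ℝ) : reA.add x y = x + y := rfl
lemma sub_eq (x y : ℝ) : reA.sub x y = x - y := rfl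
lemma inv_eq (x : ℝ) : reA.inv x = x⁻¹ := rfl
lemma one_eq : Alg.one reA = 1 := by
  change dy false 1 0 = 1
  simp [dy]
lemma op_eq (x : ℝ) : Alg.op reA x = 1 + x := by
  change Alg.one reA + x = 1 + x
  rw [one_eq]
lemma om_eq (x : ℝ) : Alg.om reA x = 1 - x := by
  change Alg.one reA - x = 1 - x
  rw [one_eq]
lemma dbl_eq (x : ℝ) : Alg.dbl reA x = 2 * x := by
  change ((2 : ℕ) : ℝ) / 2 ^ 0 * x = 2 * x
  norm_num

lemma cA_eq (a x t f1 f0 gm be : ℝ) (h1 : f1 = (1 + t * t)⁻¹) (h0 : f0 = t * t * f1)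
    (hgm : gm = a * (2 * (f0 * x))) (hbe : be = gm + a * (f1 - f0)) :
    ∃ K : Core ℝ, K = core reA P false a be gm f0 f1 t ∧ (cA reA P a x t).xz = K.xz ∧
      (cA reA P a x t).o = qP reA P false K gm (K.a.i * (2 * f0 - 2 * (f0 * x)))
        (K.a.i * (1 - 2 * (f0 * x))) ((1 - x) * K.kd) ∧
      (cA reA P a x t).e = qP reA P true K gm (K.a.i * (2 * f0 - 2 * (f0 * x)))
        (K.a.i * (1 - 2 * (f0 * x))) ((1 - x) * K.kd) := by
  refine ⟨_, rfl, ?_, ?_, ?_⟩
  all_goals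
    simp only [cA, mul_eq, op_eq, inv_eq, ← h1, ← h0, dbl_eq, ← hgm, sub_eq, add_eq, ← hbe, om_eq]

end CA_

open CA_ in
theorem ca_proof (h2 : Stmt_QP) : Stmt_CA := by
  intro P hP a x t be gm ha hx0 hx1 ht0 ht1 hgm hbe hab
  have hden : (0 : ℝ) < 1 + t * t := by positivity
  set f1 : ℝ := (1 + t * t)⁻¹ with hf1
  set f0 : ℝ := t * t * f1 with hf0
  have hf1pos : 0 < f1 := inv_pos.2 hden
  have hf0pos : 0 < f0 := mul_pos (mul_pos ht0 ht0) hf1pos
  have hsum : f0 + f1 = 1 := by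
    have h : (1 + t * t) * f1 = 1 := mul_inv_cancel₀ hden.ne'
    rw [hf0]
    linarith
  have htt : t * t ≤ 1 := by nlinarith
  have hle : f0 ≤ f1 := by
    rw [hf0]
    nlinarith
  have hgm' : gm = a * (2 * (f0 * x)) := by
    rw [hgm, hf0, hf1]
    field_simp
  have hbe' : be = gm + a * (f1 - f0) := by
    rw [hbe, hf0, hf1]
    field_simp
  obtain ⟨K, hK, hxz, ho, he⟩ := cA_eq a x t f1 f0 gm be hf1 hf0 hgm' hbe'
  have hf0x0 : 0 ≤ f0 * x := mul_nonneg hf0pos.le hx0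
  have hf0x1 : f0 * x ≤ f0 := by nlinarith
  have hgm0 : 0 ≤ gm := by
    rw [hgm']
    positivity
  have hgmbe : gm ≤ be := by
    rw [hbe']
    nlinarith
  have hgma : gm ≤ a := by
    rw [hgm']
    nlinarith
  obtain ⟨hgram, hCV⟩ := core_proof P hP false a be gm f0 f1 t ha hab hgm0 hgmbe hf0pos hle hsum ht0
    (by rw [hf0]; ring) (by
      rw [if_neg (by decide)]
      rw [hbe']
      ring)
  rw [← hK] at hCV
  have hsg : sg false = 1 := rfl
  rw [hsg] at hgram hCV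
  set D : ℝ := √(gram a (1 - be) (1 - gm) 1) with hD
  have hDpos : 0 < D := Real.sqrt_pos.2 hgram
  have hDsq : D ^ 2 = gram a (1 - be) (1 - gm) 1 := Real.sq_sqrt hgram.le
  have hai : K.a.i = a / sn a := by
    rw [hCV.1]
    rfl
  have hkd : D * K.kd = 2 * (a * f0) := hCV.2.2.2.2.2.2.2.2.2.2.2.2
  have hkab : kk a (1 - be) = a * (2 * f0 - 2 * (f0 * x)) := by
    have h : a + (1 - be) - 1 = a * (2 * f0 - 2 * (f0 * x)) := by
      rw [hbe', hgm', show f1 = 1 - f0 by linarith]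
      ring
    unfold kk
    rw [h]
    exact max_eq_left (mul_nonneg ha.le (by linarith))
  have hkac : kk a (1 - gm) = a * (1 - 2 * (f0 * x)) := by
    have h : a + (1 - gm) - 1 = a * (1 - 2 * (f0 * x)) := by
      rw [hgm']
      ring
    unfold kk
    rw [h]
    exact max_eq_left (mul_nonneg ha.le (by linarith))
  obtain ⟨q1, q2⟩ := h2 P hP K a (1 - be) (1 - gm) (a * f0) D (K.a.i * (2 * f0 - 2 * (f0 * x)))
    (K.a.i * (1 - 2 * (f0 * x))) ((1 - x) * K.kd) ha (by linarith) (by linarith) (by linarith)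
    (mul_pos ha hf0pos).le (by
      rw [hbe', show f1 = 1 - f0 by linarith]
      ring) hDsq hDpos hCV (by linarith) (by
      rw [hkab, hai]
      ring) (by
      rw [hkac, hai]
      ring) (by
      rw [hkab]
      linear_combination (1 - x) * hkd)
  rw [sub_sub_cancel, ← ho] at q1
  rw [sub_sub_cancel, ← he] at q2
  have hxz' : (cA reA P a x t).xz = tt a (1 - be) (1 - gm) 1 := by
    rw [hxz]
    exact hCV.2.2.2.2.2.2.2.2.1
  refine ⟨D, hDpos, hxz', fun h => q1 (hxz' ▸ h), fun h => q2 (hxz' ▸ h)⟩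

end

end Pool.Agent.FTN
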