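import Pool.Agent.FTN.CORE
import Pool.Agent.FTN.ID

open Real

namespace Pool.Agent.FTN

open Pool.Agent.FTA (TM Alg tmA slA SL Side Core PR Cmp Tr sn cn De kk T1 tt gram reA prA Compat InB sg PSDK scR acR asR dy cl cl8 cl4 pv)

namespace CB_

noncomputable section

variable (P : Par)

lemma dy0 : reA.cst false 0 0 = 0 := by
  show dy false 0 0 = 0
  unfold dy
  simp

lemma one_eq : Alg.one reA = 1 := by
  show dy false 1 0 = 1
  unfold dy
  simp

lemma om_eq (x : ℝ) : Alg.om reA x = 1 - x := by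
  show Alg.one reA - x = 1 - x
  rw [one_eq]

lemma op_eq (x : ℝ) : Alg.op reA x = 1 + x := by
  show Alg.one reA + x = 1 + x
  rw [one_eq]

lemma dbl_eq (x : ℝ) : Alg.dbl reA x = 2 * x := by
  show ((2 : ℕ) : ℝ) / 2 ^ 0 * x = 2 * x
  norm_num

lemma mul_eq (x y : ℝ) : reA.mul x y = x * y := rfl
lemma add_eq (x y : ℝ) : reA.add x y = x + y := rfl
lemma sub_eq (x y : ℝ) : reA.sub x y = x - y := rfl
lemma inv_eq (x : ℝ) : reA.inv x = x⁻¹ := rfl

def K (a gm t : ℝ) : Core ℝ :=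
  core reA P false a (gm + a * ((1 + t * t)⁻¹ - t * t * (1 + t * t)⁻¹)) gm (t * t * (1 + t * t)⁻¹) (1 + t * t)⁻¹ t

lemma cB_o (a x t gm : ℝ)
    (hg : gm = a * (2 * (t * t * (1 + t * t)⁻¹) + ((1 + t * t)⁻¹ - t * t * (1 + t * t)⁻¹) * x)) :
    (cB reA P a x t).o = qP reA P false (K P a gm t) gm 0
      ((K P a gm t).a.i * (((1 + t * t)⁻¹ - t * t * (1 + t * t)⁻¹) * (1 - x))) 0 ∧
    (cB reA P a x t).e = qP reA P true (K P a gm t) gm 0
      ((K P a gm t).a.i * (((1 + t * t)⁻¹ - t * t * (1 + t * t)⁻¹) * (1 - x))) 0 ∧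
    (cB reA P a x t).xz = (K P a gm t).xz := by
  subst hg
  unfold cB
  simp only [om_eq, op_eq, dbl_eq, mul_eq, add_eq, sub_eq, inv_eq, dy0, K]
  exact ⟨trivial, trivial, trivial⟩

end

end CB_

open CB_ in
theorem cb_proof (h2 : Stmt_QP) : Stmt_CB := by
  intro P hP a x t be gm ha hx hx1 ht ht1 hgm hbe hab
  have ht2 : 0 < 1 + t ^ 2 := by positivity
  have ht3 : t ^ 2 ≤ 1 := by nlinarith
  have e1 : (1 + t * t)⁻¹ - t * t * (1 + t * t)⁻¹ = (1 - t ^ 2) / (1 + t ^ 2) := by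
    rw [← sq]
    field_simp
  have e0 : 2 * (t * t * (1 + t * t)⁻¹) = 2 * t ^ 2 / (1 + t ^ 2) := by
    rw [← sq]
    field_simp
  set xi := (1 - t ^ 2) / (1 + t ^ 2) with hxi
  set f0 := t * t * (1 + t * t)⁻¹ with hf0
  set f1 := (1 + t * t)⁻¹ with hf1
  have hxi0 : 0 ≤ xi := div_nonneg (by linarith) ht2.le
  have hf1p : 0 < f1 := by rw [hf1, ← sq]; exact inv_pos.2 ht2
  have hf0p : 0 < f0 := by rw [hf0]; positivity
  have hsum : f0 + f1 = 1 := by
    rw [hf0, hf1, ← sq]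
    field_simp
    ring
  have h2f0 : 2 * f0 + xi = 1 := by rw [← e1]; linarith
  have hgm' : gm = a * (2 * f0 + xi * x) := by rw [hgm, e0]
  obtain ⟨ho, he, hxz⟩ := cB_o P a x t gm (by rw [← hf0, ← hf1, e1]; exact hgm')
  rw [← hf0, ← hf1, e1] at ho he
  have hxx : 0 ≤ xi * x := mul_nonneg hxi0 hx
  have hxx1 : xi * x ≤ xi := by nlinarith
  have hgm0 : 0 ≤ gm := by rw [hgm']; positivity
  have hgma : gm ≤ a := by
    rw [hgm']
    have : 2 * f0 + xi * x ≤ 1 := by linarith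
    nlinarith
  have hbea : a ≤ be := by
    rw [hbe, hgm']
    have : 1 ≤ 2 * f0 + xi * x + xi := by linarith
    nlinarith
  have haxi : 0 ≤ a * xi := mul_nonneg ha.le hxi0
  set b := 1 - be with hb
  set c := 1 - gm with hc
  have hKdef : K P a gm t = core reA P false a be gm f0 f1 t := by
    unfold K
    rw [← hf0, ← hf1, e1, ← hbe]
  obtain ⟨hg, hcv⟩ := core_proof P hP false a be gm f0 f1 t ha hab hgm0 (by rw [hbe]; linarith) hf0p (by linarith) hsum ht
    (by rw [hf0, hf1]; ring)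
    (by
      simp only [Bool.false_eq_true, if_false]
      rw [hbe]
      have : f1 - f0 = xi := by linarith
      rw [this]
      ring)
  rw [← hKdef] at hcv
  have hsg : sg false = 1 := by simp [sg]
  rw [hsg] at hg hcv
  set D := √(gram a b c 1) with hD
  have hD0 : 0 < D := Real.sqrt_pos.2 hg
  have hD2 : D ^ 2 = gram a b c 1 := Real.sq_sqrt hg.le
  have hKi : (K P a gm t).a.i = a / sn a := by
    rw [hcv.1]
    rfl
  have hKxz : (K P a gm t).xz = tt a b c 1 := hcv.2.2.2.2.2.2.2.2.1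
  have hc1 : 1 - c = gm := by rw [hc]; ring
  have hkb : kk a b = 0 := by
    unfold kk
    rw [max_eq_right (by rw [hb]; linarith)]
  have hkc : kk a c = a * (xi * (1 - x)) := by
    unfold kk
    rw [max_eq_left (by rw [hc]; linarith), hc, hgm']
    linear_combination (-a) * h2f0
  have hq := h2 P hP (K P a gm t) a b c (a * f0) D 0 ((K P a gm t).a.i * (xi * (1 - x))) 0 ha hab
    (by rw [hb, hc, hbe]; linarith) (by rw [hc]; linarith) (mul_nonneg ha.le hf0p.le)
    (by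
      rw [hb, hc, hbe]
      linear_combination a * h2f0) hD2 hD0 hcv (by rw [hb, hc]; linarith)
    (by rw [hkb]; simp) (by rw [hKi, hkc]; ring) (by rw [hkb]; simp)
  rw [hc1] at hq
  refine ⟨D, hD0, ?_, ?_, ?_⟩
  · rw [hxz, hKxz]
  · intro h
    rw [hxz, hKxz] at h
    rw [hq.1 h, ho]
  · intro h
    rw [hxz, hKxz] at h
    rw [hq.2 h, he]

end Pool.Agent.FTN
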