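import Pool.Agent.FTN.CORE
import Pool.Agent.FTN.ID

open Real

namespace Pool.Agent.FTN

open Pool.Agent.FTA (TM Alg tmA slA SL Side Core PR Cmp Tr sn cn De kk T1 tt gram reA prA Compat InB sg PSDK scR acR asR dy cl cl8 cl4 pv)

namespace CEN_

noncomputable section

variable {P : Par}

lemma one_eq : Alg.one reA = 1 := by
  show dy false 1 0 = 1
  unfold dy
  simp

lemma om_eq (x : ℝ) : Alg.om reA x = 1 - x := by
  show Alg.one reA - x = 1 - x
  rw [one_eq]

lemma op_eq (x : ℝ) : Alg.op reA x = 1 + x := by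
  show Alg.one reA + x = 1 + x
  rw [one_eq]

lemma half_eq (x : ℝ) : reA.smul 1 1 x = x / 2 := by
  show ((1 : ℕ) : ℝ) / 2 ^ 1 * x = x / 2
  norm_num
  ring

lemma mul_eq (x y : ℝ) : reA.mul x y = x * y := rfl
lemma add_eq (x y : ℝ) : reA.add x y = x + y := rfl
lemma sub_eq (x y : ℝ) : reA.sub x y = x - y := rfl
lemma rsq_eq (x : ℝ) : reA.rsq x = (√x)⁻¹ := rfl

lemma ccore_eq (neg : Bool) (a xi be gm : ℝ) :
    ccore reA P neg a xi be gm =
      core reA P neg a be gm ((1 - xi) / 2) ((1 + xi) / 2) ((1 - xi) * (√((1 - xi) * (1 + xi)))⁻¹) := by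
  unfold ccore
  simp only [om_eq, op_eq, half_eq, mul_eq, rsq_eq]

lemma eN_eq (a xi x : ℝ) :
    eN reA P a xi x = qN reA P (ccore reA P true a xi (a * (xi - xi * x / 2)) (a * (xi * x / 2)))
      (a * (xi - xi * x / 2)) (a * (xi * x / 2))
      ((ccore reA P true a xi (a * (xi - xi * x / 2)) (a * (xi * x / 2))).a.i * (1 - (xi - xi * x / 2)))
      ((ccore reA P true a xi (a * (xi - xi * x / 2)) (a * (xi * x / 2))).a.i * (1 - xi * x / 2)) := by
  unfold eN
  simp only [om_eq, mul_eq, sub_eq, half_eq]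

end

end CEN_

open CEN_ in
theorem cen_proof (h2 : Stmt_QN) : Stmt_CEN := by
  intro P hP a xi x ha hxi hxi1 hx0 hx1 hab
  have hm : 0 < 1 - xi := by linarith
  have hp : 0 < 1 + xi := by linarith
  have hmp : 0 < (1 - xi) * (1 + xi) := mul_pos hm hp
  have hsq : 0 < √((1 - xi) * (1 + xi)) := Real.sqrt_pos.2 hmp
  have hxx : 0 ≤ xi * x := mul_nonneg hxi hx0
  have hxx1 : xi * x ≤ xi := by nlinarith
  set K := ccore reA P true a xi (a * (xi - xi * x / 2)) (a * (xi * x / 2)) with hK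
  set b := 1 - a * (xi - xi * x / 2) with hb
  set c := 1 - a * (xi * x / 2) with hc
  have hgm0 : 0 ≤ a * (xi * x / 2) := mul_nonneg ha.le (by linarith)
  have hgb : a * (xi * x / 2) ≤ a * (xi - xi * x / 2) := mul_le_mul_of_nonneg_left (by linarith) ha.le
  obtain ⟨hg, hcv⟩ := core_proof P hP true a (a * (xi - xi * x / 2)) (a * (xi * x / 2)) ((1 - xi) / 2) ((1 + xi) / 2)
    ((1 - xi) * (√((1 - xi) * (1 + xi)))⁻¹) ha hab hgm0 hgb (by linarith) (by linarith) (by ring)
    (mul_pos hm (inv_pos.2 hsq))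
    (by
      rw [mul_pow, inv_pow, Real.sq_sqrt hmp.le]
      field_simp)
    (by
      simp only [if_true]
      ring)
  rw [← ccore_eq, ← hK] at hcv
  have hsg : sg true = -1 := by simp [sg]
  rw [hsg] at hg hcv
  set D := √(gram a b c (-1)) with hD
  have hD0 : 0 < D := Real.sqrt_pos.2 hg
  have hD2 : D ^ 2 = gram a b c (-1) := Real.sq_sqrt hg.le
  have hKi : K.a.i = a / sn a := by
    rw [hcv.1]
    rfl
  have hb1 : 1 - b = a * (xi - xi * x / 2) := by rw [hb]; ring
  have hc1 : 1 - c = a * (xi * x / 2) := by rw [hc]; ring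
  have hkb : kk a b = a * (1 - (xi - xi * x / 2)) := by
    unfold kk
    rw [max_eq_left (by rw [hb]; nlinarith)]
    rw [hb]
    ring
  have hkc : kk a c = a * (1 - xi * x / 2) := by
    unfold kk
    rw [max_eq_left (by rw [hc]; nlinarith)]
    rw [hc]
    ring
  have hq := h2 P hP K a b c (a * ((1 - xi) / 2)) D
    (K.a.i * (1 - (xi - xi * x / 2))) (K.a.i * (1 - xi * x / 2)) ha hab
    (by rw [hb, hc]; linarith) (by rw [hc]; linarith)
    (mul_nonneg ha.le (by linarith)) (by rw [hb, hc]; ring) hD2 hD0 hcv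
    (by rw [hKi, hkb]; ring) (by rw [hKi, hkc]; ring)
  rw [hb1, hc1] at hq
  exact ⟨D, hD0, by rw [hq, eN_eq]⟩

end Pool.Agent.FTN
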