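import Pool.Agent.FTN.CORE
import Pool.Agent.FTN.ID

open Real

namespace Pool.Agent.FTN

open Pool.Agent.FTA (TM Alg tmA slA SL Side Core PR Cmp Tr sn cn De kk T1 tt gram reA prA Compat InB sg PSDK scR acR asR dy cl cl8 cl4 pv)

namespace CEP_

noncomputable section

variable {P : Par}

lemma dy0 : reA.cst false 0 0 = 0 := by
  show dy false 0 0 = 0
  unfold dy
  simp

lemma one_eq : Alg.one reA = 1 := by
  show dy false 1 0 = 1
  unfold dy
  simp

lemma om_eq (x : ℝ) : Alg.om reA x = 1 - x := by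
  show Alg.one reA - x = 1 - x
  rw [one_eq]

lemma op_eq (x : ℝ) : Alg.op reA x = 1 + x := by
  show Alg.one reA + x = 1 + x
  rw [one_eq]

lemma half_eq (x : ℝ) : reA.smul 1 1 x = x / 2 := by
  show ((1 : ℕ) : ℝ) / 2 ^ 1 * x = x / 2
  norm_num
  ring

lemma mul_eq (x y : ℝ) : reA.mul x y = x * y := rfl
lemma add_eq (x y : ℝ) : reA.add x y = x + y := rfl
lemma rsq_eq (x : ℝ) : reA.rsq x = (√x)⁻¹ := rfl

lemma ccore_eq (neg : Bool) (a xi be gm : ℝ) :
    ccore reA P neg a xi be gm =
      core reA P neg a be gm ((1 - xi) / 2) ((1 + xi) / 2) ((1 - xi) * (√((1 - xi) * (1 + xi)))⁻¹) := by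
  unfold ccore
  simp only [om_eq, op_eq, half_eq, mul_eq, rsq_eq]

lemma eP0 (ev : Bool) (a xi gm : ℝ) :
    eP reA P 0 ev a xi gm = qP reA P ev (ccore reA P false a xi (gm + a * xi) gm) gm
      ((ccore reA P false a xi (gm + a * xi) gm).a.i * (1 - xi)) (ccore reA P false a xi (gm + a * xi) gm).a.i
      (ccore reA P false a xi (gm + a * xi) gm).kd := by
  unfold eP
  simp only [om_eq, mul_eq, add_eq]

lemma eP1 (ev : Bool) (a xi gm : ℝ) :
    eP reA P 1 ev a xi gm = qP reA P ev (ccore reA P false a xi (gm + a * xi) gm) gm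
      0 ((ccore reA P false a xi (gm + a * xi) gm).a.i * xi) 0 := by
  unfold eP
  simp only [dy0, mul_eq, add_eq]

lemma eP2 (ev : Bool) (a xi gm : ℝ) :
    eP reA P 2 ev a xi gm = qP reA P ev (ccore reA P false a xi (gm + a * xi) gm) gm 0 0 0 := by
  unfold eP
  simp only [dy0, mul_eq, add_eq]

end

end CEP_

open CEP_ in
theorem cep_proof (h2 : Stmt_QP) (h3 : Stmt_AFF) : Stmt_CEP := by
  intro P hP a xi gm ha hxi hxi1 hgm hab hbc
  have hax : 0 ≤ a * xi := mul_nonneg ha.le hxi
  have hm : 0 < 1 - xi := by linarith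
  have hp : 0 < 1 + xi := by linarith
  have hmp : 0 < (1 - xi) * (1 + xi) := mul_pos hm hp
  have hsq : 0 < √((1 - xi) * (1 + xi)) := Real.sqrt_pos.2 hmp
  set K := ccore reA P false a xi (gm + a * xi) gm with hK
  set b := 1 - (gm + a * xi) with hb
  set c := 1 - gm with hc
  obtain ⟨hg, hcv⟩ := core_proof P hP false a (gm + a * xi) gm ((1 - xi) / 2) ((1 + xi) / 2)
    ((1 - xi) * (√((1 - xi) * (1 + xi)))⁻¹) ha hab hgm (by linarith) (by linarith) (by linarith) (by ring)
    (mul_pos hm (inv_pos.2 hsq))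
    (by
      rw [mul_pow, inv_pow, Real.sq_sqrt hmp.le]
      field_simp)
    (by
      simp only [Bool.false_eq_true, if_false]
      ring)
  rw [← ccore_eq, ← hK] at hcv
  have hsg : sg false = 1 := by simp [sg]
  rw [hsg] at hg hcv
  set D := √(gram a b c 1) with hD
  have hD0 : 0 < D := Real.sqrt_pos.2 hg
  have hD2 : D ^ 2 = gram a b c 1 := Real.sq_sqrt hg.le
  have hKi : K.a.i = a / sn a := by
    rw [hcv.1]
    rfl
  have hKd : D * K.kd = 2 * (a * ((1 - xi) / 2)) := hcv.2.2.2.2.2.2.2.2.2.2.2.2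
  have hc1 : 1 - c = gm := by rw [hc]; ring
  -- the general step
  have step : ∀ l0 l1 l2 : ℝ, 0 ≤ l0 → 0 ≤ l1 → 0 ≤ l2 → l0 + l1 + l2 = 1 →
      l0 * (a * (1 - xi)) = kk a b → l0 * a + l1 * (a * xi) = kk a c →
      ∃ D l0 l1 l2 : ℝ, ∃ ev : Bool, 0 < D ∧ 0 ≤ l0 ∧ 0 ≤ l1 ∧ 0 ≤ l2 ∧ l0 + l1 + l2 = 1 ∧
        Gf P a b c 1 = D * (l0 * eP reA P 0 ev a xi gm + l1 * eP reA P 1 ev a xi gm + l2 * eP reA P 2 ev a xi gm) := by
    intro l0 l1 l2 hl0 hl1 hl2 hl hz hx
    have hq := h2 P hP K a b c (a * ((1 - xi) / 2)) D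
      (l0 * (K.a.i * (1 - xi)) + l1 * 0 + l2 * 0) (l0 * K.a.i + l1 * (K.a.i * xi) + l2 * 0)
      (l0 * K.kd + l1 * 0 + l2 * 0) ha hab (by rw [hb, hc]; linarith) (by rw [hc]; linarith)
      (mul_nonneg ha.le (by linarith)) (by rw [hb, hc]; ring) hD2 hD0 hcv (by rw [hb, hc]; linarith)
      (by rw [hKi, ← hz]; ring) (by rw [hKi, ← hx]; ring)
      (by
        rw [← hz]
        have : D * (l0 * K.kd + l1 * 0 + l2 * 0) = l0 * (D * K.kd) := by ring
        rw [this, hKd]
        ring)
    rw [hc1] at hq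
    have haff : ∀ ev : Bool, qP reA P ev K gm
        (l0 * (K.a.i * (1 - xi)) + l1 * 0 + l2 * 0) (l0 * K.a.i + l1 * (K.a.i * xi) + l2 * 0)
        (l0 * K.kd + l1 * 0 + l2 * 0) =
        l0 * eP reA P 0 ev a xi gm + l1 * eP reA P 1 ev a xi gm + l2 * eP reA P 2 ev a xi gm := by
      intro ev
      rw [h3 P ev K gm l0 l1 l2 _ _ _ _ _ _ _ _ _ hl, eP0, eP1, eP2]
    rcases le_total (tt a b c 1) 0 with ht | ht
    · exact ⟨D, l0, l1, l2, false, hD0, hl0, hl1, hl2, hl, by rw [hq.1 ht, haff]⟩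
    · exact ⟨D, l0, l1, l2, true, hD0, hl0, hl1, hl2, hl, by rw [hq.2 ht, haff]⟩
  rcases le_total gm (a * (1 - xi)) with hA | hA
  · -- all kinks active
    have h4 : 0 < a * (1 - xi) := mul_pos ha hm
    apply step (1 - gm / (a * (1 - xi))) (gm / (a * (1 - xi))) 0
    · have : gm / (a * (1 - xi)) ≤ 1 := (div_le_one h4).2 hA
      linarith
    · exact div_nonneg hgm h4.le
    · exact le_refl _
    · ring
    · unfold kk
      rw [max_eq_left (by rw [hb]; nlinarith)]
      rw [hb]
      field_simp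
      ring
    · unfold kk
      rw [max_eq_left (by rw [hc]; nlinarith)]
      rw [hc]
      field_simp
      ring
  · rcases le_total gm a with hB | hB
    · by_cases hx0 : xi = 0
      · -- then gm = a
        have hga : gm = a := by
          rw [hx0] at hA
          linarith
        apply step 0 0 1 (le_refl _) (le_refl _) zero_le_one (by norm_num)
        · unfold kk
          rw [max_eq_right (by rw [hb, hx0, hga]; linarith)]
          ring
        · unfold kk
          rw [max_eq_right (by rw [hc, hga]; linarith)]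
          ring
      · have hxp : 0 < xi := lt_of_le_of_ne hxi (Ne.symm hx0)
        have h4 : 0 < a * xi := mul_pos ha hxp
        apply step 0 ((a - gm) / (a * xi)) (1 - (a - gm) / (a * xi)) (le_refl _)
        · exact div_nonneg (by linarith) h4.le
        · have : (a - gm) / (a * xi) ≤ 1 := (div_le_one h4).2 (by nlinarith)
          linarith
        · ring
        · unfold kk
          rw [max_eq_right (by rw [hb]; nlinarith)]
          ring
        · unfold kk
          rw [max_eq_left (by rw [hc]; linarith)]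
          rw [hc]
          field_simp
          ring
    · apply step 0 0 1 (le_refl _) (le_refl _) zero_le_one (by norm_num)
      · unfold kk
        rw [max_eq_right (by rw [hb]; linarith)]
        ring
      · unfold kk
        rw [max_eq_right (by rw [hc]; linarith)]
        ring

end Pool.Agent.FTN
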