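import Pool.Agent.FTN.CORE
import Pool.Agent.FTN.ID
import Pool.Agent.FTA.PRIM

open Real

namespace Pool.Agent.FTN

open Pool.Agent.FTA (TM Alg tmA slA SL Side Core PR Cmp Tr sn cn De kk T1 tt gram reA prA Compat InB sg PSDK scR acR asR dy cl cl8 cl4 pv)

namespace REF_

variable {P : Par}

theorem radd (x y : ℝ) : reA.add x y = x + y := rfl
theorem rsub (x y : ℝ) : reA.sub x y = x - y := rfl
theorem rmul (x y : ℝ) : reA.mul x y = x * y := rfl
theorem rsmul (p q : ℕ) (x : ℝ) : reA.smul p q x = (p : ℝ) / 2 ^ q * x := rfl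
theorem rinv (x : ℝ) : reA.inv x = x⁻¹ := rfl
theorem rrsq (x : ℝ) : reA.rsq x = (√x)⁻¹ := rfl
theorem rcst (s : Bool) (p q : ℕ) : reA.cst s p q = dy s p q := rfl

theorem dy00 : dy false 0 0 = 0 := by simp [dy]
theorem dy10 : dy false 1 0 = 1 := by simp [dy]
theorem rone : Alg.one reA = 1 := by
  show reA.cst false 1 0 = 1
  rw [rcst, dy10]
theorem rom (x : ℝ) : Alg.om reA x = 1 - x := by
  show reA.sub (Alg.one reA) x = 1 - x
  rw [rsub, rone]
theorem rop (x : ℝ) : Alg.op reA x = 1 + x := by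
  show reA.add (Alg.one reA) x = 1 + x
  rw [radd, rone]
theorem rdbl (x : ℝ) : Alg.dbl reA x = 2 * x := by
  show reA.smul 2 0 x = 2 * x
  rw [rsmul]; norm_num

theorem sn1 : sn 1 = 1 := by
  unfold sn
  rw [show π * 1 / 2 = π / 2 by ring, Real.sin_pi_div_two]
theorem cn1 : cn 1 = 0 := by
  unfold cn
  rw [show π * 1 / 2 = π / 2 by ring, Real.cos_pi_div_two]

theorem sncn (a : ℝ) : sn a ^ 2 + cn a ^ 2 = 1 := by
  unfold sn cn; exact Real.sin_sq_add_cos_sq _

theorem sn_pos (a : ℝ) (h0 : 0 < a) (h1 : a < 1) : 0 < sn a := by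
  unfold sn
  apply Real.sin_pos_of_pos_of_lt_pi
  · positivity
  · nlinarith [Real.pi_pos]

theorem De1 : De 1 = 0 := by unfold De; rw [sn1]; ring

theorem T1cn (a t : ℝ) (h0 : 0 < a) (h1 : a < 1) (ht : t ^ 2 = cn a ^ 2) : |T1 t| = 1 - a := by
  have hpi := Real.pi_pos
  have hc : 0 ≤ cn a := by
    unfold cn
    apply Real.cos_nonneg_of_neg_pi_div_two_le_of_le
    · have : 0 < π * a / 2 := by positivity
      linarith
    · nlinarith
  have e0 : T1 (cn a) = 1 - a := by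
    unfold T1
    have e : cn a = Real.sin (π / 2 - π * a / 2) := by
      rw [Real.sin_pi_div_two_sub]; rfl
    rw [e, Real.arcsin_sin]
    · field_simp
    · nlinarith
    · nlinarith
  have e1 : |t| = cn a := by
    rw [← abs_of_nonneg hc]
    exact (sq_eq_sq_iff_abs_eq_abs t (cn a)).1 ht
  rcases le_total 0 t with h | h
  · rw [abs_of_nonneg h] at e1
    rw [e1, e0]
    exact abs_of_nonneg (by linarith)
  · rw [abs_of_nonpos h] at e1
    have : t = - cn a := by linarith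
    rw [this]
    unfold T1 at e0 ⊢
    rw [Real.arcsin_neg, mul_neg, abs_neg, e0]
    exact abs_of_nonneg (by linarith)

theorem rels (hP : Good P) : (sig P)⁻¹ * sig P = 1 ∧ (1 - sig P)⁻¹ * (1 - sig P) = 1 ∧
    (1 + eps P) * (1 - 1 / (P.n : ℝ)) = 1 ∧ (1 + eps P) * (1 / (P.n : ℝ)) = eps P ∧
    eps P * (kap P - bet P - k3 P) = -(sig P / 2) := by
  have hs := CONS_.sig_pos P hP
  have hs1 := CONS_.sig_lt P hP
  have hn := CONS_.nR P hP
  have h2 : (P.n : ℝ) - 1 ≠ 0 := by linarith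
  have h3 : (P.n : ℝ) ≠ 0 := by linarith
  refine ⟨inv_mul_cancel₀ (by linarith), inv_mul_cancel₀ (by linarith), CONS_.relc P hP, ?_, ?_⟩
  · unfold eps; field_simp; ring
  · unfold eps bet kap; field_simp; ring

theorem Fa10 (hP : Good P) (a : ℝ) : F P a 1 0 = -(1 / (P.n : ℝ)) - sig P / 2 * De a := by
  have hT1 : T1 0 = 0 := by unfold T1; rw [Real.arcsin_zero]; ring
  obtain ⟨r1, r2, r3, r4, r5⟩ := rels hP
  unfold F
  rw [hT1, abs_zero]
  unfold p0 pB pE
  rw [De1]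
  generalize (1 - sig P)⁻¹ = u at *
  generalize (sig P)⁻¹ = v at *
  generalize (1 / (P.n : ℝ)) = w at *
  generalize eps P = e at *
  generalize sig P = s at *
  generalize kap P = k' at *
  generalize bet P = b at *
  generalize k3 P = c at *
  linear_combination (-w) * r3 + (-w + a + k' * De a) * r4 - e * ((1 - s) * a + b * De a) * r2
    - e * (s * a + c * De a) * r1 + De a * r5 + w * r4

theorem F11 (hP : Good P) (a t : ℝ) (h0 : 0 < a) (h1 : a < 1) (ht : t ^ 2 = cn a ^ 2) :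
    F P 1 1 t = 1 - 1 / (P.n : ℝ) - a + sig P * De a := by
  have hW : Wf P 1 1 = 0 := by
    unfold Wf kk
    rw [show π * 1 = π by ring, Real.sin_pi]
    norm_num
  have hR : Rf P 1 1 = 0 := by
    unfold Rf kk
    rw [De1]
    norm_num
  obtain ⟨r1, r2, r3, r4, r5⟩ := rels hP
  unfold F
  rw [T1cn a t h0 h1 ht, hW, hR, ht]
  unfold p0 pB pE
  rw [De1]
  have := sncn a
  unfold De
  have h2 : cn a ^ 2 = 1 - sn a ^ 2 := by linarith
  rw [h2]
  generalize (1 - sig P)⁻¹ = u at *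
  generalize (sig P)⁻¹ = v at *
  generalize (1 / (P.n : ℝ)) = w at *
  generalize eps P = e at *
  generalize sig P = s at *
  linear_combination (w + 1) * r4 + (1 - s) * (1 - a - e) * r2 + s * (1 - sn a ^ 2 - e) * r1

theorem Gf0 (hP : Good P) (a s : ℝ) (h0 : 0 < a) (h1 : a < 1) (hs : s ^ 2 = 1) : Gf P a 1 1 s = 0 := by
  have e1 : tt a 1 1 s = 0 := by unfold tt; rw [cn1]; simp
  have e2 : tt 1 1 a s = s * cn a := by unfold tt; rw [cn1, sn1]; ring
  unfold Gf
  rw [e1, e2, Fa10 hP, F11 hP a (s * cn a) h0 h1 (by rw [mul_pow, hs, one_mul])]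
  ring

theorem gram1 (a s : ℝ) (h0 : 0 < a) (h1 : a < 1) : gram a 1 1 s = sn a ^ 2 := by
  unfold gram
  rw [cn1]
  have := sncn a
  linarith [this]

theorem sqg (a s : ℝ) (h0 : 0 < a) (h1 : a < 1) : √(gram a 1 1 s) = sn a := by
  rw [gram1 a s h0 h1]
  exact Real.sqrt_sq (sn_pos a h0 h1).le

theorem core1 (hP : Good P) (neg : Bool) (a : ℝ) (h0 : 0 < a) (h1 : a < 1) :
    CoreVal P (core reA P neg a 0 0 (1 / 2) (1 / 2) 1) neg a 1 1 (a / 2) (sn a) := by
  have := (core_proof P hP neg a 0 0 (1 / 2) (1 / 2) 1 h0 (by linarith) le_rfl le_rfl (by norm_num) le_rfl (by norm_num)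
    one_pos (by norm_num) (by cases neg <;> simp)).2
  rw [sub_zero, sqg a _ h0 h1] at this
  rw [show a * (1 / 2) = a / 2 by ring] at this
  exact this

theorem kk1 (a : ℝ) (h0 : 0 < a) : kk a 1 = a := by
  unfold kk
  rw [show a + 1 - 1 = a by ring]
  exact max_eq_left h0.le

theorem half1 : reA.smul 1 1 (1 : ℝ) = 1 / 2 := by rw [rsmul]; norm_num

theorem rsq11 : reA.rsq (1 : ℝ) = 1 := by rw [rrsq]; simp

theorem ccore1 (neg : Bool) (a be gm : ℝ) (hb : be = 0) (hg : gm = 0) :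
    ccore reA P neg a 0 be gm = core reA P neg a 0 0 (1 / 2) (1 / 2) 1 := by
  subst hb; subst hg
  unfold ccore
  simp only [rom, rop, rmul, sub_zero, add_zero, mul_one, one_mul, half1, rsq11]

theorem partN (hP : Good P) (h2 : Stmt_QN) (a x : ℝ) (ha : 0 < a) (ha1 : a < 1) :
    eN reA P a 0 x = 0 := by
  have K1 := core1 hP true a ha ha1
  have hsn := sn_pos a ha ha1
  have e : eN reA P a 0 x = qN reA P (core reA P true a 0 0 (1 / 2) (1 / 2) 1) 0 0
      ((core reA P true a 0 0 (1 / 2) (1 / 2) 1).a.i) ((core reA P true a 0 0 (1 / 2) (1 / 2) 1).a.i) := by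
    unfold eN
    simp only [rmul, rsmul, rsub, rom, zero_mul, mul_zero, sub_zero, mul_one,
      ccore1 true a 0 0 rfl rfl]
  rw [e]
  have hi : (core reA P true a 0 0 (1 / 2) (1 / 2) 1).a.i = a / sn a := by rw [K1.1]; rfl
  rw [hi]
  have := h2 P hP _ a 1 1 (a / 2) (sn a) (a / sn a) (a / sn a) ha ha1.le le_rfl le_rfl (by linarith)
    (by ring) (gram1 a (-1) ha ha1).symm hsn K1 (by rw [kk1 a ha]) (by rw [kk1 a ha])
  rw [Gf0 hP a (-1) ha ha1 (by norm_num), sub_self] at this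
  rcases mul_eq_zero.1 this.symm with h | h
  · exact absurd h hsn.ne'
  · exact h

theorem ac0 : Alg.ac reA 0 = 1 := by
  rw [Pool.Agent.FTA.prim_proof.2.2.1 0 le_rfl zero_le_one]
  unfold acR
  rw [if_neg (by norm_num), Real.arccos_zero]
  norm_num

theorem qP_kink (hP : Good P) (ev : Bool) (K : Core ℝ) (kz kx kD : ℝ) (hisb : K.isb = 1) (hisc : K.isc = 1)
    (hyz : K.yz = 1) (hyx : K.yx = 1) (hxz : K.xz = 0) (hxx : K.xx = 0) :
    qP reA P ev K 0 kz kx kD = qP reA P ev K 0 0 0 0 + 2 * (1 + 2 * kap P) * (kz - kD) := by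
  have hac := ac0
  have c9 := CONS_.c1_val P hP
  have c8 : ((P.c1 : ℝ) / 2 ^ 8) = 2 * (1 + 2 * kap P) := by
    have h2 : ((P.c1 : ℝ) / 2 ^ 8) = 2 * ((P.c1 : ℝ) / 2 ^ 9) := by ring
    rw [h2, c9]
  cases ev
  · simp only [qP, poleO, poleE, poleA, evenP, oddP, Wp, Rp, hisb, hisc, hyz, hyx, hxz, hxx, rcst, dy00, radd,
      rsub, rmul, rsmul, rinv, rom, rop, rdbl, sub_zero, hac, c9, c8]
    norm_num
    ring
  · simp only [qP, poleO, poleE, poleA, evenP, oddP, Wp, Rp, hisb, hisc, hyz, hyx, hxz, hxx, rcst, dy00, radd,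
      rsub, rmul, rsmul, rinv, rom, rop, rdbl, sub_zero, hac, c9, c8]
    norm_num
    ring

theorem tt0 (a s : ℝ) : tt a 1 1 s = 0 := by unfold tt; rw [cn1]; simp

theorem kzero (hP : Good P) (h3 : Stmt_QP) (a : ℝ) (ha : 0 < a) (ha1 : a < 1) (ev : Bool)
    (kz kx kD : ℝ) (hk : kz = kD) :
    qP reA P ev (core reA P false a 0 0 (1 / 2) (1 / 2) 1) 0 kz kx kD = 0 := by
  have K1 := core1 hP false a ha ha1
  have hsn := sn_pos a ha ha1
  have hisb : (core reA P false a 0 0 (1 / 2) (1 / 2) 1).isb = 1 := by rw [K1.2.2.2.1, sn1, inv_one]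
  have hisc : (core reA P false a 0 0 (1 / 2) (1 / 2) 1).isc = 1 := by rw [K1.2.2.2.2.1, sn1, inv_one]
  have hyz : (core reA P false a 0 0 (1 / 2) (1 / 2) 1).yz = 1 := by
    rw [K1.2.2.2.2.2.1, sn1, mul_one]; exact div_self hsn.ne'
  have hyx : (core reA P false a 0 0 (1 / 2) (1 / 2) 1).yx = 1 := by
    rw [K1.2.2.2.2.2.2.1, sn1, mul_one]; exact div_self hsn.ne'
  have hxz : (core reA P false a 0 0 (1 / 2) (1 / 2) 1).xz = 0 := by
    rw [K1.2.2.2.2.2.2.2.2.1, tt0]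
  have hxx : (core reA P false a 0 0 (1 / 2) (1 / 2) 1).xx = 0 := by
    rw [K1.2.2.2.2.2.2.2.2.2.1, tt0, mul_zero]
  have hq := h3 P hP _ a 1 1 (a / 2) (sn a) (a / sn a) (a / sn a) (a / sn a) ha ha1.le le_rfl le_rfl (by linarith)
    (by ring) (gram1 a 1 ha ha1).symm hsn K1 (by norm_num) (by rw [kk1 a ha]) (by rw [kk1 a ha])
    (by rw [kk1 a ha]; field_simp)
  rw [Gf0 hP a 1 ha ha1 (by norm_num), sub_self, tt0] at hq
  have hv : qP reA P ev (core reA P false a 0 0 (1 / 2) (1 / 2) 1) 0 (a / sn a) (a / sn a) (a / sn a) = 0 := by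
    cases ev
    · rcases mul_eq_zero.1 (hq.1 le_rfl).symm with h | h
      · exact absurd h hsn.ne'
      · exact h
    · rcases mul_eq_zero.1 (hq.2 le_rfl).symm with h | h
      · exact absurd h hsn.ne'
      · exact h
  rw [qP_kink hP ev _ kz kx kD hisb hisc hyz hyx hxz hxx, hk, sub_self, mul_zero, add_zero]
  rw [qP_kink hP ev _ (a / sn a) (a / sn a) (a / sn a) hisb hisc hyz hyx hxz hxx, sub_self, mul_zero, add_zero] at hv
  exact hv

theorem kdval (hP : Good P) (a : ℝ) (ha : 0 < a) (ha1 : a < 1) :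
    (core reA P false a 0 0 (1 / 2) (1 / 2) 1).a.i = (core reA P false a 0 0 (1 / 2) (1 / 2) 1).kd := by
  have K1 := core1 hP false a ha ha1
  have hsn := sn_pos a ha ha1
  have hi : (core reA P false a 0 0 (1 / 2) (1 / 2) 1).a.i = a / sn a := by rw [K1.1]; rfl
  have hk : sn a * (core reA P false a 0 0 (1 / 2) (1 / 2) 1).kd = 2 * (a / 2) := K1.2.2.2.2.2.2.2.2.2.2.2.2
  rw [hi]
  rw [div_eq_iff hsn.ne']
  linarith

theorem partP (hP : Good P) (h3 : Stmt_QP) (a : ℝ) (ha : 0 < a) (ha1 : a < 1) (ev : Bool)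
    (m : ℕ) (hm : m < 3) : eP reA P m ev a 0 0 = 0 := by
  have hk := kdval hP a ha ha1
  have hc : ccore reA P false a 0 (reA.add 0 (reA.mul a 0)) 0 = core reA P false a 0 0 (1 / 2) (1 / 2) 1 :=
    ccore1 false a _ _ (by rw [radd, rmul]; ring) rfl
  have hz := fun kz kx kD hk => kzero hP h3 a ha ha1 ev kz kx kD hk
  interval_cases m
  · show qP reA P ev (ccore reA P false a 0 (reA.add 0 (reA.mul a 0)) 0) 0 _ _ _ = 0
    rw [hc]
    apply hz
    rw [rmul, rom, sub_zero, mul_one]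
    exact hk
  · show qP reA P ev (ccore reA P false a 0 (reA.add 0 (reA.mul a 0)) 0) 0 _ _ _ = 0
    rw [hc]
    apply hz
    rfl
  · show qP reA P ev (ccore reA P false a 0 (reA.add 0 (reA.mul a 0)) 0) 0 _ _ _ = 0
    rw [hc]
    apply hz
    rfl

theorem partF (hP : Good P) (h3 : Stmt_QP) (a : ℝ) (ha : 0 < a) (ha1 : a < 1) (ev : Bool) :
    eF reA P ev a 0 0 = 0 := by
  have hk := kdval hP a ha ha1
  have hc : ccore reA P false a 0 (reA.mul a (reA.add 0 0)) (reA.mul a 0) = core reA P false a 0 0 (1 / 2) (1 / 2) 1 :=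
    ccore1 false a _ _ (by rw [radd, rmul]; ring) (by rw [rmul]; ring)
  show qP reA P ev (ccore reA P false a 0 (reA.mul a (reA.add 0 0)) (reA.mul a 0)) (reA.mul a 0) _ _ _ = 0
  rw [hc, show reA.mul a 0 = 0 by rw [rmul, mul_zero]]
  apply kzero hP h3 a ha ha1 ev
  rw [rmul, rmul, rmul, rsub, rom, rom, rinv, sub_zero, sub_zero, zero_mul, sub_zero, mul_one, one_mul]
  exact hk

theorem sc0 : Alg.sc reA 0 = π / 2 := by
  rw [Pool.Agent.FTA.prim_proof.1 0 (by norm_num)]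
  unfold scR
  rw [if_pos rfl]

theorem cs0 : Alg.cs reA 0 = 1 := by
  rw [Pool.Agent.FTA.prim_proof.2.1 0 (by norm_num)]
  unfold cn
  simp

theorem ac1 : Alg.ac reA 1 = 2 / π := by
  rw [Pool.Agent.FTA.prim_proof.2.2.1 1 zero_le_one le_rfl]
  unfold acR
  rw [if_pos rfl]

theorem partV : (cV reA P false 1 0 0).o = 0 := by
  have hs := sc0
  have hc := cs0
  have ha := ac1
  have hpi : π ≠ 0 := Real.pi_ne_zero
  have h2 : (√2 : ℝ) ≠ 0 := by positivity
  simp only [cV, radd, rsub, rmul, rsmul, rinv, rrsq, rcst, dy00, rom, rop, rdbl, rone, mul_zero, zero_mul,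
    add_zero, zero_add, sub_zero, mul_one, one_mul, inv_one, hs, hc, vA, vO, vpole, vev, evenP, oddP, side, zero_sub]
  have e1 : (π / 2 * ((1 + 1) * (π / 2)) * ((π / 2)⁻¹ * ((1 + 1) * (π / 2))⁻¹) : ℝ) = 1 := by field_simp
  have e2 : (-(-(π / 2 * (π / 2)) * ((π / 2)⁻¹ * (π / 2)⁻¹)) : ℝ) = 1 := by field_simp
  rw [e1, e2, ha]
  push_cast
  field_simp
  norm_num

end REF_

theorem ref_proof (h2 : Stmt_QN) (h3 : Stmt_QP) : Stmt_REF := fun P hP =>
  ⟨fun a x ha ha1 _ _ => REF_.partN hP h2 a x ha ha1,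
   fun a ha ha1 ev m hm => REF_.partP hP h3 a ha ha1 ev m hm,
   fun a ha ha1 ev => REF_.partF hP h3 a ha ha1 ev,
   REF_.partV⟩

end Pool.Agent.FTN
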