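import Pool.Agent.FTN.CORE
import Pool.Agent.FTN.ID

/-! Closed form of the chart `N`. -/

open Real

namespace Pool.Agent.FTN

open Pool.Agent.FTA (TM Alg tmA slA SL Side Core PR Cmp Tr sn cn De kk T1 tt gram reA prA Compat InB sg PSDK scR acR asR dy cl cl8 cl4 pv)

namespace CN_

theorem dy1 : dy false 1 0 = 1 := by
  unfold dy
  simp

theorem cN_eq (P : Par) (a x t : ℝ) :
    cN reA P a x t =
      qN reA P (core reA P true a (a * (((dy false 1 0 + t * t)⁻¹ - t * t * (dy false 1 0 + t * t)⁻¹) -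
          ((1 : ℕ) : ℝ) / 2 ^ 1 * (((dy false 1 0 + t * t)⁻¹ - t * t * (dy false 1 0 + t * t)⁻¹) * x)))
        (a * (((1 : ℕ) : ℝ) / 2 ^ 1 * (((dy false 1 0 + t * t)⁻¹ - t * t * (dy false 1 0 + t * t)⁻¹) * x)))
        (t * t * (dy false 1 0 + t * t)⁻¹) (dy false 1 0 + t * t)⁻¹ t)
        (a * (((dy false 1 0 + t * t)⁻¹ - t * t * (dy false 1 0 + t * t)⁻¹) -
          ((1 : ℕ) : ℝ) / 2 ^ 1 * (((dy false 1 0 + t * t)⁻¹ - t * t * (dy false 1 0 + t * t)⁻¹) * x)))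
        (a * (((1 : ℕ) : ℝ) / 2 ^ 1 * (((dy false 1 0 + t * t)⁻¹ - t * t * (dy false 1 0 + t * t)⁻¹) * x)))
        ((core reA P true a (a * (((dy false 1 0 + t * t)⁻¹ - t * t * (dy false 1 0 + t * t)⁻¹) -
          ((1 : ℕ) : ℝ) / 2 ^ 1 * (((dy false 1 0 + t * t)⁻¹ - t * t * (dy false 1 0 + t * t)⁻¹) * x)))
        (a * (((1 : ℕ) : ℝ) / 2 ^ 1 * (((dy false 1 0 + t * t)⁻¹ - t * t * (dy false 1 0 + t * t)⁻¹) * x)))
        (t * t * (dy false 1 0 + t * t)⁻¹) (dy false 1 0 + t * t)⁻¹ t).a.i *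
          (dy false 1 0 - (((dy false 1 0 + t * t)⁻¹ - t * t * (dy false 1 0 + t * t)⁻¹) -
          ((1 : ℕ) : ℝ) / 2 ^ 1 * (((dy false 1 0 + t * t)⁻¹ - t * t * (dy false 1 0 + t * t)⁻¹) * x))))
        ((core reA P true a (a * (((dy false 1 0 + t * t)⁻¹ - t * t * (dy false 1 0 + t * t)⁻¹) -
          ((1 : ℕ) : ℝ) / 2 ^ 1 * (((dy false 1 0 + t * t)⁻¹ - t * t * (dy false 1 0 + t * t)⁻¹) * x)))
        (a * (((1 : ℕ) : ℝ) / 2 ^ 1 * (((dy false 1 0 + t * t)⁻¹ - t * t * (dy false 1 0 + t * t)⁻¹) * x)))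
        (t * t * (dy false 1 0 + t * t)⁻¹) (dy false 1 0 + t * t)⁻¹ t).a.i *
          (dy false 1 0 - ((1 : ℕ) : ℝ) / 2 ^ 1 * (((dy false 1 0 + t * t)⁻¹ - t * t * (dy false 1 0 + t * t)⁻¹) * x))) := rfl

theorem cN_eq' (P : Par) (a x t : ℝ) (f1 f0 hx be gm : ℝ) (h1 : f1 = (1 + t * t)⁻¹) (h0 : f0 = t * t * f1)
    (hh : hx = 1 / 2 * ((f1 - f0) * x)) (hg : gm = a * hx) (hb : be = a * ((f1 - f0) - hx)) :
    cN reA P a x t = qN reA P (core reA P true a be gm f0 f1 t) be gm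
      ((core reA P true a be gm f0 f1 t).a.i * (1 - ((f1 - f0) - hx)))
      ((core reA P true a be gm f0 f1 t).a.i * (1 - hx)) := by
  have hn : ((1 : ℕ) : ℝ) / 2 ^ 1 = 1 / 2 := by norm_num
  rw [cN_eq, dy1, hn, hb, hg, hh, h0, h1]

end CN_

open CN_ in
theorem cn_proof (h2 : Stmt_QN) : Stmt_CN := by
  intro P hP a x t be gm ha hx0 hx1 ht0 ht1 hgm hbe habe
  have ht2 : 0 < t * t := mul_pos ht0 ht0
  have ht21 : t * t ≤ 1 := by nlinarith
  obtain ⟨f1, hf1⟩ : ∃ f1 : ℝ, f1 = (1 + t * t)⁻¹ := ⟨_, rfl⟩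
  obtain ⟨f0, hf0⟩ : ∃ f0 : ℝ, f0 = t * t * f1 := ⟨_, rfl⟩
  obtain ⟨hx, hhx⟩ : ∃ hx : ℝ, hx = 1 / 2 * ((f1 - f0) * x) := ⟨_, rfl⟩
  have hf1p : 0 < f1 := by rw [hf1]; positivity
  have hf0p : 0 < f0 := by rw [hf0]; positivity
  have hf01 : f0 ≤ f1 := by rw [hf0]; nlinarith
  have hsum : f0 + f1 = 1 := by
    have : (1 + t * t) * f1 = 1 := by
      rw [hf1]
      exact mul_inv_cancel₀ (by positivity)
    rw [hf0]
    linarith
  have hxi : (1 - t ^ 2) / (1 + t ^ 2) = f1 - f0 := by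
    rw [hf0, hf1]
    field_simp
  have hxi0 : 0 ≤ f1 - f0 := by linarith
  have hxi1 : f1 - f0 ≤ 1 := by linarith
  have hxp : 0 ≤ (f1 - f0) * x := mul_nonneg hxi0 hx0
  have hxp1 : (f1 - f0) * x ≤ f1 - f0 := by nlinarith
  have egm : gm = a * hx := by
    rw [hgm, hxi, hhx]
    ring
  have ebe : be = a * ((f1 - f0) - hx) := by
    rw [hbe, hxi, hhx]
    ring
  have hhx0 : 0 ≤ hx := by rw [hhx]; linarith
  have hhx1 : hx ≤ 1 / 2 := by rw [hhx]; linarith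
  have hhx2 : hx ≤ (f1 - f0) - hx := by rw [hhx]; linarith
  have hgm0 : 0 ≤ gm := by rw [egm]; exact mul_nonneg ha.le hhx0
  have hgb : gm ≤ be := by
    rw [egm, ebe]
    exact mul_le_mul_of_nonneg_left hhx2 ha.le
  have hba : be ≤ a := by
    rw [ebe]
    nlinarith
  have hga : gm ≤ a := by linarith
  obtain ⟨hg, hcv⟩ := core_proof P hP true a be gm f0 f1 t ha habe hgm0 hgb hf0p hf01 hsum ht0
    (by rw [hf0]; ring) (by rw [if_pos rfl, egm, ebe]; ring)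
  have hsg : sg true = -1 := by
    unfold sg
    simp
  rw [hsg] at hg hcv
  refine ⟨√(gram a (1 - be) (1 - gm) (-1)), Real.sqrt_pos.mpr hg, ?_⟩
  have hK1 := hcv.1
  have hi : (core reA P true a be gm f0 f1 t).a.i = a / sn a := by
    rw [hK1]
    rfl
  have hkz : (core reA P true a be gm f0 f1 t).a.i * (1 - ((f1 - f0) - hx)) = kk a (1 - be) / sn a := by
    rw [hi]
    have : kk a (1 - be) = a - be := by
      unfold kk
      rw [max_eq_left (by linarith)]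
      ring
    rw [this, ebe]
    ring
  have hkx : (core reA P true a be gm f0 f1 t).a.i * (1 - hx) = kk a (1 - gm) / sn a := by
    rw [hi]
    have : kk a (1 - gm) = a - gm := by
      unfold kk
      rw [max_eq_left (by linarith)]
      ring
    rw [this, egm]
    ring
  have hq := h2 P hP (core reA P true a be gm f0 f1 t) a (1 - be) (1 - gm) (a * f0)
    (√(gram a (1 - be) (1 - gm) (-1))) (kk a (1 - be) / sn a) (kk a (1 - gm) / sn a) ha habe (by linarith) (by linarith)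
    (mul_nonneg ha.le hf0p.le)
    (by
      have e1 : be + gm = a * (f1 - f0) := by rw [egm, ebe]; ring
      have e2 : a * f0 + a * f1 = a := by rw [← mul_add, hsum, mul_one]
      linarith)
    (Real.sq_sqrt hg.le) (Real.sqrt_pos.mpr hg) hcv rfl rfl
  rw [hq, cN_eq' P a x t f1 f0 hx be gm hf1 hf0 hhx egm ebe, hkz, hkx, sub_sub_cancel, sub_sub_cancel]

end Pool.Agent.FTN
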