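import Pool.Agent.FTN.Stmts

set_option autoImplicit false

/-! FTN, module CONS: values of the constants. -/

open Real

namespace Pool.Agent.FTN

open Pool.Agent.FTA (TM Alg tmA slA SL Side Core PR Cmp Tr sn cn De kk T1 tt gram reA prA Compat InB sg PSDK scR acR)

namespace CONS_

variable (P : Par)

theorem nR (h : Good P) : (3 : ℝ) ≤ (P.n : ℝ) := by exact_mod_cast h.n3
theorem sig_pos (h : Good P) : 0 < sig P := by
  unfold sig
  have : (0 : ℝ) < (P.m : ℝ) := by exact_mod_cast h.m0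
  positivity
theorem sig_lt (h : Good P) : sig P < 1 := by
  unfold sig
  have : (P.m : ℝ) < 256 := by exact_mod_cast h.m1
  rw [div_lt_one (by norm_num)]; exact this
theorem kap_pos (h : Good P) : 0 < kap P := by
  unfold kap
  have h1 := nR P h
  have h2 := sig_pos P h
  have : 0 < (P.n : ℝ) - 2 := by linarith
  positivity
theorem eps_pos (h : Good P) : 0 < eps P := by
  unfold eps
  have h1 := nR P h
  have : 0 < (P.n : ℝ) - 1 := by linarith
  positivity
theorem eps_le (h : Good P) : eps P ≤ 1 / 2 := by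
  unfold eps
  have h1 := nR P h
  have : 2 ≤ (P.n : ℝ) - 1 := by linarith
  exact one_div_le_one_div_of_le (by norm_num) this

theorem be_cast (h : Good P) : (P.be : ℝ) = (3 * (P.n : ℝ) - 4) * P.m - 4 * P.k := by
  unfold Par.be
  rw [Nat.cast_sub (le_of_lt h.be0), Nat.cast_mul, Nat.cast_sub (by have := h.n3; omega)]
  push_cast
  ring
theorem c4_cast (h : Good P) : (P.c4 : ℝ) = ((P.n : ℝ) - 2) * P.m := by
  unfold Par.c4
  rw [Nat.cast_mul, Nat.cast_sub (by have := h.n3; omega)]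
  push_cast
  ring
theorem c1_cast (h : Good P) : (P.c1 : ℝ) = 512 + ((P.n : ℝ) - 2) * P.m := by
  unfold Par.c1
  rw [Nat.cast_add, Nat.cast_mul, Nat.cast_sub (by have := h.n3; omega)]
  push_cast
  ring
theorem be_val (h : Good P) : (P.be : ℝ) / 2 ^ 10 = bet P := by
  rw [be_cast P h]
  unfold bet kap k3 sig
  ring
theorem bet_pos (h : Good P) : 0 < bet P := by
  rw [← be_val P h]
  have : 0 < (P.be : ℝ) := by
    have h1 : 0 < P.be := by unfold Par.be; have := h.be0; omega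
    exact_mod_cast h1
  positivity
theorem c4_val (h : Good P) : (P.c4 : ℝ) / 2 ^ 8 = 4 * kap P := by
  rw [c4_cast P h]
  unfold kap sig
  ring
theorem c1_val (h : Good P) : (P.c1 : ℝ) / 2 ^ 9 = 1 + 2 * kap P := by
  rw [c1_cast P h]
  unfold kap sig
  ring
theorem ep_val (h : Good P) : P.ep reA = eps P := by
  have h1 : ((P.n - 1 : ℕ) : ℝ) = (P.n : ℝ) - 1 := by
    rw [Nat.cast_sub (by have := h.n3; omega)]; push_cast; rfl
  show (Pool.Agent.FTA.dy false (P.n - 1) 0)⁻¹ = eps P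
  unfold Pool.Agent.FTA.dy eps
  rw [h1]
  simp
theorem omm (h : Good P) : (((256 - P.m : ℕ) : ℝ) / 2 ^ 8 = 1 - sig P) := by
  rw [Nat.cast_sub (le_of_lt h.m1)]
  unfold sig
  push_cast
  ring
theorem cB_val (h : Good P) : P.cB reA = (1 - sig P)⁻¹ := by
  show (Pool.Agent.FTA.dy false (256 - P.m) 8)⁻¹ = _
  rw [← omm P h]
  unfold Pool.Agent.FTA.dy
  simp
theorem cE_val : P.cE reA = (sig P)⁻¹ := by
  show (Pool.Agent.FTA.dy false P.m 8)⁻¹ = _
  unfold Pool.Agent.FTA.dy sig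
  norm_num
theorem rho_val (h : Good P) : P.rho reA = rh P := by
  have e1 := ep_val P h
  have e2 := cB_val P h
  have e3 := cE_val P
  have e4 : Pool.Agent.FTA.dy false P.c4 8 = 4 * kap P := by
    rw [← c4_val P h]; unfold Pool.Agent.FTA.dy; simp
  have e5 : Pool.Agent.FTA.dy false (P.c4 * P.c4) 20 = kap P ^ 2 := by
    have : kap P = (P.c4 : ℝ) / 2 ^ 10 := by have := c4_val P h; linarith
    rw [this]; unfold Pool.Agent.FTA.dy; push_cast; simp; ring
  have e6 : Pool.Agent.FTA.dy false (P.be * P.be) 20 = bet P ^ 2 := by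
    rw [← be_val P h]; unfold Pool.Agent.FTA.dy; push_cast; simp; ring
  have e7 : Pool.Agent.FTA.dy false (P.k * P.k) 16 = k3 P ^ 2 := by
    unfold Pool.Agent.FTA.dy k3; push_cast; simp; ring
  have e8 : Pool.Agent.FTA.dy false 1 0 = 1 := by unfold Pool.Agent.FTA.dy; simp
  show Pool.Agent.FTA.dy false P.c4 8 + ((Pool.Agent.FTA.dy false 1 0 + P.ep reA) * Pool.Agent.FTA.dy false (P.c4 * P.c4) 20
    + (Pool.Agent.FTA.dy false 1 0 - P.ep reA) * (P.cB reA * Pool.Agent.FTA.dy false (P.be * P.be) 20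
      + P.cE reA * Pool.Agent.FTA.dy false (P.k * P.k) 16)) = rh P
  rw [e1, e2, e3, e4, e5, e6, e7, e8]
  unfold rh
  ring

/-- relation between the constants -/
theorem rel (h : Good P) : (1 - eps P) * (bet P + k3 P) + (1 + eps P) * kap P = 4 * kap P := by
  have h1 := nR P h
  have h2 : (P.n : ℝ) - 1 ≠ 0 := by linarith
  unfold bet eps kap
  field_simp
  ring
/-- `(1 + eps) (1 - 1/n) = 1` -/
theorem relc (h : Good P) : (1 + eps P) * (1 - 1 / (P.n : ℝ)) = 1 := by
  have h1 := nR P h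
  have h2 : (P.n : ℝ) - 1 ≠ 0 := by linarith
  have h3 : (P.n : ℝ) ≠ 0 := by linarith
  unfold eps
  field_simp
  ring

end CONS_

open CONS_ in
theorem cons_proof : Stmt_CONS := by
  intro P h
  refine ⟨sig_pos P h, sig_lt P h, kap_pos P h, bet_pos P h, eps_pos P h, eps_le P h, ?_, ep_val P h, cB_val P h, cE_val P,
    rho_val P h, omm P h, ?_, by unfold sig; norm_num, by unfold k3; norm_num, be_val P h, c1_val P h, ?_, ?_, c4_val P h, ?_⟩
  · unfold k3; positivity
  · have := omm P h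
    have h2 : (((256 - P.m : ℕ) : ℝ) / 2 ^ 7) = 2 * (((256 - P.m : ℕ) : ℝ) / 2 ^ 8) := by ring
    rw [h2, this]
  · have := c1_val P h
    have h2 : ((P.c1 : ℝ) / 2 ^ 8) = 2 * ((P.c1 : ℝ) / 2 ^ 9) := by ring
    rw [h2, this]
  · have := c1_val P h
    have h2 : (((3 * P.c1 : ℕ) : ℝ) / 2 ^ 8) = 6 * ((P.c1 : ℝ) / 2 ^ 9) := by push_cast; ring
    rw [h2, this]
  · have := c4_val P h
    have h2 : ((P.c4 : ℝ) / 2 ^ 10) = ((P.c4 : ℝ) / 2 ^ 8) / 4 := by ring
    rw [h2, this]; ring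

end Pool.Agent.FTN
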