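import Pool.Agent.FTN.CONS
import Pool.Agent.FTA.TRIG
import Pool.Agent.FTA.PRIM

set_option autoImplicit false

/-! FTN, module CORE: the core program. -/

open Real

namespace Pool.Agent.FTN

open Pool.Agent.FTA (TM Alg tmA slA SL Side Core PR Cmp Tr sn cn De kk T1 tt gram reA prA Compat InB sg PSDK scR acR dy)

namespace CORE_

theorem dy1 : dy false 1 0 = 1 := by
  unfold dy
  simp
theorem half : ((1 : ℕ) : ℝ) / 2 ^ 1 = 1 / 2 := by norm_num
theorem two : ((2 : ℕ) : ℝ) / 2 ^ 0 = 2 := by norm_num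
theorem four : ((4 : ℕ) : ℝ) / 2 ^ 0 = 4 := by norm_num

theorem scv (x : ℝ) (h0 : 0 ≤ x) (h1 : x ≤ 1) : reA.sc x = scR x :=
  Pool.Agent.FTA.prim_proof.1 x (by rw [abs_of_nonneg h0]; exact h1)
theorem csv (x : ℝ) (h : |x| ≤ 1) : reA.cs x = cn x := Pool.Agent.FTA.prim_proof.2.1 x h

theorem x_scR (x : ℝ) : x * scR x = sn x := by
  unfold scR
  split_ifs with h
  · rw [h]; unfold sn; simp
  · field_simp

theorem cn_om (x : ℝ) : cn (1 - x) = sn x := by
  unfold sn cn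
  rw [show π * (1 - x) / 2 = π / 2 - π * x / 2 by ring, Real.cos_pi_div_two_sub]
theorem sn_om (x : ℝ) : sn (1 - x) = cn x := by
  unfold sn cn
  rw [show π * (1 - x) / 2 = π / 2 - π * x / 2 by ring, Real.sin_pi_div_two_sub]
theorem cn_neg (x : ℝ) : cn (-x) = cn x := by
  unfold cn
  rw [show π * (-x) / 2 = -(π * x / 2) by ring, Real.cos_neg]
theorem sn_op (x : ℝ) : sn (1 + x) = cn x := by
  rw [show (1 : ℝ) + x = 1 - (-x) by ring, sn_om, cn_neg]

/-- the side data -/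
theorem side_val (P : Par) (hP : Good P) (p S C i : ℝ) (hS : S = sn p) (hC : C = cn p) (hi : i = p / sn p) (h0 : sn p ≠ 0) :
    side reA P p S C i = nside P p := by
  obtain ⟨-, -, -, -, -, -, -, -, -, -, -, c1, -, c3, c4, c5, -⟩ := cons_proof P hP
  subst hS hC hi
  have e1 : side reA P p (sn p) (cn p) (p / sn p) = Side.mk p (sn p) (cn p) (p / sn p) (p / sn p - sn p)
    (((256 - P.m : ℕ) : ℝ) / 2 ^ 8 * (p / sn p) + (P.be : ℝ) / 2 ^ 10 * (p / sn p - sn p))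
    ((P.m : ℝ) / 2 ^ 8 * (p / sn p) + (P.k : ℝ) / 2 ^ 8 * (p / sn p - sn p)) := rfl
  rw [e1, c1, c3, c4, c5]
  unfold nside
  congr 1
  · unfold pB De
    field_simp
  · unfold pE De
    field_simp

theorem core2_val (P : Par) (hP : Good P) (neg : Bool) (a b c f0 f1 τ e0 e1 e2 e3 : ℝ) (ha : 0 < a) (hf0 : 0 < f0) (hf1 : 0 < f1)
    (he0 : e0 = a * f0) (he1 : e1 = a * f1) (hτ0 : 0 < τ) (hτ : τ ^ 2 * f1 = f0)
    (s0 : 0 < sn e0) (s1 : 0 < sn e1) (s2 : 0 < sn e2) (s3 : 0 < sn e3) (sa : 0 < sn a) (sb : 0 < sn b) (sc : 0 < sn c)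
    (hg : gram a b c (sg neg) = 4 * (sn e0 * sn e1 * sn e2 * sn e3))
    (hz : sn e0 * sn e3 - sn e1 * sn e2 = sg neg * cn c - cn a * cn b)
    (hx : sn e1 * sn e3 - sn e0 * sn e2 = cn b - sg neg * (cn a * cn c))
    (hy : sn e2 * sn e3 - sn e0 * sn e1 = cn a - sg neg * (cn b * cn c)) (hcs : reA.cs e0 = cn e0) :
    CoreVal P (core2 reA P neg a b c f0 f1 τ (sn e0 / e0) (sn e1 / e1) (sn a) (cn a) (a / sn a) (sn b) (cn b) (sn c) (cn c)
      (sn e2) (sn e3)) neg a b c e0 (√(gram a b c (sg neg))) := by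
  obtain ⟨-, -, -, -, -, -, -, -, -, -, -, -, -, -, -, -, k1, k2, k3', k4, -⟩ := cons_proof P hP
  have e0p : 0 < e0 := by rw [he0]; positivity
  have e1p : 0 < e1 := by rw [he1]; positivity
  have hs2 : sg neg ^ 2 = 1 := by unfold sg; split_ifs <;> norm_num
  -- square roots
  obtain ⟨r, hr⟩ : ∃ r : ℝ, r = √(sn e2 * sn e3) := ⟨_, rfl⟩
  obtain ⟨g, hgd⟩ : ∃ g : ℝ, g = √(sn e0 / e0 * (sn e1 / e1)) := ⟨_, rfl⟩
  have hr0 : 0 < r := by rw [hr]; positivity
  have hg0 : 0 < g := by rw [hgd]; positivity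
  have hr2 : r ^ 2 = sn e2 * sn e3 := by rw [hr]; exact Real.sq_sqrt (by positivity)
  have hg2 : g ^ 2 = sn e0 / e0 * (sn e1 / e1) := by rw [hgd]; exact Real.sq_sqrt (by positivity)
  have hD : √(gram a b c (sg neg)) = 2 * (a * τ * f1) * g * r := by
    rw [hg]
    have h1 : 4 * (sn e0 * sn e1 * sn e2 * sn e3) = (2 * (a * τ * f1) * g * r) ^ 2 := by
      have h2 : sn e0 * sn e1 = (a * τ * f1) ^ 2 * g ^ 2 := by
        rw [hg2]
        have h3 : (a * τ * f1) ^ 2 = e0 * e1 := by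
          rw [he0, he1]
          linear_combination (a ^ 2 * f1) * hτ
        rw [h3]
        field_simp
      have h4 : (2 * (a * τ * f1) * g * r) ^ 2 = 4 * ((a * τ * f1) ^ 2 * g ^ 2) * r ^ 2 := by ring
      rw [h4, ← h2, hr2]
      ring
    rw [h1]
    exact Real.sqrt_sq (by positivity)
  have hD0 : 0 < 2 * (a * τ * f1) * g * r := by positivity
  have hvi : sn e2 * sn e3 * r⁻¹ = r := by rw [← hr2]; field_simp
  have hpi : sn e0 / e0 * (sn e1 / e1) * g⁻¹ = g := by rw [← hg2]; field_simp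
  have hsa : side reA P a (sn a) (cn a) (a / sn a) = nside P a := side_val P hP a _ _ _ rfl rfl rfl sa.ne'
  have hsb : side reA P b (sn b) (cn b) (b * (sn b)⁻¹) = nside P b := side_val P hP b _ _ _ rfl rfl (by rw [div_eq_mul_inv]) sb.ne'
  have hsc : side reA P c (sn c) (cn c) (c * (sn c)⁻¹) = nside P c := side_val P hP c _ _ _ rfl rfl (by rw [div_eq_mul_inv]) sc.ne'
  have hDS : ((2 : ℕ) : ℝ) / 2 ^ 0 * (((τ * f1) * (sn e0 / e0 * (sn e1 / e1) * g⁻¹)) * ((sn e2 * sn e3 * r⁻¹) * (a / sn a))) =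
      (2 * (a * τ * f1) * g * r) / sn a := by
    rw [hvi, hpi, two]
    field_simp
  have hf0s : f0 * (sn e0 / e0) * (a / sn a) = sn e0 / sn a := by
    rw [he0]; field_simp
  have hf1s : f1 * (sn e1 / e1) * (a / sn a) = sn e1 / sn a := by
    rw [he1]; field_simp
  rw [hD]
  refine ⟨hsa, hsb, hsc, rfl, rfl, ?_, ?_, ?_, ?_, ?_, ?_, ?_, ?_⟩
  · show ((2 : ℕ) : ℝ) / 2 ^ 0 * (((τ * f1) * (sn e0 / e0 * (sn e1 / e1) * (√(sn e0 / e0 * (sn e1 / e1)))⁻¹)) *
      ((sn e2 * sn e3 * (√(sn e2 * sn e3))⁻¹) * (a / sn a))) * (sn b)⁻¹ = _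
    rw [← hr, ← hgd, hDS]
    field_simp
  · show ((2 : ℕ) : ℝ) / 2 ^ 0 * (((τ * f1) * (sn e0 / e0 * (sn e1 / e1) * (√(sn e0 / e0 * (sn e1 / e1)))⁻¹)) *
      ((sn e2 * sn e3 * (√(sn e2 * sn e3))⁻¹) * (a / sn a))) * (sn c)⁻¹ = _
    rw [← hr, ← hgd, hDS]
    field_simp
  · show ((2 : ℕ) : ℝ) / 2 ^ 0 * (((τ * f1) * (sn e0 / e0 * (sn e1 / e1) * (√(sn e0 / e0 * (sn e1 / e1)))⁻¹)) *
      ((sn e2 * sn e3 * (√(sn e2 * sn e3))⁻¹) * (a / sn a))) * (sn c)⁻¹ * sn a * (sn b)⁻¹ = _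
    rw [← hr, ← hgd, hDS]
    field_simp
  · show (f0 * (sn e0 / e0) * (a / sn a) * sn e3 - f1 * (sn e1 / e1) * (a / sn a) * sn e2) * (sn b)⁻¹ = tt a b c (sg neg)
    rw [hf0s, hf1s]
    unfold tt
    rw [← hz]
    field_simp
  · show (f1 * (sn e1 / e1) * (a / sn a) * sn e3 - f0 * (sn e0 / e0) * (a / sn a) * sn e2) * (sn c)⁻¹ = sg neg * tt a c b (sg neg)
    rw [hf0s, hf1s]
    unfold tt
    have : sg neg * ((sg neg * cn b - cn a * cn c) / (sn a * sn c)) = (sn e1 * sn e3 - sn e0 * sn e2) / (sn a * sn c) := by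
      rw [hx, ← mul_div_assoc]
      congr 1
      linear_combination (cn b) * hs2
    rw [this]
    field_simp
  · show (sn e2 * sn e3 - a * f0 * (sn e0 / e0) * (a * f1 * (sn e1 / e1))) * (sn b)⁻¹ * (sn c)⁻¹ = sg neg * tt b c a (sg neg)
    rw [← he0, ← he1]
    unfold tt
    have : sg neg * ((sg neg * cn a - cn b * cn c) / (sn b * sn c)) = (sn e2 * sn e3 - sn e0 * sn e1) / (sn b * sn c) := by
      rw [hy, ← mul_div_assoc]
      congr 1
      linear_combination (cn a) * hs2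
    rw [this]
    field_simp
  · have hb1 : (core2 reA P neg a b c f0 f1 τ (sn e0 / e0) (sn e1 / e1) (sn a) (cn a) (a / sn a) (sn b) (cn b) (sn c) (cn c)
      (sn e2) (sn e3)).bs = ((1 : ℕ) : ℝ) / 2 ^ 1 * ((τ * (sn e0 / e0)) * ((√(sn e0 / e0 * (sn e1 / e1)))⁻¹ * (√(sn e2 * sn e3))⁻¹)) *
        ((P.c4 : ℝ) / 2 ^ 8 * (reA.cs (a * f0) * (((4 : ℕ) : ℝ) / 2 ^ 0 * (sn a * sn b * sn c) -
          ((2 : ℕ) : ℝ) / 2 ^ 0 * (a * f0 * (sn e0 / e0) * reA.cs (a * f0)))) -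
          (((Bool.casesOn neg P.c1 (3 * P.c1) : ℕ) : ℝ) / 2 ^ 8 * (sn e0 / e0)⁻¹)) := rfl
    have hk : (((Bool.casesOn neg P.c1 (3 * P.c1) : ℕ) : ℝ) / 2 ^ 8) = (if neg = true then 6 * (1 + 2 * kap P) else 2 * (1 + 2 * kap P)) := by
      cases neg
      · rw [if_neg (by simp)]; exact k2
      · rw [if_pos rfl]; exact k3'
    rw [hb1, hk, k4, half, two, four, ← he0, hcs, ← hr, ← hgd]
    generalize (if neg = true then 6 * (1 + 2 * kap P) else 2 * (1 + 2 * kap P)) = κ'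
    have h5 : a * τ ^ 2 * f1 = e0 := by rw [he0]; linear_combination a * hτ
    have h6 : 2 * (a * τ * f1) * g * r * (1 / 2 * (τ * (sn e0 / e0) * (g⁻¹ * r⁻¹)) *
        (4 * kap P * (cn e0 * (4 * (sn a * sn b * sn c) - 2 * (e0 * (sn e0 / e0) * cn e0))) - κ' * (sn e0 / e0)⁻¹)) =
        (a * τ ^ 2 * f1) * (sn e0 / e0) *
        (4 * kap P * (cn e0 * (4 * (sn a * sn b * sn c) - 2 * (e0 * (sn e0 / e0) * cn e0))) - κ' * (sn e0 / e0)⁻¹) := by
      field_simp
    rw [h6, h5]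
    have h7 : e0 * (sn e0 / e0) = sn e0 := by field_simp
    rw [h7, mul_sub]
    have h8 : sn e0 * (κ' * (sn e0 / e0)⁻¹) = κ' * e0 := by field_simp
    rw [h8]
    ring
  · show 2 * (a * τ * f1) * g * r * (τ * ((√(sn e0 / e0 * (sn e1 / e1)))⁻¹ * (√(sn e2 * sn e3))⁻¹)) = 2 * e0
    rw [← hr, ← hgd, he0]
    have h6 : 2 * (a * τ * f1) * g * r * (τ * (g⁻¹ * r⁻¹)) = 2 * a * (τ ^ 2 * f1) := by
      field_simp
    rw [h6, hτ]
    ring

end CORE_

open CORE_ in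
theorem core_proof : Stmt_CORE := by
  intro P hP neg a be gm f0 f1 τ ha hab hgm hgb hf0 hf01 hf hτ0 hτ hc
  have hbe0 : 0 ≤ be := le_trans hgm hgb
  have hf1 : 0 < f1 := by linarith
  have ha1 : a ≤ 1 := by linarith
  have hb1 : be ≤ 1 := by linarith
  have haf0 : 0 < a * f0 := by positivity
  have haf1 : 0 < a * f1 := by positivity
  have hsum : a * f0 + a * f1 = a := by rw [← mul_add, hf, mul_one]
  have T := Pool.Agent.FTA.trig_proof neg a (1 - be) (1 - gm) (a * f0) (a * f1) (1 - be - a * f0) (2 - a - (1 - be - a * f0))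
    ha hab (by linarith) (by linarith) haf0 hsum (by ring) (by linarith)
    (by
      cases neg
      · rw [if_neg (by simp)] at hc ⊢
        have : be - gm = a * f1 - a * f0 := by rw [hc]; ring
        linarith
      · rw [if_pos rfl] at hc ⊢
        have : be + gm = a * f1 - a * f0 := by rw [hc]; ring
        linarith)
  obtain ⟨e1p, e2p, e3p, s0, s1, s2, s3, sa, sb, sc, hg, hz, hx, hy, -, -, -⟩ := T
  refine ⟨by rw [hg]; positivity, ?_⟩
  have hcs : reA.cs (a * f0) = cn (a * f0) := csv _ (by rw [abs_of_nonneg haf0.le]; linarith)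
  have key := core2_val P hP neg a (1 - be) (1 - gm) f0 f1 τ (a * f0) (a * f1) (1 - be - a * f0) (2 - a - (1 - be - a * f0))
    ha hf0 hf1 rfl rfl hτ0 hτ s0 s1 s2 s3 sa sb sc hg hz hx hy hcs
  have hv : core reA P neg a be gm f0 f1 τ = core2 reA P neg a (1 - be) (1 - gm) f0 f1 τ (sn (a * f0) / (a * f0))
      (sn (a * f1) / (a * f1)) (sn a) (cn a) (a / sn a) (sn (1 - be)) (cn (1 - be)) (sn (1 - gm)) (cn (1 - gm))
      (sn (1 - be - a * f0)) (sn (2 - a - (1 - be - a * f0))) := by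
    have h1 : core reA P neg a be gm f0 f1 τ = core2 reA P neg a (dy false 1 0 - be) (dy false 1 0 - gm) f0 f1 τ (reA.sc (a * f0))
      (reA.sc (a * f1)) (a * reA.sc a) (reA.cs a) ((reA.sc a)⁻¹) (reA.cs be) (be * reA.sc be) (reA.cs gm) (gm * reA.sc gm)
      (Bool.casesOn neg (reA.cs (((1 : ℕ) : ℝ) / 2 ^ 1 * (a + be + gm))) (reA.cs (((1 : ℕ) : ℝ) / 2 ^ 1 * (a + be - gm))))
      (Bool.casesOn neg (reA.cs (((1 : ℕ) : ℝ) / 2 ^ 1 * (be + gm - a))) (reA.cs (((1 : ℕ) : ℝ) / 2 ^ 1 * (a + gm - be)))) := rfl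
    have u1 : reA.sc (a * f0) = sn (a * f0) / (a * f0) := by
      rw [scv _ haf0.le (by linarith)]; unfold scR; rw [if_neg haf0.ne']
    have u2 : reA.sc (a * f1) = sn (a * f1) / (a * f1) := by
      rw [scv _ haf1.le (by linarith)]; unfold scR; rw [if_neg haf1.ne']
    have u3 : reA.sc a = sn a / a := by
      rw [scv _ ha.le ha1]; unfold scR; rw [if_neg ha.ne']
    have u4 : reA.cs a = cn a := csv _ (by rw [abs_of_nonneg ha.le]; exact ha1)
    have u5 : reA.cs be = sn (1 - be) := by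
      rw [csv _ (by rw [abs_of_nonneg hbe0]; exact hb1), sn_om]
    have u6 : be * reA.sc be = cn (1 - be) := by
      rw [scv _ hbe0 hb1, x_scR, cn_om]
    have u7 : reA.cs gm = sn (1 - gm) := by
      rw [csv _ (by rw [abs_of_nonneg hgm]; linarith), sn_om]
    have u8 : gm * reA.sc gm = cn (1 - gm) := by
      rw [scv _ hgm (by linarith), x_scR, cn_om]
    have u9 : (Bool.casesOn neg (reA.cs (((1 : ℕ) : ℝ) / 2 ^ 1 * (a + be + gm))) (reA.cs (((1 : ℕ) : ℝ) / 2 ^ 1 * (a + be - gm))) : ℝ)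
        = sn (1 - be - a * f0) := by
      cases neg
      · rw [if_neg (by simp)] at hc
        have e : be - gm = a * f1 - a * f0 := by rw [hc]; ring
        show reA.cs (((1 : ℕ) : ℝ) / 2 ^ 1 * (a + be + gm)) = _
        rw [half, csv _ (by rw [abs_le]; constructor <;> linarith)]
        rw [show 1 - be - a * f0 = 1 - 1 / 2 * (a + be + gm) by linarith, sn_om]
      · rw [if_pos rfl] at hc
        have e : be + gm = a * f1 - a * f0 := by rw [hc]; ring
        show reA.cs (((1 : ℕ) : ℝ) / 2 ^ 1 * (a + be - gm)) = _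
        rw [half, csv _ (by rw [abs_le]; constructor <;> linarith)]
        rw [show 1 - be - a * f0 = 1 - 1 / 2 * (a + be - gm) by linarith, sn_om]
    have u10 : (Bool.casesOn neg (reA.cs (((1 : ℕ) : ℝ) / 2 ^ 1 * (be + gm - a))) (reA.cs (((1 : ℕ) : ℝ) / 2 ^ 1 * (a + gm - be))) : ℝ)
        = sn (2 - a - (1 - be - a * f0)) := by
      cases neg
      · rw [if_neg (by simp)] at hc
        have e : be - gm = a * f1 - a * f0 := by rw [hc]; ring
        show reA.cs (((1 : ℕ) : ℝ) / 2 ^ 1 * (be + gm - a)) = _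
        rw [half, csv _ (by rw [abs_le]; constructor <;> linarith)]
        rw [show 2 - a - (1 - be - a * f0) = 1 + 1 / 2 * (be + gm - a) by linarith, sn_op]
      · rw [if_pos rfl] at hc
        have e : be + gm = a * f1 - a * f0 := by rw [hc]; ring
        show reA.cs (((1 : ℕ) : ℝ) / 2 ^ 1 * (a + gm - be)) = _
        rw [half, csv _ (by rw [abs_le]; constructor <;> linarith)]
        rw [show 2 - a - (1 - be - a * f0) = 1 - 1 / 2 * (a + gm - be) by linarith, sn_om]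
    have u11 : a * (sn a / a) = sn a := by field_simp
    rw [h1, u9, u10, u1, u2, u3, u4, u5, u6, u7, u8, dy1, u11, inv_div]
  rw [hv]
  exact key

end Pool.Agent.FTN
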