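import Pool.Agent.FTN.CORE
import Pool.Agent.FTN.ID

open Real

namespace Pool.Agent.FTN

open Pool.Agent.FTA (TM Alg tmA slA SL Side Core PR Cmp Tr sn cn De kk T1 tt gram reA prA Compat InB sg PSDK scR acR asR dy cl cl8 cl4 pv)

theorem covn_proof (h4 : Stmt_CN) (h5 : Stmt_CHN) (h6 : Stmt_CEN) (h7 : Stmt_REF) : Stmt_COVN := by
  intro P hP hR
  obtain ⟨h1, -, -, -, h2, h3⟩ := hR
  replace h4 := h4 P hP
  replace h5 := h5 P hP
  replace h6 := h6 P hP
  replace h7 := h7 P hP
  intro a b c ha hab hbc hc hsum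
  by_cases ha16 : 13 / 16 ≤ a
  · -- complement chart
    obtain ⟨s, hs0, hs1, hs⟩ : ∃ s : ℝ, 0 ≤ s ∧ s ≤ 1 ∧ (1 - a) * s = 1 - b := by
      by_cases hal : 1 - a = 0
      · exact ⟨0, le_rfl, zero_le_one, by rw [hal]; linarith⟩
      · have hp : 0 < 1 - a := lt_of_le_of_ne (by linarith) (Ne.symm hal)
        refine ⟨(1 - b) / (1 - a), div_nonneg (by linarith) hp.le, ?_, ?_⟩
        · rw [div_le_one hp]; linarith
        · field_simp
    obtain ⟨u, hu0, hu1, hu⟩ : ∃ u : ℝ, 0 ≤ u ∧ u ≤ 1 ∧ (1 - b) * u = 1 - c := by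
      by_cases hal : 1 - b = 0
      · exact ⟨0, le_rfl, zero_le_one, by rw [hal]; linarith⟩
      · have hp : 0 < 1 - b := lt_of_le_of_ne (by linarith) (Ne.symm hal)
        refine ⟨(1 - c) / (1 - b), div_nonneg (by linarith) hp.le, ?_, ?_⟩
        · rw [div_le_one hp]; linarith
        · field_simp
    have k := h5 (1 - a) s u (by linarith) (by linarith) hs0 hs1 hu0 hu1
    have r := h2.1 (1 - a) s u (by linarith) (by linarith) hs0 hs1 hu0 hu1
    rw [hs] at k
    rw [hu] at k
    rw [show 1 - (1 - a) = a by ring, show 1 - (1 - b) = b by ring, show 1 - (1 - c) = c by ring] at k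
    refine le_trans ?_ k
    exact mul_nonneg (mul_nonneg (by linarith) (by linarith)) r.le
  · have ha' : a < 13 / 16 := lt_of_not_ge ha16
    have hxi : ∃ xi : ℝ, 0 ≤ xi ∧ xi < 1 ∧ a * xi = (1 - b) + (1 - c) := by
      refine ⟨((1 - b) + (1 - c)) / a, div_nonneg (by linarith) ha.le, ?_, ?_⟩
      · rw [div_lt_one ha]; linarith
      · field_simp
    obtain ⟨xi, hx0, hx1, hxi⟩ := hxi
    obtain ⟨x, hxx0, hxx1, hx⟩ : ∃ x : ℝ, 0 ≤ x ∧ x ≤ 1 ∧ ((1 - b) + (1 - c)) * x = 2 * (1 - c) := by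
      by_cases hal : (1 - b) + (1 - c) = 0
      · refine ⟨0, le_rfl, zero_le_one, ?_⟩
        have : 1 - c = 0 := by linarith
        rw [this]; ring
      · have hp : 0 < (1 - b) + (1 - c) := lt_of_le_of_ne (by linarith) (Ne.symm hal)
        refine ⟨2 * (1 - c) / ((1 - b) + (1 - c)), div_nonneg (by linarith) hp.le, ?_, ?_⟩
        · rw [div_le_one hp]; linarith
        · field_simp
    have e1 : a * (xi * x / 2) = 1 - c := by
      have : a * (xi * x / 2) = (a * xi) * x / 2 := by ring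
      rw [this, hxi, hx]; ring
    have e2 : a * (xi - xi * x / 2) = 1 - b := by
      have : a * (xi - xi * x / 2) = a * xi - a * (xi * x / 2) := by ring
      rw [this, e1, hxi]; ring
    by_cases hx8 : xi ≤ 1 / 8
    · obtain ⟨D, hD, hG⟩ := h6 a xi x ha hx0 hx1 hxx0 hxx1 (by rw [e2]; linarith)
      rw [e1, e2, show 1 - (1 - b) = b by ring, show 1 - (1 - c) = c by ring] at hG
      rw [hG]
      refine mul_nonneg hD.le ?_
      have r1 := h3.1 a xi x ha.le ha'.le hx0 hx8 hxx0 hxx1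
      have r2 := h7.1 a x ha (by linarith) hxx0 hxx1
      linarith
    · have hx8' : 1 / 8 < xi := lt_of_not_ge hx8
      have hq0 : 0 < (1 - xi) / (1 + xi) := div_pos (by linarith) (by linarith)
      have ht2 : √((1 - xi) / (1 + xi)) ^ 2 = (1 - xi) / (1 + xi) := Real.sq_sqrt hq0.le
      have htpos : 0 < √((1 - xi) / (1 + xi)) := Real.sqrt_pos.mpr hq0
      have ht1 : √((1 - xi) / (1 + xi)) ≤ 113 / 128 := by
        apply Real.sqrt_le_iff.mpr
        refine ⟨by norm_num, ?_⟩
        rw [div_le_iff₀ (by linarith)]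
        nlinarith
      set t := √((1 - xi) / (1 + xi)) with htdef
      clear_value t
      have hr : (1 - t ^ 2) / (1 + t ^ 2) = xi := by
        rw [ht2]
        have : (1 + xi) ≠ 0 := by
          have : 0 < 1 + xi := by linarith
          exact this.ne'
        field_simp
        ring
      have g1 : (1 - c) = a * ((1 - t ^ 2) / (1 + t ^ 2) * x / 2) := by rw [hr, e1]
      have g2 : (1 - b) = a * ((1 - t ^ 2) / (1 + t ^ 2) * (1 - x / 2)) := by
        rw [hr, ← e2]; ring
      obtain ⟨D, hD, hG⟩ := h4 a x t (1 - b) (1 - c) ha hxx0 hxx1 htpos (by linarith) g1 g2 (by linarith)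
      rw [show 1 - (1 - b) = b by ring, show 1 - (1 - c) = c by ring] at hG
      rw [hG]
      refine mul_nonneg hD.le ?_
      exact (h1 a x t ha.le ha'.le hxx0 hxx1 htpos.le ht1 (by rw [← g2]; linarith)).le

end Pool.Agent.FTN
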