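import Pool.Agent.FTN.CORE
import Pool.Agent.FTN.ID

/-! COVP: covering of the positive type by the charts. -/

open Real

namespace Pool.Agent.FTN

open Pool.Agent.FTA (TM Alg tmA slA SL Side Core PR Cmp Tr sn cn De kk T1 tt gram reA prA Compat InB sg PSDK scR acR asR dy cl cl8 cl4 pv)

namespace COVP_

variable {P : Par}

/-- the parameter `t` -/
lemma ex_t {xi : ℝ} (h0 : 0 ≤ xi) (h1 : xi < 1) :
    ∃ t : ℝ, 0 < t ∧ t ≤ 1 ∧ (1 - t ^ 2) / (1 + t ^ 2) = xi ∧ 2 * t ^ 2 / (1 + t ^ 2) = 1 - xi := by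
  have hp : 0 < (1 - xi) / (1 + xi) := div_pos (by linarith) (by linarith)
  have hq : (1 + xi) ≠ 0 := by linarith
  refine ⟨√((1 - xi) / (1 + xi)), Real.sqrt_pos.2 hp, ?_, ?_, ?_⟩
  · rw [Real.sqrt_le_one]
    rw [div_le_one (by linarith)]
    linarith
  · rw [Real.sq_sqrt hp.le]
    field_simp
    ring
  · rw [Real.sq_sqrt hp.le]
    field_simp
    ring

/-- the two signs of the cosine -/
lemma fin_sign {G D xz o e : ℝ} (hD : 0 < D) (h1 : xz ≤ 0 → G = D * o) (h2 : 0 ≤ xz → G = D * e)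
    (h3 : (xz ≤ 0 → 0 < o) ∧ (0 ≤ xz → 0 < e)) : 0 ≤ G := by
  rcases le_total xz 0 with h | h
  · rw [h1 h]
    exact (mul_pos hD (h3.1 h)).le
  · rw [h2 h]
    exact (mul_pos hD (h3.2 h)).le

/-- quotient in the unit interval -/
lemma ex_q {x y : ℝ} (h0 : 0 ≤ x) (h1 : x ≤ y) : ∃ s : ℝ, 0 ≤ s ∧ s ≤ 1 ∧ x = y * s := by
  rcases eq_or_lt_of_le (h0.trans h1) with h | h
  · exact ⟨0, le_rfl, zero_le_one, by linarith⟩
  · refine ⟨x / y, div_nonneg h0 h.le, (div_le_one h).2 h1, ?_⟩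
    field_simp

/-- near `V1` -/
lemma v1 (hP : Good P) (hRS : RS P) (hCEP : Stmt_CEP) (hREF : Stmt_REF) {a xi gm : ℝ} (ha : 0 < a)
    (ha2 : a < 3 / 32) (hx0 : 0 ≤ xi) (hx1 : xi < 1 / 8) (hg0 : 0 ≤ gm) (hg1 : gm ≤ 3 / 32)
    (hab : a ≤ 1 - (gm + a * xi)) : 0 ≤ Gf P a (1 - (gm + a * xi)) (1 - gm) 1 := by
  have hsm : gm + (gm + a * xi) ≤ 1 := by nlinarith
  obtain ⟨D, l0, l1, l2, ev, hD, k0, k1, k2, -, hG⟩ :=
    hCEP P hP a xi gm ha hx0 (by linarith) hg0 hab hsm
  have key : ∀ m : ℕ, m < 3 → 0 ≤ eP reA P m ev a xi gm := by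
    intro m hm
    have hz := (hREF P hP).2.1 a ha (by linarith) ev m hm
    rcases le_total gm xi with h | h
    · obtain ⟨s, hs0, hs1, hs⟩ := ex_q hg0 h
      have := hRS.2.1 a xi s ha.le ha2.le hx0 hx1.le hs0 hs1 m hm ev
      rw [← hs, hz] at this
      exact this
    · obtain ⟨s, hs0, hs1, hs⟩ := ex_q hx0 h
      have := hRS.2.2.1 a gm s ha.le ha2.le hg0 hg1 hs0 hs1 m hm ev
      rw [← hs, hz] at this
      exact this
  rw [hG]
  have e0 := mul_nonneg k0 (key 0 (by norm_num))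
  have e1 := mul_nonneg k1 (key 1 (by norm_num))
  have e2 := mul_nonneg k2 (key 2 (by norm_num))
  exact mul_nonneg hD.le (by linarith)

/-- near the edge -/
lemma edge (hP : Good P) (hRS : RS P) (hCEF : Stmt_CEF) (hREF : Stmt_REF) {a xi g : ℝ} (ha : 3 / 32 ≤ a)
    (ha2 : a ≤ 13 / 16) (hx0 : 0 ≤ xi) (hx1 : xi < 1 / 8) (hg0 : 0 ≤ g) (hg1 : g < 1 / 8)
    (hab : a ≤ 1 - a * (g + xi)) : 0 ≤ Gf P a (1 - a * (g + xi)) (1 - a * g) 1 := by
  have hsm : a * g + a * (g + xi) ≤ 1 := by nlinarith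
  obtain ⟨D, ev, hD, hG⟩ :=
    hCEF P hP a xi g (by linarith) hx0 (by linarith) hg0 (by linarith) hab hsm
  have hz := (hREF P hP).2.2.1 a (by linarith) (by linarith) ev
  have key : 0 ≤ eF reA P ev a xi g := by
    rcases le_total g xi with h | h
    · obtain ⟨s, hs0, hs1, hs⟩ := ex_q hg0 h
      have := (hRS.2.2.2.1 a xi s ha ha2 hx0 hx1.le hs0 hs1 ev).1
      rw [← hs, hz] at this
      exact this
    · obtain ⟨s, hs0, hs1, hs⟩ := ex_q hx0 h
      have := (hRS.2.2.2.1 a g s ha ha2 hg0 hg1.le hs0 hs1 ev).2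
      rw [← hs, hz] at this
      exact this
  rw [hG]
  exact mul_nonneg hD.le key

/-- sine near zero -/
lemma sn_lower {x : ℝ} (h0 : 0 ≤ x) (h1 : x ≤ 3 / 16) : 63 / 64 * (π * x / 2) ≤ sn x := by
  unfold sn
  rcases eq_or_lt_of_le h0 with h | h
  · rw [← h]
    simp
  have hpi := Real.pi_pos
  have hpi4 := Real.pi_lt_d2
  have hy0 : 0 < π * x / 2 := by positivity
  have hy1 : π * x / 2 ≤ 3 / 10 := by nlinarith
  have h4 := Real.sin_gt_sub_cube hy0
  have h5 : (π * x / 2) ^ 3 / 6 ≤ 1 / 64 * (π * x / 2) := by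
    have : (π * x / 2) ^ 2 ≤ (3 / 10) ^ 2 := by
      apply pow_le_pow_left₀ hy0.le hy1
    nlinarith
  linarith

lemma sn_upper {x : ℝ} (h0 : 0 ≤ x) : sn x ≤ π * x / 2 := by
  unfold sn
  exact Real.sin_le (by positivity)

lemma cn_compl (x : ℝ) : cn (1 - x) = sn x := by
  unfold cn sn
  rw [← Real.cos_pi_div_two_sub]
  congr 1
  ring

lemma sn_compl (x : ℝ) : sn (1 - x) = cn x := by
  unfold cn sn
  rw [← Real.cos_pi_div_two_sub]
  congr 1
  ring

lemma sn_pos {x : ℝ} (h0 : 0 < x) (h1 : x ≤ 1) : 0 < sn x := by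
  unfold sn
  apply Real.sin_pos_of_pos_of_lt_pi
  · positivity
  · nlinarith [Real.pi_pos]

/-- `v ≤ 13/8` -/
lemma v_le {al be gm : ℝ} (h0 : 0 < be) (h1 : be ≤ al) (h2 : al ≤ 3 / 16) (h3 : 0 ≤ gm)
    (h4 : gm ≤ be) (ht : tt (1 - al) (1 - be) (1 - gm) 1 ≤ 0) : gm ≤ 13 / 8 * (al * be) := by
  unfold tt at ht
  have hpos : 0 < sn (1 - al) * sn (1 - be) :=
    mul_pos (sn_pos (by linarith) (by linarith)) (sn_pos (by linarith) (by linarith))
  have h5 : 1 * cn (1 - gm) - cn (1 - al) * cn (1 - be) ≤ 0 := by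
    by_contra hc
    push Not at hc
    exact absurd (div_pos hc hpos) (by linarith)
  rw [one_mul, cn_compl, cn_compl, cn_compl] at h5
  have h6 := sn_lower h3 (by linarith)
  have h7 := sn_upper (x := al) (by linarith)
  have h8 := sn_upper (x := be) h0.le
  have h9 : 0 < sn be := sn_pos h0 (by linarith)
  have hpi := Real.pi_pos
  have hpi4 := Real.pi_lt_d2
  have h10 : sn al * sn be ≤ (π * al / 2) * (π * be / 2) :=
    mul_le_mul h7 h8 h9.le (by have : 0 < al := by linarith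
                               positivity)
  have h11 : 63 / 64 * (π * gm / 2) ≤ (π * al / 2) * (π * be / 2) := by linarith
  have h12 : 63 / 64 * gm ≤ π / 2 * (al * be) := by
    have : π / 2 * (63 / 64 * gm) ≤ π / 2 * (π / 2 * (al * be)) := by
      have e1 : π / 2 * (63 / 64 * gm) = 63 / 64 * (π * gm / 2) := by ring
      have e2 : π / 2 * (π / 2 * (al * be)) = (π * al / 2) * (π * be / 2) := by ring
      linarith
    exact le_of_mul_le_mul_left this (by positivity)
  have h13 : 0 < al * be := mul_pos (by linarith) h0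
  nlinarith

/-- near the vertex `V3` -/
lemma v3 (hP : Good P) (hRH : RH P) (hCHP : Stmt_CHP) (hCHE : Stmt_CHE) {al be gm : ℝ} (h0 : 0 ≤ gm)
    (h1 : gm ≤ be) (h2 : be ≤ al) (h3 : al ≤ 3 / 16) : 0 ≤ Gf P (1 - al) (1 - be) (1 - gm) 1 := by
  have hal : 0 ≤ al := by linarith
  obtain ⟨s, hs0, hs1, hs⟩ := ex_q (h0.trans h1) h2
  obtain ⟨u, hu0, hu1, hu⟩ := ex_q h0 h1
  rcases le_total 0 (tt (1 - al) (1 - be) (1 - gm) 1) with ht | ht
  · have hk := hCHP P hP al s u hal h3 hs0 hs1 hu0 hu1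
    rw [← hs, ← hu] at hk
    obtain ⟨k1, k2⟩ := hk ht
    refine le_trans ?_ k2
    have hbe : 0 ≤ be := h0.trans h1
    rcases eq_or_lt_of_le hbe with h | h
    · rw [← h]
      simp
    · have k3 : 0 ≤ (hF reA P false false al s u u).2 := by
        by_contra hc
        push Not at hc
        exact absurd (mul_neg_of_pos_of_neg h hc) (by linarith)
      have k4 := hRH.2.1 al s u hal h3 hs0 hs1 hu0 hu1 k3
      exact mul_nonneg (mul_nonneg hal hbe) k4.le
  · have hbe : 0 ≤ be := h0.trans h1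
    rcases eq_or_lt_of_le hbe with h | h
    · -- `be = 0`
      have hgm : gm = 0 := by linarith
      have hk := hCHE P hP al s 0 hal h3 hs0 hs1 le_rfl (by simp)
      rw [← hs, mul_zero, mul_zero] at hk
      rw [hgm] at ht ⊢
      obtain ⟨-, k2⟩ := hk ht
      rw [← h] at k2 ⊢
      simpa using k2
    · have hal' : 0 < al := by linarith
      have hv := v_le h h2 h3 h0 h1 ht
      have hvu : u / al ≤ 13 / 8 := by
        rw [div_le_iff₀ hal']
        have : be * u ≤ be * (13 / 8 * al) := by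
          rw [← hu]
          linarith
        exact le_of_mul_le_mul_left this h
      have hal2 : al * (u / al) = u := by field_simp
      have hk := hCHE P hP al s (u / al) hal h3 hs0 hs1 (div_nonneg hu0 hal) (by rw [hal2]; exact hu1)
      rw [hal2, ← hs, ← hu] at hk
      obtain ⟨k1, k2⟩ := hk ht
      refine le_trans ?_ k2
      have k3 : 0 ≤ (hF reA P false true al s u (u / al)).2 := by
        by_contra hc
        push Not at hc
        exact absurd (mul_neg_of_pos_of_neg h hc) (by linarith)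
      have k4 := hRH.2.2 al s (u / al) hal h3 hs0 hs1 (div_nonneg hu0 hal) hvu
      rw [hal2] at k4
      exact mul_nonneg (mul_nonneg hal hbe) (k4 k3).le

/-- the cosine is negative in the corner of the chart `V` -/
lemma corner {a b c : ℝ} (ha : 0 < a) (hab : a ≤ b) (hb : b ≤ 1 / 32) (hc : 3 / 2 * b ≤ c)
    (hc2 : c ≤ 1 / 16) : tt a b c 1 ≤ 0 := by
  unfold tt
  have hpi := Real.pi_pos
  have hpi4 := Real.pi_lt_d2
  have hb0 : 0 < b := by linarith
  refine div_nonpos_of_nonpos_of_nonneg ?_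
    (mul_pos (sn_pos ha (by linarith)) (sn_pos hb0 (by linarith))).le
  have h1 : cn c = 1 - 2 * sn (c / 2) ^ 2 := by
    unfold cn sn
    have : π * c / 2 = 2 * (π * (c / 2) / 2) := by ring
    rw [this, Real.cos_two_mul, Real.cos_sq']
    ring
  have h2 := sn_lower (x := c / 2) (by linarith) (by linarith)
  have h3 : cn b ≤ cn a := by
    unfold cn
    apply Real.cos_le_cos_of_nonneg_of_le_pi
    · positivity
    · nlinarith
    · nlinarith
  have h4 : 0 < cn b := by
    unfold cn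
    apply Real.cos_pos_of_mem_Ioo
    constructor
    · have : 0 < π * b / 2 := by positivity
      linarith
    · nlinarith
  have h5 : cn b ^ 2 ≤ cn a * cn b := by nlinarith
  have h6 : cn b ^ 2 = 1 - sn b ^ 2 := by
    unfold cn sn
    exact Real.cos_sq' _
  have h7 := sn_upper (x := b) hb0.le
  have h8 : 0 < sn b := sn_pos hb0 (by linarith)
  have h9 : sn b ^ 2 ≤ (π * b / 2) ^ 2 := pow_le_pow_left₀ h8.le h7 2
  have h10 : (63 / 64 * (π * (c / 2) / 2)) ^ 2 ≤ sn (c / 2) ^ 2 := by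
    apply pow_le_pow_left₀ _ h2
    have : 0 < c := by linarith
    positivity
  have h11 : 63 / 64 * (3 / 2 * (π * b / 2)) / 2 ≤ 63 / 64 * (π * (c / 2) / 2) := by nlinarith
  have h12 : (63 / 64 * (3 / 2 * (π * b / 2)) / 2) ^ 2 ≤ (63 / 64 * (π * (c / 2) / 2)) ^ 2 := by
    apply pow_le_pow_left₀ (by positivity) h11
  nlinarith

end COVP_

open COVP_

theorem covp_proof (hCA : Stmt_CA) (hCB : Stmt_CB) (hCV : Stmt_CV) (hCHP : Stmt_CHP) (hCHE : Stmt_CHE)
    (hCEP : Stmt_CEP) (hCEF : Stmt_CEF) (hREF : Stmt_REF) : Stmt_COVP := by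
  intro P hP hR
  obtain ⟨-, hRA, hRB, hRV, hRH, hRS⟩ := hR
  intro a b c ha hab hbc hc1 hcab
  rcases le_total (13 / 16) a with h13 | h13
  · have := v3 hP hRH hCHP hCHE (al := 1 - a) (be := 1 - b) (gm := 1 - c) (by linarith) (by linarith)
      (by linarith) (by linarith)
    simpa using this
  obtain ⟨xi, hxi⟩ : ∃ xi : ℝ, xi = (c - b) / a := ⟨_, rfl⟩
  have hxi0 : 0 ≤ xi := by
    rw [hxi]
    exact div_nonneg (by linarith) ha.le
  have hxi1 : xi < 1 := by
    rw [hxi, div_lt_one ha]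
    linarith
  have haxi : a * xi = c - b := by
    rw [hxi]
    field_simp
  obtain ⟨t, ht0, ht1, ht2, ht3⟩ := ex_t hxi0 hxi1
  obtain ⟨gm, hgm⟩ : ∃ gm : ℝ, gm = 1 - c := ⟨_, rfl⟩
  have hc : c = 1 - gm := by linarith
  have hb : b = 1 - (gm + a * xi) := by
    rw [haxi]
    linarith
  have hgm0 : 0 ≤ gm := by linarith
  rcases le_total gm a with hga | hga
  · rcases le_total gm (a * (1 - xi)) with hgi | hgi
    · -- case (i)
      by_cases hA : xi < 1 / 8 ∧ a < 3 / 32
      · rw [hb, hc]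
        exact v1 hP hRS hCEP hREF ha hA.2 hxi0 hA.1 hgm0 (by linarith [hA.2]) (by linarith)
      by_cases hB : xi < 1 / 8 ∧ gm / a < 1 / 8
      · have ha3 : 3 / 32 ≤ a := by
          by_contra hcon
          push Not at hcon
          exact hA ⟨hB.1, hcon⟩
        have hg : a * (gm / a) = gm := by field_simp
        have e1 : a * (gm / a + xi) = gm + a * xi := by rw [mul_add, hg]
        have := edge hP hRS hCEF hREF ha3 h13 hxi0 hB.1 (div_nonneg hgm0 ha.le) hB.2
          (by rw [e1]; linarith)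
        rw [hg, e1] at this
        rw [hb, hc]
        exact this
      · obtain ⟨x, hx0, hx1, hx⟩ := ex_q hgm0 hgi
        have hx' : gm = a * (2 * t ^ 2 / (1 + t ^ 2) * x) := by
          rw [ht3, hx]
          ring
        have hgma : gm / a = 2 * t ^ 2 / (1 + t ^ 2) * x := by
          rw [div_eq_iff ha.ne', hx']
          ring
        have hbe : gm + a * xi = gm + a * ((1 - t ^ 2) / (1 + t ^ 2)) := by rw [ht2]
        obtain ⟨D, hD, -, k1, k2⟩ := hCA P hP a x t (gm + a * xi) gm ha hx0 hx1 ht0 ht1 hx' hbe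
          (by linarith)
        rw [hb, hc]
        refine fin_sign hD k1 k2 (hRA a x t ha.le h13 hx0 hx1 ht0.le ht1 ?_ ?_)
        · have : a * (2 * t ^ 2 / (1 + t ^ 2) * x + (1 - t ^ 2) / (1 + t ^ 2)) = gm + a * xi := by
            rw [mul_add, ← hx', ht2]
          rw [this]
          linarith
        · rw [ht2, ← hgma]
          rintro ⟨q1, q2 | q2⟩
          · exact hB ⟨q1, q2⟩
          · exact hA ⟨q1, q2⟩
    · -- case (ii)
      by_cases hA : xi < 1 / 8 ∧ a < 3 / 32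
      · rw [hb, hc]
        exact v1 hP hRS hCEP hREF ha hA.2 hxi0 hA.1 hgm0 (by linarith [hA.2]) (by linarith)
      · obtain ⟨x, hx0, hx1, hx⟩ := ex_q (x := gm - a * (1 - xi)) (y := a * xi) (by linarith)
          (by linarith)
        have hx' : gm = a * (2 * t ^ 2 / (1 + t ^ 2) + (1 - t ^ 2) / (1 + t ^ 2) * x) := by
          rw [ht3, ht2]
          linarith
        have hbe : gm + a * xi = gm + a * ((1 - t ^ 2) / (1 + t ^ 2)) := by rw [ht2]
        obtain ⟨D, hD, -, k1, k2⟩ := hCB P hP a x t (gm + a * xi) gm ha hx0 hx1 ht0 ht1 hx' hbe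
          (by linarith)
        rw [hb, hc]
        refine fin_sign hD k1 k2 (hRB a x t ha.le h13 hx0 hx1 ht0.le ht1 ?_ ?_)
        · have : a * (2 * t ^ 2 / (1 + t ^ 2) + (1 - t ^ 2) / (1 + t ^ 2) * x +
              (1 - t ^ 2) / (1 + t ^ 2)) = gm + a * xi := by
            rw [mul_add, ← hx', ht2]
          rw [this]
          linarith
        · rw [ht2]
          exact hA
  · -- case (iii)
    by_cases hA : xi < 1 / 8 ∧ gm < 3 / 32
    · rw [hb, hc]
      exact v1 hP hRS hCEP hREF ha (by linarith [hA.2]) hxi0 hA.1 hgm0 (by linarith [hA.2])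
        (by linarith)
    have hb0 : 0 < b := by linarith
    have hr0 : 0 < a / b := div_pos ha hb0
    have hr1 : a / b ≤ 1 := (div_le_one hb0).2 hab
    have hrb : a = a / b * b := by field_simp
    have hcc : c = b * (1 + a / b * ((1 - t ^ 2) / (1 + t ^ 2))) := by
      rw [ht2]
      have : b * (1 + a / b * xi) = b + a * xi := by field_simp
      rw [this, haxi]
      ring
    have hac : a + c ≤ 1 := by linarith
    by_cases hB : 31 / 32 ≤ a / b ∧ b ≤ 1 / 32 ∧ t ≤ 1 / 32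
    · obtain ⟨hB1, hB2, hB3⟩ := hB
      have hxi9 : 9 / 10 ≤ xi := by
        rw [← ht2, le_div_iff₀ (by positivity)]
        nlinarith
      have hab9 : 31 / 32 * b ≤ a := by
        rw [le_div_iff₀ hb0] at hB1
        exact hB1
      have hc32 : 3 / 2 * b ≤ c := by nlinarith
      have htt := corner ha hab hB2 hc32 (by linarith)
      obtain ⟨D, hD, hxz, k1, -⟩ := hCV P hP false (a / b) b t a c hr0 hr1 hb0 ht0 ht1 hrb hcc hac
        (by simp only [Bool.false_eq_true, if_false]; linarith)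
      have k3 := k1 (by rw [hxz]; exact htt)
      rw [k3]
      have k4 := hRS.2.2.2.2 (1 - a / b) b t (by linarith) (by linarith) hb0.le hB2 ht0.le hB3
      rw [(hREF P hP).2.2.2, sub_sub_cancel] at k4
      exact mul_nonneg hD.le k4
    · have hA' : ¬ ((1 - t ^ 2) / (1 + t ^ 2) < 1 / 8 ∧ 1 - c < 3 / 32) := by
        rw [ht2, ← hgm]
        exact hA
      rcases le_total 1 (b + c) with hk | hk
      · obtain ⟨D, hD, -, k1, k2⟩ := hCV P hP true (a / b) b t a c hr0 hr1 hb0 ht0 ht1 hrb hcc hac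
          (by simpa using hk)
        exact fin_sign hD k1 k2 (hRV true (a / b) b t hr0.le hr1 hb0.le (by linarith) ht0.le ht1 c
          hcc (by rw [← hrb]; exact hac) (by simpa using hk) hA' hB)
      · obtain ⟨D, hD, -, k1, k2⟩ := hCV P hP false (a / b) b t a c hr0 hr1 hb0 ht0 ht1 hrb hcc hac
          (by simpa using hk)
        exact fin_sign hD k1 k2 (hRV false (a / b) b t hr0.le hr1 hb0.le (by linarith) ht0.le ht1 c
          hcc (by rw [← hrb]; exact hac) (by simpa using hk) hA' hB)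

end Pool.Agent.FTN
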