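import Pool.Agent.FTN.CORE
import Pool.Agent.FTN.ID

/-! Module DEG: the slack vanishes for degenerate triples. -/

open Real

namespace Pool.Agent.FTN

open Pool.Agent.FTA (TM Alg tmA slA SL Side Core PR Cmp Tr sn cn De kk T1 tt gram reA prA Compat InB sg PSDK scR acR asR dy cl cl8 cl4 pv)

namespace DEG_

noncomputable section

variable {P : Par}

lemma sn_zero : sn 0 = 0 := by simp [sn]
lemma cn_zero : cn 0 = 1 := by simp [cn]

lemma F_zero {q : ℝ} (h0 : 0 ≤ q) (h1 : q ≤ 1) (t : ℝ) : F P 0 q t = (1 + eps P) * p0 P 0 * p0 P q := by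
  have hk : kk 0 q = 0 := by rw [kk]; exact max_eq_right (by linarith)
  have hm : min 0 q = 0 := min_eq_left h0
  have hD : De 0 = 0 := by rw [De, sn_zero]; ring
  rw [F, Wf, Rf, hk, hm, pB, pE, hD]
  simp

lemma sn_add (a b : ℝ) : sn (a + b) = sn a * cn b + cn a * sn b := by
  rw [sn, sn, cn, cn, sn, ← Real.sin_add]; congr 1; ring

lemma cn_add (a b : ℝ) : cn (a + b) = cn a * cn b - sn a * sn b := by
  rw [cn, cn, sn, sn, cn, ← Real.cos_add]; congr 1; ring

lemma sn_two_sub (a : ℝ) : sn (2 - a) = sn a := by
  rw [sn, sn, show π * (2 - a) / 2 = π - π * a / 2 by ring, Real.sin_pi_sub]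

lemma cn_two_sub (a : ℝ) : cn (2 - a) = - cn a := by
  rw [cn, cn, show π * (2 - a) / 2 = π - π * a / 2 by ring, Real.cos_pi_sub]

lemma sq_add_sq (a : ℝ) : sn a ^ 2 + cn a ^ 2 = 1 := by
  rw [sn, cn, Real.sin_sq_add_cos_sq]

lemma sn_pos {a : ℝ} (h0 : 0 < a) (h1 : a ≤ 1) : 0 < sn a := by
  have hp := Real.pi_pos
  refine Real.sin_pos_of_pos_of_lt_pi (by positivity) ?_
  nlinarith

theorem one (hP : Good P) {a b c : ℝ} (ha : 0 ≤ a) (hab : a ≤ b) (hbc : b ≤ c) (hc : c ≤ 1) (h : c = a + b) :
    Gf P a b c 1 = 0 := by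
  have e1 : F P a b (tt a b c 1) = F P a b (-1) := by
    rcases eq_or_lt_of_le ha with h0 | h0
    · rw [← h0, F_zero (by linarith) (by linarith), F_zero (by linarith) (by linarith)]
    · have sa := sn_pos h0 (by linarith)
      have sb : 0 < sn b := sn_pos (by linarith) (by linarith)
      have : tt a b c 1 = -1 := by
        rw [tt, h, cn_add]; field_simp; ring
      rw [this]
  have e2 : F P a c (tt a c b 1) = F P a c 1 := by
    rcases eq_or_lt_of_le ha with h0 | h0
    · rw [← h0, F_zero (by linarith) (by linarith), F_zero (by linarith) (by linarith)]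
    · have sa := sn_pos h0 (by linarith)
      have sc : 0 < sn c := sn_pos (by linarith) (by linarith)
      have : tt a c b 1 = 1 := by
        rw [tt, div_eq_one_iff_eq (by positivity), h, sn_add, cn_add]
        linear_combination (-cn b) * sq_add_sq a
      rw [this]
  have e3 : F P b c (tt b c a 1) = F P b c 1 := by
    rcases eq_or_lt_of_le (ha.trans hab) with h0 | h0
    · rw [← h0, F_zero (by linarith) (by linarith), F_zero (by linarith) (by linarith)]
    · have sb := sn_pos h0 (by linarith)
      have sc : 0 < sn c := sn_pos (by linarith) (by linarith)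
      have : tt b c a 1 = 1 := by
        rw [tt, div_eq_one_iff_eq (by positivity), h, sn_add, cn_add]
        linear_combination (-cn a) * sq_add_sq b
      rw [this]
  have k0 : kk a b = 0 := by rw [kk]; exact max_eq_right (by linarith)
  have h5 := (id_proof P hP a b c 0 ha hab hbc hc le_rfl).1 (by linarith)
  rw [Gf, e1, e2, e3, h5, k0, sn_zero]
  ring

theorem two (hP : Good P) {a b c : ℝ} (ha : 0 ≤ a) (hab : a ≤ b) (hbc : b ≤ c) (hc : c ≤ 1) (h : a + b + c = 2) :
    Gf P a b c (-1) = 0 := by
  have hc' : c = 2 - (a + b) := by linarith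
  have hb0 : 0 < b := by linarith
  have hc0 : 0 < c := by linarith
  have hs : sn c = sn a * cn b + cn a * sn b := by rw [hc', sn_two_sub, sn_add]
  have hcn : cn c = -(cn a * cn b - sn a * sn b) := by rw [hc', cn_two_sub, cn_add]
  have sa2 := sq_add_sq a
  have sb2 := sq_add_sq b
  have e1 : F P a b (tt a b c (-1)) = F P a b (-1) := by
    rcases eq_or_lt_of_le ha with h0 | h0
    · rw [← h0, F_zero (by linarith) (by linarith), F_zero (by linarith) (by linarith)]
    · have sa := sn_pos h0 (by linarith)
      have sb : 0 < sn b := sn_pos (by linarith) (by linarith)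
      have : tt a b c (-1) = -1 := by
        rw [tt, hcn]; field_simp; ring
      rw [this]
  have e2 : F P a c (tt a c b (-1)) = F P a c (-1) := by
    rcases eq_or_lt_of_le ha with h0 | h0
    · rw [← h0, F_zero (by linarith) (by linarith), F_zero (by linarith) (by linarith)]
    · have sa := sn_pos h0 (by linarith)
      have sc : 0 < sn c := sn_pos (by linarith) (by linarith)
      have : tt a c b (-1) = -1 := by
        rw [tt, div_eq_iff (by positivity), hs, hcn]
        linear_combination (cn b) * sa2
      rw [this]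
  have e3 : F P b c (tt b c a (-1)) = F P b c (-1) := by
    have sb := sn_pos hb0 (by linarith)
    have sc : 0 < sn c := sn_pos (by linarith) (by linarith)
    have : tt b c a (-1) = -1 := by
      rw [tt, div_eq_iff (by positivity), hs, hcn]
      linear_combination (cn a) * sb2
    rw [this]
  have h5 := (id_proof P hP a b c 0 ha hab hbc hc le_rfl).2 (by linarith)
  rw [Gf, e1, e2, e3, h5, sn_zero]
  ring

end

end DEG_

theorem deg_proof : Stmt_DEG := fun _ hP =>
  ⟨fun _ _ _ ha hab hbc hc h => DEG_.one hP ha hab hbc hc h,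
    fun _ _ _ ha hab hbc hc h => DEG_.two hP ha hab hbc hc h⟩

end Pool.Agent.FTN
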