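import Pool.Agent.FTN.Stmts

/-! `F` does not depend on the direction if one angle is `0`. -/

open Real

namespace Pool.Agent.FTN

open Pool.Agent.FTA (TM Alg tmA slA SL Side Core PR Cmp Tr sn cn De kk T1 tt gram reA prA Compat InB sg PSDK scR acR)

theorem f0_proof : Stmt_F0 := by
  intro P q s t h0 h1
  have hD : De 0 = 0 := by unfold De sn; simp
  have hpB : pB P 0 = 0 := by unfold pB; rw [hD]; simp
  have hpE : pE P 0 = 0 := by unfold pE; rw [hD]; simp
  constructor
  · have hk : kk 0 q = 0 := by unfold kk; rw [max_eq_right]; linarith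
    have hm : min 0 q = 0 := min_eq_left h0
    have hW : Wf P 0 q = 0 := by unfold Wf; rw [hk, hm]; simp
    have hR : Rf P 0 q = 0 := by unfold Rf; rw [hk, hm, hD]; simp
    unfold F
    rw [hpB, hpE, hW, hR]; ring
  · have hk : kk q 0 = 0 := by unfold kk; rw [max_eq_right]; linarith
    have hm : min q 0 = 0 := min_eq_right h0
    have hW : Wf P q 0 = 0 := by unfold Wf; rw [hk, hm]; simp
    have hR : Rf P q 0 = 0 := by unfold Rf; rw [hk, hm, hD]; simp
    unfold F
    rw [hpB, hpE, hW, hR]; ring

end Pool.Agent.FTN
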