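import Pool.Agent.FTN.Real
import Pool.Agent.FTA.Stmts

/-! Exact statements of the modules of the parametric certificates (dimension `n`). -/

open Real

namespace Pool.Agent.FTN

open Pool.Agent.FTA (TM Alg tmA slA SL Side Core PR Cmp Tr sn cn De kk T1 tt gram reA prA Compat InB sg PSDK scR acR)

/-! ### 3. Parametricity of the programs -/

def Stmt_PARQ : Prop := ∀ (P : Par) (α β : Type) (A : Alg α) (B : Alg β) (R : α → β → Prop), Compat A B R →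
  ∀ a x t a' x' t', R a a' → R x x' → R t t' →
    List.Forall₂ (List.Forall₂ R) (gN A P a x t) (gN B P a' x' t') ∧
    List.Forall₂ (List.Forall₂ R) (gA A P a x t) (gA B P a' x' t') ∧
    List.Forall₂ (List.Forall₂ R) (gB A P a x t) (gB B P a' x' t') ∧
    List.Forall₂ R (fN A P a x t) (fN B P a' x' t') ∧
    List.Forall₂ R (fP1 A P a x t) (fP1 B P a' x' t') ∧
    List.Forall₂ R (fP2 A P a x t) (fP2 B P a' x' t') ∧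
    List.Forall₂ R (fF1 A P a x t) (fF1 B P a' x' t') ∧
    List.Forall₂ R (fF2 A P a x t) (fF2 B P a' x' t')

def Stmt_PARV : Prop := ∀ (P : Par) (α β : Type) (A : Alg α) (B : Alg β) (R : α → β → Prop), Compat A B R →
  ∀ a x t a' x' t', R a a' → R x x' → R t t' →
    List.Forall₂ (List.Forall₂ R) (gV A P a x t) (gV B P a' x' t') ∧
    List.Forall₂ R (fV1 A P a x t) (fV1 B P a' x' t') ∧
    List.Forall₂ R (fV2 A P a x t) (fV2 B P a' x' t') ∧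
    List.Forall₂ R (fV3 A P a x t) (fV3 B P a' x' t')

def Stmt_PARH : Prop := ∀ (P : Par) (α β : Type) (A : Alg α) (B : Alg β) (R : α → β → Prop), Compat A B R →
  ∀ a x t a' x' t', R a a' → R x x' → R t t' →
    List.Forall₂ (List.Forall₂ R) (gHN A P a x t) (gHN B P a' x' t') ∧
    List.Forall₂ (List.Forall₂ R) (gHP A P a x t) (gHP B P a' x' t') ∧
    List.Forall₂ (List.Forall₂ R) (gHE A P a x t) (gHE B P a' x' t')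

/-! ### 5. Natural values of the programs -/

/-- values of the constants -/
def Stmt_CONS : Prop := ∀ P : Par, Good P →
  0 < sig P ∧ sig P < 1 ∧ 0 < kap P ∧ 0 < bet P ∧ 0 < eps P ∧ eps P ≤ 1 / 2 ∧ 0 ≤ k3 P ∧
  P.ep reA = eps P ∧ P.cB reA = (1 - sig P)⁻¹ ∧ P.cE reA = (sig P)⁻¹ ∧ P.rho reA = rh P ∧
  (((256 - P.m : ℕ) : ℝ) / 2 ^ 8 = 1 - sig P) ∧ (((256 - P.m : ℕ) : ℝ) / 2 ^ 7 = 2 * (1 - sig P)) ∧
  (P.m : ℝ) / 2 ^ 8 = sig P ∧ (P.k : ℝ) / 2 ^ 8 = k3 P ∧ (P.be : ℝ) / 2 ^ 10 = bet P ∧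
  (P.c1 : ℝ) / 2 ^ 9 = 1 + 2 * kap P ∧ (P.c1 : ℝ) / 2 ^ 8 = 2 * (1 + 2 * kap P) ∧
  ((3 * P.c1 : ℕ) : ℝ) / 2 ^ 8 = 6 * (1 + 2 * kap P) ∧
  (P.c4 : ℝ) / 2 ^ 8 = 4 * kap P ∧ (P.c4 : ℝ) / 2 ^ 10 = kap P

/-- the side data in natural terms -/
noncomputable def nside (P : Par) (p : ℝ) : Side ℝ :=
  { t := p, S := sn p, C := cn p, i := p / sn p, d := p / sn p - sn p, q := pB P p / sn p, s := pE P p / sn p }

/-- the three kinds of poles: `p ≤ q`, `k = kk p q`, `y = D / (sn p sn q)` -/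
def Stmt_POLE : Prop := ∀ P : Par, Good P → ∀ p q t y D : ℝ, 0 < p → p ≤ q → q ≤ 1 → 0 < y → t ^ 2 + y ^ 2 = 1 →
  D = y * (sn p * sn q) →
  (0 ≤ t → D * poleA reA P (nside P p) (nside P q) (kk p q / sn p) (sn q)⁻¹ t y = F P p q 1 - F P p q t) ∧
  (t ≤ 0 → D * poleO reA P (nside P p) (nside P q) (kk p q / sn p) (sn q)⁻¹ (-t) y = F P p q (-1) - F P p q t) ∧
  (0 ≤ t → D * poleE reA P (nside P p) (nside P q) (kk p q / sn p) (sn q)⁻¹ t y = F P p q (-1) - F P p q t)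

/-- the identities at `D = 0` -/
def Stmt_ID : Prop := ∀ P : Par, Good P → ∀ a b c e : ℝ, 0 ≤ a → a ≤ b → b ≤ c → c ≤ 1 → 0 ≤ e →
  (c = a + b - 2 * e → 3 - 3 / (P.n : ℝ) - a - b - c - F P a b (-1) - F P a c 1 - F P b c 1 =
    4 * kap P * (sn e * cn e * (4 * (sn a * sn b * sn c) - 2 * (sn e * cn e))) - 2 * (1 + 2 * kap P) * (e + kk a b)) ∧
  (a + b + c = 2 + 2 * e → 3 - 3 / (P.n : ℝ) - a - b - c - F P a b (-1) - F P a c (-1) - F P b c (-1) =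
    4 * kap P * (sn e * cn e * (4 * (sn a * sn b * sn c) - 2 * (sn e * cn e))) - 6 * (1 + 2 * kap P) * e)

/-- natural values of the core -/
def CoreVal (P : Par) (K : Core ℝ) (neg : Bool) (a b c e0 D : ℝ) : Prop :=
  K.a = nside P a ∧ K.b = nside P b ∧ K.c = nside P c ∧ K.isb = (sn b)⁻¹ ∧ K.isc = (sn c)⁻¹ ∧
  K.yz = D / (sn a * sn b) ∧ K.yx = D / (sn a * sn c) ∧ K.yy = D / (sn b * sn c) ∧
  K.xz = tt a b c (sg neg) ∧ K.xx = sg neg * tt a c b (sg neg) ∧ K.xy = sg neg * tt b c a (sg neg) ∧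
  D * K.bs = 4 * kap P * (sn e0 * cn e0 * (4 * (sn a * sn b * sn c) - 2 * (sn e0 * cn e0)))
    - (if neg = true then 6 * (1 + 2 * kap P) else 2 * (1 + 2 * kap P)) * e0 ∧
  D * K.kd = 2 * e0

/-- the core program, `D = sqrt gram` -/
def Stmt_CORE : Prop := ∀ P : Par, Good P → ∀ (neg : Bool) (a be gm f0 f1 τ : ℝ),
  0 < a → a ≤ 1 - be → 0 ≤ gm → gm ≤ be → 0 < f0 → f0 ≤ f1 → f0 + f1 = 1 → 0 < τ → τ ^ 2 * f1 = f0 →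
  (if neg = true then be + gm = a * (f1 - f0) else be - gm = a * (f1 - f0)) →
  0 < gram a (1 - be) (1 - gm) (sg neg) ∧
  CoreVal P (core reA P neg a be gm f0 f1 τ) neg a (1 - be) (1 - gm) (a * f0) (√(gram a (1 - be) (1 - gm) (sg neg)))

/-- from the core to the slack, negative type -/
def Stmt_QN : Prop := ∀ P : Par, Good P → ∀ (K : Core ℝ) (a b c e0 D kz kx : ℝ), 0 < a → a ≤ b → b ≤ c → c ≤ 1 → 0 ≤ e0 →
  a + b + c = 2 + 2 * e0 → D ^ 2 = gram a b c (-1) → 0 < D → CoreVal P K true a b c e0 D →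
  kz = kk a b / sn a → kx = kk a c / sn a →
  Gf P a b c (-1) = D * qN reA P K (1 - b) (1 - c) kz kx

/-- from the core to the slack, positive type; `kz, kx` arbitrary, true kinks -/
def Stmt_QP : Prop := ∀ P : Par, Good P → ∀ (K : Core ℝ) (a b c e0 D kz kx kD : ℝ), 0 < a → a ≤ b → b ≤ c → c ≤ 1 → 0 ≤ e0 →
  c = a + b - 2 * e0 → D ^ 2 = gram a b c 1 → 0 < D → CoreVal P K false a b c e0 D → 1 ≤ b + c →
  kz = kk a b / sn a → kx = kk a c / sn a → D * kD = kk a b →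
  (tt a b c 1 ≤ 0 → Gf P a b c 1 = D * qP reA P false K (1 - c) kz kx kD) ∧
  (0 ≤ tt a b c 1 → Gf P a b c 1 = D * qP reA P true K (1 - c) kz kx kD)

/-- `qP` is affine in the kinks -/
def Stmt_AFF : Prop := ∀ (P : Par) (ev : Bool) (K : Core ℝ) (gm l0 l1 l2 z0 z1 z2 x0 x1 x2 d0 d1 d2 : ℝ), l0 + l1 + l2 = 1 →
  qP reA P ev K gm (l0 * z0 + l1 * z1 + l2 * z2) (l0 * x0 + l1 * x1 + l2 * x2) (l0 * d0 + l1 * d1 + l2 * d2) =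
    l0 * qP reA P ev K gm z0 x0 d0 + l1 * qP reA P ev K gm z1 x1 d1 + l2 * qP reA P ev K gm z2 x2 d2

/-! closed forms of the charts: `G = D * program` with `D > 0` -/

def Stmt_CN : Prop := ∀ P : Par, Good P → ∀ a x t be gm : ℝ, 0 < a → 0 ≤ x → x ≤ 1 → 0 < t → t ≤ 1 →
  gm = a * ((1 - t ^ 2) / (1 + t ^ 2) * x / 2) → be = a * ((1 - t ^ 2) / (1 + t ^ 2) * (1 - x / 2)) → a ≤ 1 - be →
  ∃ D, 0 < D ∧ Gf P a (1 - be) (1 - gm) (-1) = D * cN reA P a x t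

def Stmt_CA : Prop := ∀ P : Par, Good P → ∀ a x t be gm : ℝ, 0 < a → 0 ≤ x → x ≤ 1 → 0 < t → t ≤ 1 →
  gm = a * (2 * t ^ 2 / (1 + t ^ 2) * x) → be = gm + a * ((1 - t ^ 2) / (1 + t ^ 2)) → a ≤ 1 - be →
  ∃ D, 0 < D ∧ (cA reA P a x t).xz = tt a (1 - be) (1 - gm) 1 ∧
    ((cA reA P a x t).xz ≤ 0 → Gf P a (1 - be) (1 - gm) 1 = D * (cA reA P a x t).o) ∧
    (0 ≤ (cA reA P a x t).xz → Gf P a (1 - be) (1 - gm) 1 = D * (cA reA P a x t).e)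

def Stmt_CB : Prop := ∀ P : Par, Good P → ∀ a x t be gm : ℝ, 0 < a → 0 ≤ x → x ≤ 1 → 0 < t → t ≤ 1 →
  gm = a * (2 * t ^ 2 / (1 + t ^ 2) + (1 - t ^ 2) / (1 + t ^ 2) * x) → be = gm + a * ((1 - t ^ 2) / (1 + t ^ 2)) →
  a ≤ 1 - be →
  ∃ D, 0 < D ∧ (cB reA P a x t).xz = tt a (1 - be) (1 - gm) 1 ∧
    ((cB reA P a x t).xz ≤ 0 → Gf P a (1 - be) (1 - gm) 1 = D * (cB reA P a x t).o) ∧
    (0 ≤ (cB reA P a x t).xz → Gf P a (1 - be) (1 - gm) 1 = D * (cB reA P a x t).e)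

def Stmt_CV : Prop := ∀ P : Par, Good P → ∀ (k1 : Bool) (rho b t a c : ℝ), 0 < rho → rho ≤ 1 → 0 < b → 0 < t → t ≤ 1 →
  a = rho * b → c = b * (1 + rho * ((1 - t ^ 2) / (1 + t ^ 2))) → a + c ≤ 1 →
  (if k1 = true then 1 ≤ b + c else b + c ≤ 1) →
  ∃ D, 0 < D ∧ (cV reA P k1 rho b t).xz = tt a b c 1 ∧
    ((cV reA P k1 rho b t).xz ≤ 0 → Gf P a b c 1 = D * (cV reA P k1 rho b t).o) ∧
    (0 ≤ (cV reA P k1 rho b t).xz → Gf P a b c 1 = D * (cV reA P k1 rho b t).e)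

/-- charts near the edge, negative type -/
def Stmt_CEN : Prop := ∀ P : Par, Good P → ∀ a xi x : ℝ, 0 < a → 0 ≤ xi → xi < 1 → 0 ≤ x → x ≤ 1 →
  a ≤ 1 - a * (xi - xi * x / 2) →
  ∃ D, 0 < D ∧ Gf P a (1 - a * (xi - xi * x / 2)) (1 - a * (xi * x / 2)) (-1) = D * eN reA P a xi x

/-- near `V1`, positive type: convex combination of the three kink modes -/
def Stmt_CEP : Prop := ∀ P : Par, Good P → ∀ a xi gm : ℝ, 0 < a → 0 ≤ xi → xi < 1 → 0 ≤ gm →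
  a ≤ 1 - (gm + a * xi) → gm + (gm + a * xi) ≤ 1 →
  ∃ D l0 l1 l2 : ℝ, ∃ ev : Bool, 0 < D ∧ 0 ≤ l0 ∧ 0 ≤ l1 ∧ 0 ≤ l2 ∧ l0 + l1 + l2 = 1 ∧
    Gf P a (1 - (gm + a * xi)) (1 - gm) 1 =
      D * (l0 * eP reA P 0 ev a xi gm + l1 * eP reA P 1 ev a xi gm + l2 * eP reA P 2 ev a xi gm)

/-- edge, positive type, all kinks active -/
def Stmt_CEF : Prop := ∀ P : Par, Good P → ∀ a xi g : ℝ, 0 < a → 0 ≤ xi → xi < 1 → 0 ≤ g → g ≤ 1 - xi →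
  a ≤ 1 - a * (g + xi) → a * g + a * (g + xi) ≤ 1 →
  ∃ D, ∃ ev : Bool, 0 < D ∧ Gf P a (1 - a * (g + xi)) (1 - a * g) 1 = D * eF reA P ev a xi g

/-- reference values are zero -/
def Stmt_REF : Prop := ∀ P : Par, Good P → (∀ a x : ℝ, 0 < a → a < 1 → 0 ≤ x → x ≤ 1 → eN reA P a 0 x = 0) ∧
  (∀ a : ℝ, 0 < a → a < 1 → ∀ ev : Bool, ∀ m : ℕ, m < 3 → eP reA P m ev a 0 0 = 0) ∧
  (∀ a : ℝ, 0 < a → a < 1 → ∀ ev : Bool, eF reA P ev a 0 0 = 0) ∧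
  (cV reA P false 1 0 0).o = 0

/-- `F` in complement variables -/
def Stmt_HBN : Prop := ∀ P : Par, Good P →
  (∀ al be t : ℝ, 0 ≤ be → be ≤ al → al ≤ 3 / 16 → F P (1 - al) (1 - be) t =
    (1 + eps P) * (-(1 / (P.n : ℝ)) + al + kap P * De al) * (-(1 / (P.n : ℝ)) + be + kap P * De be)
    + (1 - sig P)⁻¹ * (((1 - sig P) * (1 - al) - bet P * De al) * ((1 - sig P) * (1 - be) - bet P * De be)) * (|T1 t| - eps P)
    + (sig P)⁻¹ * ((sig P * (1 - al) - k3 P * De al) * (sig P * (1 - be) - k3 P * De be)) * (t ^ 2 - eps P)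
    + ((1 + 2 * kap P) * be - 4 * kap P * (sn al * cn al * (sn be * cn be))) * (t + T1 t) / 2
    + ((1 + 2 * kap P) * (be * (1 - 2 * al)) - rh P * (De al * De be)) * t ^ 2) ∧
  (∀ x : ℝ, 0 ≤ x → x ≤ 1 → |De x| ≤ x) ∧ (∀ x : ℝ, 0 ≤ x → x ≤ 1 → 0 ≤ pB P x)

/-- complement form near `V3`, the three cases -/
def Stmt_CHN : Prop := ∀ P : Par, Good P → ∀ al s u : ℝ, 0 ≤ al → al ≤ 3 / 16 → 0 ≤ s → s ≤ 1 → 0 ≤ u → u ≤ 1 →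
  al * (al * s) * (hF reA P true false al s u u).1 ≤ Gf P (1 - al) (1 - al * s) (1 - al * s * u) (-1)

def Stmt_CHP : Prop := ∀ P : Par, Good P → ∀ al s u : ℝ, 0 ≤ al → al ≤ 3 / 16 → 0 ≤ s → s ≤ 1 → 0 ≤ u → u ≤ 1 →
  0 ≤ tt (1 - al) (1 - al * s) (1 - al * s * u) 1 →
  0 ≤ al * s * (hF reA P false false al s u u).2 ∧
  al * (al * s) * (hF reA P false false al s u u).1 ≤ Gf P (1 - al) (1 - al * s) (1 - al * s * u) 1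

def Stmt_CHE : Prop := ∀ P : Par, Good P → ∀ al s v : ℝ, 0 ≤ al → al ≤ 3 / 16 → 0 ≤ s → s ≤ 1 → 0 ≤ v → al * v ≤ 1 →
  tt (1 - al) (1 - al * s) (1 - al * s * (al * v)) 1 ≤ 0 →
  0 ≤ al * s * (hF reA P false true al s (al * v) v).2 ∧
  al * (al * s) * (hF reA P false true al s (al * v) v).1 ≤ Gf P (1 - al) (1 - al * s) (1 - al * s * (al * v)) 1

/-! ### 6. The results of the kernel checks in natural form (for one parameter `P`) -/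

def RN (P : Par) : Prop := ∀ a x t : ℝ, 0 ≤ a → a ≤ 13 / 16 → 0 ≤ x → x ≤ 1 → 0 ≤ t → t ≤ 113 / 128 →
  a ≤ 1 - a * ((1 - t ^ 2) / (1 + t ^ 2) * (1 - x / 2)) → 0 < cN reA P a x t

def RA (P : Par) : Prop := ∀ a x t : ℝ, 0 ≤ a → a ≤ 13 / 16 → 0 ≤ x → x ≤ 1 → 0 ≤ t → t ≤ 1 →
  a ≤ 1 - a * (2 * t ^ 2 / (1 + t ^ 2) * x + (1 - t ^ 2) / (1 + t ^ 2)) →
  ¬ ((1 - t ^ 2) / (1 + t ^ 2) < 1 / 8 ∧ (2 * t ^ 2 / (1 + t ^ 2) * x < 1 / 8 ∨ a < 3 / 32)) →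
  ((cA reA P a x t).xz ≤ 0 → 0 < (cA reA P a x t).o) ∧ (0 ≤ (cA reA P a x t).xz → 0 < (cA reA P a x t).e)

def RB (P : Par) : Prop := ∀ a x t : ℝ, 0 ≤ a → a ≤ 13 / 16 → 0 ≤ x → x ≤ 1 → 0 ≤ t → t ≤ 1 →
  a ≤ 1 - a * (2 * t ^ 2 / (1 + t ^ 2) + (1 - t ^ 2) / (1 + t ^ 2) * x + (1 - t ^ 2) / (1 + t ^ 2)) →
  ¬ ((1 - t ^ 2) / (1 + t ^ 2) < 1 / 8 ∧ a < 3 / 32) →
  ((cB reA P a x t).xz ≤ 0 → 0 < (cB reA P a x t).o) ∧ (0 ≤ (cB reA P a x t).xz → 0 < (cB reA P a x t).e)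

def RV (P : Par) : Prop := ∀ (k1 : Bool) (rho b t : ℝ), 0 ≤ rho → rho ≤ 1 → 0 ≤ b → b ≤ 1 → 0 ≤ t → t ≤ 1 →
  ∀ c : ℝ, c = b * (1 + rho * ((1 - t ^ 2) / (1 + t ^ 2))) → rho * b + c ≤ 1 →
  (if k1 = true then 1 ≤ b + c else b + c ≤ 1) →
  ¬ ((1 - t ^ 2) / (1 + t ^ 2) < 1 / 8 ∧ 1 - c < 3 / 32) → ¬ (31 / 32 ≤ rho ∧ b ≤ 1 / 32 ∧ t ≤ 1 / 32) →
  ((cV reA P k1 rho b t).xz ≤ 0 → 0 < (cV reA P k1 rho b t).o) ∧ (0 ≤ (cV reA P k1 rho b t).xz → 0 < (cV reA P k1 rho b t).e)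

def RH (P : Par) : Prop :=
  (∀ al s u : ℝ, 0 ≤ al → al ≤ 3 / 16 → 0 ≤ s → s ≤ 1 → 0 ≤ u → u ≤ 1 → 0 < (hF reA P true false al s u u).1) ∧
  (∀ al s u : ℝ, 0 ≤ al → al ≤ 3 / 16 → 0 ≤ s → s ≤ 1 → 0 ≤ u → u ≤ 1 → 0 ≤ (hF reA P false false al s u u).2 →
    0 < (hF reA P false false al s u u).1) ∧
  (∀ al s v : ℝ, 0 ≤ al → al ≤ 3 / 16 → 0 ≤ s → s ≤ 1 → 0 ≤ v → v ≤ 13 / 8 →
    0 ≤ (hF reA P false true al s (al * v) v).2 → 0 < (hF reA P false true al s (al * v) v).1)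

def RS (P : Par) : Prop :=
  (∀ a r s : ℝ, 0 ≤ a → a ≤ 13 / 16 → 0 ≤ r → r ≤ 1 / 8 → 0 ≤ s → s ≤ 1 → eN reA P a 0 s ≤ eN reA P a r s) ∧
  (∀ a r s : ℝ, 0 ≤ a → a ≤ 3 / 32 → 0 ≤ r → r ≤ 1 / 8 → 0 ≤ s → s ≤ 1 → ∀ m : ℕ, m < 3 → ∀ ev : Bool,
    eP reA P m ev a 0 0 ≤ eP reA P m ev a r (r * s)) ∧
  (∀ a r s : ℝ, 0 ≤ a → a ≤ 3 / 32 → 0 ≤ r → r ≤ 3 / 32 → 0 ≤ s → s ≤ 1 → ∀ m : ℕ, m < 3 → ∀ ev : Bool,
    eP reA P m ev a 0 0 ≤ eP reA P m ev a (r * s) r) ∧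
  (∀ a r s : ℝ, 3 / 32 ≤ a → a ≤ 13 / 16 → 0 ≤ r → r ≤ 1 / 8 → 0 ≤ s → s ≤ 1 → ∀ ev : Bool,
    eF reA P ev a 0 0 ≤ eF reA P ev a r (r * s) ∧ eF reA P ev a 0 0 ≤ eF reA P ev a (r * s) r) ∧
  (∀ x b t : ℝ, 0 ≤ x → x ≤ 1 / 32 → 0 ≤ b → b ≤ 1 / 32 → 0 ≤ t → t ≤ 1 / 32 →
    (cV reA P false 1 0 0).o ≤ (cV reA P false (1 - x) b t).o)

/-- everything that the kernel checks give for the parameter `P` -/
def RALL (P : Par) : Prop := RN P ∧ RA P ∧ RB P ∧ RV P ∧ RH P ∧ RS P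

/-! ### 7. Covering and the main inequality -/

def Stmt_COVN : Prop := ∀ P : Par, Good P → RALL P →
  ∀ a b c : ℝ, 0 < a → a ≤ b → b ≤ c → c ≤ 1 → 2 < a + b + c → 0 ≤ Gf P a b c (-1)
def Stmt_COVP : Prop := ∀ P : Par, Good P → RALL P →
  ∀ a b c : ℝ, 0 < a → a ≤ b → b ≤ c → c ≤ 1 → c < a + b → 0 ≤ Gf P a b c 1
/-- degenerate cases -/
def Stmt_DEG : Prop := ∀ P : Par, Good P →
  (∀ a b c : ℝ, 0 ≤ a → a ≤ b → b ≤ c → c ≤ 1 → c = a + b → Gf P a b c 1 = 0) ∧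
  (∀ a b c : ℝ, 0 ≤ a → a ≤ b → b ≤ c → c ≤ 1 → a + b + c = 2 → Gf P a b c (-1) = 0)
/-- the main inequality for the parameter `P` -/
def MIP (P : Par) : Prop := ∀ a b c s : ℝ, 0 ≤ a → a ≤ 1 → 0 ≤ b → b ≤ 1 → 0 ≤ c → c ≤ 1 → (s = 1 ∨ s = -1) →
  0 ≤ gram a b c s → 0 ≤ Gf P a b c s
def Stmt_MI : Prop := ∀ P : Par, Good P → RALL P → MIP P

/-! ### 8. Positive definiteness -/

/-- the unit sphere of `R^n` -/
abbrev En (n : ℕ) := EuclideanSpace ℝ (Fin n)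
abbrev Sp (n : ℕ) := {x : En n // ‖x‖ = 1}

/-- `(2 / pi) arcsin <x, y>` is positive semidefinite on the sphere -/
def Stmt_ASN : Prop := ∀ n : ℕ, PSDK (fun x y : Sp n => T1 (inner ℝ x.1 y.1))
/-- powers of the inner product -/
def Stmt_TRC : Prop := ∀ n : ℕ, PSDK (fun x y : Sp n => inner ℝ x.1 y.1) ∧ PSDK (fun x y : Sp n => (inner ℝ x.1 y.1) ^ 2) ∧
  (1 ≤ n → PSDK (fun x y : Sp n => (inner ℝ x.1 y.1) ^ 2 - 1 / (n : ℝ)))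
def Stmt_PW : Prop := ∀ P : Par, Good P → PSDK (fun x y : Set.Icc (0 : ℝ) 1 => Wf P x y)
def Stmt_PR : Prop := ∀ P : Par, Good P → PSDK (fun x y : Set.Icc (0 : ℝ) 1 => Rf P x y)

/-- the statement for the dimension `n`: weighted sums, `T1 |t| = (2 / pi) arcsin |t|` -/
def WB (n : ℕ) : Prop := ∀ (N : ℕ) (x : Fin N → En n) (w : Fin N → ℝ), (∀ i, ‖x i‖ = 1) → (∀ i, 0 ≤ w i) →
  (∑ i, w i) ^ 2 / (n : ℝ) ≤ ∑ i, ∑ j, w i * w j * T1 |inner ℝ (x i) (x j)|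

/-- positivity of the pole sums -/
def Stmt_POL : Prop := ∀ P : Par, Good P → WB (P.n - 1) → ∀ (N : ℕ) (a : Fin N → ℝ) (e : Fin N → En (P.n - 1)) (w : Fin N → ℝ),
  (∀ i, 0 ≤ a i ∧ a i ≤ 1) → (∀ i, ‖e i‖ = 1) → (∀ i, 0 ≤ w i) →
  0 ≤ ∑ i, ∑ j, w i * w j * F P (a i) (a j) (inner ℝ (e i) (e j))

/-! ### 9. Geometry -/

noncomputable def ang {n : ℕ} (x y : En n) : ℝ := 2 / π * Real.arccos |inner ℝ x y|
noncomputable def sgp (r : ℝ) : ℝ := if 0 ≤ r then 1 else -1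
noncomputable def tz {n : ℕ} (z x y : En n) : ℝ :=
  (sgp (inner ℝ z x) * sgp (inner ℝ z y) * inner ℝ x y - |inner ℝ z x| * |inner ℝ z y|) / (sn (ang z x) * sn (ang z y))

/-- directions at a pole -/
def Stmt_AZN : Prop := ∀ (n : ℕ) (z : En (n + 2)), ‖z‖ = 1 → ∃ e : En (n + 2) → En (n + 1), (∀ x, ‖x‖ = 1 → ‖e x‖ = 1) ∧
  ∀ x y, ‖x‖ = 1 → ‖y‖ = 1 → 0 < ang z x → 0 < ang z y → tz z x y = inner ℝ (e x) (e y)
/-- `F` does not depend on the direction if one angle is `0` -/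
def Stmt_F0 : Prop := ∀ (P : Par) (q s t : ℝ), 0 ≤ q → q ≤ 1 → F P 0 q s = F P 0 q t ∧ F P q 0 s = F P q 0 t
def Stmt_TRN : Prop := ∀ P : Par, Good P → MIP P → ∀ (n : ℕ) (x y z : En n), ‖x‖ = 1 → ‖y‖ = 1 → ‖z‖ = 1 →
  F P (ang z x) (ang z y) (tz z x y) + F P (ang x y) (ang x z) (tz x y z) + F P (ang y z) (ang y x) (tz y z x)
    ≤ 3 - 3 / (P.n : ℝ) - ang x y - ang y z - ang z x
/-- induction step -/
def Stmt_STEP : Prop := ∀ P : Par, Good P → MIP P → WB (P.n - 1) → WB P.n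
/-- the circle -/
def Stmt_BASE : Prop := WB 2

/-! ### 10. The final statements -/

/-- sum of the angles -/
def Stmt_SUMN : Prop := ∀ n : ℕ, 1 ≤ n → WB n → ∀ (N : ℕ) (x : Fin N → En n), (∀ i, ‖x i‖ = 1) →
  ∑ i, ∑ j, Real.arccos |inner ℝ (x i) (x j)| ≤ (1 - 1 / (n : ℝ)) * (N : ℝ) ^ 2 * (π / 2)
/-- the continuous version -/
def Stmt_MEASN : Prop := ∀ n : ℕ, 1 ≤ n → WB n → ∀ μ : MeasureTheory.Measure (En n), MeasureTheory.IsProbabilityMeasure μ →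
  μ (Metric.sphere 0 1)ᶜ = 0 → ∫ x, ∫ y, Real.arccos |inner ℝ x y| ∂μ ∂μ ≤ (1 - 1 / (n : ℝ)) * (π / 2)

end Pool.Agent.FTN
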