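import Pool.Agent.FTA.Defs
import Pool.Agent.FTN.Stmts

/-! Values at the periodic orthonormal configurations, all dimensions. -/

open Real

namespace Pool.Agent.FTN

open Pool.Agent.FTA (Eu lineAngle energy PeriodicOrthonormal)

namespace FIN_

variable {d N : ℕ}

theorem per_mod {y : Fin N → Eu d} (h : PeriodicOrthonormal y) :
    ∀ (n : ℕ) (i : Fin N) (hr : n % (d + 1) < N), (i : ℕ) = n → y i = y ⟨n % (d + 1), hr⟩ := by
  intro n
  induction n using Nat.strong_induction_on with
  | _ n ih =>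
    intro i hr hi
    by_cases h3 : n < d + 1
    · have hm : n % (d + 1) = n := Nat.mod_eq_of_lt h3
      have : i = ⟨n % (d + 1), hr⟩ := by
        apply Fin.ext
        simp only [hi, hm]
      rw [this]
    · have hlt : n - (d + 1) < N := by have := i.2; omega
      have e : y i = y ⟨n - (d + 1), hlt⟩ := h.per i ⟨n - (d + 1), hlt⟩ (by simp only [hi]; omega)
      have hm : (n - (d + 1)) % (d + 1) = n % (d + 1) := by
        rw [← Nat.mod_eq_sub_mod (by omega)]
      have hr' : (n - (d + 1)) % (d + 1) < N := by rw [hm]; exact hr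
      rw [e, ih (n - (d + 1)) (by omega) ⟨n - (d + 1), hlt⟩ hr' rfl]
      congr 2

/-- angles of a periodic orthonormal configuration -/
theorem inner_val {y : Fin N → Eu d} (h : PeriodicOrthonormal y) (i j : Fin N) :
    lineAngle (y i) (y j) = if (i : ℕ) % (d + 1) = (j : ℕ) % (d + 1) then 0 else π / 2 := by
  have hi : (i : ℕ) % (d + 1) < N := lt_of_le_of_lt (Nat.mod_le _ _) i.2
  have hj : (j : ℕ) % (d + 1) < N := lt_of_le_of_lt (Nat.mod_le _ _) j.2
  rw [per_mod h i i hi rfl, per_mod h j j hj rfl]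
  split_ifs with e
  · have e' : (⟨(i : ℕ) % (d + 1), hi⟩ : Fin N) = ⟨(j : ℕ) % (d + 1), hj⟩ := Fin.ext e
    rw [e', lineAngle, real_inner_self_eq_norm_sq, h.unit]
    simp
  · have := h.orth ⟨(i : ℕ) % (d + 1), hi⟩ ⟨(j : ℕ) % (d + 1), hj⟩ (Nat.mod_lt _ (by omega)) (Nat.mod_lt _ (by omega))
      (fun h => e (by simpa using h))
    rw [lineAngle, this]
    simp

/-- number of indices below `n` congruent to `r` modulo `m` -/
def cnt (m n r : ℕ) : ℕ := ∑ j ∈ Finset.range n, if j % m = r then 1 else 0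

theorem cnt_succ (m n r : ℕ) : cnt m (n + 1) r = cnt m n r + if n % m = r then 1 else 0 := by
  unfold cnt
  rw [Finset.sum_range_succ]

theorem cnt_val (m : ℕ) (hm : 0 < m) (n r : ℕ) (hr : r < m) : cnt m n r = n / m + (if r < n % m then 1 else 0) := by
  induction n with
  | zero => simp [cnt]
  | succ n ih =>
    rw [cnt_succ, ih]
    have h1 := Nat.mod_lt n hm
    rcases Nat.lt_or_ge (n % m + 1) m with h | h
    · have e1 : (n + 1) / m = n / m := by
        rw [Nat.succ_div]
        rw [if_neg, add_zero]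
        intro hd
        have := Nat.mod_eq_zero_of_dvd hd
        rw [Nat.add_mod, Nat.mod_eq_of_lt (a := 1) (by omega)] at this
        rw [Nat.mod_eq_of_lt h] at this
        omega
      have e2 : (n + 1) % m = n % m + 1 := by
        rw [Nat.add_mod, Nat.mod_eq_of_lt (a := 1) (by omega), Nat.mod_eq_of_lt h]
      rw [e1, e2]
      split_ifs <;> omega
    · have h2 : n % m + 1 = m := by omega
      have hdvd : m ∣ n + 1 := by
        refine Nat.dvd_of_mod_eq_zero ?_
        have := Nat.div_add_mod n m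
        have e : n + 1 = m * (n / m + 1) := by
          rw [mul_add, mul_one]; omega
        rw [e]; exact Nat.mul_mod_right _ _
      have e1 : (n + 1) / m = n / m + 1 := by
        rw [Nat.succ_div, if_pos hdvd]
      have e2 : (n + 1) % m = 0 := Nat.mod_eq_zero_of_dvd hdvd
      rw [e1, e2]
      split_ifs <;> omega

theorem sum_mod (m : ℕ) (hm : 0 < m) (n : ℕ) (f : ℕ → ℝ) :
    ∑ i : Fin n, f ((i : ℕ) % m) = ∑ r ∈ Finset.range m, (cnt m n r : ℝ) * f r := by
  rw [Fin.sum_univ_eq_sum_range (fun i => f (i % m)) n]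
  induction n with
  | zero => simp [cnt]
  | succ n ih =>
    rw [Finset.sum_range_succ, ih]
    have : ∑ r ∈ Finset.range m, (cnt m (n + 1) r : ℝ) * f r =
        ∑ r ∈ Finset.range m, ((cnt m n r : ℝ) * f r + if n % m = r then f r else 0) := by
      refine Finset.sum_congr rfl fun r _ => ?_
      rw [cnt_succ]
      push_cast
      split_ifs <;> ring
    rw [this, Finset.sum_add_distrib, Finset.sum_ite_eq, if_pos (Finset.mem_range.2 (Nat.mod_lt _ hm))]

theorem sum_cnt (m : ℕ) (hm : 0 < m) (n : ℕ) : ∑ r ∈ Finset.range m, (cnt m n r : ℝ) = n := by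
  have := sum_mod m hm n (fun _ => 1)
  simp only [mul_one] at this
  rw [← this]
  simp

theorem sum_lt (m s : ℕ) (hs : s ≤ m) (c : ℝ) : ∑ r ∈ Finset.range m, (if r < s then c else 0) = s * c := by
  rw [← Finset.sum_filter]
  have : (Finset.range m).filter (fun r => r < s) = Finset.range s := by
    ext r; simp only [Finset.mem_filter, Finset.mem_range]; omega
  rw [this]; simp

theorem energy_val {y : Fin N → Eu d} (h : PeriodicOrthonormal y) :
    energy y = π / 2 * ((1 - 1 / ((d : ℝ) + 1)) * (N : ℝ) ^ 2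
      - ((N % (d + 1) : ℕ) : ℝ) * ((d : ℝ) + 1 - ((N % (d + 1) : ℕ) : ℝ)) / ((d : ℝ) + 1)) := by
  have hm : 0 < d + 1 := by omega
  have e : energy y = ∑ i : Fin N, ∑ j : Fin N, (if (i : ℕ) % (d + 1) = (j : ℕ) % (d + 1) then 0 else π / 2) := by
    unfold energy
    exact Finset.sum_congr rfl fun i _ => Finset.sum_congr rfl fun j _ => inner_val h i j
  rw [e]
  have e2 : ∀ i : Fin N, (∑ j : Fin N, (if (i : ℕ) % (d + 1) = (j : ℕ) % (d + 1) then 0 else π / 2)) =
      (fun r : ℕ => (π / 2 * ((N : ℝ) - cnt (d + 1) N r) : ℝ)) ((i : ℕ) % (d + 1)) := by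
    intro i
    rw [sum_mod (d + 1) hm N (fun r => if (i : ℕ) % (d + 1) = r then 0 else π / 2)]
    have : ∀ r, (cnt (d + 1) N r : ℝ) * (if (i : ℕ) % (d + 1) = r then 0 else π / 2) =
        π / 2 * (cnt (d + 1) N r : ℝ) - (if (i : ℕ) % (d + 1) = r then π / 2 * (cnt (d + 1) N r : ℝ) else 0) := by
      intro r; split_ifs <;> ring
    simp only [this]
    rw [Finset.sum_sub_distrib, ← Finset.mul_sum, sum_cnt _ hm, Finset.sum_ite_eq,
      if_pos (Finset.mem_range.2 (Nat.mod_lt _ hm))]
    ring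
  rw [Finset.sum_congr rfl fun i _ => e2 i,
    sum_mod (d + 1) hm N (fun r : ℕ => (π / 2 * ((N : ℝ) - cnt (d + 1) N r) : ℝ))]
  have hs := Nat.mod_lt N hm
  set s := N % (d + 1) with hsd
  set k := N / (d + 1) with hk
  have hN : (N : ℝ) = ((d : ℝ) + 1) * k + s := by
    have := Nat.div_add_mod N (d + 1)
    rw [← hk, ← hsd] at this
    rw [← this]; push_cast; ring
  have e3 : ∀ r ∈ Finset.range (d + 1), (cnt (d + 1) N r : ℝ) * (π / 2 * ((N : ℝ) - cnt (d + 1) N r)) =
      π / 2 * ((k : ℝ) * (N - k)) + (if r < s then π / 2 * ((N : ℝ) - 2 * k - 1) else 0) := by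
    intro r hr
    rw [cnt_val _ hm N r (Finset.mem_range.1 hr), ← hk, ← hsd]
    push_cast
    split_ifs <;> ring
  rw [Finset.sum_congr rfl e3, Finset.sum_add_distrib, sum_lt _ _ hs.le, Finset.sum_const, Finset.card_range,
    nsmul_eq_mul, hN]
  push_cast
  have : (d : ℝ) + 1 ≠ 0 := by positivity
  field_simp
  ring

/-- comparison of the bound `(1 - 1/(d+1)) N^2 pi / 2` with the value at a periodic orthonormal configuration -/
theorem compare (x y : Fin N → Eu d) (hE : energy x ≤ (1 - 1 / ((d : ℝ) + 1)) * (N : ℝ) ^ 2 * (π / 2))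
    (hy : PeriodicOrthonormal y) :
    energy x ≤ energy y + π / 2 * (((N % (d + 1) : ℕ) : ℝ) * ((d : ℝ) + 1 - ((N % (d + 1) : ℕ) : ℝ)) / ((d : ℝ) + 1)) := by
  rw [energy_val hy]
  linarith

/-- the average of the angle over an orthonormal basis -/
theorem basis_val (e : Fin (d + 1) → Eu d) (he : Orthonormal ℝ e) :
    ((d : ℝ) + 1)⁻¹ * (((d : ℝ) + 1)⁻¹ * ∑ i, ∑ j, lineAngle (e i) (e j)) = (1 - 1 / ((d : ℝ) + 1)) * (π / 2) := by
  have h : ∀ i j, lineAngle (e i) (e j) = π / 2 - if i = j then π / 2 else 0 := by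
    intro i j
    rw [lineAngle, orthonormal_iff_ite.1 he i j]
    split_ifs <;> simp
  have h2 : ∀ i, ∑ j, lineAngle (e i) (e j) = (d : ℝ) * (π / 2) := by
    intro i
    simp only [h, Finset.sum_sub_distrib, Finset.sum_const, Finset.card_univ, Fintype.card_fin, nsmul_eq_mul,
      Finset.sum_ite_eq, Finset.mem_univ, if_true]
    push_cast; ring
  simp only [h2, Finset.sum_const, Finset.card_univ, Fintype.card_fin, nsmul_eq_mul]
  push_cast
  have : (d : ℝ) + 1 ≠ 0 := by positivity
  field_simp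
  ring

open MeasureTheory in
/-- the uniform probability measure on the vectors `e i` -/
theorem basis_integral (e : Fin (d + 1) → Eu d) (he : Orthonormal ℝ e) :
    ∫ x, ∫ y, lineAngle x y ∂(((d : ENNReal) + 1)⁻¹ • ∑ i, Measure.dirac (e i)) ∂(((d : ENNReal) + 1)⁻¹ • ∑ i, Measure.dirac (e i))
      = (1 - 1 / ((d : ℝ) + 1)) * (π / 2) := by
  have hc : (((d : ENNReal) + 1)⁻¹).toReal = ((d : ℝ) + 1)⁻¹ := by
    rw [ENNReal.toReal_inv, ENNReal.toReal_add (by simp) (by simp)]
    simp
  have key : ∀ f : Eu d → ℝ, ∫ x, f x ∂(((d : ENNReal) + 1)⁻¹ • ∑ i, Measure.dirac (e i)) = ((d : ℝ) + 1)⁻¹ * ∑ i, f (e i) := by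
    intro f
    rw [integral_smul_measure, integral_finsetSum_measure]
    · simp only [integral_dirac, hc, smul_eq_mul]
    · intro i _
      exact integrable_dirac (by simp)
  have h2 : ∀ x, ∫ y, lineAngle x y ∂(((d : ENNReal) + 1)⁻¹ • ∑ i, Measure.dirac (e i)) = ((d : ℝ) + 1)⁻¹ * ∑ j, lineAngle x (e j) := by
    intro x
    exact key _
  simp only [h2]
  rw [key, ← basis_val e he, ← Finset.mul_sum]

end FIN_

end Pool.Agent.FTN
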