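import Pool.Agent.FTN.Stmts

/-! The parameters for the dimensions `3, ..., 10`. -/

namespace Pool.Agent.FTN

theorem good3 : Good ⟨3, 128, 96⟩ := by
  refine ⟨by norm_num, by norm_num, by norm_num, by norm_num, ?_, ?_, ?_⟩ <;> norm_num [rh, bet, kap, sig, k3, eps]
theorem good4 : Good ⟨4, 108, 132⟩ := by
  refine ⟨by norm_num, by norm_num, by norm_num, by norm_num, ?_, ?_, ?_⟩ <;> norm_num [rh, bet, kap, sig, k3, eps]
theorem good5 : Good ⟨5, 93, 157⟩ := by
  refine ⟨by norm_num, by norm_num, by norm_num, by norm_num, ?_, ?_, ?_⟩ <;> norm_num [rh, bet, kap, sig, k3, eps]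
theorem good6 : Good ⟨6, 83, 177⟩ := by
  refine ⟨by norm_num, by norm_num, by norm_num, by norm_num, ?_, ?_, ?_⟩ <;> norm_num [rh, bet, kap, sig, k3, eps]
theorem good7 : Good ⟨7, 76, 196⟩ := by
  refine ⟨by norm_num, by norm_num, by norm_num, by norm_num, ?_, ?_, ?_⟩ <;> norm_num [rh, bet, kap, sig, k3, eps]
theorem good8 : Good ⟨8, 68, 209⟩ := by
  refine ⟨by norm_num, by norm_num, by norm_num, by norm_num, ?_, ?_, ?_⟩ <;> norm_num [rh, bet, kap, sig, k3, eps]
theorem good9 : Good ⟨9, 62, 218⟩ := by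
  refine ⟨by norm_num, by norm_num, by norm_num, by norm_num, ?_, ?_, ?_⟩ <;> norm_num [rh, bet, kap, sig, k3, eps]
theorem good10 : Good ⟨10, 57, 226⟩ := by
  refine ⟨by norm_num, by norm_num, by norm_num, by norm_num, ?_, ?_, ?_⟩ <;> norm_num [rh, bet, kap, sig, k3, eps]

end Pool.Agent.FTN
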