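import Pool.Agent.FTN.CONS
import Pool.Agent.FTA.HB

set_option autoImplicit false

/-! FTN, module HBN: `F` in complement variables. -/

open Real

namespace Pool.Agent.FTN

open Pool.Agent.FTA (TM Alg tmA slA SL Side Core PR Cmp Tr sn cn De kk T1 tt gram reA prA Compat InB sg PSDK scR acR asR dy)

namespace HBN_

lemma part1 (P : Par) (al be t : ℝ) (h0 : 0 ≤ be) (h1 : be ≤ al) (h2 : al ≤ 3 / 16) :
    F P (1 - al) (1 - be) t =
    (1 + eps P) * (-(1 / (P.n : ℝ)) + al + kap P * De al) * (-(1 / (P.n : ℝ)) + be + kap P * De be)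
    + (1 - sig P)⁻¹ * (((1 - sig P) * (1 - al) - bet P * De al) * ((1 - sig P) * (1 - be) - bet P * De be)) * (|T1 t| - eps P)
    + (sig P)⁻¹ * ((sig P * (1 - al) - k3 P * De al) * (sig P * (1 - be) - k3 P * De be)) * (t ^ 2 - eps P)
    + ((1 + 2 * kap P) * be - 4 * kap P * (sn al * cn al * (sn be * cn be))) * (t + T1 t) / 2
    + ((1 + 2 * kap P) * (be * (1 - 2 * al)) - rh P * (De al * De be)) * t ^ 2 := by
  have hk : kk (1 - al) (1 - be) = 1 - al - be := by
    unfold kk
    rw [max_eq_left (by linarith)]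
    ring
  have hmin : min (1 - al) (1 - be) = 1 - al := min_eq_left (by linarith)
  have hmax : max (1 - al) (1 - be) = 1 - be := max_eq_right (by linarith)
  unfold F p0 pB pE Wf Rf
  rw [hk, hmin, hmax, Pool.Agent.FTA.HB_.De_one_sub, Pool.Agent.FTA.HB_.De_one_sub, Pool.Agent.FTA.HB_.sin_pi_one_sub,
    Pool.Agent.FTA.HB_.sin_pi_one_sub]
  generalize (1 - sig P)⁻¹ = u
  generalize (sig P)⁻¹ = v
  generalize |T1 t| = w
  ring

lemma De_abs (x : ℝ) (h0 : 0 ≤ x) (h1 : x ≤ 1) : |De x| ≤ x := by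
  have hs0 : 0 ≤ sn x ^ 2 := sq_nonneg _
  unfold De
  rw [abs_le]
  constructor
  · -- `sn x ^ 2 ≤ 2 x`
    have hpi := Real.pi_pos
    rcases le_total (1 / 2) x with h | h
    · have : sn x ^ 2 ≤ 1 := by
        unfold sn
        have := Real.sin_sq_le_one (π * x / 2)
        exact this
      linarith
    · have e1 : sn x ≤ π * x / 2 := by
        unfold sn
        exact Real.sin_le (by positivity)
      have e0 : 0 ≤ sn x := by
        unfold sn
        apply Real.sin_nonneg_of_nonneg_of_le_pi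
        · positivity
        · nlinarith
      have e2 : sn x ^ 2 ≤ (π * x / 2) ^ 2 := pow_le_pow_left₀ e0 e1 2
      have e3 : π < 3.1416 := Real.pi_lt_d4
      have e4 : (π * x / 2) ^ 2 ≤ 2 * x := by
        have : π ^ 2 ≤ 10 := by nlinarith
        have e5 : (π * x / 2) ^ 2 = π ^ 2 * (x * x) / 4 := by ring
        have e6 : π ^ 2 * (x * x) ≤ 10 * (x * x) := mul_le_mul_of_nonneg_right this (mul_self_nonneg x)
        rw [e5]
        nlinarith
      linarith
  · linarith

lemma pB_nonneg (P : Par) (hP : Good P) (x : ℝ) (h0 : 0 ≤ x) (h1 : x ≤ 1) : 0 ≤ pB P x := by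
  have hb := CONS_.bet_pos P hP
  have hb1 := hP.be1
  have hD := abs_le.1 (De_abs x h0 h1)
  unfold pB
  have e1 : bet P * (-x) ≤ bet P * De x := mul_le_mul_of_nonneg_left hD.1 hb.le
  have e2 : bet P * x ≤ (1 - sig P) * x := mul_le_mul_of_nonneg_right hb1 h0
  linarith

end HBN_

theorem hbn_proof : Stmt_HBN := by
  intro P hP
  exact ⟨fun al be t h0 h1 h2 => HBN_.part1 P al be t h0 h1 h2, HBN_.De_abs, HBN_.pB_nonneg P hP⟩

end Pool.Agent.FTN
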