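import Pool.Agent.FTN.Stmts

/-! The results of the kernel checks in natural form. -/

open Real

namespace Pool.Agent.FTN

open Pool.Agent.FTA (TM Alg tmA slA SL Side Core PR Cmp Tr sn cn De kk T1 tt gram reA prA Compat InB sg PSDK scR acR
  RepT RepS Cube leaf leafS exNo exV dy Stmt_TMC Stmt_SLC Stmt_TREE Stmt_TREES)

/-- the kernel checks for the parameter `P` -/
structure Chk (P : Par) : Prop where
  kN : ∃ t, Tr.chk (leaf fun A => gN A P) exNo t 436207616 436207616 536870912 536870912 473956352 473956352 = true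
  kA : ∃ t, Tr.chk (leaf fun A => gA A P) exNo t 436207616 436207616 536870912 536870912 536870912 536870912 = true
  kB : ∃ t, Tr.chk (leaf fun A => gB A P) exNo t 436207616 436207616 536870912 536870912 536870912 536870912 = true
  kV : ∃ t, Tr.chk (leaf fun A => gV A P) exV t 536870912 536870912 536870912 536870912 536870912 536870912 = true
  kHN : ∃ t, Tr.chk (leaf fun A => gHN A P) exNo t 100663296 100663296 536870912 536870912 536870912 536870912 = true
  kHP : ∃ t, Tr.chk (leaf fun A => gHP A P) exNo t 100663296 100663296 536870912 536870912 536870912 536870912 = true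
  kHE : ∃ t, Tr.chk (leaf fun A => gHE A P) exNo t 100663296 100663296 536870912 536870912 872415232 872415232 = true
  kSN : ∃ t, Tr.chk (leafS fun A => fN A P) exNo t 436207616 436207616 67108864 67108864 536870912 536870912 = true
  kS1 : ∃ t, Tr.chk (leafS fun A => fP1 A P) exNo t 50331648 50331648 67108864 67108864 536870912 536870912 = true
  kS2 : ∃ t, Tr.chk (leafS fun A => fP2 A P) exNo t 50331648 50331648 50331648 50331648 536870912 536870912 = true
  kF1 : ∃ t, Tr.chk (leafS fun A => fF1 A P) exNo t 486539264 385875968 67108864 67108864 536870912 536870912 = true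
  kF2 : ∃ t, Tr.chk (leafS fun A => fF2 A P) exNo t 486539264 385875968 67108864 67108864 536870912 536870912 = true
  kT1 : ∃ t, Tr.chk (leafS fun A => fV1 A P) exNo t 536870912 536870912 16777216 16777216 536870912 536870912 = true
  kT2 : ∃ t, Tr.chk (leafS fun A => fV2 A P) exNo t 536870912 536870912 16777216 16777216 536870912 536870912 = true
  kT3 : ∃ t, Tr.chk (leafS fun A => fV3 A P) exNo t 536870912 536870912 16777216 16777216 536870912 536870912 = true

namespace REG_

theorem r_add (x y : ℝ) : reA.add x y = x + y := rfl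
theorem r_sub (x y : ℝ) : reA.sub x y = x - y := rfl
theorem r_mul (x y : ℝ) : reA.mul x y = x * y := rfl
theorem r_inv (x : ℝ) : reA.inv x = x⁻¹ := rfl
theorem r_smul (p q : ℕ) (x : ℝ) : reA.smul p q x = (p : ℝ) / 2 ^ q * x := rfl
theorem r_cst (s : Bool) (p q : ℕ) : reA.cst s p q = dy s p q := rfl
theorem r_one : reA.one = 1 := by simp [Alg.one, r_cst, dy]
theorem r_om (x : ℝ) : reA.om x = 1 - x := by rw [Alg.om, r_one]; rfl
theorem r_op (x : ℝ) : reA.op x = 1 + x := by rw [Alg.op, r_one]; rfl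
theorem r_dbl (x : ℝ) : reA.dbl x = 2 * x := by rw [Alg.dbl, r_smul]; norm_num

theorem inB {x : ℝ} {c h : ℕ} {lo hi : ℝ} (h0 : lo ≤ x) (h1 : x ≤ hi) (hl : lo * 2 ^ 30 = (c : ℝ) - h)
    (hr : hi * 2 ^ 30 = (c : ℝ) + h) : InB x c h := by
  unfold InB
  rw [abs_le]
  have e : (0 : ℝ) < 2 ^ 30 := by norm_num
  constructor <;> nlinarith

theorem region {g₁ : Alg TM → TM → TM → TM → List (List TM)} {g₂ : Alg ℝ → ℝ → ℝ → ℝ → List (List ℝ)}
    (h3 : Stmt_TREE)
    (hp : ∀ u, Cube u → ∀ a x t a' x' t', RepT u a a' → RepT u x x' → RepT u t t' →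
      List.Forall₂ (List.Forall₂ (RepT u)) (g₁ tmA a x t) (g₂ reA a' x' t'))
    {tr : Tr} {c0 h0 c1 h1 c2 h2 : ℕ}
    (hb : h0 ≤ c0 ∧ h1 ≤ c1 ∧ h2 ≤ c2 ∧ c0 + h0 < 2 ^ 39 ∧ c1 + h1 < 2 ^ 39 ∧ c2 + h2 < 2 ^ 39)
    (hc : Tr.chk (leaf g₁) exNo tr c0 h0 c1 h1 c2 h2 = true)
    {x y z : ℝ} (hx : InB x c0 h0) (hy : InB y c1 h1) (hz : InB z c2 h2) :
    ∀ l ∈ g₂ reA x y z, ∃ v ∈ l, 0 < v := by
  obtain ⟨b0, b1, b2, b3, b4, b5⟩ := hb
  rcases h3 g₁ g₂ hp exNo tr c0 h0 c1 h1 c2 h2 b0 b1 b2 b3 b4 b5 hc x y z hx hy hz with h | ⟨k0, l0, k1, l1, k2, l2, h, _⟩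
  · exact h
  · simp [exNo] at h

theorem xi_eq (t : ℝ) : (1 + t * t)⁻¹ - t * t * (1 + t * t)⁻¹ = (1 - t ^ 2) / (1 + t ^ 2) := by
  have h : 1 + t ^ 2 ≠ 0 := by positivity
  field_simp
theorem xi_eq' (t : ℝ) : (1 + t * t)⁻¹ - t ^ 2 / (1 + t ^ 2) = (1 - t ^ 2) / (1 + t ^ 2) := by
  have h : 1 + t ^ 2 ≠ 0 := by positivity
  field_simp
theorem f0_eq (t : ℝ) : t * t * (1 + t * t)⁻¹ = t ^ 2 / (1 + t ^ 2) := by
  field_simp

end REG_
open REG_

theorem rn_proof (h1 : Stmt_TMC) (h2 : Stmt_PARQ) (h3 : Stmt_TREE) (P : Par) (hC : Chk P) : RN P := by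
  intro a x t a0 a1 x0 x1 t0 t1 hc
  have H := region (g₂ := fun A => gN A P) h3
    (fun u hu a x t a' x' t' ra rx rt => (h2 P TM ℝ tmA reA (RepT u) (h1 u hu) a x t a' x' t' ra rx rt).1)
    (by norm_num) hC.kN.choose_spec (inB a0 a1 (by norm_num) (by norm_num)) (inB x0 x1 (by norm_num) (by norm_num))
    (inB t0 t1 (by norm_num) (by norm_num))
  simp only [gN, r_add, r_sub, r_mul, r_inv, r_smul, r_one, r_om, r_op, xi_eq, forall_eq,
    List.mem_cons, exists_eq_or_imp, exists_eq_left, List.not_mem_nil, or_false] at H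
  rcases H with H | H
  · exfalso
    have : a * ((1 - t ^ 2) / (1 + t ^ 2) * (1 - x / 2)) = a * ((1 - t ^ 2) / (1 + t ^ 2) * (1 - ((1 : ℕ) : ℝ) / 2 ^ 1 * x)) := by
      norm_num; left; left; ring
    linarith
  · exact H

theorem ra_proof (h1 : Stmt_TMC) (h2 : Stmt_PARQ) (h3 : Stmt_TREE) (P : Par) (hC : Chk P) : RA P := by
  intro a x t a0 a1 x0 x1 t0 t1 hc hn
  have H := region (g₂ := fun A => gA A P) h3
    (fun u hu a x t a' x' t' ra rx rt => (h2 P TM ℝ tmA reA (RepT u) (h1 u hu) a x t a' x' t' ra rx rt).2.1)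
    (by norm_num) hC.kA.choose_spec (inB a0 a1 (by norm_num) (by norm_num)) (inB x0 x1 (by norm_num) (by norm_num))
    (inB t0 t1 (by norm_num) (by norm_num))
  simp only [gA, r_add, r_sub, r_mul, r_inv, r_smul, r_cst, dy, r_one, r_om, r_op, r_dbl, xi_eq', f0_eq, List.mem_cons, List.not_mem_nil, or_false,
    forall_eq_or_imp, forall_eq, exists_eq_or_imp, exists_eq_left] at H
  have e : 2 * (t ^ 2 / (1 + t ^ 2) * x) = 2 * t ^ 2 / (1 + t ^ 2) * x := by ring
  rw [e] at H
  set g := 2 * t ^ 2 / (1 + t ^ 2) * x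
  set xi := (1 - t ^ 2) / (1 + t ^ 2)
  set r := cA reA P a x t
  norm_num at H
  obtain ⟨H1, H2, H3, H4⟩ := H
  have q1 : ¬ (1 < a + a * (g + xi)) := by linarith
  constructor
  · intro hz
    by_cases q : xi < 1 / 8
    · have q' : ¬ (g < 1 / 8 ∨ a < 3 / 32) := fun h => hn ⟨q, h⟩
      push Not at q'
      rcases H2 with h | h | h | h | h <;> first | exact h | (exfalso; linarith [q'.1, q'.2])
    · rcases H1 with h | h | h | h <;> first | exact h | (exfalso; linarith)
  · intro hz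
    by_cases q : xi < 1 / 8
    · have q' : ¬ (g < 1 / 8 ∨ a < 3 / 32) := fun h => hn ⟨q, h⟩
      push Not at q'
      rcases H4 with h | h | h | h | h <;> first | exact h | (exfalso; linarith [q'.1, q'.2])
    · rcases H3 with h | h | h | h <;> first | exact h | (exfalso; linarith)

theorem rb_proof (h1 : Stmt_TMC) (h2 : Stmt_PARQ) (h3 : Stmt_TREE) (P : Par) (hC : Chk P) : RB P := by
  intro a x t a0 a1 x0 x1 t0 t1 hc hn
  have H := region (g₂ := fun A => gB A P) h3
    (fun u hu a x t a' x' t' ra rx rt => (h2 P TM ℝ tmA reA (RepT u) (h1 u hu) a x t a' x' t' ra rx rt).2.2.1)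
    (by norm_num) hC.kB.choose_spec (inB a0 a1 (by norm_num) (by norm_num)) (inB x0 x1 (by norm_num) (by norm_num))
    (inB t0 t1 (by norm_num) (by norm_num))
  simp only [gB, r_add, r_sub, r_mul, r_inv, r_smul, r_cst, dy, r_one, r_om, r_op, r_dbl, xi_eq', f0_eq, List.mem_cons, List.not_mem_nil, or_false,
    forall_eq_or_imp, forall_eq, exists_eq_or_imp, exists_eq_left] at H
  have e : 2 * (t ^ 2 / (1 + t ^ 2)) = 2 * t ^ 2 / (1 + t ^ 2) := by ring
  rw [e] at H
  have e2 : a * (2 * t ^ 2 / (1 + t ^ 2) + (1 - t ^ 2) / (1 + t ^ 2) * x + (1 - t ^ 2) / (1 + t ^ 2)) =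
    a * (2 * t ^ 2 / (1 + t ^ 2) + (1 - t ^ 2) / (1 + t ^ 2) * x) + a * ((1 - t ^ 2) / (1 + t ^ 2)) := by ring
  rw [e2] at hc
  set xi := (1 - t ^ 2) / (1 + t ^ 2)
  set gm := a * (2 * t ^ 2 / (1 + t ^ 2) + xi * x)
  set r := cB reA P a x t
  norm_num at H
  obtain ⟨H1, H2, H3, H4⟩ := H
  constructor
  · intro hz
    by_cases q : xi < 1 / 8
    · have q' : ¬ (a < 3 / 32) := fun h => hn ⟨q, h⟩
      rcases H2 with h | h | h | h <;> first | exact h | (exfalso; linarith)
    · rcases H1 with h | h | h | h <;> first | exact h | (exfalso; linarith)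
  · intro hz
    by_cases q : xi < 1 / 8
    · have q' : ¬ (a < 3 / 32) := fun h => hn ⟨q, h⟩
      rcases H4 with h | h | h | h <;> first | exact h | (exfalso; linarith)
    · rcases H3 with h | h | h | h <;> first | exact h | (exfalso; linarith)

theorem rv_proof (h1 : Stmt_TMC) (h2 : Stmt_PARV) (h3 : Stmt_TREE) (P : Par) (hC : Chk P) : RV P := by
  intro k1 rho b t r0 r1 b0 b1 t0 t1 c hcc hac hk hn hx
  have H := h3 (fun A => gV A P) (fun A => gV A P)
    (fun u hu a x t a' x' t' ra rx rt => (h2 P TM ℝ tmA reA (RepT u) (h1 u hu) a x t a' x' t' ra rx rt).1)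
    exV _ _ _ _ _ _ _ (by norm_num) (by norm_num) (by norm_num) (by norm_num) (by norm_num) (by norm_num) hC.kV.choose_spec
    rho b t (inB r0 r1 (by norm_num) (by norm_num)) (inB b0 b1 (by norm_num) (by norm_num))
    (inB t0 t1 (by norm_num) (by norm_num))
  rcases H with H | ⟨k0, l0, k1, l1, k2, l2, h, i0, i1, i2⟩
  swap
  · exfalso
    apply hx
    simp only [exV, Bool.and_eq_true] at h
    obtain ⟨e0, e1, e2⟩ := h
    have e0 := Nat.le_of_ble_eq_true e0
    have e1 := Nat.le_of_ble_eq_true e1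
    have e2 := Nat.le_of_ble_eq_true e2
    have e0 : 1040187392 + l0 ≤ k0 := e0
    have e1 : k1 + l1 ≤ 33554432 := e1
    have e2 : k2 + l2 ≤ 33554432 := e2
    have e0 : (1040187392 : ℝ) + l0 ≤ k0 := by exact_mod_cast e0
    have e1 : (k1 : ℝ) + l1 ≤ 33554432 := by exact_mod_cast e1
    have e2 : (k2 : ℝ) + l2 ≤ 33554432 := by exact_mod_cast e2
    unfold InB at i0 i1 i2
    rw [abs_le] at i0 i1 i2
    refine ⟨?_, ?_, ?_⟩ <;> linarith [i0.1, i0.2, i1.1, i1.2, i2.1, i2.2]
  simp only [gV, r_add, r_sub, r_mul, r_inv, r_smul, r_cst, dy, r_one, r_om, r_op, r_dbl, xi_eq', f0_eq, List.mem_cons, List.not_mem_nil, or_false,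
    forall_eq_or_imp, forall_eq, exists_eq_or_imp, exists_eq_left] at H
  rw [← hcc] at H
  set xi := (1 - t ^ 2) / (1 + t ^ 2)
  set r := cV reA P false rho b t with hr
  set r' := cV reA P true rho b t with hr'
  have hxz : r'.xz = r.xz := rfl
  norm_num at H
  obtain ⟨H1, H2, H3, H4, H5, H6, H7, H8⟩ := H
  cases k1
  · simp only [Bool.false_eq_true, if_false] at hk
    rw [← hr]
    constructor
    · intro hz
      by_cases q : xi < 1 / 8
      · have q' : ¬ (1 - c < 3 / 32) := fun h => hn ⟨q, h⟩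
        rcases H2 with h | h | h | h | h <;> first | exact h | (exfalso; linarith)
      · rcases H1 with h | h | h | h | h <;> first | exact h | (exfalso; linarith)
    · intro hz
      by_cases q : xi < 1 / 8
      · have q' : ¬ (1 - c < 3 / 32) := fun h => hn ⟨q, h⟩
        rcases H4 with h | h | h | h | h <;> first | exact h | (exfalso; linarith)
      · rcases H3 with h | h | h | h | h <;> first | exact h | (exfalso; linarith)
  · simp only [if_true] at hk
    rw [← hr', hxz]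
    constructor
    · intro hz
      by_cases q : xi < 1 / 8
      · have q' : ¬ (1 - c < 3 / 32) := fun h => hn ⟨q, h⟩
        rcases H6 with h | h | h | h | h <;> first | exact h | (exfalso; linarith)
      · rcases H5 with h | h | h | h | h <;> first | exact h | (exfalso; linarith)
    · intro hz
      by_cases q : xi < 1 / 8
      · have q' : ¬ (1 - c < 3 / 32) := fun h => hn ⟨q, h⟩
        rcases H8 with h | h | h | h | h <;> first | exact h | (exfalso; linarith)
      · rcases H7 with h | h | h | h | h <;> first | exact h | (exfalso; linarith)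

theorem rh_proof (h1 : Stmt_TMC) (h2 : Stmt_PARH) (h3 : Stmt_TREE) (P : Par) (hC : Chk P) : RH P := by
  refine ⟨?_, ?_, ?_⟩
  · intro al s u a0 a1 s0 s1 u0 u1
    have H := region (g₂ := fun A => gHN A P) h3
      (fun u hu a x t a' x' t' ra rx rt => (h2 P TM ℝ tmA reA (RepT u) (h1 u hu) a x t a' x' t' ra rx rt).1)
      (by norm_num) hC.kHN.choose_spec (inB a0 a1 (by norm_num) (by norm_num)) (inB s0 s1 (by norm_num) (by norm_num))
      (inB u0 u1 (by norm_num) (by norm_num))
    simp only [gHN, List.mem_cons, List.not_mem_nil, or_false, forall_eq, exists_eq_left] at H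
    exact H
  · intro al s u a0 a1 s0 s1 u0 u1 hz
    have H := region (g₂ := fun A => gHP A P) h3
      (fun u hu a x t a' x' t' ra rx rt => (h2 P TM ℝ tmA reA (RepT u) (h1 u hu) a x t a' x' t' ra rx rt).2.1)
      (by norm_num) hC.kHP.choose_spec (inB a0 a1 (by norm_num) (by norm_num)) (inB s0 s1 (by norm_num) (by norm_num))
      (inB u0 u1 (by norm_num) (by norm_num))
    simp only [gHP, r_sub, r_cst, dy, List.mem_cons, List.not_mem_nil, or_false, forall_eq, exists_eq_or_imp, exists_eq_left] at H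
    norm_num at H
    rcases H with H | H
    · exfalso; linarith
    · exact H
  · intro al s v a0 a1 s0 s1 v0 v1 hz
    have H := region (g₂ := fun A => gHE A P) h3
      (fun u hu a x t a' x' t' ra rx rt => (h2 P TM ℝ tmA reA (RepT u) (h1 u hu) a x t a' x' t' ra rx rt).2.2)
      (by norm_num) hC.kHE.choose_spec (inB a0 a1 (by norm_num) (by norm_num)) (inB s0 s1 (by norm_num) (by norm_num))
      (inB v0 v1 (by norm_num) (by norm_num))
    simp only [gHE, r_sub, r_mul, r_cst, dy, List.mem_cons, List.not_mem_nil, or_false, forall_eq, exists_eq_or_imp, exists_eq_left] at H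
    norm_num at H
    rcases H with H | H
    · exfalso; linarith
    · exact H

namespace REG_

theorem comp1 : Compat prA reA (fun p x => p.1 = x) where
  cst := fun _ _ _ => rfl
  add := by rintro a b x y rfl rfl; rfl
  sub := by rintro a b x y rfl rfl; rfl
  mul := by rintro a b x y rfl rfl; rfl
  smul := by rintro p q a x rfl; rfl
  inv := by rintro a x rfl; rfl
  rsq := by rintro a x rfl; rfl
  wsc := by rintro a b x y rfl rfl; rfl
  wcs := by rintro a b x y rfl rfl; rfl
  wac := by rintro a b x y rfl rfl; rfl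
  was := by rintro a b x y rfl rfl; rfl
  ip := rfl

theorem comp2 : Compat prA reA (fun p x => p.2 = x) where
  cst := fun _ _ _ => rfl
  add := by rintro a b x y rfl rfl; rfl
  sub := by rintro a b x y rfl rfl; rfl
  mul := by rintro a b x y rfl rfl; rfl
  smul := by rintro p q a x rfl; rfl
  inv := by rintro a x rfl; rfl
  rsq := by rintro a x rfl; rfl
  wsc := by rintro a b x y rfl rfl; rfl
  wcs := by rintro a b x y rfl rfl; rfl
  wac := by rintro a b x y rfl rfl; rfl
  was := by rintro a b x y rfl rfl; rfl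
  ip := rfl

/-- the slope check gives monotonicity of each entry from the reference point -/
theorem slope {g₁ : Alg SL → SL → SL → SL → List SL} {g₂ : Alg (ℝ × ℝ) → ℝ × ℝ → ℝ × ℝ → ℝ × ℝ → List (ℝ × ℝ)}
    {g₃ : Alg ℝ → ℝ → ℝ → ℝ → List ℝ} (h4 : Stmt_TREES)
    (hp : ∀ u, Cube u → ∀ r : ℝ, ∀ a x t a' x' t', RepS u r a a' → RepS u r x x' → RepS u r t t' →
      List.Forall₂ (RepS u r) (g₁ slA a x t) (g₂ prA a' x' t'))
    (p1 : ∀ a x t a' x' t', a.1 = a' → x.1 = x' → t.1 = t' → List.Forall₂ (fun p x => p.1 = x) (g₂ prA a x t) (g₃ reA a' x' t'))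
    (p2 : ∀ a x t a' x' t', a.2 = a' → x.2 = x' → t.2 = t' → List.Forall₂ (fun p x => p.2 = x) (g₂ prA a x t) (g₃ reA a' x' t'))
    {tr : Tr} {c0 h0 c1 h1 c2 h2 : ℕ}
    (hb : h0 ≤ c0 ∧ h1 ≤ c1 ∧ h2 ≤ c2 ∧ c0 + h0 < 2 ^ 39 ∧ c1 + h1 < 2 ^ 39 ∧ c2 + h2 < 2 ^ 39)
    (hc : Tr.chk (leafS g₁) exNo tr c0 h0 c1 h1 c2 h2 = true)
    {x r z : ℝ} (hx : InB x c0 h0) (hy : InB r c1 h1) (hz : InB z c2 h2) (hr : 0 ≤ r) :
    List.Forall₂ (fun p q => p ≤ q) (g₃ reA x 0 z) (g₃ reA x r z) := by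
  obtain ⟨b0, b1, b2, b3, b4, b5⟩ := hb
  have H := h4 g₁ g₂ hp tr c0 h0 c1 h1 c2 h2 b0 b1 b2 b3 b4 b5 hc x r z hx hy hz hr
  have q1 := p1 (x, x) (0, r) (z, z) x 0 z rfl rfl rfl
  have q2 := p2 (x, x) (0, r) (z, z) x r z rfl rfl rfl
  generalize g₂ prA (x, x) (0, r) (z, z) = L at H q1 q2
  generalize g₃ reA x 0 z = L1 at q1 ⊢
  generalize g₃ reA x r z = L2 at q2 ⊢
  induction L generalizing L1 L2 with
  | nil => cases q1; cases q2; exact List.Forall₂.nil
  | cons p L ih =>
    cases q1 with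
    | cons e1 q1 =>
      cases q2 with
      | cons e2 q2 =>
        subst e1; subst e2
        exact List.Forall₂.cons (H p (by simp)) (ih (fun v hv => H v (by simp [hv])) _ q1 _ q2)

end REG_
open REG_

theorem rs_proof (h1 : Stmt_SLC) (h2 : Stmt_PARQ) (h3 : Stmt_PARV) (h4 : Stmt_TREES) (P : Par) (hC : Chk P) : RS P := by
  have qN := fun u (hu : Cube u) r a x t a' x' t' ra rx rt => (h2 P SL (ℝ × ℝ) slA prA (RepS u r) (h1 u hu r) a x t a' x' t' ra rx rt).2.2.2
  have q1 := fun a x t a' x' t' ra rx rt => (h2 P (ℝ × ℝ) ℝ prA reA _ comp1 a x t a' x' t' ra rx rt).2.2.2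
  have q2 := fun a x t a' x' t' ra rx rt => (h2 P (ℝ × ℝ) ℝ prA reA _ comp2 a x t a' x' t' ra rx rt).2.2.2
  have vN := fun u (hu : Cube u) r a x t a' x' t' ra rx rt => (h3 P SL (ℝ × ℝ) slA prA (RepS u r) (h1 u hu r) a x t a' x' t' ra rx rt).2
  have v1 := fun a x t a' x' t' ra rx rt => (h3 P (ℝ × ℝ) ℝ prA reA _ comp1 a x t a' x' t' ra rx rt).2
  have v2 := fun a x t a' x' t' ra rx rt => (h3 P (ℝ × ℝ) ℝ prA reA _ comp2 a x t a' x' t' ra rx rt).2
  refine ⟨?_, ?_, ?_, ?_, ?_⟩
  · intro a r s a0 a1 r0 r1 s0 s1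
    have H := slope (g₂ := fun A => fN A P) (g₃ := fun A => fN A P) h4
      (fun u hu r a x t a' x' t' ra rx rt => (qN u hu r a x t a' x' t' ra rx rt).1)
      (fun a x t a' x' t' ra rx rt => (q1 a x t a' x' t' ra rx rt).1)
      (fun a x t a' x' t' ra rx rt => (q2 a x t a' x' t' ra rx rt).1)
      (by norm_num) hC.kSN.choose_spec (inB a0 a1 (by norm_num) (by norm_num)) (inB r0 r1 (by norm_num) (by norm_num))
      (inB s0 s1 (by norm_num) (by norm_num)) r0
    simp only [fN, List.forall₂_cons] at H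
    exact H.1
  · intro a r s a0 a1 r0 r1 s0 s1 m hm ev
    have H := slope (g₂ := fun A => fP1 A P) (g₃ := fun A => fP1 A P) h4
      (fun u hu r a x t a' x' t' ra rx rt => (qN u hu r a x t a' x' t' ra rx rt).2.1)
      (fun a x t a' x' t' ra rx rt => (q1 a x t a' x' t' ra rx rt).2.1)
      (fun a x t a' x' t' ra rx rt => (q2 a x t a' x' t' ra rx rt).2.1)
      (by norm_num) hC.kS1.choose_spec (inB a0 a1 (by norm_num) (by norm_num)) (inB r0 r1 (by norm_num) (by norm_num))
      (inB s0 s1 (by norm_num) (by norm_num)) r0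
    simp only [fP1, fPm, List.forall₂_cons, r_mul, zero_mul] at H
    obtain ⟨H1, H2, H3, H4, H5, H6, _⟩ := H
    interval_cases m <;> cases ev <;> assumption
  · intro a r s a0 a1 r0 r1 s0 s1 m hm ev
    have H := slope (g₂ := fun A => fP2 A P) (g₃ := fun A => fP2 A P) h4
      (fun u hu r a x t a' x' t' ra rx rt => (qN u hu r a x t a' x' t' ra rx rt).2.2.1)
      (fun a x t a' x' t' ra rx rt => (q1 a x t a' x' t' ra rx rt).2.2.1)
      (fun a x t a' x' t' ra rx rt => (q2 a x t a' x' t' ra rx rt).2.2.1)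
      (by norm_num) hC.kS2.choose_spec (inB a0 a1 (by norm_num) (by norm_num)) (inB r0 r1 (by norm_num) (by norm_num))
      (inB s0 s1 (by norm_num) (by norm_num)) r0
    simp only [fP2, fPm, List.forall₂_cons, r_mul, zero_mul] at H
    obtain ⟨H1, H2, H3, H4, H5, H6, _⟩ := H
    interval_cases m <;> cases ev <;> assumption
  · intro a r s a0 a1 r0 r1 s0 s1 ev
    have H := slope (g₂ := fun A => fF1 A P) (g₃ := fun A => fF1 A P) h4
      (fun u hu r a x t a' x' t' ra rx rt => (qN u hu r a x t a' x' t' ra rx rt).2.2.2.1)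
      (fun a x t a' x' t' ra rx rt => (q1 a x t a' x' t' ra rx rt).2.2.2.1)
      (fun a x t a' x' t' ra rx rt => (q2 a x t a' x' t' ra rx rt).2.2.2.1)
      (by norm_num) hC.kF1.choose_spec (inB a0 a1 (by norm_num) (by norm_num)) (inB r0 r1 (by norm_num) (by norm_num))
      (inB s0 s1 (by norm_num) (by norm_num)) r0
    have H' := slope (g₂ := fun A => fF2 A P) (g₃ := fun A => fF2 A P) h4
      (fun u hu r a x t a' x' t' ra rx rt => (qN u hu r a x t a' x' t' ra rx rt).2.2.2.2)
      (fun a x t a' x' t' ra rx rt => (q1 a x t a' x' t' ra rx rt).2.2.2.2)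
      (fun a x t a' x' t' ra rx rt => (q2 a x t a' x' t' ra rx rt).2.2.2.2)
      (by norm_num) hC.kF2.choose_spec (inB a0 a1 (by norm_num) (by norm_num)) (inB r0 r1 (by norm_num) (by norm_num))
      (inB s0 s1 (by norm_num) (by norm_num)) r0
    simp only [fF1, fF2, List.forall₂_cons, r_mul, zero_mul] at H H'
    obtain ⟨H1, H2, _⟩ := H
    obtain ⟨H3, H4, _⟩ := H'
    cases ev
    · exact ⟨H1, H3⟩
    · exact ⟨H2, H4⟩
  · intro x b t x0 x1 b0 b1 t0 t1
    have K1 : ∀ w r s : ℝ, 0 ≤ w → w ≤ 1 → 0 ≤ r → r ≤ 1 / 32 → 0 ≤ s → s ≤ 1 →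
        (cV reA P false 1 0 0).o ≤ (cV reA P false (1 - r) (r * s) (r * w)).o := by
      intro w r s w0 w1 r0 r1 s0 s1
      have H := slope (g₂ := fun A => fV1 A P) (g₃ := fun A => fV1 A P) h4
        (fun u hu r a x t a' x' t' ra rx rt => (vN u hu r a x t a' x' t' ra rx rt).1)
        (fun a x t a' x' t' ra rx rt => (v1 a x t a' x' t' ra rx rt).1)
        (fun a x t a' x' t' ra rx rt => (v2 a x t a' x' t' ra rx rt).1)
        (by norm_num) hC.kT1.choose_spec (inB w0 w1 (by norm_num) (by norm_num)) (inB r0 r1 (by norm_num) (by norm_num))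
        (inB s0 s1 (by norm_num) (by norm_num)) r0
      simp only [fV1, fV, List.forall₂_cons, r_mul, r_om, zero_mul, sub_zero] at H
      exact H.1
    have K2 : ∀ w r s : ℝ, 0 ≤ w → w ≤ 1 → 0 ≤ r → r ≤ 1 / 32 → 0 ≤ s → s ≤ 1 →
        (cV reA P false 1 0 0).o ≤ (cV reA P false (1 - r * s) r (r * w)).o := by
      intro w r s w0 w1 r0 r1 s0 s1
      have H := slope (g₂ := fun A => fV2 A P) (g₃ := fun A => fV2 A P) h4
        (fun u hu r a x t a' x' t' ra rx rt => (vN u hu r a x t a' x' t' ra rx rt).2.1)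
        (fun a x t a' x' t' ra rx rt => (v1 a x t a' x' t' ra rx rt).2.1)
        (fun a x t a' x' t' ra rx rt => (v2 a x t a' x' t' ra rx rt).2.1)
        (by norm_num) hC.kT2.choose_spec (inB w0 w1 (by norm_num) (by norm_num)) (inB r0 r1 (by norm_num) (by norm_num))
        (inB s0 s1 (by norm_num) (by norm_num)) r0
      simp only [fV2, fV, List.forall₂_cons, r_mul, r_om, zero_mul, sub_zero] at H
      exact H.1
    have K3 : ∀ w r s : ℝ, 0 ≤ w → w ≤ 1 → 0 ≤ r → r ≤ 1 / 32 → 0 ≤ s → s ≤ 1 →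
        (cV reA P false 1 0 0).o ≤ (cV reA P false (1 - r * s) (r * w) r).o := by
      intro w r s w0 w1 r0 r1 s0 s1
      have H := slope (g₂ := fun A => fV3 A P) (g₃ := fun A => fV3 A P) h4
        (fun u hu r a x t a' x' t' ra rx rt => (vN u hu r a x t a' x' t' ra rx rt).2.2)
        (fun a x t a' x' t' ra rx rt => (v1 a x t a' x' t' ra rx rt).2.2)
        (fun a x t a' x' t' ra rx rt => (v2 a x t a' x' t' ra rx rt).2.2)
        (by norm_num) hC.kT3.choose_spec (inB w0 w1 (by norm_num) (by norm_num)) (inB r0 r1 (by norm_num) (by norm_num))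
        (inB s0 s1 (by norm_num) (by norm_num)) r0
      simp only [fV3, fV, List.forall₂_cons, r_mul, r_om, zero_mul, sub_zero] at H
      exact H.1
    have div1 : ∀ p q : ℝ, 0 ≤ p → p ≤ q → 0 < q → 0 ≤ p / q ∧ p / q ≤ 1 ∧ q * (p / q) = p := by
      intro p q h0 h1 h2
      refine ⟨by positivity, (div_le_one h2).2 h1, ?_⟩
      field_simp
    by_cases hx : b ≤ x ∧ t ≤ x
    · rcases x0.eq_or_lt with e | e
      · have : b = 0 := by linarith [hx.1]
        have : t = 0 := by linarith [hx.2]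
        subst_vars; simp
      · obtain ⟨e1, e2, e3⟩ := div1 b x b0 hx.1 e
        obtain ⟨e4, e5, e6⟩ := div1 t x t0 hx.2 e
        have := K1 (t / x) x (b / x) e4 e5 x0 x1 e1 e2
        rwa [e3, e6] at this
    · by_cases hb : x ≤ b ∧ t ≤ b
      · rcases b0.eq_or_lt with e | e
        · have : x = 0 := by linarith [hb.1]
          have : t = 0 := by linarith [hb.2]
          subst_vars; simp
        · obtain ⟨e1, e2, e3⟩ := div1 x b x0 hb.1 e
          obtain ⟨e4, e5, e6⟩ := div1 t b t0 hb.2 e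
          have := K2 (t / b) b (x / b) e4 e5 b0 b1 e1 e2
          rwa [e3, e6] at this
      · have ht : x ≤ t ∧ b ≤ t := by
          rw [not_and_or, not_le, not_le] at hx hb
          constructor
          · rcases hx with h | h <;> rcases hb with h' | h' <;> linarith
          · rcases hx with h | h <;> rcases hb with h' | h' <;> linarith
        rcases t0.eq_or_lt with e | e
        · have : x = 0 := by linarith [ht.1]
          have : b = 0 := by linarith [ht.2]
          subst_vars; simp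
        · obtain ⟨e1, e2, e3⟩ := div1 x t x0 ht.1 e
          obtain ⟨e4, e5, e6⟩ := div1 b t b0 ht.2 e
          have := K3 (b / t) t (x / t) e4 e5 t0 t1 e1 e2
          rwa [e3, e6] at this

theorem reg_proof (h1 : Stmt_TMC) (h2 : Stmt_SLC) (h3 : Stmt_PARQ) (h4 : Stmt_PARV) (h5 : Stmt_PARH) (h6 : Stmt_TREE)
    (h7 : Stmt_TREES) (P : Par) (hC : Chk P) : RALL P :=
  ⟨rn_proof h1 h3 h6 P hC, ra_proof h1 h3 h6 P hC, rb_proof h1 h3 h6 P hC, rv_proof h1 h4 h6 P hC, rh_proof h1 h5 h6 P hC,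
    rs_proof h2 h3 h4 h7 P hC⟩

end Pool.Agent.FTN
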