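import Pool.Agent.FTN.CORE
import Pool.Agent.FTN.ID
import Pool.Agent.FTA.GRAM

namespace Pool.Agent.FTN

open Pool.Agent.FTA (TM Alg tmA slA SL Side Core PR Cmp Tr sn cn De kk T1 tt gram reA prA Compat InB sg PSDK scR acR asR dy cl cl8 cl4 pv)
namespace MI_

variable {P : Par}

theorem Wf_symm (p q : ℝ) : Wf P p q = Wf P q p := by
  unfold Wf kk
  rw [min_comm p q, add_comm p q]
  ring

theorem Rf_symm (p q : ℝ) : Rf P p q = Rf P q p := by
  unfold Rf kk
  rw [min_comm p q, max_comm p q, add_comm p q]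
  ring

theorem F_symm (p q t : ℝ) : F P p q t = F P q p t := by
  unfold F
  rw [Wf_symm p q, Rf_symm p q]
  ring

theorem tt_symm (p q r s : ℝ) : tt p q r s = tt q p r s := by
  unfold tt
  rw [mul_comm (cn p) (cn q), mul_comm (sn p) (sn q)]

theorem Gf_swap12 (a b c s : ℝ) : Gf P a b c s = Gf P b a c s := by
  unfold Gf
  rw [F_symm a b, tt_symm a b c s]
  ring

theorem Gf_swap23 (a b c s : ℝ) : Gf P a b c s = Gf P a c b s := by
  unfold Gf
  rw [F_symm b c, tt_symm b c a s]
  ring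

theorem gram_swap12 (a b c s : ℝ) : gram a b c s = gram b a c s := by
  unfold gram
  ring

theorem gram_swap23 (a b c s : ℝ) : gram a b c s = gram a c b s := by
  unfold gram
  ring

theorem sorted (hP : Good P) (hR : RALL P) (h1 : Stmt_COVN) (h2 : Stmt_COVP) (h3 : Stmt_DEG) {a b c s : ℝ} (ha : 0 ≤ a)
    (hab : a ≤ b) (hbc : b ≤ c) (hc : c ≤ 1) (hs : s = 1 ∨ s = -1) (hg : 0 ≤ gram a b c s) : 0 ≤ Gf P a b c s := by
  rcases hs with rfl | rfl
  · have h := (Pool.Agent.FTA.gram_proof a b c ha hab hbc hc).1 hg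
    rcases h.lt_or_eq with h | h
    · exact h2 P hP hR a b c (by linarith) hab hbc hc h
    · exact ((h3 P hP).1 a b c ha hab hbc hc h).ge
  · have h := (Pool.Agent.FTA.gram_proof a b c ha hab hbc hc).2 hg
    rcases h.lt_or_eq with h | h
    · exact h1 P hP hR a b c (by linarith) hab hbc hc h
    · exact ((h3 P hP).2 a b c ha hab hbc hc h.symm).ge

end MI_

theorem mi_proof (h1 : Stmt_COVN) (h2 : Stmt_COVP) (h3 : Stmt_DEG) : Stmt_MI := by
  intro P hP hR a b c s ha ha1 hb hb1 hc hc1 hs hg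
  rcases le_total a b with hab | hab
  · rcases le_total b c with hbc | hbc
    · exact MI_.sorted hP hR h1 h2 h3 ha hab hbc hc1 hs hg
    · rcases le_total a c with hac | hac
      · rw [MI_.Gf_swap23]
        rw [MI_.gram_swap23] at hg
        exact MI_.sorted hP hR h1 h2 h3 ha hac hbc hb1 hs hg
      · rw [MI_.Gf_swap23, MI_.Gf_swap12]
        rw [MI_.gram_swap23, MI_.gram_swap12] at hg
        exact MI_.sorted hP hR h1 h2 h3 hc hac hab hb1 hs hg
  · rcases le_total a c with hac | hac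
    · rw [MI_.Gf_swap12]
      rw [MI_.gram_swap12] at hg
      exact MI_.sorted hP hR h1 h2 h3 hb hab hac hc1 hs hg
    · rcases le_total b c with hbc | hbc
      · rw [MI_.Gf_swap12, MI_.Gf_swap23]
        rw [MI_.gram_swap12, MI_.gram_swap23] at hg
        exact MI_.sorted hP hR h1 h2 h3 hb hbc hac ha1 hs hg
      · rw [MI_.Gf_swap12, MI_.Gf_swap23, MI_.Gf_swap12]
        rw [MI_.gram_swap12, MI_.gram_swap23, MI_.gram_swap12] at hg
        exact MI_.sorted hP hR h1 h2 h3 hc hbc hab ha1 hs hg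

end Pool.Agent.FTN
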