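import Pool.Agent.FTN.PARQ

namespace Pool.Agent.FTN

open Pool.Agent.FTA (TM Alg tmA slA SL Side Core PR Cmp Tr sn cn De kk T1 tt gram reA prA Compat InB sg PSDK scR acR asR dy cl cl8 cl4 pv scC csC acC asC)
namespace PARV_

variable {P : Par} {α β : Type} {A : Alg α} {B : Alg β} {R : α → β → Prop}

structure RPR (R : α → β → Prop) (p : PR α) (q : PR β) : Prop where
  o : R p.o q.o
  e : R p.e q.e
  xz : R p.xz q.xz

structure RSide (R : α → β → Prop) (U : Side α) (V : Side β) : Prop where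
  t : R U.t V.t
  S : R U.S V.S
  C : R U.C V.C
  i : R U.i V.i
  d : R U.d V.d
  q : R U.q V.q
  s : R U.s V.s

theorem one_r (h : Compat A B R) : R A.one B.one := h.cst false 1 0
theorem om_r (h : Compat A B R) {x y} (hx : R x y) : R (A.om x) (B.om y) := h.sub (one_r h) hx
theorem op_r (h : Compat A B R) {x y} (hx : R x y) : R (A.op x) (B.op y) := h.add (one_r h) hx
theorem dbl_r (h : Compat A B R) {x y} (hx : R x y) : R (A.dbl x) (B.dbl y) := h.smul 2 0 hx

theorem horner_r (h : Compat A B R) {x y} (hx : R x y) : ∀ l, R (A.horner x l) (B.horner y l)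
  | [] => h.cst _ _ _
  | [_] => h.cst _ _ _
  | _ :: d :: l => h.add (h.cst _ _ _) (h.mul hx (horner_r h hx (d :: l)))

theorem sc_r (h : Compat A B R) {x y} (hx : R x y) : R (A.sc x) (B.sc y) :=
  h.wsc hx (horner_r h (h.mul hx hx) _)
theorem cs_r (h : Compat A B R) {x y} (hx : R x y) : R (A.cs x) (B.cs y) :=
  h.wcs hx (horner_r h (h.mul hx hx) _)
theorem ac_r (h : Compat A B R) {x y} (hx : R x y) : R (A.ac x) (B.ac y) :=
  h.wac hx (horner_r h hx _)

theorem side_r (h : Compat A B R) {t S C i : α} {t' S' C' i' : β} (ht : R t t') (hS : R S S') (hC : R C C')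
    (hi : R i i') : RSide R (side A P t S C i) (side B P t' S' C' i') where
  t := ht
  S := hS
  C := hC
  i := hi
  d := h.sub hi hS
  q := h.add (h.smul _ _ hi) (h.smul _ _ (h.sub hi hS))
  s := h.add (h.smul _ _ hi) (h.smul _ _ (h.sub hi hS))

theorem oddP_r (h : Compat A B R) {W y ax ac : α} {W' y' ax' ac' : β} (hW : R W W') (hy : R y y') (hax : R ax ax')
    (hac : R ac ac') : R (oddP A W y ax ac) (oddP B W' y' ax' ac') :=
  h.smul 1 1 (h.mul hW (h.add (h.mul hy (h.inv (op_r h hax))) hac))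

theorem vpole1_r (h : Compat A B R) {b bp bk y : α} {b' bp' bk' y' : β} {U V : Side α} {U' V' : Side β}
    (hb : R b b') (hU : RSide R U U') (hV : RSide R V V') (hbp : R bp bp') (hbk : R bk bk') :
    R (vpole A P b U V bp bk y).1 (vpole B P b' U' V' bp' bk' y').1 :=
  h.sub (h.smul _ _ (h.sub hbp hbk)) (h.smul _ _ (h.mul hb (h.mul hU.C hV.C)))

theorem vpole2_r (h : Compat A B R) {b bp bk y : α} {b' bp' bk' y' : β} {U V : Side α} {U' V' : Side β}
    (hb : R b b') (hU : RSide R U U') (hV : RSide R V V') (hbp : R bp bp') (hbk : R bk bk') :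
    R (vpole A P b U V bp bk y).2 (vpole B P b' U' V' bp' bk' y').2 :=
  h.sub (h.smul _ _ (h.add (h.mul hbp (om_r h (dbl_r h hV.t))) hbk)) (h.mul (PARQ_.rho_ h) (h.mul hb (h.mul hU.d hV.d)))

theorem vev_r (h : Compat A B R) {b y dt r : α} {b' y' dt' r' : β} {U V : Side α} {U' V' : Side β}
    (hb : R b b') (hU : RSide R U U') (hV : RSide R V V') (hy : R y y') (hdt : R dt dt') (hr : R r r') :
    R (vev A P b U V y dt r) (vev B P b' U' V' y' dt' r') :=
  h.add (h.mul hb (h.add (h.mul (PARQ_.cB0 h) (h.mul (h.mul hU.q hV.q) hdt)) (h.mul hy (h.mul (PARQ_.cE0 h) (h.mul hU.s hV.s))))) (h.mul hy hr)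

theorem vA_r (h : Compat A B R) {b bp bk ax y : α} {b' bp' bk' ax' y' : β} {U V : Side α} {U' V' : Side β}
    (hb : R b b') (hU : RSide R U U') (hV : RSide R V V') (hbp : R bp bp') (hbk : R bk bk') (hax : R ax ax')
    (hy : R y y') : R (vA A P b U V bp bk ax y) (vA B P b' U' V' bp' bk' ax' y') :=
  h.add (vev_r h hb hU hV hy (ac_r h hax) (vpole2_r h hb hU hV hbp hbk))
    (oddP_r h (vpole1_r (y := y) (y' := y') h hb hU hV hbp hbk) hy hax (ac_r h hax))

theorem vO_r (h : Compat A B R) {b bp bk ax y : α} {b' bp' bk' ax' y' : β} {U V : Side α} {U' V' : Side β}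
    (hb : R b b') (hU : RSide R U U') (hV : RSide R V V') (hbp : R bp bp') (hbk : R bk bk') (hax : R ax ax')
    (hy : R y y') : R (vO A P b U V bp bk ax y) (vO B P b' U' V' bp' bk' ax' y') :=
  h.sub (vev_r h hb hU hV hy (ac_r h hax) (vpole2_r h hb hU hV hbp hbk))
    (oddP_r h (vpole1_r (y := y) (y' := y') h hb hU hV hbp hbk) hy hax (ac_r h hax))

theorem vE_r (h : Compat A B R) {b bp bk x y : α} {b' bp' bk' x' y' : β} {U V : Side α} {U' V' : Side β}
    (hb : R b b') (hU : RSide R U U') (hV : RSide R V V') (hbp : R bp bp') (hbk : R bk bk') (hx : R x x')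
    (hy : R y y') : R (vE A P b U V bp bk x y) (vE B P b' U' V' bp' bk' x' y') :=
  h.sub (vev_r h hb hU hV hy (ac_r h hx) (vpole2_r h hb hU hV hbp hbk))
    (h.smul 1 1 (h.mul (vpole1_r (y := y) (y' := y') h hb hU hV hbp hbk)
      (h.add (h.mul hy (h.inv (om_r h hx))) (h.sub (dbl_r h (h.inv hy)) (ac_r h hx)))))

theorem cV_r (h : Compat A B R) (k1 : Bool) {rho b t rho' b' t'} (hr : R rho rho') (hb : R b b') (ht : R t t') :
    RPR R (cV A P k1 rho b t) (cV B P k1 rho' b' t') := by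
  unfold cV
  extract_lets t2 f1 f0 a m c l2 l3 za zb zc z0 z1 p2 p3 ia ib icm v ir pr ig yz yi yx yy u0 u1 xz xx bc xy sa sb sc e0 c0 s0 bs z bk rest
    t2' f1' f0' a' m' c' l2' l3' za' zb' zc' z0' z1' p2' p3' ia' ib' icm' v' ir' pr' ig' yz' yi' yx' yy' u0' u1' xz' xx' bc' xy' sa' sb' sc' e0' c0' s0' bs' z' bk' rest'
  have ht2 : R t2 t2' := h.mul ht ht
  clear_value t2 t2'
  have hf1 : R f1 f1' := h.inv (op_r h ht2)
  clear_value f1 f1'
  have hf0 : R f0 f0' := h.mul ht2 hf1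
  clear_value f0 f0'
  have ha : R a a' := h.mul hr hb
  clear_value a a'
  have hm : R m m' := op_r h (h.mul hr (h.sub hf1 hf0))
  clear_value m m'
  have hc : R c c' := h.mul hb hm
  clear_value c c'
  have hl2 : R l2 l2' := om_r h (h.mul hr hf0)
  clear_value l2 l2'
  have hl3 : R l3 l3' := op_r h (h.mul hr hf1)
  clear_value l3 l3'
  have hza : R za za' := sc_r h ha
  clear_value za za'
  have hzb : R zb zb' := sc_r h hb
  clear_value zb zb'
  have hzc : R zc zc' := sc_r h hc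
  clear_value zc zc'
  have hz0 : R z0 z0' := sc_r h (h.mul ha hf0)
  clear_value z0 z0'
  have hz1 : R z1 z1' := sc_r h (h.mul ha hf1)
  clear_value z1 z1'
  have hp2 : R p2 p2' := h.mul hl2 (sc_r h (h.mul hb hl2))
  clear_value p2 p2'
  have hp3 : R p3 p3' := h.mul hl3 (sc_r h (h.mul hb hl3))
  clear_value p3 p3'
  have hia : R ia ia' := h.inv hza
  clear_value ia ia'
  have hib : R ib ib' := h.inv hzb
  clear_value ib ib'
  have hicm : R icm icm' := h.inv (h.mul hm hzc)
  clear_value icm icm'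
  have hv : R v v' := h.mul hp2 hp3
  clear_value v v'
  have hir : R ir ir' := h.rsq hv
  clear_value ir ir'
  have hpr : R pr pr' := h.mul hz0 hz1
  clear_value pr pr'
  have hig : R ig ig' := h.rsq hpr
  clear_value ig ig'
  have hyz : R yz yz' := dbl_r h (h.mul (h.mul (h.mul ht hf1) (h.mul hpr hig)) (h.mul (h.mul hv hir) (h.mul hia hib)))
  clear_value yz yz'
  have hyi : R yi yi' := h.mul hyz hicm
  clear_value yi yi'
  have hyx : R yx yx' := h.mul hyi hzb
  clear_value yx yx'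
  have hyy : R yy yy' := h.mul hyi (h.mul hr hza)
  clear_value yy yy'
  have hu0 : R u0 u0' := h.mul hf0 hz0
  clear_value u0 u0'
  have hu1 : R u1 u1' := h.mul hf1 hz1
  clear_value u1 u1'
  have hxz : R xz xz' := h.mul (h.sub (h.mul hu0 hp3) (h.mul hu1 hp2)) (h.mul hia hib)
  clear_value xz xz'
  have hxx : R xx xx' := h.mul (h.sub (h.mul hu1 hp3) (h.mul hu0 hp2)) (h.mul hia hicm)
  clear_value xx xx'
  have hbc : R bc bc' := h.mul hib hicm
  clear_value bc bc'
  have hxy : R xy xy' := h.mul (h.sub hv (h.mul (h.mul hr hr) (h.mul hu0 hu1))) hbc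
  clear_value xy xy'
  have hsa : RSide R sa sa' := side_r h ha (h.mul ha hza) (cs_r h ha) hia
  clear_value sa sa'
  have hsb : RSide R sb sb' := side_r h hb (h.mul hb hzb) (cs_r h hb) hib
  clear_value sb sb'
  have hsc : RSide R sc sc' := side_r h hc (h.mul hc hzc) (cs_r h hc) (h.mul hm hicm)
  clear_value sc sc'
  have he0 : R e0 e0' := h.mul ha hf0
  clear_value e0 e0'
  have hc0 : R c0 c0' := cs_r h he0
  clear_value c0 c0'
  have hs0 : R s0 s0' := h.mul he0 hz0
  clear_value s0 s0'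
  have hbs : R bs bs' := h.mul (h.smul 1 1 (h.mul (h.mul ht hz0) (h.mul hig hir))) (h.sub (h.smul _ _ (h.mul hc0 (h.sub (h.smul 4 0 (h.mul (h.mul hsa.S hsb.S) hsc.S)) (dbl_r h (h.mul hs0 hc0))))) (h.smul _ _ (h.inv hz0)))
  clear_value bs bs'
  have hz : R z z' := h.cst false 0 0
  clear_value z z'
  have hbk : R bk bk' := by
    cases k1
    · exact hz
    · exact h.mul (h.mul (h.sub (h.add hb hc) (h.cst false 1 0)) (h.inv hb)) hbc
  clear_value bk bk'
  have hrest : R rest rest' := h.add hbs (h.add (vA_r h hb hsa hsc (h.mul hia hicm) hz hxx hyx) (vA_r h hb hsb hsc hbc hbk hxy hyy))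
  clear_value rest rest'
  exact ⟨h.add hrest (vO_r h hb hsa hsb (h.mul hia hib) hz (h.sub hz hxz) hyz),
    h.add hrest (vE_r h hb hsa hsb (h.mul hia hib) hz hxz hyz), hxz⟩

theorem gV_r (h : Compat A B R) {rho b t rho' b' t'} (hr : R rho rho') (hb : R b b') (ht : R t t') :
    List.Forall₂ (List.Forall₂ R) (gV A P rho b t) (gV B P rho' b' t') := by
  unfold gV
  extract_lets t2 f1 f0 xi a c o1 o2 o3 bc cb r r1 nz
    t2' f1' f0' xi' a' c' o1' o2' o3' bc' cb' r' r1' nz'
  have ht2 : R t2 t2' := h.mul ht ht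
  have hf1 : R f1 f1' := h.inv (op_r h ht2)
  have hf0 : R f0 f0' := h.mul ht2 hf1
  have hxi : R xi xi' := h.sub hf1 hf0
  have ha : R a a' := h.mul hr hb
  have hc : R c c' := h.mul hb (op_r h (h.mul hr hxi))
  have ho1 : R o1 o1' := h.sub (h.add ha hc) (one_r h)
  have ho2 : R o2 o2' := h.sub (h.cst false 1 3) hxi
  have ho3 : R o3 o3' := h.sub (h.cst false 3 5) (om_r h hc)
  have hbc : R bc bc' := h.sub (h.add hb hc) (one_r h)
  have hcb : R cb cb' := h.sub (one_r h) (h.add hb hc)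
  have hr0 : RPR R r r' := cV_r h false hr hb ht
  have hr1 : RPR R r1 r1' := cV_r h true hr hb ht
  have hnz : R nz nz' := h.sub (h.cst false 0 0) hr0.xz
  clear_value t2 f1 f0 xi a c o1 o2 o3 bc cb r r1 nz
    t2' f1' f0' xi' a' c' o1' o2' o3' bc' cb' r' r1' nz'
  have e1 := hr0.xz
  have e2 := hr0.o
  have e3 := hr0.e
  have e4 := hr1.o
  have e5 := hr1.e
  repeat' first | exact List.Forall₂.nil | apply List.Forall₂.cons | assumption

theorem fV_r (h : Compat A B R) {x b t x' b' t'} (hx : R x x') (hb : R b b') (ht : R t t') :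
    List.Forall₂ R (fV A P x b t) (fV B P x' b' t') :=
  List.Forall₂.cons (cV_r h false (om_r h hx) hb ht).o List.Forall₂.nil

end PARV_

theorem parv_proof : Stmt_PARV := by
  intro P α β A B R h a x t a' x' t' ha hx ht
  exact ⟨PARV_.gV_r h ha hx ht, PARV_.fV_r h hx (h.mul hx ht) (h.mul hx ha), PARV_.fV_r h (h.mul hx ht) hx (h.mul hx ha),
    PARV_.fV_r h (h.mul hx ht) (h.mul hx ha) hx⟩

end Pool.Agent.FTN
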