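import Pool.Agent.FTN.ASN

/-! Positivity of the pole sums. -/

open Real

namespace Pool.Agent.FTN

open Pool.Agent.FTA (TM Alg tmA slA SL Side Core PR Cmp Tr sn cn De kk T1 tt gram reA prA Compat InB sg PSDK scR acR)

namespace POL_

theorem comap {X Y : Type} {K : Y → Y → ℝ} (f : X → Y) (hK : PSDK K) : PSDK (fun x y => K (f x) (f y)) :=
  ⟨fun x y => hK.1 (f x) (f y), fun n x c => hK.2 n (fun i => f (x i)) c⟩

lemma T1_abs (t : ℝ) : |T1 t| = T1 |t| := by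
  unfold T1
  have hp := Real.pi_pos
  rcases le_total 0 t with h | h
  · rw [abs_of_nonneg h, abs_of_nonneg]
    have := Real.arcsin_nonneg.2 h
    positivity
  · rw [abs_of_nonpos h, Real.arcsin_neg, abs_of_nonpos]
    · ring
    · have := Real.arcsin_nonpos.2 h
      have h2 : 0 ≤ 2 / π := by positivity
      nlinarith

end POL_

open POL_ ASN_

theorem pol_proof (h1 : Stmt_ASN) (h2 : Stmt_TRC) (h3 : Stmt_PW) (h4 : Stmt_PR) (h5 : Stmt_CONS) (h6 : Stmt_HBN) : Stmt_POL := by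
  intro P hP hW N a e w ha he hw
  obtain ⟨s0, s1, ka0, be0, ep0, -, k30, -⟩ := h5 P hP
  obtain ⟨-, -, hB⟩ := h6 P hP
  have hn := hP.n3
  have hn1 : ((P.n - 1 : ℕ) : ℝ) = (P.n : ℝ) - 1 := by
    rw [Nat.cast_sub (by omega)]; simp
  have heps : eps P = 1 / ((P.n - 1 : ℕ) : ℝ) := by rw [hn1]; rfl
  let X := Set.Icc (0 : ℝ) 1 × Sp (P.n - 1)
  let x : Fin N → X := fun i => (⟨a i, ha i⟩, ⟨e i, he i⟩)
  have kI : PSDK (fun x y : X => (inner ℝ x.2.1 y.2.1 : ℝ)) := comap (fun x : X => x.2) (h2 (P.n - 1)).1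
  have kI2 : PSDK (fun x y : X => (inner ℝ x.2.1 y.2.1 : ℝ) ^ 2) := comap (fun x : X => x.2) (h2 (P.n - 1)).2.1
  have kI3 : PSDK (fun x y : X => (inner ℝ x.2.1 y.2.1 : ℝ) ^ 2 - 1 / ((P.n - 1 : ℕ) : ℝ)) :=
    comap (fun x : X => x.2) ((h2 (P.n - 1)).2.2 (by omega))
  have kT : PSDK (fun x y : X => T1 (inner ℝ x.2.1 y.2.1)) := comap (fun x : X => x.2) (h1 (P.n - 1))
  have kW : PSDK (fun x y : X => Wf P x.1 y.1) := comap (fun x : X => x.1) (h3 P hP)
  have kR : PSDK (fun x y : X => Rf P x.1 y.1) := comap (fun x : X => x.1) (h4 P hP)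
  have k0 := rank1 (fun x : X => p0 P x.1)
  have kE := rank1 (fun x : X => pE P x.1)
  have A := smul (1 + eps P) (by linarith) k0
  have C := smul (sig P)⁻¹ (by positivity) (mul kE kI3)
  have D := smul (1 / 2) (by norm_num) (mul kW (add kI kT))
  have E := mul kR kI2
  have S := (add (add A C) (add D E)).2 N x w
  have hB' := hW N e (fun i => w i * pB P (a i)) he (fun i => mul_nonneg (hw i) (hB _ (ha i).1 (ha i).2))
  have eB : ∑ i, ∑ j, w i * w j * (pB P (a i) * pB P (a j) * (|T1 (inner ℝ (e i) (e j))| - eps P)) =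
      (∑ i, ∑ j, w i * pB P (a i) * (w j * pB P (a j)) * T1 |inner ℝ (e i) (e j)|)
        - (∑ i, w i * pB P (a i)) ^ 2 / ((P.n - 1 : ℕ) : ℝ) := by
    rw [sq, Finset.sum_mul_sum, div_eq_mul_inv, Finset.sum_mul, ← Finset.sum_sub_distrib]
    refine Finset.sum_congr rfl fun i _ => ?_
    rw [Finset.sum_mul, ← Finset.sum_sub_distrib]
    refine Finset.sum_congr rfl fun j _ => ?_
    rw [T1_abs, heps, one_div]
    ring
  have hB2 : 0 ≤ (1 - sig P)⁻¹ * ∑ i, ∑ j, w i * w j * (pB P (a i) * pB P (a j) * (|T1 (inner ℝ (e i) (e j))| - eps P)) := by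
    rw [eB]
    exact mul_nonneg (inv_nonneg.2 (by linarith)) (by linarith)
  have etot : ∑ i, ∑ j, w i * w j * F P (a i) (a j) (inner ℝ (e i) (e j)) =
      (∑ i, ∑ j, w i * w j * (((1 + eps P) * (p0 P (a i) * p0 P (a j)) + (sig P)⁻¹ * (pE P (a i) * pE P (a j) *
        ((inner ℝ (e i) (e j) : ℝ) ^ 2 - 1 / ((P.n - 1 : ℕ) : ℝ)))) + (1 / 2 * (Wf P (a i) (a j) * ((inner ℝ (e i) (e j) : ℝ)
          + T1 (inner ℝ (e i) (e j)))) + Rf P (a i) (a j) * (inner ℝ (e i) (e j) : ℝ) ^ 2)))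
      + (1 - sig P)⁻¹ * ∑ i, ∑ j, w i * w j * (pB P (a i) * pB P (a j) * (|T1 (inner ℝ (e i) (e j))| - eps P)) := by
    rw [Finset.mul_sum, ← Finset.sum_add_distrib]
    refine Finset.sum_congr rfl fun i _ => ?_
    rw [Finset.mul_sum, ← Finset.sum_add_distrib]
    refine Finset.sum_congr rfl fun j _ => ?_
    rw [← heps]
    unfold F
    ring
  rw [etot]
  exact add_nonneg S hB2

end Pool.Agent.FTN
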