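import Pool.Agent.FTN.CONS

open Real MeasureTheory

namespace Pool.Agent.FTN

open Pool.Agent.FTA (TM Alg tmA slA SL Side Core PR Cmp Tr sn cn De kk T1 tt gram reA prA Compat InB sg PSDK scR acR asR dy cl cl8 cl4 pv)

namespace PR_

/-- indicator of `(-∞, s]` -/
noncomputable def ind (s u : ℝ) : ℝ := Set.indicator {x : ℝ | x ≤ s} (fun _ => (1 : ℝ)) u

lemma ind_mul (s t u : ℝ) : ind s u * ind t u = ind (min s t) u := by
  unfold ind
  simp only [Set.indicator_apply, Set.mem_ofPred_eq, le_min_iff]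
  by_cases h1 : u ≤ s <;> by_cases h2 : u ≤ t <;> simp [h1, h2]

lemma ind_mul_fun (s u : ℝ) (φ : ℝ → ℝ) : ind s u * φ u = Set.indicator {x : ℝ | x ≤ s} φ u := by
  unfold ind
  simp only [Set.indicator_apply, Set.mem_ofPred_eq]
  by_cases h1 : u ≤ s <;> simp [h1]

lemma int_ind (s : ℝ) (hs : 0 ≤ s) (hs' : s ≤ 1 / 2) (φ : ℝ → ℝ) :
    ∫ u in (0:ℝ)..(1 / 2), ind s u * φ u = ∫ u in (0:ℝ)..s, φ u := by
  have h1 : (fun u => ind s u * φ u) = Set.indicator {x : ℝ | x ≤ s} φ := by
    funext u; exact ind_mul_fun s u φ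
  rw [h1]
  exact intervalIntegral.integral_indicator ⟨hs, hs'⟩

lemma ii_ind (s : ℝ) (φ : ℝ → ℝ) (hφ : Continuous φ) (a b : ℝ) :
    IntervalIntegrable (fun u => ind s u * φ u) volume a b := by
  have h1 : (fun u => ind s u * φ u) = Set.indicator {x : ℝ | x ≤ s} φ := by
    funext u; exact ind_mul_fun s u φ
  rw [h1]
  have h2 := (hφ.intervalIntegrable (μ := volume) a b)
  exact ⟨h2.1.indicator measurableSet_Iic, h2.2.indicator measurableSet_Iic⟩

noncomputable def g (s u : ℝ) : ℝ := ind s u - 2 * s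
noncomputable def h (u : ℝ) : ℝ := 1 - π / 2 * Real.sin (π * u)

lemma h_cont : Continuous h := by unfold h; fun_prop

lemma ii_g (s : ℝ) (φ : ℝ → ℝ) (hφ : Continuous φ) (a b : ℝ) :
    IntervalIntegrable (fun u => g s u * φ u) volume a b := by
  have h1 : (fun u => g s u * φ u) = fun u => ind s u * φ u - 2 * s * φ u := by
    funext u; unfold g; ring
  rw [h1]
  exact (ii_ind s φ hφ a b).sub ((continuous_const.mul hφ).intervalIntegrable a b)

lemma gg (s t u : ℝ) : g s u * g t u =
    (ind (min s t) u * 1 - (2 * t) * (ind s u * 1)) - ((2 * s) * (ind t u * 1) - 4 * s * t) := by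
  have := ind_mul s t u
  unfold g
  linear_combination this

lemma ii_gg (s t a b : ℝ) : IntervalIntegrable (fun u => g s u * g t u) volume a b := by
  have h1 : (fun u => g s u * g t u) = fun u => (ind (min s t) u * 1 - (2 * t) * (ind s u * 1)) -
      ((2 * s) * (ind t u * 1) - 4 * s * t) := by
    funext u; exact gg s t u
  rw [h1]
  have hi : ∀ r, IntervalIntegrable (fun u => ind r u * 1) volume a b := fun r =>
    ii_ind r (fun _ => 1) continuous_const a b
  exact ((hi _).sub ((hi s).const_mul _)).sub (((hi t).const_mul _).sub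
    (continuous_const.intervalIntegrable a b))

lemma int_gg (s t : ℝ) (hs : 0 ≤ s) (hs' : s ≤ 1 / 2) (ht : 0 ≤ t) (ht' : t ≤ 1 / 2) :
    ∫ u in (0:ℝ)..(1 / 2), g s u * g t u = min s t - 2 * s * t := by
  have h1 : (fun u => g s u * g t u) = fun u => (ind (min s t) u * 1 - (2 * t) * (ind s u * 1)) -
      ((2 * s) * (ind t u * 1) - 4 * s * t) := by
    funext u; exact gg s t u
  have hi : ∀ r, IntervalIntegrable (fun u => ind r u * 1) volume 0 (1 / 2) := fun r =>
    ii_ind r (fun _ => 1) continuous_const _ _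
  have hv : ∀ r, 0 ≤ r → r ≤ 1 / 2 → ∫ u in (0:ℝ)..(1 / 2), ind r u * 1 = r := by
    intro r hr hr'
    rw [int_ind r hr hr' (fun _ => 1)]
    simp
  rw [h1, intervalIntegral.integral_sub ((hi _).sub ((hi s).const_mul _))
    (((hi t).const_mul _).sub (continuous_const.intervalIntegrable _ _)),
    intervalIntegral.integral_sub (hi _) ((hi s).const_mul _),
    intervalIntegral.integral_sub ((hi t).const_mul _) (continuous_const.intervalIntegrable _ _),
    intervalIntegral.integral_const_mul, intervalIntegral.integral_const_mul,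
    hv _ (le_min hs ht) (le_trans (min_le_left _ _) hs'), hv s hs hs', hv t ht ht',
    intervalIntegral.integral_const]
  simp only [smul_eq_mul]
  ring

lemma prim_h (s : ℝ) : ∫ u in (0:ℝ)..s, h u = s - (1 - Real.cos (π * s)) / 2 := by
  have hd : ∀ u ∈ Set.uIcc (0:ℝ) s, HasDerivAt (fun v : ℝ => v + Real.cos (π * v) / 2) (h u) u := by
    intro u _
    have h1 : HasDerivAt (fun v : ℝ => π * v) π u := by
      simpa using (hasDerivAt_id u).const_mul π
    have h2 : HasDerivAt (fun v : ℝ => Real.cos (π * v)) (-Real.sin (π * u) * π) u :=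
      (Real.hasDerivAt_cos (π * u)).comp u h1
    have h3 := (hasDerivAt_id u).add (h2.div_const 2)
    refine h3.congr_deriv ?_
    unfold h
    ring
  rw [intervalIntegral.integral_eq_sub_of_hasDerivAt hd (h_cont.intervalIntegrable _ _)]
  simp
  ring

lemma De_eq (s : ℝ) : De s = s - (1 - Real.cos (π * s)) / 2 := by
  unfold De sn
  have h1 : Real.sin (π * s / 2) ^ 2 = (1 - Real.cos (π * s)) / 2 := by
    have := Real.cos_sq (π * s / 2)
    have h2 := Real.sin_sq_add_cos_sq (π * s / 2)
    have h3 : 2 * (π * s / 2) = π * s := by ring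
    rw [h3] at this
    linarith
  rw [h1]

lemma int_h : ∫ u in (0:ℝ)..(1 / 2), h u = 0 := by
  rw [prim_h]
  have : π * (1 / 2) = π / 2 := by ring
  rw [this, Real.cos_pi_div_two]
  norm_num

lemma int_gh (s : ℝ) (hs : 0 ≤ s) (hs' : s ≤ 1 / 2) :
    ∫ u in (0:ℝ)..(1 / 2), g s u * h u = De s := by
  have h1 : (fun u => g s u * h u) = fun u => ind s u * h u - 2 * s * h u := by
    funext u; unfold g; ring
  have i2 : IntervalIntegrable (fun u => 2 * s * h u) volume 0 (1 / 2) :=
    (h_cont.intervalIntegrable _ _).const_mul _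
  rw [h1, intervalIntegral.integral_sub (ii_ind s h h_cont _ _) i2, int_ind s hs hs' h,
    intervalIntegral.integral_const_mul, int_h, prim_h, De_eq]
  ring

lemma int_hh : ∫ u in (0:ℝ)..(1 / 2), h u * h u ≤ 117 / 1000 := by
  have hd : ∀ x ∈ Set.uIcc (0 : ℝ) (1 / 2), HasDerivAt (fun s => s + Real.cos (π * s) + (π ^ 2 * s / 8 - π * Real.sin (2 * (π * s)) / 16)) (h x * h x) x := by
    intro x _
    have h0 : HasDerivAt (fun v : ℝ => π * v) π x := by
      simpa using (hasDerivAt_id x).const_mul π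
    have h1 : HasDerivAt (fun v : ℝ => 2 * (π * v)) (2 * π) x := by
      have := ((hasDerivAt_id x).const_mul π).const_mul 2
      simpa using this
    have h2 : HasDerivAt (fun v : ℝ => Real.sin (2 * (π * v))) (Real.cos (2 * (π * x)) * (2 * π)) x := h1.sin
    have h2' : HasDerivAt (fun v : ℝ => Real.cos (π * v)) (-Real.sin (π * x) * π) x := h0.cos
    have h3 := ((hasDerivAt_id x).add h2').add ((((hasDerivAt_id x).const_mul (π ^ 2)).div_const 8).sub ((h2.const_mul π).div_const 16))
    refine h3.congr_deriv ?_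
    unfold h
    have e : Real.cos (2 * (π * x)) = 1 - 2 * Real.sin (π * x) ^ 2 := by
      rw [Real.cos_two_mul, Real.cos_sq']
      ring
    rw [e]
    ring
  have hint : IntervalIntegrable (fun s => h s * h s) volume 0 (1 / 2) := (h_cont.mul h_cont).intervalIntegrable _ _
  rw [intervalIntegral.integral_eq_sub_of_hasDerivAt hd hint]
  have e1 : 2 * (π * (1 / 2)) = π := by ring
  have e2 : π * (1 / 2) = π / 2 := by ring
  have e3 : 2 * (π * 0) = 0 := by ring
  have e4 : π * 0 = 0 := by ring
  rw [e1, e2, e3, e4, Real.sin_pi, Real.cos_pi_div_two, Real.sin_zero, Real.cos_zero]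
  have := Real.pi_lt_d4
  have := Real.pi_pos
  nlinarith

/-- the folded variable -/
noncomputable def f (p : ℝ) : ℝ := min p (1 - p)
noncomputable def sg (p : ℝ) : ℝ := if p ≤ 1 / 2 then 1 else -1

lemma f_nonneg (p : ℝ) (h0 : 0 ≤ p) (h1 : p ≤ 1) : 0 ≤ f p := le_min h0 (by linarith)
lemma f_le (p : ℝ) : f p ≤ 1 / 2 := by
  unfold f
  rcases le_total p (1 / 2) with hp | hp
  · exact le_trans (min_le_left _ _) hp
  · exact le_trans (min_le_right _ _) (by linarith)

lemma De_f (p : ℝ) : De p = sg p * De (f p) := by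
  unfold sg f
  split_ifs with hp
  · rw [min_eq_left (by linarith)]; ring
  · push Not at hp
    rw [min_eq_right (by linarith), De_eq, De_eq]
    have : π * (1 - p) = π - π * p := by ring
    rw [this, Real.cos_pi_sub]
    ring

lemma K_eq (p q : ℝ) : min p q * (1 - 2 * max p q) + kk p q =
    sg p * sg q * (min (f p) (f q) - 2 * f p * f q) := by
  unfold sg f kk
  rcases le_or_gt p (1 / 2) with hp | hp
  · rcases le_or_gt q (1 / 2) with hq | hq
    · rw [if_pos hp, if_pos hq, min_eq_left (show p ≤ 1 - p by linarith),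
        min_eq_left (show q ≤ 1 - q by linarith), max_eq_right (show p + q - 1 ≤ 0 by linarith)]
      have h1 : min p q * max p q = p * q := min_mul_max p q
      linear_combination (-2) * h1
    · rw [if_pos hp, if_neg (not_le.mpr hq), min_eq_left (show p ≤ 1 - p by linarith),
        min_eq_right (show 1 - q ≤ q by linarith), min_eq_left (show p ≤ q by linarith),
        max_eq_right (show p ≤ q by linarith)]
      rcases le_total (p + q) 1 with h | h
      · rw [max_eq_right (show p + q - 1 ≤ 0 by linarith), min_eq_left (show p ≤ 1 - q by linarith)]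
        ring
      · rw [max_eq_left (show 0 ≤ p + q - 1 by linarith), min_eq_right (show 1 - q ≤ p by linarith)]
        ring
  · rcases le_or_gt q (1 / 2) with hq | hq
    · rw [if_neg (not_le.mpr hp), if_pos hq, min_eq_right (show 1 - p ≤ p by linarith),
        min_eq_left (show q ≤ 1 - q by linarith), min_eq_right (show q ≤ p by linarith),
        max_eq_left (show q ≤ p by linarith)]
      rcases le_total (p + q) 1 with h | h
      · rw [max_eq_right (show p + q - 1 ≤ 0 by linarith), min_eq_right (show q ≤ 1 - p by linarith)]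
        ring
      · rw [max_eq_left (show 0 ≤ p + q - 1 by linarith), min_eq_left (show 1 - p ≤ q by linarith)]
        ring
    · rw [if_neg (not_le.mpr hp), if_neg (not_le.mpr hq), min_eq_right (show 1 - p ≤ p by linarith),
        min_eq_right (show 1 - q ≤ q by linarith), max_eq_left (show 0 ≤ p + q - 1 by linarith)]
      rcases le_total p q with h | h
      · rw [min_eq_left h, max_eq_right h, min_eq_right (show 1 - q ≤ 1 - p by linarith)]
        ring
      · rw [min_eq_right h, max_eq_left h, min_eq_left (show 1 - p ≤ 1 - q by linarith)]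
        ring

lemma main (n : ℕ) (x : Fin n → ℝ) (hx : ∀ i, 0 ≤ x i ∧ x i ≤ 1 / 2) (a : Fin n → ℝ) (B : ℝ)
    (hB : B = ∑ i, a i * De (x i)) :
    B ^ 2 ≤ 117 / 1000 * ∑ i, ∑ j, (a i * a j) * (min (x i) (x j) - 2 * x i * x j) := by
  obtain ⟨C, hC⟩ : ∃ C : ℝ, C = 1000 / 117 * B := ⟨_, rfl⟩
  have h0 : 0 ≤ ∫ u in (0:ℝ)..(1 / 2), (∑ i, a i * g (x i) u - C * h u) ^ 2 :=
    intervalIntegral.integral_nonneg (by norm_num) (fun u _ => sq_nonneg _)
  have h1 : (fun u => (∑ i, a i * g (x i) u - C * h u) ^ 2) = fun u =>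
      ((∑ i, ∑ j, (a i * a j) * (g (x i) u * g (x j) u)) -
        ∑ i, (2 * C * a i) * (g (x i) u * h u)) + C ^ 2 * (h u * h u) := by
    funext u
    have e1 : (∑ i, a i * g (x i) u) ^ 2 = ∑ i, ∑ j, (a i * a j) * (g (x i) u * g (x j) u) := by
      rw [sq, Finset.sum_mul_sum]
      refine Finset.sum_congr rfl (fun i _ => Finset.sum_congr rfl (fun j _ => by ring))
    have e2 : ∑ i, (2 * C * a i) * (g (x i) u * h u) = 2 * C * h u * ∑ i, a i * g (x i) u := by
      rw [Finset.mul_sum]
      exact Finset.sum_congr rfl (fun i _ => by ring)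
    rw [← e1, e2]
    ring
  have ij : ∀ i j, IntervalIntegrable (fun u => (a i * a j) * (g (x i) u * g (x j) u)) volume 0 (1 / 2) :=
    fun i j => (ii_gg (x i) (x j) 0 (1 / 2)).const_mul (a i * a j)
  have is : ∀ (m : ℕ) (F : Fin m → ℝ → ℝ), (∀ i, IntervalIntegrable (F i) volume 0 (1 / 2)) →
      IntervalIntegrable (fun u => ∑ i, F i u) volume 0 (1 / 2) := by
    intro m F hF
    have := IntervalIntegrable.sum (Finset.univ) (fun i _ => hF i)
    have e : (∑ i, F i) = fun u => ∑ i, F i u := by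
      funext u; simp
    rwa [e] at this
  have i1 : IntervalIntegrable (fun u => ∑ i, ∑ j, (a i * a j) * (g (x i) u * g (x j) u)) volume 0 (1 / 2) :=
    is n _ (fun i => is n _ (fun j => ij i j))
  have ig : ∀ i, IntervalIntegrable (fun u => (2 * C * a i) * (g (x i) u * h u)) volume 0 (1 / 2) :=
    fun i => (ii_g (x i) h h_cont 0 (1 / 2)).const_mul _
  have i2 : IntervalIntegrable (fun u => ∑ i, (2 * C * a i) * (g (x i) u * h u)) volume 0 (1 / 2) :=
    is n _ ig
  have i3 : IntervalIntegrable (fun u => C ^ 2 * (h u * h u)) volume 0 (1 / 2) :=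
    ((h_cont.mul h_cont).intervalIntegrable _ _).const_mul _
  rw [h1, intervalIntegral.integral_add (i1.sub i2) i3, intervalIntegral.integral_sub i1 i2,
    intervalIntegral.integral_finsetSum (fun i _ => is n _ (fun j => ij i j)),
    intervalIntegral.integral_finsetSum (fun i _ => ig i),
    intervalIntegral.integral_const_mul] at h0
  have e1 : ∑ i, ∫ u in (0:ℝ)..(1 / 2), ∑ j, (a i * a j) * (g (x i) u * g (x j) u) =
      ∑ i, ∑ j, (a i * a j) * (min (x i) (x j) - 2 * x i * x j) := by
    refine Finset.sum_congr rfl (fun i _ => ?_)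
    rw [intervalIntegral.integral_finsetSum (fun j _ => ij i j)]
    refine Finset.sum_congr rfl (fun j _ => ?_)
    rw [intervalIntegral.integral_const_mul, int_gg _ _ (hx i).1 (hx i).2 (hx j).1 (hx j).2]
  have e2 : ∑ i, ∫ u in (0:ℝ)..(1 / 2), (2 * C * a i) * (g (x i) u * h u) = 2 * C * B := by
    have : ∀ i, ∫ u in (0:ℝ)..(1 / 2), (2 * C * a i) * (g (x i) u * h u) = 2 * C * (a i * De (x i)) := by
      intro i
      rw [intervalIntegral.integral_const_mul, int_gh _ (hx i).1 (hx i).2]
      ring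
    rw [Finset.sum_congr rfl (fun i _ => this i), ← Finset.mul_sum, ← hB]
  rw [e1, e2] at h0
  have e3 := mul_le_mul_of_nonneg_left int_hh (sq_nonneg C)
  have e4 : 2 * C * B - C ^ 2 * (117 / 1000) = 1000 / 117 * B ^ 2 := by rw [hC]; ring
  linarith

end PR_

theorem pr_proof : Stmt_PR := by
  intro P hP
  refine ⟨fun x y => ?_, fun n x c => ?_⟩
  · change Rf P x y = Rf P y x
    unfold Rf kk
    rw [min_comm (x : ℝ) y, max_comm (x : ℝ) y, add_comm (x : ℝ) y]
    ring
  · have key : ∀ i j, c i * c j * Rf P (x i) (x j) =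
        (1 + 2 * kap P) * ((c i * PR_.sg (x i)) * (c j * PR_.sg (x j)) *
          (min (PR_.f (x i)) (PR_.f (x j)) - 2 * PR_.f (x i) * PR_.f (x j))) -
        rh P * ((c i * PR_.sg (x i) * De (PR_.f (x i))) * (c j * PR_.sg (x j) * De (PR_.f (x j)))) := by
      intro i j
      unfold Rf
      rw [PR_.K_eq, PR_.De_f (x i), PR_.De_f (x j)]
      ring
    have h1 : ∑ i, ∑ j, c i * c j * Rf P (x i) (x j) =
        (1 + 2 * kap P) * (∑ i, ∑ j, (c i * PR_.sg (x i)) * (c j * PR_.sg (x j)) *
          (min (PR_.f (x i)) (PR_.f (x j)) - 2 * PR_.f (x i) * PR_.f (x j))) -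
        rh P * (∑ i, c i * PR_.sg (x i) * De (PR_.f (x i))) ^ 2 := by
      rw [sq, Finset.sum_mul_sum, Finset.mul_sum, Finset.mul_sum, ← Finset.sum_sub_distrib]
      refine Finset.sum_congr rfl (fun i _ => ?_)
      rw [Finset.mul_sum, Finset.mul_sum, ← Finset.sum_sub_distrib]
      exact Finset.sum_congr rfl (fun j _ => key i j)
    have h2 := PR_.main n (fun i => PR_.f (x i))
      (fun i => ⟨PR_.f_nonneg _ (x i).2.1 (x i).2.2, PR_.f_le _⟩) (fun i => c i * PR_.sg (x i)) _ rfl
    change 0 ≤ ∑ i, ∑ j, c i * c j * Rf P (x i) (x j)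
    rw [h1]
    have h4 := sq_nonneg (∑ i, c i * PR_.sg (x i) * De (PR_.f (x i)))
    have h5 := hP.rh1
    have h6 : 0 < rh P := by
      have hk := CONS_.kap_pos P hP
      have hs := CONS_.sig_pos P hP
      have hs1 := CONS_.sig_lt P hP
      have he := CONS_.eps_pos P hP
      have he1 := CONS_.eps_le P hP
      unfold rh
      have e1 : 0 ≤ (1 + eps P) * kap P ^ 2 := by positivity
      have e2 : 0 ≤ (1 - eps P) * (bet P ^ 2 / (1 - sig P) + k3 P ^ 2 / sig P) := by
        apply mul_nonneg (by linarith)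
        have : 0 < 1 - sig P := by linarith
        positivity
      linarith
    generalize (∑ i, c i * PR_.sg (x i) * De (PR_.f (x i))) ^ 2 = B at *
    generalize ∑ i, ∑ j, (c i * PR_.sg (x i)) * (c j * PR_.sg (x j)) *
          (min (PR_.f (x i)) (PR_.f (x j)) - 2 * PR_.f (x i) * PR_.f (x j)) = A at *
    have h7 : rh P * B ≤ rh P * (117 / 1000 * A) := mul_le_mul_of_nonneg_left h2 h6.le
    have h8 : rh P * (117 / 1000) * A ≤ (1 + 2 * kap P) * A := mul_le_mul_of_nonneg_right h5 (by linarith)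
    linarith

end Pool.Agent.FTN
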