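import Pool.Agent.FTN.CONS

open Real MeasureTheory

namespace Pool.Agent.FTN

open Pool.Agent.FTA (TM Alg tmA slA SL Side Core PR Cmp Tr sn cn De kk T1 tt gram reA prA Compat InB sg PSDK scR acR asR dy cl cl8 cl4 pv)

namespace PW_

noncomputable section

/-- indicator of `(0, a]` -/
def u (a : ℝ) : ℝ → ℝ := (Set.Ioc (0 : ℝ) a).indicator (fun _ => (1 : ℝ))

def nu : Measure ℝ := volume.restrict (Set.Ioc (0 : ℝ) (1 / 2))

instance : IsFiniteMeasure nu := by
  unfold nu
  refine ⟨?_⟩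
  simp

lemma u_meas (a : ℝ) : Measurable (u a) :=
  measurable_const.indicator measurableSet_Ioc

lemma u_nonneg (a s : ℝ) : 0 ≤ u a s := by
  unfold u
  exact Set.indicator_nonneg (fun _ _ => zero_le_one) s

lemma u_le (a s : ℝ) : u a s ≤ 1 := by
  unfold u
  by_cases h : s ∈ Set.Ioc (0 : ℝ) a
  · simp [Set.indicator_of_mem h]
  · simp [Set.indicator_of_notMem h]

lemma u_mul (a b s : ℝ) : u a s * u b s = u (min a b) s := by
  unfold u
  rw [← Set.inter_indicator_mul]
  have : Set.Ioc (0 : ℝ) a ∩ Set.Ioc 0 b = Set.Ioc 0 (min a b) := by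
    rw [Set.Ioc_inter_Ioc]
    simp
  rw [this]
  simp

/-- bounded measurable functions are integrable -/
lemma integ (g : ℝ → ℝ) (hg : Measurable g) (C : ℝ) (hC : ∀ s, |g s| ≤ C) : Integrable g nu :=
  Integrable.of_bound hg.aestronglyMeasurable C (Filter.Eventually.of_forall (fun s => by
    rw [Real.norm_eq_abs]; exact hC s))

lemma int_u (a : ℝ) (h0 : 0 ≤ a) (h1 : a ≤ 1 / 2) : ∫ s, u a s ∂nu = a := by
  unfold nu u
  rw [integral_indicator measurableSet_Ioc, Measure.restrict_restrict measurableSet_Ioc]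
  have : Set.Ioc (0 : ℝ) a ∩ Set.Ioc 0 (1 / 2) = Set.Ioc 0 a := by
    rw [Set.Ioc_inter_Ioc, min_eq_left h1]
    simp
  rw [this]
  simp [h0]

def ph (s : ℝ) : ℝ := π * Real.cos (π * s)

lemma ph_meas : Measurable ph := by
  unfold ph
  fun_prop

lemma ph_bound (s : ℝ) : |ph s| ≤ π := by
  unfold ph
  rw [abs_mul, abs_of_pos Real.pi_pos]
  calc π * |Real.cos (π * s)| ≤ π * 1 :=
        mul_le_mul_of_nonneg_left (Real.abs_cos_le_one _) Real.pi_pos.le
    _ = π := mul_one _

lemma int_uph (a : ℝ) (h0 : 0 ≤ a) (h1 : a ≤ 1 / 2) :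
    ∫ s, u a s * ph s ∂nu = Real.sin (π * a) := by
  have e1 : ∀ s, u a s * ph s = (Set.Ioc (0 : ℝ) a).indicator ph s := by
    intro s
    unfold u
    by_cases h : s ∈ Set.Ioc (0 : ℝ) a
    · simp [Set.indicator_of_mem h]
    · simp [Set.indicator_of_notMem h]
  simp_rw [e1]
  unfold nu
  rw [integral_indicator measurableSet_Ioc, Measure.restrict_restrict measurableSet_Ioc]
  have : Set.Ioc (0 : ℝ) a ∩ Set.Ioc 0 (1 / 2) = Set.Ioc 0 a := by
    rw [Set.Ioc_inter_Ioc, min_eq_left h1]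
    simp
  rw [this, ← intervalIntegral.integral_of_le h0]
  have hd : ∀ x ∈ Set.uIcc (0 : ℝ) a, HasDerivAt (fun s => Real.sin (π * s)) (ph x) x := by
    intro x _
    have h := (Real.hasDerivAt_sin (π * x)).comp x ((hasDerivAt_id x).const_mul π)
    unfold ph
    have e : Real.cos (π * x) * (π * 1) = π * Real.cos (π * x) := by ring
    rw [e] at h
    exact h
  have hint : IntervalIntegrable ph volume 0 a := by
    apply Continuous.intervalIntegrable
    unfold ph
    fun_prop
  rw [intervalIntegral.integral_eq_sub_of_hasDerivAt hd hint]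
  simp

lemma int_ph2 : ∫ s, ph s ^ 2 ∂nu ≤ 5 / 2 := by
  have hd : ∀ x ∈ Set.uIcc (0 : ℝ) (1 / 2), HasDerivAt (fun s => π ^ 2 * s / 2 + π * Real.sin (2 * (π * s)) / 4) (ph x ^ 2) x := by
    intro x _
    have h1 : HasDerivAt (fun v : ℝ => 2 * (π * v)) (2 * π) x := by
      have := ((hasDerivAt_id x).const_mul π).const_mul 2
      simpa using this
    have h2 : HasDerivAt (fun v : ℝ => Real.sin (2 * (π * v))) (Real.cos (2 * (π * x)) * (2 * π)) x := h1.sin
    have h3 := (((hasDerivAt_id x).const_mul (π ^ 2)).div_const 2).add ((h2.const_mul π).div_const 4)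
    refine h3.congr_deriv ?_
    unfold ph
    rw [Real.cos_two_mul]
    ring
  have hint : IntervalIntegrable (fun s => ph s ^ 2) volume 0 (1 / 2) := by
    apply Continuous.intervalIntegrable
    unfold ph
    fun_prop
  have e : ∫ s, ph s ^ 2 ∂nu = π ^ 2 / 4 := by
    unfold nu
    rw [← intervalIntegral.integral_of_le (by norm_num), intervalIntegral.integral_eq_sub_of_hasDerivAt hd hint]
    have : 2 * (π * (1 / 2)) = π := by ring
    rw [this, Real.sin_pi]
    simp
    ring
  rw [e]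
  have := Real.pi_lt_d2
  have := Real.pi_pos
  nlinarith

variable {n : ℕ} (f c : Fin n → ℝ)

def G (s : ℝ) : ℝ := ∑ i, c i * u (f i) s

lemma G_meas : Measurable (G f c) := by
  unfold G
  apply Finset.measurable_sum
  intro i _
  exact (u_meas _).const_mul _

lemma int_G2 (hf : ∀ i, 0 ≤ f i ∧ f i ≤ 1 / 2) :
    ∫ s, G f c s ^ 2 ∂nu = ∑ i, ∑ j, c i * c j * min (f i) (f j) := by
  have e : ∀ s, G f c s ^ 2 = ∑ i, ∑ j, c i * c j * u (min (f i) (f j)) s := by
    intro s
    unfold G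
    rw [sq, Finset.sum_mul_sum]
    refine Finset.sum_congr rfl (fun i _ => Finset.sum_congr rfl (fun j _ => ?_))
    rw [← u_mul]
    ring
  simp_rw [e]
  rw [integral_finsetSum]
  · refine Finset.sum_congr rfl (fun i _ => ?_)
    rw [integral_finsetSum]
    · refine Finset.sum_congr rfl (fun j _ => ?_)
      rw [integral_const_mul, int_u]
      · exact le_min (hf i).1 (hf j).1
      · exact (min_le_left _ _).trans (hf i).2
    · intro j _
      apply Integrable.const_mul
      apply integ _ (u_meas _) 1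
      intro s
      rw [abs_of_nonneg (u_nonneg _ _)]
      exact u_le _ _
  · intro i _
    apply integrable_finsetSum
    intro j _
    apply Integrable.const_mul
    apply integ _ (u_meas _) 1
    intro s
    rw [abs_of_nonneg (u_nonneg _ _)]
    exact u_le _ _

lemma uph_int (a : ℝ) : Integrable (fun s => u a s * ph s) nu := by
  apply integ _ ((u_meas a).mul ph_meas) π
  intro s
  show |u a s * ph s| ≤ π
  rw [abs_mul, abs_of_nonneg (u_nonneg _ _)]
  calc u a s * |ph s| ≤ 1 * π :=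
        mul_le_mul (u_le _ _) (ph_bound s) (abs_nonneg _) zero_le_one
    _ = π := one_mul _

lemma Gph_eq (s : ℝ) : G f c s * ph s = ∑ i, c i * (u (f i) s * ph s) := by
  unfold G
  rw [Finset.sum_mul]
  refine Finset.sum_congr rfl (fun i _ => ?_)
  ring

lemma int_Gph (hf : ∀ i, 0 ≤ f i ∧ f i ≤ 1 / 2) :
    ∫ s, G f c s * ph s ∂nu = ∑ i, c i * Real.sin (π * f i) := by
  simp_rw [Gph_eq]
  rw [integral_finsetSum]
  · refine Finset.sum_congr rfl (fun i _ => ?_)
    rw [integral_const_mul, int_uph _ (hf i).1 (hf i).2]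
  · intro i _
    exact (uph_int _).const_mul _

lemma G_bound (s : ℝ) : |G f c s| ≤ ∑ i, |c i| := by
  unfold G
  refine (Finset.abs_sum_le_sum_abs _ _).trans (Finset.sum_le_sum (fun i _ => ?_))
  rw [abs_mul, abs_of_nonneg (u_nonneg _ _)]
  calc |c i| * u (f i) s ≤ |c i| * 1 := mul_le_mul_of_nonneg_left (u_le _ _) (abs_nonneg _)
    _ = |c i| := mul_one _

lemma main (hf : ∀ i, 0 ≤ f i ∧ f i ≤ 1 / 2) :
    (∑ i, c i * Real.sin (π * f i)) ^ 2 ≤ 5 / 2 * ∑ i, ∑ j, c i * c j * min (f i) (f j) := by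
  set S := ∑ i, c i * Real.sin (π * f i) with hS
  set A := ∑ i, ∑ j, c i * c j * min (f i) (f j) with hA
  have iG : Integrable (fun s => G f c s ^ 2) nu := by
    apply integ _ ((G_meas f c).pow_const 2) ((∑ i, |c i|) ^ 2)
    intro s
    rw [abs_of_nonneg (sq_nonneg _), ← sq_abs]
    exact pow_le_pow_left₀ (abs_nonneg _) (G_bound f c s) 2
  have iGp : Integrable (fun s => G f c s * ph s) nu := by
    simp_rw [Gph_eq]
    apply integrable_finsetSum
    intro i _
    exact (uph_int _).const_mul _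
  have ip : Integrable (fun s => ph s ^ 2) nu := by
    apply integ _ (ph_meas.pow_const 2) (π ^ 2)
    intro s
    rw [abs_of_nonneg (sq_nonneg _), ← sq_abs]
    exact pow_le_pow_left₀ (abs_nonneg _) (ph_bound s) 2
  have h0 : 0 ≤ ∫ s, (G f c s - (2 * S / 5) * ph s) ^ 2 ∂nu := integral_nonneg (fun s => sq_nonneg _)
  have e : ∀ s, (G f c s - (2 * S / 5) * ph s) ^ 2
      = G f c s ^ 2 - (4 * S / 5) * (G f c s * ph s) + (2 * S / 5) ^ 2 * ph s ^ 2 := by
    intro s; ring
  simp_rw [e] at h0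
  have e1 : ∫ s, (G f c s ^ 2 - (4 * S / 5) * (G f c s * ph s) + (2 * S / 5) ^ 2 * ph s ^ 2) ∂nu
      = A - (4 * S / 5) * S + (2 * S / 5) ^ 2 * ∫ s, ph s ^ 2 ∂nu := by
    have a1 := integral_add (μ := nu) (f := fun s => G f c s ^ 2 - (4 * S / 5) * (G f c s * ph s))
      (g := fun s => (2 * S / 5) ^ 2 * ph s ^ 2) (iG.sub (iGp.const_mul _)) (ip.const_mul _)
    have a2 := integral_sub (μ := nu) (f := fun s => G f c s ^ 2)
      (g := fun s => (4 * S / 5) * (G f c s * ph s)) iG (iGp.const_mul _)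
    rw [a1, a2, integral_const_mul, integral_const_mul, int_G2 f c hf, int_Gph f c hf]
  rw [e1] at h0
  have h5 : (2 * S / 5) ^ 2 * ∫ s, ph s ^ 2 ∂nu ≤ (2 * S / 5) ^ 2 * (5 / 2) :=
    mul_le_mul_of_nonneg_left int_ph2 (sq_nonneg _)
  nlinarith [h0, h5]

lemma W_eq (P : Par) (p q : ℝ) (hp0 : 0 ≤ p) (hp1 : p ≤ 1) (hq0 : 0 ≤ q) (hq1 : q ≤ 1) :
    Wf P p q = (1 + 2 * kap P) * min (min p (1 - p)) (min q (1 - q))
      - kap P * (Real.sin (π * min p (1 - p)) * Real.sin (π * min q (1 - q))) := by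
  have hs : ∀ p : ℝ, Real.sin (π * min p (1 - p)) = Real.sin (π * p) := by
    intro p
    rcases le_total p (1 - p) with h | h
    · rw [min_eq_left h]
    · rw [min_eq_right h]
      have : π * (1 - p) = π - π * p := by ring
      rw [this, Real.sin_pi_sub]
  rw [hs, hs]
  unfold Wf
  have hm : min p q - kk p q = min (min p (1 - p)) (min q (1 - q)) := by
    unfold kk
    rcases le_total p q with h1 | h1 <;> rcases le_total (p + q - 1) 0 with h2 | h2 <;>
      rcases le_total p (1 - p) with h3 | h3 <;> rcases le_total q (1 - q) with h4 | h4 <;>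
      simp only [min_def, max_def] <;> split_ifs <;> linarith
  rw [hm]

end

end PW_

open PW_ in
theorem pw_proof : Stmt_PW := by
  intro P hP
  refine ⟨fun x y => ?_, fun n x c => ?_⟩
  · show Wf P x y = Wf P y x
    unfold Wf kk
    rw [min_comm, add_comm (x : ℝ) (y : ℝ), mul_comm (Real.sin (π * (x : ℝ)))]
  · have hx : ∀ i, 0 ≤ ((x i : ℝ)) ∧ (x i : ℝ) ≤ 1 := fun i => (x i).2
    have hf : ∀ i, 0 ≤ min (x i : ℝ) (1 - x i) ∧ min (x i : ℝ) (1 - x i) ≤ 1 / 2 := by
      intro i
      refine ⟨le_min (hx i).1 (by linarith [(hx i).2]), ?_⟩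
      rcases le_total (x i : ℝ) (1 / 2) with h | h
      · exact (min_le_left _ _).trans h
      · exact (min_le_right _ _).trans (by linarith)
    have hm := main (fun i => min (x i : ℝ) (1 - x i)) c hf
    have e : ∑ i, ∑ j, c i * c j * Wf P (x i) (x j)
        = (1 + 2 * kap P) * ∑ i, ∑ j, c i * c j * min (min (x i : ℝ) (1 - x i)) (min (x j : ℝ) (1 - x j))
          - kap P * (∑ i, c i * Real.sin (π * min (x i : ℝ) (1 - x i))) ^ 2 := by
      rw [sq, Finset.sum_mul_sum, Finset.mul_sum, Finset.mul_sum, ← Finset.sum_sub_distrib]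
      refine Finset.sum_congr rfl (fun i _ => ?_)
      rw [Finset.mul_sum, Finset.mul_sum, ← Finset.sum_sub_distrib]
      refine Finset.sum_congr rfl (fun j _ => ?_)
      rw [W_eq P _ _ (hx i).1 (hx i).2 (hx j).1 (hx j).2]
      ring
    rw [e]
    have hA : 0 ≤ (∑ i, c i * Real.sin (π * min (x i : ℝ) (1 - x i))) ^ 2 := sq_nonneg _
    have hk := CONS_.kap_pos P hP
    have hk2 := hP.ka
    generalize (∑ i, c i * Real.sin (π * min (x i : ℝ) (1 - x i))) ^ 2 = B at *
    generalize ∑ i, ∑ j, c i * c j * min (min (x i : ℝ) (1 - x i)) (min (x j : ℝ) (1 - x j)) = A at *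
    have h7 : kap P * B ≤ kap P * (5 / 2 * A) := mul_le_mul_of_nonneg_left hm hk.le
    have h8 : kap P * A ≤ 2 * A := mul_le_mul_of_nonneg_right hk2 (by linarith)
    linarith

end Pool.Agent.FTN
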