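import Pool.Agent.FTN.CORE
import Pool.Agent.FTN.ID

/-! From the core to the slack, negative type. -/

open Real

namespace Pool.Agent.FTN

open Pool.Agent.FTA (TM Alg tmA slA SL Side Core PR Cmp Tr sn cn De kk T1 tt gram reA prA Compat InB sg PSDK scR acR asR dy cl cl8 cl4 pv)

namespace QN_

theorem sn_pos' (x : ℝ) (h0 : 0 < x) (h1 : x ≤ 1) : 0 < sn x := by
  unfold sn
  apply Real.sin_pos_of_pos_of_lt_pi
  · positivity
  · have hpi := Real.pi_pos
    nlinarith

theorem cn_nonneg' (x : ℝ) (h0 : 0 < x) (h1 : x ≤ 1) : 0 ≤ cn x := by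
  unfold cn
  have hpi := Real.pi_pos
  apply Real.cos_nonneg_of_neg_pi_div_two_le_of_le
  · have : 0 < π * x / 2 := by positivity
    linarith
  · nlinarith

theorem sn_sq' (x : ℝ) : sn x ^ 2 = 1 - cn x ^ 2 := by
  unfold sn cn
  have := Real.sin_sq_add_cos_sq (π * x / 2)
  linarith

theorem dy0 : dy false 0 0 = 0 := by
  unfold dy
  simp

theorem gram12 (a b c : ℝ) : gram a b c (-1) = gram a c b (-1) := by
  unfold gram
  ring

theorem gram13 (a b c : ℝ) : gram a b c (-1) = gram b c a (-1) := by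
  unfold gram
  ring

theorem one_pole (hP : Stmt_POLE) (P : Par) (hG : Good P) (p q r D X Y : ℝ) (hp : 0 < p) (hpq : p ≤ q) (hq : q ≤ 1) (hr : 0 < r)
    (hr1 : r ≤ 1) (hD : D ^ 2 = gram p q r (-1)) (hD0 : 0 < D) (hX : X = -(tt p q r (-1)))
    (hY : Y = D / (sn p * sn q)) :
    D * poleO reA P (nside P p) (nside P q) (kk p q / sn p) (sn q)⁻¹ X Y = F P p q (-1) - F P p q (tt p q r (-1)) := by
  have sp := sn_pos' p hp (by linarith)
  have sq := sn_pos' q (by linarith) hq
  have hpqs : 0 < sn p * sn q := mul_pos sp sq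
  have hne : sn p * sn q ≠ 0 := ne_of_gt hpqs
  have cp := cn_nonneg' p hp (by linarith)
  have cq := cn_nonneg' q (by linarith) hq
  have cr := cn_nonneg' r hr hr1
  have hy0 : 0 < Y := by
    rw [hY]
    exact div_pos hD0 hpqs
  have ht0 : tt p q r (-1) ≤ 0 := by
    unfold tt
    apply div_nonpos_of_nonpos_of_nonneg _ (le_of_lt hpqs)
    nlinarith [mul_nonneg cp cq]
  have hty : tt p q r (-1) ^ 2 + Y ^ 2 = 1 := by
    rw [hY]
    unfold tt
    rw [div_pow, div_pow, hD, ← add_div, div_eq_one_iff_eq (pow_ne_zero 2 hne)]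
    unfold gram
    have h1 := sn_sq' p
    have h2 := sn_sq' q
    rw [mul_pow, h1, h2]
    ring
  have hDD : D = Y * (sn p * sn q) := by
    rw [hY]
    field_simp
  rw [hX]
  exact (hP P hG p q (tt p q r (-1)) Y D hp hpq hq hy0 hty hDD).2.1 ht0

end QN_

open QN_ in
theorem qn_proof (h2 : Stmt_POLE) : Stmt_QN := by
  intro P hP K a b c e0 D kz kx ha hab hbc hc he habc hD hD0 hK hkz hkx
  obtain ⟨kA, kB, kC, kisb, kisc, kyz, kyx, kyy, kxz, kxx, kxy, kbs, -⟩ := hK
  have hb : 0 < b := by linarith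
  have hc0 : 0 < c := by linarith
  have hid := (id_proof P hP a b c e0 (le_of_lt ha) hab hbc hc he).2 habc
  have hsg : sg true = -1 := by
    unfold sg
    simp
  rw [hsg] at kxz kxx kxy
  have P1 := one_pole h2 P hP a b c D (0 - K.xz) K.yz ha hab (by linarith) hc0 hc hD hD0 (by rw [kxz]; ring) kyz
  have P2 := one_pole h2 P hP a c b D K.xx K.yx ha (by linarith) hc hb (by linarith) (by rw [hD, gram12]) hD0
    (by rw [kxx]; ring) kyx
  have P3 := one_pole h2 P hP b c a D K.xy K.yy hb hbc hc ha (by linarith) (by rw [hD, gram13]) hD0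
    (by rw [kxy]; ring) kyy
  have hky : (K.b.t - (1 - c)) * K.isb = kk b c / sn b := by
    rw [kB, kisb]
    have : kk b c = b + c - 1 := by
      unfold kk
      exact max_eq_left (by linarith)
    rw [this]
    show (b - (1 - c)) * (sn b)⁻¹ = _
    rw [div_eq_mul_inv]
    ring
  have hq : qN reA P K (1 - b) (1 - c) kz kx =
      (K.bs + poleO reA P K.a K.b kz K.isb (0 - K.xz) K.yz) +
      (poleO reA P K.a K.c kx K.isc K.xx K.yx + poleO reA P K.b K.c ((K.b.t - (1 - c)) * K.isb) K.isc K.xy K.yy) := by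
    have e0' : qN reA P K (1 - b) (1 - c) kz kx =
      (K.bs + poleO reA P K.a K.b kz K.isb (dy false 0 0 - K.xz) K.yz) +
      (poleO reA P K.a K.c kx K.isc K.xx K.yx + poleO reA P K.b K.c ((K.b.t - (1 - c)) * K.isb) K.isc K.xy K.yy) := rfl
    rw [e0', dy0]
  have hbs : D * K.bs = 4 * kap P * (sn e0 * cn e0 * (4 * (sn a * sn b * sn c) - 2 * (sn e0 * cn e0))) - 6 * (1 + 2 * kap P) * e0 := by
    rw [kbs, if_pos rfl]
  rw [hq, hky, kA, kB, kC, kisb, kisc, hkz, hkx]
  rw [mul_add, mul_add, mul_add, P1, P2, P3, hbs]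
  unfold Gf
  linarith [hid]

end Pool.Agent.FTN
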