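import Pool.Agent.FTN.CORE
import Pool.Agent.FTN.ID

/-! Module QP: from the core to the slack, positive type. -/

namespace Pool.Agent.FTN

open Pool.Agent.FTA (TM Alg tmA slA SL Side Core PR Cmp Tr sn cn De kk T1 tt gram reA prA Compat InB sg PSDK scR acR asR dy cl cl8 cl4 pv)

namespace QP_

lemma ang_pos {x : ℝ} (h0 : 0 < x) (h1 : x ≤ 1) : 0 < sn x := by
  unfold sn
  apply Real.sin_pos_of_pos_of_lt_pi
  · positivity
  · nlinarith [Real.pi_pos]

lemma cn_nonneg {x : ℝ} (h0 : 0 ≤ x) (h1 : x ≤ 1) : 0 ≤ cn x := by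
  unfold cn
  apply Real.cos_nonneg_of_mem_Icc
  constructor <;> nlinarith [Real.pi_pos]

lemma cn_le_one (x : ℝ) : cn x ≤ 1 := Real.cos_le_one _

lemma cn_anti {x y : ℝ} (h0 : 0 ≤ x) (h : x ≤ y) (h1 : y ≤ 1) : cn y ≤ cn x := by
  unfold cn
  apply Real.cos_le_cos_of_nonneg_of_le_pi
  · positivity
  · nlinarith [Real.pi_pos]
  · nlinarith [Real.pi_pos]

lemma sn_sq (x : ℝ) : sn x ^ 2 = 1 - cn x ^ 2 := by
  unfold sn cn
  have := Real.sin_sq_add_cos_sq (Real.pi * x / 2)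
  linarith

lemma kk_eq {b c : ℝ} (h : 1 ≤ b + c) : kk b c = b + c - 1 := by
  unfold kk
  exact max_eq_left (by linarith)

/-- the sum of squares at a pole -/
lemma sq_one {p q r D : ℝ} (hp : 0 < sn p) (hq : 0 < sn q)
    (hD : D ^ 2 = 1 - cn p ^ 2 - cn q ^ 2 - cn r ^ 2 + 2 * (cn p * cn q * cn r)) :
    tt p q r 1 ^ 2 + (D / (sn p * sn q)) ^ 2 = 1 := by
  have h1 : (sn p * sn q) ≠ 0 := (mul_pos hp hq).ne'
  unfold tt
  rw [div_pow, div_pow, ← add_div, div_eq_one_iff_eq (pow_ne_zero 2 h1)]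
  rw [hD, mul_pow, sn_sq, sn_sq]
  ring

lemma tt_nonneg {p q r : ℝ} (hp : 0 < sn p) (hq : 0 < sn q) (h : cn p * cn q ≤ cn r) :
    0 ≤ tt p q r 1 := by
  unfold tt
  apply div_nonneg
  · linarith
  · exact (mul_pos hp hq).le

lemma D_eq {p q D : ℝ} (hp : 0 < sn p) (hq : 0 < sn q) :
    D = D / (sn p * sn q) * (sn p * sn q) := by
  rw [div_mul_cancel₀ _ (mul_pos hp hq).ne']

end QP_

open QP_ in
theorem qp_proof (h2 : Stmt_POLE) : Stmt_QP := by
  intro P hP K a b c e0 D kz kx kD ha hab hbc hc he0 hce hD2 hD hK hbc1 hkz hkx hkD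
  obtain ⟨hKa, hKb, hKc, hib, hic, hyz, hyx, hyy, hxz, hxx, hxy, hbs, _⟩ := hK
  have hb : 0 < b := by linarith
  have hc0 : 0 < c := by linarith
  have hb1 : b ≤ 1 := by linarith
  have ha1 : a ≤ 1 := by linarith
  have sa := ang_pos ha ha1
  have sb := ang_pos hb hb1
  have sc := ang_pos hc0 hc
  have ca := cn_nonneg ha.le ha1
  have cb := cn_nonneg hb.le hb1
  have cc := cn_nonneg hc0.le hc
  have hcab := cn_anti ha.le hab hb1
  have hcbc := cn_anti hb.le hbc hc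
  have ca1 := cn_le_one a
  have cb1 := cn_le_one b
  have cc1 := cn_le_one c
  have sgf : sg false = 1 := by simp [sg]
  rw [sgf] at hxz hxx hxy
  rw [one_mul] at hxx hxy
  unfold gram at hD2
  have hDz : D ^ 2 = 1 - cn a ^ 2 - cn b ^ 2 - cn c ^ 2 + 2 * (cn a * cn b * cn c) := by
    rw [hD2]; ring
  have hDx : D ^ 2 = 1 - cn a ^ 2 - cn c ^ 2 - cn b ^ 2 + 2 * (cn a * cn c * cn b) := by
    rw [hD2]; ring
  have hDy : D ^ 2 = 1 - cn b ^ 2 - cn c ^ 2 - cn a ^ 2 + 2 * (cn b * cn c * cn a) := by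
    rw [hD2]; ring
  have qz := sq_one sa sb hDz
  have qx := sq_one sa sc hDx
  have qy := sq_one sb sc hDy
  have yz0 : 0 < D / (sn a * sn b) := div_pos hD (mul_pos sa sb)
  have yx0 : 0 < D / (sn a * sn c) := div_pos hD (mul_pos sa sc)
  have yy0 : 0 < D / (sn b * sn c) := div_pos hD (mul_pos sb sc)
  have tx0 : 0 ≤ tt a c b 1 := tt_nonneg sa sc (by nlinarith)
  have ty0 : 0 ≤ tt b c a 1 := tt_nonneg sb sc (by nlinarith)
  obtain ⟨_, pO, pE⟩   := h2 P hP a b (tt a b c 1) (D / (sn a * sn b)) D ha hab hb1 yz0 qz (D_eq sa sb)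
  obtain ⟨pAx, _, _⟩ := h2 P hP a c (tt a c b 1) (D / (sn a * sn c)) D ha (hab.trans hbc) hc yx0 qx
    (D_eq sa sc)
  obtain ⟨pAy, _, _⟩ := h2 P hP b c (tt b c a 1) (D / (sn b * sn c)) D hb hbc hc yy0 qy (D_eq sb sc)
  have pAx := pAx tx0
  have pAy := pAy ty0
  have hid := (id_proof P hP a b c e0 ha.le hab hbc hc he0).1 hce
  have hky : (b - (1 - c)) * (sn b)⁻¹ = kk b c / sn b := by
    rw [kk_eq hbc1]; rw [div_eq_mul_inv]; ring
  have hz0 : reA.sub (reA.cst false 0 0) K.xz = - tt a b c 1 := by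
    show dy false 0 0 - K.xz = _
    rw [hxz]; unfold dy; simp
  have hkyP : reA.mul (reA.sub K.b.t (1 - c)) K.isb = kk b c / sn b := by
    show (K.b.t - (1 - c)) * K.isb = _
    rw [hKb, hib]
    show (b - (1 - c)) * (sn b)⁻¹ = _
    exact hky
  have hbs' : D * K.bs = 4 * kap P * (sn e0 * cn e0 * (4 * (sn a * sn b * sn c) - 2 * (sn e0 * cn e0)))
    - 2 * (1 + 2 * kap P) * e0 := by
    rw [hbs]; simp
  have hc1 : (P.c1 : ℝ) / 2 ^ 8 = 2 * (1 + 2 * kap P) := by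
    obtain ⟨-, -, -, -, -, -, -, -, -, -, -, -, -, -, -, -, -, k, -⟩ := cons_proof P hP
    exact k
  have key : D * (K.bs - (P.c1 : ℝ) / 2 ^ 8 * kD) = 3 - 3 / (P.n : ℝ) - a - b - c - F P a b (-1) - F P a c 1 - F P b c 1 := by
    rw [hid, mul_sub, hbs', ← hkD, hc1]; ring
  constructor
  · intro hneg
    have pO := pO hneg
    show 3 - 3 / (P.n : ℝ) - a - b - c - F P a b (tt a b c 1) - F P a c (tt a c b 1) - F P b c (tt b c a 1) = _
    have e : qP reA P false K (1 - c) kz kx kD =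
        ((K.bs - (P.c1 : ℝ) / 2 ^ 8 * kD) +
          poleO reA P (nside P a) (nside P b) (kk a b / sn a) (sn b)⁻¹ (-tt a b c 1) (D / (sn a * sn b))) +
        (poleA reA P (nside P a) (nside P c) (kk a c / sn a) (sn c)⁻¹ (tt a c b 1) (D / (sn a * sn c)) +
          poleA reA P (nside P b) (nside P c) (kk b c / sn b) (sn c)⁻¹ (tt b c a 1) (D / (sn b * sn c))) := by
      unfold qP
      rw [hkyP, hz0, hKa, hKb, hKc, hib, hic, hyz, hyx, hyy, hxx, hxy, hkz, hkx]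
      rfl
    rw [e]
    have : D * ((K.bs - (P.c1 : ℝ) / 2 ^ 8 * kD) +
          poleO reA P (nside P a) (nside P b) (kk a b / sn a) (sn b)⁻¹ (-tt a b c 1) (D / (sn a * sn b)) +
        (poleA reA P (nside P a) (nside P c) (kk a c / sn a) (sn c)⁻¹ (tt a c b 1) (D / (sn a * sn c)) +
          poleA reA P (nside P b) (nside P c) (kk b c / sn b) (sn c)⁻¹ (tt b c a 1) (D / (sn b * sn c)))) =
        D * (K.bs - (P.c1 : ℝ) / 2 ^ 8 * kD) +
          D * poleO reA P (nside P a) (nside P b) (kk a b / sn a) (sn b)⁻¹ (-tt a b c 1) (D / (sn a * sn b)) +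
        (D * poleA reA P (nside P a) (nside P c) (kk a c / sn a) (sn c)⁻¹ (tt a c b 1) (D / (sn a * sn c)) +
          D * poleA reA P (nside P b) (nside P c) (kk b c / sn b) (sn c)⁻¹ (tt b c a 1)
            (D / (sn b * sn c))) := by ring
    rw [this, key, pO, pAx, pAy]
    ring
  · intro hpos
    have pE := pE hpos
    show 3 - 3 / (P.n : ℝ) - a - b - c - F P a b (tt a b c 1) - F P a c (tt a c b 1) - F P b c (tt b c a 1) = _
    have e : qP reA P true K (1 - c) kz kx kD =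
        ((K.bs - (P.c1 : ℝ) / 2 ^ 8 * kD) +
          poleE reA P (nside P a) (nside P b) (kk a b / sn a) (sn b)⁻¹ (tt a b c 1) (D / (sn a * sn b))) +
        (poleA reA P (nside P a) (nside P c) (kk a c / sn a) (sn c)⁻¹ (tt a c b 1) (D / (sn a * sn c)) +
          poleA reA P (nside P b) (nside P c) (kk b c / sn b) (sn c)⁻¹ (tt b c a 1) (D / (sn b * sn c))) := by
      unfold qP
      rw [hkyP, hKa, hKb, hKc, hib, hic, hyz, hyx, hyy, hxz, hxx, hxy, hkz, hkx]
      rfl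
    rw [e]
    have : D * ((K.bs - (P.c1 : ℝ) / 2 ^ 8 * kD) +
          poleE reA P (nside P a) (nside P b) (kk a b / sn a) (sn b)⁻¹ (tt a b c 1) (D / (sn a * sn b)) +
        (poleA reA P (nside P a) (nside P c) (kk a c / sn a) (sn c)⁻¹ (tt a c b 1) (D / (sn a * sn c)) +
          poleA reA P (nside P b) (nside P c) (kk b c / sn b) (sn c)⁻¹ (tt b c a 1) (D / (sn b * sn c)))) =
        D * (K.bs - (P.c1 : ℝ) / 2 ^ 8 * kD) +
          D * poleE reA P (nside P a) (nside P b) (kk a b / sn a) (sn b)⁻¹ (tt a b c 1) (D / (sn a * sn b)) +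
        (D * poleA reA P (nside P a) (nside P c) (kk a c / sn a) (sn c)⁻¹ (tt a c b 1) (D / (sn a * sn c)) +
          D * poleA reA P (nside P b) (nside P c) (kk b c / sn b) (sn c)⁻¹ (tt b c a 1)
            (D / (sn b * sn c))) := by ring
    rw [this, key, pE, pAx, pAy]
    ring

end Pool.Agent.FTN
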