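import Pool.Agent.FTN.Stmts

/-! Induction step: summation of the triangle inequality. -/

open Real

namespace Pool.Agent.FTN

open Pool.Agent.FTA (TM Alg tmA slA SL Side Core PR Cmp Tr sn cn De kk T1 tt gram reA prA Compat InB sg PSDK scR acR)

namespace STEP_

theorem ang_mem {n : ℕ} (x y : En n) : 0 ≤ ang x y ∧ ang x y ≤ 1 := by
  unfold ang
  have h0 : 0 ≤ Real.arccos |inner ℝ x y| := Real.arccos_nonneg _
  have h1 : Real.arccos |inner ℝ x y| ≤ π / 2 := by
    rw [Real.arccos_le_pi_div_two]; exact abs_nonneg _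
  have hpi := Real.pi_pos
  constructor
  · positivity
  · have : 2 / π * Real.arccos |inner ℝ x y| ≤ 2 / π * (π / 2) :=
      mul_le_mul_of_nonneg_left h1 (by positivity)
    have e : 2 / π * (π / 2) = 1 := by field_simp
    linarith

/-- positivity at a pole -/
theorem pos (h1 : Stmt_POL) (h2 : Stmt_AZN) (h3 : Stmt_F0) (P : Par) (hP : Good P) (m : ℕ) (hm : P.n = m + 2)
    (hW : WB (P.n - 1)) (N : ℕ) (x : Fin N → En (m + 2)) (w : Fin N → ℝ) (hx : ∀ i, ‖x i‖ = 1) (hw : ∀ i, 0 ≤ w i)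
    (z : En (m + 2)) (hz : ‖z‖ = 1) :
    0 ≤ ∑ i, ∑ j, w i * w j * F P (ang z (x i)) (ang z (x j)) (tz z (x i) (x j)) := by
  obtain ⟨e, he1, he2⟩ := h2 m z hz
  have hm1 : P.n - 1 = m + 1 := by omega
  have h := h1 P hP hW N (fun i => ang z (x i))
  rw [hm1] at h
  have h' := h (fun i => e (x i)) w (fun i => ang_mem _ _) (fun i => he1 _ (hx i)) hw
  have eq : ∑ i, ∑ j, w i * w j * F P (ang z (x i)) (ang z (x j)) (tz z (x i) (x j)) =
      ∑ i, ∑ j, w i * w j * F P (ang z (x i)) (ang z (x j)) (inner ℝ (e (x i)) (e (x j))) := by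
    refine Finset.sum_congr rfl fun i _ => Finset.sum_congr rfl fun j _ => ?_
    congr 1
    rcases (ang_mem z (x i)).1.eq_or_lt with hi | hi
    · rw [← hi]
      exact (h3 P _ _ _ (ang_mem z (x j)).1 (ang_mem z (x j)).2).1
    rcases (ang_mem z (x j)).1.eq_or_lt with hj | hj
    · rw [← hj]
      exact (h3 P _ _ _ (ang_mem z (x i)).1 (ang_mem z (x i)).2).2
    rw [he2 _ _ (hx i) (hx j) hi hj]
  rw [eq]
  exact h'

/-- the triple sum -/
theorem triple {N : ℕ} (w : Fin N → ℝ) (f : Fin N → Fin N → Fin N → ℝ) (g : Fin N → Fin N → ℝ) (c : ℝ)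
    (hf : ∀ i j k, f k i j + f i j k + f j k i ≤ c - g i j - g j k - g k i)
    (hw : ∀ i, 0 ≤ w i) (hS : ∀ k, 0 ≤ ∑ i, ∑ j, w i * w j * f k i j) :
    3 * ((∑ i, w i) * ∑ i, ∑ j, w i * w j * g i j) ≤ c * (∑ i, w i) ^ 3 := by
  set W := ∑ i, w i with hWd
  set A := ∑ i, ∑ j, w i * w j * g i j with hA
  have s2 : ∑ i, ∑ j, ∑ k, w i * w j * w k * f i j k = ∑ i, w i * ∑ j, ∑ k, w j * w k * f i j k := by
    refine Finset.sum_congr rfl fun i _ => ?_
    rw [Finset.mul_sum]
    refine Finset.sum_congr rfl fun j _ => ?_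
    rw [Finset.mul_sum]
    exact Finset.sum_congr rfl fun k _ => by ring
  have s0 : 0 ≤ ∑ i, ∑ j, ∑ k, w i * w j * w k * f i j k := by
    rw [s2]; exact Finset.sum_nonneg fun i _ => mul_nonneg (hw i) (hS i)
  have s1 : ∑ i, ∑ j, ∑ k, w i * w j * w k * f k i j = ∑ i, ∑ j, ∑ k, w i * w j * w k * f i j k := by
    calc ∑ i, ∑ j, ∑ k, w i * w j * w k * f k i j = ∑ i, ∑ k, ∑ j, w i * w j * w k * f k i j :=
          Finset.sum_congr rfl fun i _ => Finset.sum_comm
      _ = ∑ k, ∑ i, ∑ j, w i * w j * w k * f k i j := Finset.sum_comm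
      _ = _ := Finset.sum_congr rfl fun k _ => Finset.sum_congr rfl fun i _ => Finset.sum_congr rfl fun j _ => by ring
  have s3 : ∑ i, ∑ j, ∑ k, w i * w j * w k * f j k i = ∑ i, ∑ j, ∑ k, w i * w j * w k * f i j k := by
    calc ∑ i, ∑ j, ∑ k, w i * w j * w k * f j k i = ∑ j, ∑ i, ∑ k, w i * w j * w k * f j k i := Finset.sum_comm
      _ = ∑ j, ∑ k, ∑ i, w i * w j * w k * f j k i := Finset.sum_congr rfl fun j _ => Finset.sum_comm
      _ = _ := Finset.sum_congr rfl fun k _ => Finset.sum_congr rfl fun i _ => Finset.sum_congr rfl fun j _ => by ring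
  have hle : ∑ i, ∑ j, ∑ k, w i * w j * w k * (f k i j + f i j k + f j k i) ≤
      ∑ i, ∑ j, ∑ k, w i * w j * w k * (c - g i j - g j k - g k i) :=
    Finset.sum_le_sum fun i _ => Finset.sum_le_sum fun j _ => Finset.sum_le_sum fun k _ =>
      mul_le_mul_of_nonneg_left (hf i j k) (mul_nonneg (mul_nonneg (hw i) (hw j)) (hw k))
  have hL : ∑ i, ∑ j, ∑ k, w i * w j * w k * (f k i j + f i j k + f j k i) =
      3 * ∑ i, ∑ j, ∑ k, w i * w j * w k * f i j k := by
    have : ∑ i, ∑ j, ∑ k, w i * w j * w k * (f k i j + f i j k + f j k i) =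
        (∑ i, ∑ j, ∑ k, w i * w j * w k * f k i j) + (∑ i, ∑ j, ∑ k, w i * w j * w k * f i j k)
          + ∑ i, ∑ j, ∑ k, w i * w j * w k * f j k i := by
      simp only [← Finset.sum_add_distrib]
      exact Finset.sum_congr rfl fun k _ => Finset.sum_congr rfl fun i _ => Finset.sum_congr rfl fun j _ => by ring
    rw [this, s1, s3]; ring
  have r0 : ∑ i, ∑ j, ∑ k, w i * w j * w k * c = c * W ^ 3 := by
    have : ∀ i j, ∑ k, w i * w j * w k * c = w i * w j * (W * c) := by
      intro i j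
      rw [hWd, Finset.sum_mul, Finset.mul_sum]
      exact Finset.sum_congr rfl fun k _ => by ring
    simp only [this]
    have : ∀ i, ∑ j, w i * w j * (W * c) = w i * (W * (W * c)) := by
      intro i
      calc ∑ j, w i * w j * (W * c) = ∑ j, w j * (w i * (W * c)) := Finset.sum_congr rfl fun j _ => by ring
        _ = W * (w i * (W * c)) := by rw [← Finset.sum_mul]
        _ = _ := by ring
    simp only [this]
    rw [← Finset.sum_mul]
    ring
  have r1 : ∑ i, ∑ j, ∑ k, w i * w j * w k * g i j = W * A := by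
    have : ∀ i j, ∑ k, w i * w j * w k * g i j = W * (w i * w j * g i j) := by
      intro i j
      rw [hWd, Finset.sum_mul]
      exact Finset.sum_congr rfl fun k _ => by ring
    simp only [this, ← Finset.mul_sum]
    rfl
  have r2 : ∑ i, ∑ j, ∑ k, w i * w j * w k * g j k = W * A := by
    have : ∀ i, ∑ j, ∑ k, w i * w j * w k * g j k = w i * A := by
      intro i
      rw [hA, Finset.mul_sum]
      refine Finset.sum_congr rfl fun j _ => ?_
      rw [Finset.mul_sum]
      exact Finset.sum_congr rfl fun k _ => by ring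
    simp only [this]
    rw [← Finset.sum_mul]
  have r3 : ∑ i, ∑ j, ∑ k, w i * w j * w k * g k i = W * A := by
    rw [← r1]
    calc ∑ i, ∑ j, ∑ k, w i * w j * w k * g k i = ∑ i, ∑ k, ∑ j, w i * w j * w k * g k i :=
          Finset.sum_congr rfl fun i _ => Finset.sum_comm
      _ = ∑ k, ∑ i, ∑ j, w i * w j * w k * g k i := Finset.sum_comm
      _ = _ := Finset.sum_congr rfl fun k _ => Finset.sum_congr rfl fun i _ => Finset.sum_congr rfl fun j _ => by ring
  have hR : ∑ i, ∑ j, ∑ k, w i * w j * w k * (c - g i j - g j k - g k i) = c * W ^ 3 - 3 * (W * A) := by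
    have : ∑ i, ∑ j, ∑ k, w i * w j * w k * (c - g i j - g j k - g k i) =
        (∑ i, ∑ j, ∑ k, w i * w j * w k * c) - (∑ i, ∑ j, ∑ k, w i * w j * w k * g i j)
          - (∑ i, ∑ j, ∑ k, w i * w j * w k * g j k) - ∑ i, ∑ j, ∑ k, w i * w j * w k * g k i := by
      simp only [← Finset.sum_sub_distrib]
      exact Finset.sum_congr rfl fun k _ => Finset.sum_congr rfl fun i _ => Finset.sum_congr rfl fun j _ => by ring
    rw [this, r0, r1, r2, r3]; ring
  rw [hL, hR] at hle
  linarith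

end STEP_

open STEP_

theorem step_proof (h1 : Stmt_POL) (h2 : Stmt_AZN) (h3 : Stmt_F0) (h4 : Stmt_TRN) : Stmt_STEP := by
  intro P hP hM hW
  obtain ⟨m, hm⟩ : ∃ m, P.n = m + 2 := ⟨P.n - 2, by have := hP.n3; omega⟩
  rw [hm]
  intro N x w hx hw
  have hpi := Real.pi_pos
  have hnR : (P.n : ℝ) = ((m + 2 : ℕ) : ℝ) := by rw [hm]
  have hn0 : (0 : ℝ) < ((m + 2 : ℕ) : ℝ) := by positivity
  have ht := triple w (fun i j k => F P (ang (x i) (x j)) (ang (x i) (x k)) (tz (x i) (x j) (x k)))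
    (fun i j => ang (x i) (x j)) (3 - 3 / (P.n : ℝ))
    (fun i j k => h4 P hP hM (m + 2) (x i) (x j) (x k) (hx i) (hx j) (hx k)) hw
    (fun k => pos h1 h2 h3 P hP m hm hW N x w hx hw (x k) (hx k))
  set W := ∑ i, w i with hWd
  set A := ∑ i, ∑ j, w i * w j * ang (x i) (x j) with hA
  have e : ∑ i, ∑ j, w i * w j * T1 |inner ℝ (x i) (x j)| = W ^ 2 - A := by
    rw [hWd, hA, sq, Finset.sum_mul_sum, ← Finset.sum_sub_distrib]
    refine Finset.sum_congr rfl fun i _ => ?_
    rw [← Finset.sum_sub_distrib]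
    refine Finset.sum_congr rfl fun j _ => ?_
    have : T1 |inner ℝ (x i) (x j)| = 1 - ang (x i) (x j) := by
      unfold T1 ang
      rw [Real.arcsin_eq_pi_div_two_sub_arccos]
      field_simp
    rw [this]; ring
  rw [e]
  have hW0 : 0 ≤ W := Finset.sum_nonneg fun i _ => hw i
  rcases hW0.eq_or_lt with h0 | h0
  · have hz : ∀ i, w i = 0 := by
      intro i
      exact (Finset.sum_eq_zero_iff_of_nonneg (fun i _ => hw i)).1 h0.symm i (Finset.mem_univ i)
    have hA0 : A = 0 := by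
      rw [hA]
      refine Finset.sum_eq_zero fun i _ => Finset.sum_eq_zero fun j _ => ?_
      rw [hz i]; ring
    rw [hA0, ← h0]
    simp
  · have h5 : W * (3 * A) ≤ W * ((3 - 3 / (P.n : ℝ)) * W ^ 2) := by nlinarith
    have h6 := le_of_mul_le_mul_left h5 h0
    rw [hnR] at h6
    have h7 : (3 - 3 / ((m + 2 : ℕ) : ℝ)) * W ^ 2 = 3 * (W ^ 2 - W ^ 2 / ((m + 2 : ℕ) : ℝ)) := by
      field_simp
    rw [h7] at h6
    linarith

end Pool.Agent.FTN
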