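import Pool.Agent.FTN.Stmts

/-! Sum of the angles. -/

open Real

namespace Pool.Agent.FTN

open Pool.Agent.FTA (T1)

theorem sumn_proof : Stmt_SUMN := by
  intro n hn hW N x hx
  have h := hW N x (fun _ => 1) hx (fun _ => zero_le_one)
  have hp := Real.pi_pos
  have hn0 : (0 : ℝ) < n := by exact_mod_cast (by omega : 0 < n)
  have e : ∀ i j, T1 |inner ℝ (x i) (x j)| = 1 - 2 / π * Real.arccos |inner ℝ (x i) (x j)| := by
    intro i j
    unfold T1
    rw [Real.arcsin_eq_pi_div_two_sub_arccos]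
    field_simp
  simp only [e, one_mul, Finset.sum_sub_distrib, Finset.sum_const, Finset.card_univ, Fintype.card_fin, nsmul_eq_mul,
    mul_one, ← Finset.mul_sum] at h
  set A := ∑ i, ∑ j, Real.arccos |inner ℝ (x i) (x j)| with hA
  have h2 : 2 / π * A ≤ (N : ℝ) * N - (N : ℝ) ^ 2 / n := by linarith
  have h3 : A = π / 2 * (2 / π * A) := by field_simp
  rw [h3]
  calc π / 2 * (2 / π * A) ≤ π / 2 * ((N : ℝ) * N - (N : ℝ) ^ 2 / n) := mul_le_mul_of_nonneg_left h2 (by positivity)
    _ = _ := by field_simp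

end Pool.Agent.FTN
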