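import Pool.Agent.FTN.Stmts

/-! Powers of the inner product. -/

open Real

namespace Pool.Agent.FTN

open Pool.Agent.FTA (TM Alg tmA slA SL Side Core PR Cmp Tr sn cn De kk T1 tt gram reA prA Compat InB sg PSDK scR acR)

namespace TRC_

lemma inner_sum {n : ℕ} (x y : En n) : (inner ℝ x y : ℝ) = ∑ a, x a * y a := by
  simp [PiLp.inner_apply, mul_comm]

lemma sum_one {n : ℕ} (x : En n) (hx : ‖x‖ = 1) : ∑ a, x a * x a = 1 := by
  rw [← inner_sum, real_inner_self_eq_norm_sq, hx]; norm_num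

lemma form1 {n N : ℕ} (x : Fin N → En n) (c : Fin N → ℝ) :
    ∑ i, ∑ j, c i * c j * (inner ℝ (x i) (x j) : ℝ) = ∑ a, (∑ i, c i * x i a) ^ 2 := by
  have h : ∀ a, (∑ i, c i * x i a) ^ 2 = ∑ i, ∑ j, c i * c j * (x i a * x j a) := by
    intro a
    rw [sq, Finset.sum_mul_sum]
    exact Finset.sum_congr rfl fun i _ => Finset.sum_congr rfl fun j _ => by ring
  rw [Finset.sum_congr rfl fun a _ => h a]
  symm
  rw [Finset.sum_comm]
  refine Finset.sum_congr rfl fun i _ => ?_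
  rw [Finset.sum_comm]
  refine Finset.sum_congr rfl fun j _ => ?_
  rw [inner_sum, Finset.mul_sum]

lemma form2 {n N : ℕ} (x : Fin N → En n) (c : Fin N → ℝ) :
    ∑ i, ∑ j, c i * c j * (inner ℝ (x i) (x j) : ℝ) ^ 2 = ∑ a, ∑ b, (∑ i, c i * (x i a * x i b)) ^ 2 := by
  have h : ∀ a b, (∑ i, c i * (x i a * x i b)) ^ 2 = ∑ i, ∑ j, c i * c j * ((x i a * x j a) * (x i b * x j b)) := by
    intro a b
    rw [sq, Finset.sum_mul_sum]
    exact Finset.sum_congr rfl fun i _ => Finset.sum_congr rfl fun j _ => by ring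
  have h2 : ∀ a, ∑ b, (∑ i, c i * (x i a * x i b)) ^ 2 = ∑ i, ∑ j, ∑ b, c i * c j * ((x i a * x j a) * (x i b * x j b)) := by
    intro a
    rw [Finset.sum_congr rfl fun b _ => h a b, Finset.sum_comm]
    exact Finset.sum_congr rfl fun i _ => Finset.sum_comm
  rw [Finset.sum_congr rfl fun a _ => h2 a]
  symm
  rw [Finset.sum_comm]
  refine Finset.sum_congr rfl fun i _ => ?_
  rw [Finset.sum_comm]
  refine Finset.sum_congr rfl fun j _ => ?_
  rw [inner_sum, sq, Finset.sum_mul_sum, Finset.mul_sum]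
  refine Finset.sum_congr rfl fun a _ => ?_
  rw [Finset.mul_sum]

end TRC_

open TRC_

theorem trc_proof : Stmt_TRC := by
  intro n
  refine ⟨⟨fun x y => real_inner_comm _ _, fun N x c => ?_⟩, ⟨fun x y => ?_, fun N x c => ?_⟩,
    fun hn => ⟨fun x y => ?_, fun N x c => ?_⟩⟩
  · rw [form1 (fun i => (x i).1) c]
    exact Finset.sum_nonneg fun a _ => sq_nonneg _
  · show (inner ℝ x.1 y.1 : ℝ) ^ 2 = (inner ℝ y.1 x.1 : ℝ) ^ 2
    rw [real_inner_comm]
  · rw [form2 (fun i => (x i).1) c]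
    exact Finset.sum_nonneg fun a _ => Finset.sum_nonneg fun b _ => sq_nonneg _
  · show (inner ℝ x.1 y.1 : ℝ) ^ 2 - _ = (inner ℝ y.1 x.1 : ℝ) ^ 2 - _
    rw [real_inner_comm]
  · have hn' : (0 : ℝ) < n := by exact_mod_cast (by omega : 0 < n)
    have e : ∑ i, ∑ j, c i * c j * ((inner ℝ (x i).1 (x j).1 : ℝ) ^ 2 - 1 / (n : ℝ)) =
        (∑ a, ∑ b, (∑ i, c i * ((x i).1 a * (x i).1 b)) ^ 2) - (∑ i, c i) ^ 2 * (1 / (n : ℝ)) := by
      rw [← form2 (fun i => (x i).1) c, sq (∑ i, c i), Finset.sum_mul_sum, Finset.sum_mul, ← Finset.sum_sub_distrib]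
      refine Finset.sum_congr rfl fun i _ => ?_
      rw [Finset.sum_mul, ← Finset.sum_sub_distrib]
      refine Finset.sum_congr rfl fun j _ => ?_
      ring
    rw [e]
    have h1 : ∑ a, (∑ i, c i * ((x i).1 a * (x i).1 a)) ^ 2 ≤ ∑ a, ∑ b, (∑ i, c i * ((x i).1 a * (x i).1 b)) ^ 2 := by
      refine Finset.sum_le_sum fun a _ => ?_
      exact Finset.single_le_sum (f := fun b => (∑ i, c i * ((x i).1 a * (x i).1 b)) ^ 2)
        (fun b _ => sq_nonneg _) (Finset.mem_univ a)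
    have h2 : ∑ a, ∑ i, c i * ((x i).1 a * (x i).1 a) = ∑ i, c i := by
      rw [Finset.sum_comm]
      refine Finset.sum_congr rfl fun i _ => ?_
      rw [← Finset.mul_sum, sum_one _ (x i).2, mul_one]
    have h3 := sq_sum_le_card_mul_sum_sq (s := (Finset.univ : Finset (Fin n)))
      (f := fun a => ∑ i, c i * ((x i).1 a * (x i).1 a))
    simp only [Finset.card_univ, Fintype.card_fin] at h3
    rw [h2] at h3
    have h4 : (∑ i, c i) ^ 2 * (1 / (n : ℝ)) ≤ ∑ a, (∑ i, c i * ((x i).1 a * (x i).1 a)) ^ 2 := by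
      rw [mul_one_div, div_le_iff₀ hn']
      linarith
    linarith

end Pool.Agent.FTN
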