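import Pool.Agent.FTN.Stmts

/-!
# TRN: the slack inequality for three unit vectors
-/

open Real

namespace Pool.Agent.FTN

open Pool.Agent.FTA (TM Alg tmA slA SL Side Core PR Cmp Tr sn cn De kk T1 tt gram reA prA Compat InB sg PSDK scR acR)

namespace TRN_

lemma kk_comm (p q : ℝ) : kk p q = kk q p := by
  unfold kk
  rw [add_comm]

lemma Wf_comm (P : Par) (p q : ℝ) : Wf P p q = Wf P q p := by
  unfold Wf
  rw [kk_comm p q, min_comm p q]
  ring

lemma Rf_comm (P : Par) (p q : ℝ) : Rf P p q = Rf P q p := by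
  unfold Rf
  rw [kk_comm p q, min_comm p q, max_comm p q]
  ring

lemma F_comm (P : Par) (p q t : ℝ) : F P p q t = F P q p t := by
  unfold F
  rw [Wf_comm P p q, Rf_comm P p q]
  ring

lemma sgp_mul_abs (r : ℝ) : sgp r * |r| = r := by
  unfold sgp
  split_ifs with h
  · rw [abs_of_nonneg h, one_mul]
  · rw [abs_of_neg (by linarith)]
    ring

lemma sgp_sq (r : ℝ) : sgp r * sgp r = 1 := by
  unfold sgp
  split_ifs <;> norm_num

lemma sgp_cases (r : ℝ) : sgp r = 1 ∨ sgp r = -1 := by
  unfold sgp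
  split_ifs
  · left; rfl
  · right; rfl

variable {n : ℕ}

lemma abs_inner_le {x y : En n} (hx : ‖x‖ = 1) (hy : ‖y‖ = 1) : |inner ℝ x y| ≤ 1 := by
  have h := abs_real_inner_le_norm x y
  rw [hx, hy, mul_one] at h
  exact h

lemma cn_ang {x y : En n} (hx : ‖x‖ = 1) (hy : ‖y‖ = 1) : cn (ang x y) = |inner ℝ x y| := by
  unfold cn ang
  have h1 : π * (2 / π * Real.arccos |inner ℝ x y|) / 2 = Real.arccos |inner ℝ x y| := by
    have := Real.pi_ne_zero
    field_simp
  rw [h1]
  exact Real.cos_arccos (by linarith [abs_nonneg (inner ℝ x y : ℝ)]) (abs_inner_le hx hy)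

lemma ang_comm (x y : En n) : ang x y = ang y x := by
  unfold ang
  rw [real_inner_comm]

lemma ang_nonneg (x y : En n) : 0 ≤ ang x y := by
  unfold ang
  have := Real.arccos_nonneg |inner ℝ x y|
  positivity

lemma ang_le_one (x y : En n) : ang x y ≤ 1 := by
  unfold ang
  have h1 : Real.arccos |inner ℝ x y| ≤ π / 2 :=
    Real.arccos_le_pi_div_two.2 (abs_nonneg _)
  have hp := Real.pi_pos
  calc 2 / π * Real.arccos |inner ℝ x y| ≤ 2 / π * (π / 2) :=
        mul_le_mul_of_nonneg_left h1 (by positivity)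
    _ = 1 := by field_simp

lemma gram_nonneg {x y z : En n} (hx : ‖x‖ = 1) (hy : ‖y‖ = 1) (hz : ‖z‖ = 1) :
    0 ≤ 1 - (inner ℝ z x) ^ 2 - (inner ℝ z y) ^ 2 - (inner ℝ x y) ^ 2 +
      2 * ((inner ℝ z x) * (inner ℝ z y) * (inner ℝ x y) : ℝ) := by
  set p : ℝ := inner ℝ z x with hp
  set q : ℝ := inner ℝ z y with hq
  set r : ℝ := inner ℝ x y with hr
  have hzz : (inner ℝ z z : ℝ) = 1 := by rw [real_inner_self_eq_norm_sq, hz]; norm_num
  have hxx : (inner ℝ x x : ℝ) = 1 := by rw [real_inner_self_eq_norm_sq, hx]; norm_num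
  have hyy : (inner ℝ y y : ℝ) = 1 := by rw [real_inner_self_eq_norm_sq, hy]; norm_num
  have hxz : (inner ℝ x z : ℝ) = p := by rw [real_inner_comm]
  have hyz : (inner ℝ y z : ℝ) = q := by rw [real_inner_comm]
  have hyx : (inner ℝ y x : ℝ) = r := by rw [real_inner_comm]
  have h := real_inner_mul_inner_self_le (x - p • z) (y - q • z)
  have e1 : (inner ℝ (x - p • z) (y - q • z) : ℝ) = r - p * q := by
    rw [inner_sub_left, inner_sub_right, inner_sub_right, real_inner_smul_left,
      real_inner_smul_left, real_inner_smul_right, real_inner_smul_right, hxz, hzz, ← hq, ← hr]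
    ring
  have e2 : (inner ℝ (x - p • z) (x - p • z) : ℝ) = 1 - p ^ 2 := by
    rw [inner_sub_left, inner_sub_right, inner_sub_right, real_inner_smul_left,
      real_inner_smul_left, real_inner_smul_right, real_inner_smul_right, hxz, hzz, hxx, ← hp]
    ring
  have e3 : (inner ℝ (y - q • z) (y - q • z) : ℝ) = 1 - q ^ 2 := by
    rw [inner_sub_left, inner_sub_right, inner_sub_right, real_inner_smul_left,
      real_inner_smul_left, real_inner_smul_right, real_inner_smul_right, hyz, hzz, hyy, ← hq]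
    ring
  rw [e1, e2, e3] at h
  nlinarith [h]

lemma tz_eq {x y z : En n} (hx : ‖x‖ = 1) (hy : ‖y‖ = 1) (hz : ‖z‖ = 1) :
    tz z x y = tt (ang z x) (ang z y) (ang x y)
      (sgp (inner ℝ z x) * sgp (inner ℝ z y) * sgp (inner ℝ x y)) := by
  unfold tz tt
  rw [cn_ang hz hx, cn_ang hz hy, cn_ang hx hy]
  have : sgp (inner ℝ z x) * sgp (inner ℝ z y) * sgp (inner ℝ x y) * |inner ℝ x y| =
      sgp (inner ℝ z x) * sgp (inner ℝ z y) * (inner ℝ x y : ℝ) := by
    rw [mul_assoc (sgp (inner ℝ z x) * sgp (inner ℝ z y)), sgp_mul_abs]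
  rw [this]

lemma tt_comm (p q r s : ℝ) : tt p q r s = tt q p r s := by
  unfold tt
  rw [mul_comm (cn p), mul_comm (sn p)]

end TRN_

open TRN_ in
theorem trn_proof : Stmt_TRN := by
  intro P _ h1 n x y z hx hy hz
  set s : ℝ := sgp (inner ℝ z x) * sgp (inner ℝ z y) * sgp (inner ℝ x y) with hs
  have hs1 : s = 1 ∨ s = -1 := by
    rcases sgp_cases (inner ℝ z x) with h | h <;> rcases sgp_cases (inner ℝ z y) with h' | h' <;>
      rcases sgp_cases (inner ℝ x y) with h'' | h'' <;> rw [hs, h, h', h''] <;> norm_num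
  have hg : 0 ≤ gram (ang z x) (ang z y) (ang x y) s := by
    unfold gram
    rw [cn_ang hz hx, cn_ang hz hy, cn_ang hx hy, sq_abs, sq_abs, sq_abs]
    have e : s * (|inner ℝ z x| * |inner ℝ z y| * |inner ℝ x y|) =
        (inner ℝ z x) * (inner ℝ z y) * (inner ℝ x y : ℝ) := by
      have a1 := sgp_mul_abs (inner ℝ z x)
      have a2 := sgp_mul_abs (inner ℝ z y)
      have a3 := sgp_mul_abs (inner ℝ x y)
      calc s * (|inner ℝ z x| * |inner ℝ z y| * |inner ℝ x y|) =
          (sgp (inner ℝ z x) * |inner ℝ z x|) * (sgp (inner ℝ z y) * |inner ℝ z y|) *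
            (sgp (inner ℝ x y) * |inner ℝ x y|) := by rw [hs]; ring
        _ = _ := by rw [a1, a2, a3]
    have := gram_nonneg hx hy hz
    nlinarith [this, e]
  have hm := h1 (ang z x) (ang z y) (ang x y) s (ang_nonneg _ _) (ang_le_one _ _)
    (ang_nonneg _ _) (ang_le_one _ _) (ang_nonneg _ _) (ang_le_one _ _) hs1 hg
  unfold Gf at hm
  have f1 : F P (ang z x) (ang z y) (tz z x y) = F P (ang z x) (ang z y) (tt (ang z x) (ang z y) (ang x y) s) := by
    rw [tz_eq hx hy hz]
  have f2 : F P (ang x y) (ang x z) (tz x y z) = F P (ang z x) (ang x y) (tt (ang z x) (ang x y) (ang z y) s) := by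
    rw [tz_eq hy hz hx, F_comm, tt_comm, ang_comm x z, ang_comm y z]
    congr 2
    rw [hs, real_inner_comm x z, real_inner_comm y z]
    ring
  have f3 : F P (ang y z) (ang y x) (tz y z x) = F P (ang z y) (ang x y) (tt (ang z y) (ang x y) (ang z x) s) := by
    rw [tz_eq hz hx hy, ang_comm y z, ang_comm y x]
    congr 2
    rw [hs, real_inner_comm z y, real_inner_comm x y]
    ring
  rw [f1, f2, f3, ang_comm y z]
  linarith

end Pool.Agent.FTN
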