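import Pool.Agent.FTA.KIT
import Pool.Agent.FTA.CONST
import Pool.Agent.FTA.BITS
import Pool.Agent.FTA.ABS
import Pool.Agent.FTA.MUL
import Pool.Agent.FTA.LIN
import Pool.Agent.FTA.POS
import Pool.Agent.FTA.INV
import Pool.Agent.FTA.RSQ
import Pool.Agent.FTA.ESC
import Pool.Agent.FTA.ECS
import Pool.Agent.FTA.EAC
import Pool.Agent.FTA.EAS
import Pool.Agent.FTA.TMC
import Pool.Agent.FTA.OKF
import Pool.Agent.FTA.SLC
import Pool.Agent.FTA.TREE
import Pool.Agent.FTA.TREES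
import Pool.Agent.FTN.AFF
import Pool.Agent.FTN.QN
import Pool.Agent.FTN.QP
import Pool.Agent.FTN.CN
import Pool.Agent.FTN.CA
import Pool.Agent.FTN.CB
import Pool.Agent.FTN.CEF
import Pool.Agent.FTN.CEN
import Pool.Agent.FTN.CEP
import Pool.Agent.FTN.CV
import Pool.Agent.FTN.DEG
import Pool.Agent.FTN.MI
import Pool.Agent.FTN.COVN
import Pool.Agent.FTN.COVP
import Pool.Agent.FTN.PARQ
import Pool.Agent.FTN.PARV
import Pool.Agent.FTN.PARH
import Pool.Agent.FTN.POLE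
import Pool.Agent.FTN.REF
import Pool.Agent.FTN.HBN
import Pool.Agent.FTN.PW
import Pool.Agent.FTN.PR
import Pool.Agent.FTN.CHP
import Pool.Agent.FTN.CHE
import Pool.Agent.FTN.CHN
import Pool.Agent.FTN.F0
import Pool.Agent.FTN.TRN
import Pool.Agent.FTN.AZN
import Pool.Agent.FTN.TRC
import Pool.Agent.FTN.ASN
import Pool.Agent.FTN.POL
import Pool.Agent.FTN.STEP
import Pool.Agent.FTN.BASE
import Pool.Agent.FTN.SUMN
import Pool.Agent.FTN.MEASN
import Pool.Agent.FTN.REG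
import Pool.Agent.FTN.GOODS
import Pool.Agent.FTN.K.P3
import Pool.Agent.FTN.K.P4
import Pool.Agent.FTN.K.P5
import Pool.Agent.FTN.K.P6
import Pool.Agent.FTN.K.P7
import Pool.Agent.FTN.K.P8
import Pool.Agent.FTN.K.P9
import Pool.Agent.FTN.K.P10

/-! Assembly of the modules. -/

namespace Pool.Agent.FTN.Main

theorem a_KIT : Pool.Agent.FTA.Stmt_KIT := Pool.Agent.FTA.kit_proof
theorem a_CONST : Pool.Agent.FTA.Stmt_CONST := Pool.Agent.FTA.const_proof
theorem a_BITS : Pool.Agent.FTA.Stmt_BITS := Pool.Agent.FTA.bits_proof a_KIT a_CONST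
theorem a_ABS : Pool.Agent.FTA.Stmt_ABS := Pool.Agent.FTA.abs_proof a_KIT a_CONST
theorem a_MUL : Pool.Agent.FTA.Stmt_MUL := Pool.Agent.FTA.mul_proof a_KIT a_CONST a_BITS a_ABS
theorem a_LIN : Pool.Agent.FTA.Stmt_LIN := Pool.Agent.FTA.lin_proof a_KIT a_CONST a_BITS a_ABS
theorem a_POS : Pool.Agent.FTA.Stmt_POS := Pool.Agent.FTA.pos_proof a_KIT a_CONST a_ABS
theorem a_INV : Pool.Agent.FTA.Stmt_INV := Pool.Agent.FTA.inv_proof a_LIN a_MUL a_POS
theorem a_RSQ : Pool.Agent.FTA.Stmt_RSQ := Pool.Agent.FTA.rsq_proof a_LIN a_MUL a_POS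
theorem a_ESC : Pool.Agent.FTA.Stmt_ESC := Pool.Agent.FTA.esc_proof
theorem a_ECS : Pool.Agent.FTA.Stmt_ECS := Pool.Agent.FTA.ecs_proof
theorem a_EAC : Pool.Agent.FTA.Stmt_EAC := Pool.Agent.FTA.eac_proof
theorem a_EAS : Pool.Agent.FTA.Stmt_EAS := Pool.Agent.FTA.eas_proof
theorem a_TMC : Pool.Agent.FTA.Stmt_TMC := Pool.Agent.FTA.tmc_proof a_LIN a_MUL a_INV a_RSQ a_ESC a_ECS a_EAC a_EAS
theorem a_TREE : Pool.Agent.FTA.Stmt_TREE := Pool.Agent.FTA.tree_proof a_LIN a_POS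
theorem a_OKF : Pool.Agent.FTA.Stmt_OKF := Pool.Agent.FTA.okf_proof
theorem a_SLC : Pool.Agent.FTA.Stmt_SLC := Pool.Agent.FTA.slc_proof a_LIN a_MUL a_POS a_INV a_RSQ a_OKF a_ESC a_ECS a_EAC
theorem a_TREES : Pool.Agent.FTA.Stmt_TREES := Pool.Agent.FTA.trees_proof a_LIN a_POS a_OKF

theorem m_POLE : Stmt_POLE := pole_proof
theorem m_QN : Stmt_QN := qn_proof m_POLE
theorem m_QP : Stmt_QP := qp_proof m_POLE
theorem m_COVN : Stmt_COVN := covn_proof (cn_proof m_QN) chn_proof (cen_proof m_QN) (ref_proof m_QN m_QP)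
theorem m_COVP : Stmt_COVP := covp_proof (ca_proof m_QP) (cb_proof m_QP) (cv_proof m_POLE) chp_proof che_proof
  (cep_proof m_QP aff_proof) (cef_proof m_QP) (ref_proof m_QN m_QP)
theorem m_MI : Stmt_MI := mi_proof m_COVN m_COVP deg_proof
theorem m_ASN : Stmt_ASN := asn_proof trc_proof
theorem m_POL : Stmt_POL := pol_proof m_ASN trc_proof pw_proof pr_proof cons_proof hbn_proof
theorem m_STEP : Stmt_STEP := step_proof m_POL azn_proof f0_proof trn_proof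

/-- induction step from the kernel checks -/
theorem step (P : Par) (hG : Good P) (hC : Chk P) (h : WB (P.n - 1)) : WB P.n :=
  m_STEP P hG (m_MI P hG (reg_proof a_TMC a_SLC parq_proof parv_proof parh_proof a_TREE a_TREES P hC)) h

theorem wb2 : WB 2 := base_proof
theorem wb3 : WB 3 := step ⟨3, 128, 96⟩ good3 K3.chk wb2
theorem wb4 : WB 4 := step ⟨4, 108, 132⟩ good4 K4.chk wb3
theorem wb5 : WB 5 := step ⟨5, 93, 157⟩ good5 K5.chk wb4
theorem wb6 : WB 6 := step ⟨6, 83, 177⟩ good6 K6.chk wb5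
theorem wb7 : WB 7 := step ⟨7, 76, 196⟩ good7 K7.chk wb6
theorem wb8 : WB 8 := step ⟨8, 68, 209⟩ good8 K8.chk wb7
theorem wb9 : WB 9 := step ⟨9, 62, 218⟩ good9 K9.chk wb8
theorem wb10 : WB 10 := step ⟨10, 57, 226⟩ good10 K10.chk wb9

end Pool.Agent.FTN.Main
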