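import Pool.Agent.FTN.CORE
import Pool.Agent.FTN.ID
import Pool.Agent.FTA.PRIM

open Real

namespace Pool.Agent.FTN

open Pool.Agent.FTA (TM Alg tmA slA SL Side Core PR Cmp Tr sn cn De kk T1 tt gram reA prA Compat InB sg PSDK scR acR asR dy cl cl8 cl4 pv)

namespace POLE_

variable {P : Par}

lemma sn_pos {e : ℝ} (h0 : 0 < e) (h2 : e ≤ 1) : 0 < sn e := by
  unfold sn
  apply Real.sin_pos_of_pos_of_lt_pi
  · positivity
  · have := Real.pi_pos
    nlinarith

lemma kapx {t y : ℝ} (h0 : 0 ≤ t) (hy : 0 < y) (h : t ^ 2 + y ^ 2 = 1) :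
    y * acR t = 2 / π * Real.arccos t := by
  have ht : t ≠ 1 := by
    rintro rfl
    have : y ^ 2 = 0 := by linarith
    have := pow_pos hy 2
    linarith
  unfold acR
  rw [if_neg ht]
  have : √(1 - t ^ 2) = y := by
    rw [show 1 - t ^ 2 = y ^ 2 by linarith]
    exact Real.sqrt_sq hy.le
  rw [this]
  field_simp

lemma t_lt {t y : ℝ} (h0 : 0 ≤ t) (hy : 0 < y) (h : t ^ 2 + y ^ 2 = 1) : t < 1 := by
  nlinarith [pow_pos hy 2]

lemma T1_eq (t : ℝ) : T1 t = 1 - 2 / π * Real.arccos t := by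
  unfold T1
  have hpi := Real.pi_pos
  rw [Real.arccos]
  field_simp
  ring

lemma T1_neg (t : ℝ) : T1 (-t) = - T1 t := by
  unfold T1; rw [Real.arcsin_neg]; ring

lemma T1_one : T1 1 = 1 := by
  rw [T1_eq]; simp

lemma T1_nonneg {t : ℝ} (h : 0 ≤ t) : 0 ≤ T1 t := by
  unfold T1
  have := Real.pi_pos
  have h1 : 0 ≤ Real.arcsin t := Real.arcsin_nonneg.2 h
  positivity

lemma sinpi (p : ℝ) : Real.sin (π * p) = 2 * (sn p * cn p) := by
  unfold sn cn
  have : π * p = 2 * (π * p / 2) := by ring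
  conv_lhs => rw [this]
  rw [Real.sin_two_mul]
  ring

/-- the differences of `F` in terms of `κ` -/
lemma dA (p q : ℝ) {t y k : ℝ} (h0 : 0 ≤ t) (h1 : t ≤ 1) (h : t ^ 2 + y ^ 2 = 1) (hk : k = 2 / π * Real.arccos t) :
    F P p q 1 - F P p q t = (1 - sig P)⁻¹ * (pB P p * pB P q) * k + (sig P)⁻¹ * (pE P p * pE P q) * y ^ 2
      + Wf P p q * ((1 - t) + k) / 2 + Rf P p q * y ^ 2 := by
  have e := T1_nonneg h0
  unfold F
  rw [abs_of_nonneg e, T1_one, abs_one, T1_eq, ← hk]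
  have : t ^ 2 = 1 - y ^ 2 := by linarith
  rw [this]; ring

lemma dO (p q : ℝ) {t y k : ℝ} (h0 : t ≤ 0) (h1 : -1 ≤ t) (h : t ^ 2 + y ^ 2 = 1) (hk : k = 2 / π * Real.arccos (-t)) :
    F P p q (-1) - F P p q t = (1 - sig P)⁻¹ * (pB P p * pB P q) * k + (sig P)⁻¹ * (pE P p * pE P q) * y ^ 2
      - Wf P p q * ((1 - (-t)) + k) / 2 + Rf P p q * y ^ 2 := by
  have e := T1_nonneg (t := -t) (by linarith)
  unfold F
  have e2 : T1 t = - T1 (-t) := by rw [T1_neg]; ring
  rw [e2, T1_neg 1, abs_neg, abs_neg, abs_of_nonneg e, T1_one, abs_one, T1_eq, ← hk]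
  have : t ^ 2 = 1 - y ^ 2 := by linarith
  rw [this]; ring

lemma dE (p q : ℝ) {t y k : ℝ} (h0 : 0 ≤ t) (h1 : t ≤ 1) (h : t ^ 2 + y ^ 2 = 1) (hk : k = 2 / π * Real.arccos t) :
    F P p q (-1) - F P p q t = (1 - sig P)⁻¹ * (pB P p * pB P q) * k + (sig P)⁻¹ * (pE P p * pE P q) * y ^ 2
      - Wf P p q * ((1 + t) + 2 - k) / 2 + Rf P p q * y ^ 2 := by
  have e := T1_nonneg h0
  unfold F
  rw [abs_of_nonneg e, T1_neg, abs_neg, T1_one, abs_one, T1_eq, ← hk]
  have : t ^ 2 = 1 - y ^ 2 := by linarith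
  rw [this]; ring

lemma W_eq (hP : Good P) {p q : ℝ} (hp : 0 < sn p) (hq : 0 < sn q) (hpq : p ≤ q) :
    sn p * sn q * Wp reA P (nside P p) (nside P q) (kk p q / sn p) (sn q)⁻¹ = Wf P p q := by
  have hc1 := CONS_.c1_val P hP
  have hc4 := CONS_.c4_val P hP
  have e : Wp reA P (nside P p) (nside P q) (kk p q / sn p) (sn q)⁻¹ =
    (P.c1 : ℝ) / 2 ^ 9 * ((p / sn p - kk p q / sn p) * (sn q)⁻¹) - (P.c4 : ℝ) / 2 ^ 8 * (cn p * cn q) := rfl
  rw [e, hc1, hc4]
  simp only [Wf, sinpi, min_eq_left hpq]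
  have h1 : sn p ≠ 0 := hp.ne'
  have h2 : sn q ≠ 0 := hq.ne'
  field_simp
  ring

lemma R_eq (hP : Good P) {p q : ℝ} (hp : 0 < sn p) (hq : 0 < sn q) (hpq : p ≤ q) :
    sn p * sn q * Rp reA P (nside P p) (nside P q) (kk p q / sn p) (sn q)⁻¹ = Rf P p q := by
  have hc1 := CONS_.c1_val P hP
  have hr := CONS_.rho_val P hP
  have e : Rp reA P (nside P p) (nside P q) (kk p q / sn p) (sn q)⁻¹ =
    (P.c1 : ℝ) / 2 ^ 9 * ((p / sn p * (dy false 1 0 - ((2 : ℕ) : ℝ) / 2 ^ 0 * q) + kk p q / sn p) * (sn q)⁻¹)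
      - P.rho reA * ((p / sn p - sn p) * (q / sn q - sn q)) := rfl
  have d1 : dy false 1 0 = 1 := by unfold dy; simp
  have d2 : ((2 : ℕ) : ℝ) / 2 ^ 0 = 2 := by norm_num
  rw [e, hc1, hr, d1, d2]
  simp only [Rf, De, min_eq_left hpq, max_eq_right hpq]
  have h1 : sn p ≠ 0 := hp.ne'
  have h2 : sn q ≠ 0 := hq.ne'
  field_simp

lemma even_eq (hP : Good P) {p q : ℝ} (hp : 0 < sn p) (hq : 0 < sn q) (hpq : p ≤ q) (y k ac : ℝ) (hk : y * ac = k) :
    y * (sn p * sn q) * evenP reA P (nside P p) (nside P q) y ac (Rp reA P (nside P p) (nside P q) (kk p q / sn p) (sn q)⁻¹)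
      = (1 - sig P)⁻¹ * (pB P p * pB P q) * k + (sig P)⁻¹ * (pE P p * pE P q) * y ^ 2 + Rf P p q * y ^ 2 := by
  have hR := R_eq hP hp hq hpq
  set R := Rp reA P (nside P p) (nside P q) (kk p q / sn p) (sn q)⁻¹ with hRdef
  clear_value R
  have h1 : sn p ≠ 0 := hp.ne'
  have h2 : sn q ≠ 0 := hq.ne'
  have e : evenP reA P (nside P p) (nside P q) y ac R =
    P.cB reA * (pB P p / sn p * (pB P q / sn q) * ac) + y * (P.cE reA * (pE P p / sn p * (pE P q / sn q)) + R) := rfl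
  rw [e, CONS_.cB_val P hP, CONS_.cE_val P, ← hR, ← hk]
  generalize (1 - sig P)⁻¹ = u
  generalize (sig P)⁻¹ = v
  field_simp
  ring

end POLE_

open POLE_ in
theorem pole_proof : Stmt_POLE := by
  obtain ⟨_, _, hac, _⟩ := Pool.Agent.FTA.prim_proof
  intro P hP p q t y D hp hpq hq hy hty hD
  have sp : 0 < sn p := sn_pos hp (by linarith)
  have sq : 0 < sn q := sn_pos (by linarith) hq
  have ht2 : t ^ 2 < 1 := by nlinarith [pow_pos hy 2]
  have ht1 : t < 1 := by nlinarith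
  have ht1' : -1 < t := by nlinarith
  have hW := W_eq hP sp sq hpq
  refine ⟨fun h0 => ?_, fun h0 => ?_, fun h0 => ?_⟩
  · rw [dA p q h0 ht1.le hty rfl]
    have hk := kapx h0 hy hty
    have he := even_eq hP sp sq hpq y _ _ hk
    unfold poleA
    simp only
    rw [hac t h0 ht1.le]
    have hadd : ∀ a b : ℝ, reA.add a b = a + b := fun _ _ => rfl
    rw [hadd, mul_add, hD, he]
    have ho : y * (sn p * sn q) * oddP reA (Wp reA P (nside P p) (nside P q) (kk p q / sn p) (sn q)⁻¹) y t (acR t)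
        = Wf P p q * ((1 - t) + 2 / π * Real.arccos t) / 2 := by
      rw [← hk, ← hW]
      set W := Wp reA P (nside P p) (nside P q) (kk p q / sn p) (sn q)⁻¹
      clear_value W
      simp only [oddP, reA, Alg.op, Alg.one, dy]
      have h1t : (1 + t) ≠ 0 := by positivity
      have e1 : y * y * (1 + t)⁻¹ = 1 - t := by
        rw [show y * y = (1 - t) * (1 + t) by nlinarith]
        field_simp
      have e2 : ((if False then (-1 : ℝ) else 1) * ((1 : ℕ) : ℝ) / 2 ^ 0 + t)⁻¹ = (1 + t)⁻¹ := by simp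
      simp
      calc y * (sn p * sn q) * (2⁻¹ * (W * (y * (1 + t)⁻¹ + acR t)))
          = sn p * sn q * W * (y * y * (1 + t)⁻¹ + y * acR t) / 2 := by ring
        _ = _ := by rw [e1]
    rw [ho]; ring
  · rw [dO p q h0 ht1'.le hty rfl]
    have hty' : (-t) ^ 2 + y ^ 2 = 1 := by rw [neg_sq]; exact hty
    have hk := kapx (t := -t) (by linarith) hy hty'
    have he := even_eq hP sp sq hpq y _ _ hk
    unfold poleO
    simp only
    rw [hac (-t) (by linarith) (by linarith)]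
    have hsub : ∀ a b : ℝ, reA.sub a b = a - b := fun _ _ => rfl
    rw [hsub, mul_sub, hD, he]
    have ho : y * (sn p * sn q) * oddP reA (Wp reA P (nside P p) (nside P q) (kk p q / sn p) (sn q)⁻¹) y (-t) (acR (-t))
        = Wf P p q * ((1 - (-t)) + 2 / π * Real.arccos (-t)) / 2 := by
      rw [← hk, ← hW]
      set W := Wp reA P (nside P p) (nside P q) (kk p q / sn p) (sn q)⁻¹
      clear_value W
      simp only [oddP, reA, Alg.op, Alg.one, dy]
      have h1t : (1 + -t) ≠ 0 := by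
        have : 0 < 1 + -t := by linarith
        exact this.ne'
      have e1 : y * y * (1 + -t)⁻¹ = 1 - -t := by
        rw [show y * y = (1 - -t) * (1 + -t) by nlinarith]
        field_simp
      simp only [Bool.false_eq_true, if_false, Nat.cast_one, pow_zero, pow_one]
      calc y * (sn p * sn q) * (1 / 2 * (W * (y * (1 * 1 / 1 + -t)⁻¹ + acR (-t))))
          = sn p * sn q * W * (y * y * (1 + -t)⁻¹ + y * acR (-t)) / 2 := by ring
        _ = _ := by rw [e1]
    rw [ho]; ring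
  · rw [dE p q h0 ht1.le hty rfl]
    have hk := kapx h0 hy hty
    have he := even_eq hP sp sq hpq y _ _ hk
    unfold poleE
    simp only
    rw [hac t h0 ht1.le]
    have hsub : ∀ a b : ℝ, reA.sub a b = a - b := fun _ _ => rfl
    rw [hsub, mul_sub, hD, he]
    have ho : y * (sn p * sn q) * (reA.smul 1 1 (reA.mul (Wp reA P (nside P p) (nside P q) (kk p q / sn p) (sn q)⁻¹)
        (reA.add (reA.mul y (reA.inv (reA.om t))) (reA.sub (reA.dbl (reA.inv y)) (acR t)))))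
        = Wf P p q * ((1 + t) + 2 - 2 / π * Real.arccos t) / 2 := by
      rw [← hk, ← hW]
      set W := Wp reA P (nside P p) (nside P q) (kk p q / sn p) (sn q)⁻¹
      clear_value W
      simp only [reA, Alg.om, Alg.dbl, Alg.one, dy]
      have h1t : (1 - t) ≠ 0 := by
        have : 0 < 1 - t := by linarith
        exact this.ne'
      have e1 : y * y * (1 - t)⁻¹ = 1 + t := by
        rw [show y * y = (1 + t) * (1 - t) by nlinarith]
        field_simp
      have e2 : y * y⁻¹ = 1 := mul_inv_cancel₀ hy.ne'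
      simp only [Bool.false_eq_true, if_false, Nat.cast_one, Nat.cast_ofNat, pow_zero, pow_one]
      calc y * (sn p * sn q) * (1 / 2 * (W * (y * (1 * 1 / 1 - t)⁻¹ + (2 / 1 * y⁻¹ - acR t))))
          = sn p * sn q * W * (y * y * (1 - t)⁻¹ + 2 * (y * y⁻¹) - y * acR t) / 2 := by ring
        _ = _ := by rw [e1, e2]; ring
    rw [ho]; ring

end Pool.Agent.FTN
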