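import Pool.Agent.FTA.SL

/-! Polymorphic programs of the certificates in dimension `n` (parameters `n`, `sigma = m / 256`, `k3 = k / 256`). -/

namespace Pool.Agent.FTN

open Pool.Agent.FTA (TM Alg tmA slA SL Side Core PR Cmp Tr)

/-- parameters: dimension `n`, `sigma = m / 256`, `k3 = k / 256` -/
structure Par where
  n : Nat
  m : Nat
  k : Nat

/-- `1024 beta` -/
def Par.be (P : Par) : Nat := (3 * P.n - 4) * P.m - 4 * P.k
/-- `256 * 4 kappa` -/
def Par.c4 (P : Par) : Nat := (P.n - 2) * P.m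
/-- `512 * (1 + 2 kappa)` -/
def Par.c1 (P : Par) : Nat := 512 + (P.n - 2) * P.m

section
variable {α : Type} (P : Par) (A : Alg α)
/-- `eps = 1 / (n - 1)` -/
def Par.ep : α := A.inv (A.cst false (P.n - 1) 0)
/-- `1 / (1 - sigma)` -/
def Par.cB : α := A.inv (A.cst false (256 - P.m) 8)
/-- `1 / sigma` -/
def Par.cE : α := A.inv (A.cst false P.m 8)
/-- `rho = 4 kappa + (1 + eps) kappa^2 + (1 - eps) (beta^2 / (1 - sigma) + k3^2 / sigma)` -/
def Par.rho : α :=
  A.add (A.cst false P.c4 8) (A.add (A.mul (A.op (P.ep A)) (A.cst false (P.c4 * P.c4) 20))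
    (A.mul (A.om (P.ep A)) (A.add (A.mul (P.cB A) (A.cst false (P.be * P.be) 20)) (A.mul (P.cE A) (A.cst false (P.k * P.k) 16)))))
end

section
variable {α : Type} (A : Alg α) (P : Par)

def side (t S C i : α) : Side α :=
  let d := A.sub i S
  { t := t, S := S, C := C, i := i, d := d,
    q := A.add (A.smul (256 - P.m) 8 i) (A.smul P.be 10 d), s := A.add (A.smul P.m 8 i) (A.smul P.k 8 d) }

/-- even part of a pole; `R'`-term separately -/
def evenP (U V : Side α) (y dt R : α) : α :=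
  A.add (A.mul (P.cB A) (A.mul (A.mul U.q V.q) dt)) (A.mul y (A.add (A.mul (P.cE A) (A.mul U.s V.s)) R))

/-- odd part: `W (y / (1 + ax) + ac) / 2` -/
def oddP (W y ax ac : α) : α := A.smul 1 1 (A.mul W (A.add (A.mul y (A.inv (A.op ax))) ac))

/-- `W' = (5/4) (i - kS) iq - (1/2) C C'` -/
def Wp (U V : Side α) (kS iq : α) : α := A.sub (A.smul P.c1 9 (A.mul (A.sub U.i kS) iq)) (A.smul P.c4 8 (A.mul U.C V.C))
/-- `R' = (5/4) (i (1 - 2 q) + kS) iq - (93/128) d d'` -/
def Rp (U V : Side α) (kS iq : α) : α :=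
  A.sub (A.smul P.c1 9 (A.mul (A.add (A.mul U.i (A.om (A.dbl V.t))) kS) iq)) (A.mul (P.rho A) (A.mul U.d V.d))

/-- contribution of a pole with acute angle (`s = +1`) -/
def poleA (U V : Side α) (kS iq ax y : α) : α :=
  (fun ac => A.add (evenP A P U V y ac (Rp A P U V kS iq)) (oddP A (Wp A P U V kS iq) y ax ac)) (A.ac ax)
/-- contribution of a pole with obtuse angle; `ax = |cos|` -/
def poleO (U V : Side α) (kS iq ax y : α) : α :=
  (fun ac => A.sub (evenP A P U V y ac (Rp A P U V kS iq)) (oddP A (Wp A P U V kS iq) y ax ac)) (A.ac ax)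
/-- the same for the `z` pole when the angle is acute, `x = cos ≥ 0`: expansion from the obtuse side -/
def poleE (U V : Side α) (kS iq x y : α) : α :=
  (fun ac => A.sub (evenP A P U V y ac (Rp A P U V kS iq))
    (A.smul 1 1 (A.mul (Wp A P U V kS iq) (A.add (A.mul y (A.inv (A.om x))) (A.sub (A.dbl (A.inv y)) ac))))) (A.ac x)

/-- `core` for the charts with `a` as scale: `be = 1 - b`, `gm = 1 - c`, `e0 = a f0`, `e1 = a f1`, `tt = sqrt (e0 / e1)`,
`z0 = sc e0`, `z1 = sc e1`, `Sa Ca ia` = sin, cos, `a / sin` of `a`; `Sb Cb`, `Sc Cc` = sin, cos of `b`, `c`,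
`s2 s3` = sines of the two large half differences. -/
def core2 (neg : Bool) (a b c f0 f1 tt z0 z1 Sa Ca ia Sb Cb Sc Cc s2 s3 : α) : Core α :=
  let v := A.mul s2 s3
  let ir := A.rsq v
  let pr := A.mul z0 z1
  let ig := A.rsq pr
  let isb := A.inv Sb
  let isc := A.inv Sc
  let DS := A.dbl (A.mul (A.mul (A.mul tt f1) (A.mul pr ig)) (A.mul (A.mul v ir) ia))
  let f0s := A.mul (A.mul f0 z0) ia
  let f1s := A.mul (A.mul f1 z1) ia
  let yx := A.mul DS isc
  let e0 := A.mul a f0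
  let s0 := A.mul e0 z0
  let c0 := A.cs e0
  { a := side A P a Sa Ca ia, b := side A P b Sb Cb (A.mul b isb), c := side A P c Sc Cc (A.mul c isc), isb := isb, isc := isc,
    yz := A.mul DS isb, yx := yx, yy := A.mul (A.mul yx Sa) isb,
    xz := A.mul (A.sub (A.mul f0s s3) (A.mul f1s s2)) isb,
    xx := A.mul (A.sub (A.mul f1s s3) (A.mul f0s s2)) isc,
    xy := A.mul (A.mul (A.sub v (A.mul s0 (A.mul (A.mul a f1) z1))) isb) isc,
    bs := A.mul (A.smul 1 1 (A.mul (A.mul tt z0) (A.mul ig ir)))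
      (A.sub (A.smul P.c4 8 (A.mul c0 (A.sub (A.smul 4 0 (A.mul (A.mul Sa Sb) Sc)) (A.dbl (A.mul s0 c0)))))
        (A.smul (Bool.casesOn neg P.c1 (3 * P.c1)) 8 (A.inv z0))),
    kd := A.mul tt (A.mul ig ir) }

/-- `core` from the chart data `a, be, gm, f0, f1, tt` -/
def core (neg : Bool) (a be gm f0 f1 tt : α) : Core α :=
  let sa := A.sc a
  core2 A P neg a (A.om be) (A.om gm) f0 f1 tt (A.sc (A.mul a f0)) (A.sc (A.mul a f1)) (A.mul a sa) (A.cs a) (A.inv sa)
    (A.cs be) (A.mul be (A.sc be)) (A.cs gm) (A.mul gm (A.sc gm))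
    (Bool.casesOn neg (A.cs (A.smul 1 1 (A.add (A.add a be) gm))) (A.cs (A.smul 1 1 (A.sub (A.add a be) gm))))
    (Bool.casesOn neg (A.cs (A.smul 1 1 (A.sub (A.add be gm) a))) (A.cs (A.smul 1 1 (A.sub (A.add a gm) be))))

/-- negative type: `Q`, kinks `kz = (a - be)/S_a`, `kx = (a - gm)/S_a`, `ky = (b - gm)/S_b` -/
def qN (K : Core α) (be gm kz kx : α) : α :=
  let ky := A.mul (A.sub K.b.t gm) K.isb
  A.add (A.add K.bs (poleO A P K.a K.b kz K.isb (A.sub (A.cst false 0 0) K.xz) K.yz))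
    (A.add (poleO A P K.a K.c kx K.isc K.xx K.yx) (poleO A P K.b K.c ky K.isc K.xy K.yy))

/-- positive type, obtuse (`ev = false`) or acute (`ev = true`) angle at the pole `z`;
`kz, kx` = kinks divided by `S_a`, `kD = k_z / D`, `ky = (b + c - 1)/S_b` -/
def qP (ev : Bool) (K : Core α) (gm kz kx kD : α) : α :=
  let ky := A.mul (A.sub K.b.t gm) K.isb
  A.add (A.add (A.sub K.bs (A.smul P.c1 8 kD))
      (Bool.casesOn ev (poleO A P K.a K.b kz K.isb (A.sub (A.cst false 0 0) K.xz) K.yz) (poleE A P K.a K.b kz K.isb K.xz K.yz)))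
    (A.add (poleA A P K.a K.c kx K.isc K.xx K.yx) (poleA A P K.b K.c ky K.isc K.xy K.yy))

/-- chart `N`: variables `a, x, t` -/
def cN (a x t : α) : α :=
  let t2 := A.mul t t
  let f1 := A.inv (A.op t2)
  let f0 := A.mul t2 f1
  let xi := A.sub f1 f0
  let hx := A.smul 1 1 (A.mul xi x)
  let gm := A.mul a hx
  let be := A.mul a (A.sub xi hx)
  let K := core A P true a be gm f0 f1 t
  qN A P K be gm (A.mul K.a.i (A.om (A.sub xi hx))) (A.mul K.a.i (A.om hx))

/-- chart `A`: `gm = 2 e0 x` -/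
def cA (a x t : α) : PR α :=
  let t2 := A.mul t t
  let f1 := A.inv (A.op t2)
  let f0 := A.mul t2 f1
  let xi := A.sub f1 f0
  let g := A.dbl (A.mul f0 x)
  let gm := A.mul a g
  let K := core A P false a (A.add gm (A.mul a xi)) gm f0 f1 t
  let k2 := A.sub (A.dbl f0) g
  let kz := A.mul K.a.i k2
  let kx := A.mul K.a.i (A.om g)
  let kD := A.mul (A.om x) K.kd
  { o := qP A P false K gm kz kx kD, e := qP A P true K gm kz kx kD, xz := K.xz }

/-- chart `B`: `gm = 2 e0 + (a - 2 e0) x` -/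
def cB (a x t : α) : PR α :=
  let t2 := A.mul t t
  let f1 := A.inv (A.op t2)
  let f0 := A.mul t2 f1
  let xi := A.sub f1 f0
  let gm := A.mul a (A.add (A.dbl f0) (A.mul xi x))
  let K := core A P false a (A.add gm (A.mul a xi)) gm f0 f1 t
  let z := A.cst false 0 0
  let kx := A.mul K.a.i (A.mul xi (A.om x))
  { o := qP A P false K gm z kx z, e := qP A P true K gm z kx z, xz := K.xz }

/-- scaled chart, results are `b * Q`; poles -/
def vpole (b : α) (U V : Side α) (bp bk y : α) : α × α :=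
  (A.sub (A.smul P.c1 9 (A.sub bp bk)) (A.smul P.c4 8 (A.mul b (A.mul U.C V.C))),
   A.sub (A.smul P.c1 9 (A.add (A.mul bp (A.om (A.dbl V.t))) bk)) (A.mul (P.rho A) (A.mul b (A.mul U.d V.d))))

def vev (b : α) (U V : Side α) (y dt R : α) : α :=
  A.add (A.mul b (A.add (A.mul (P.cB A) (A.mul (A.mul U.q V.q) dt)) (A.mul y (A.mul (P.cE A) (A.mul U.s V.s))))) (A.mul y R)

def vA (b : α) (U V : Side α) (bp bk ax y : α) : α :=
  let w := vpole A P b U V bp bk y
  let ac := A.ac ax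
  A.add (vev A P b U V y ac w.2) (oddP A w.1 y ax ac)
def vO (b : α) (U V : Side α) (bp bk ax y : α) : α :=
  let w := vpole A P b U V bp bk y
  let ac := A.ac ax
  A.sub (vev A P b U V y ac w.2) (oddP A w.1 y ax ac)
def vE (b : α) (U V : Side α) (bp bk x y : α) : α :=
  let w := vpole A P b U V bp bk y
  let ac := A.ac x
  A.sub (vev A P b U V y ac w.2)
    (A.smul 1 1 (A.mul w.1 (A.add (A.mul y (A.inv (A.om x))) (A.sub (A.dbl (A.inv y)) ac))))

/-- chart `V`: variables `rho = a / b`, `b`, `t`; `k1` says whether `b + c ≥ 1` -/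
def cV (k1 : Bool) (rho b t : α) : PR α :=
  let t2 := A.mul t t
  let f1 := A.inv (A.op t2)
  let f0 := A.mul t2 f1
  let a := A.mul rho b
  let m := A.op (A.mul rho (A.sub f1 f0))
  let c := A.mul b m
  let l2 := A.om (A.mul rho f0)
  let l3 := A.op (A.mul rho f1)
  let za := A.sc a
  let zb := A.sc b
  let zc := A.sc c
  let z0 := A.sc (A.mul a f0)
  let z1 := A.sc (A.mul a f1)
  let p2 := A.mul l2 (A.sc (A.mul b l2))
  let p3 := A.mul l3 (A.sc (A.mul b l3))
  let ia := A.inv za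
  let ib := A.inv zb
  let icm := A.inv (A.mul m zc)
  let v := A.mul p2 p3
  let ir := A.rsq v
  let pr := A.mul z0 z1
  let ig := A.rsq pr
  let yz := A.dbl (A.mul (A.mul (A.mul t f1) (A.mul pr ig)) (A.mul (A.mul v ir) (A.mul ia ib)))
  let yi := A.mul yz icm
  let yx := A.mul yi zb
  let yy := A.mul yi (A.mul rho za)
  let u0 := A.mul f0 z0
  let u1 := A.mul f1 z1
  let xz := A.mul (A.sub (A.mul u0 p3) (A.mul u1 p2)) (A.mul ia ib)
  let xx := A.mul (A.sub (A.mul u1 p3) (A.mul u0 p2)) (A.mul ia icm)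
  let bc := A.mul ib icm
  let xy := A.mul (A.sub v (A.mul (A.mul rho rho) (A.mul u0 u1))) bc
  let sa := side A P a (A.mul a za) (A.cs a) ia
  let sb := side A P b (A.mul b zb) (A.cs b) ib
  let sc := side A P c (A.mul c zc) (A.cs c) (A.mul m icm)
  let e0 := A.mul a f0
  let c0 := A.cs e0
  let s0 := A.mul e0 z0
  let bs := A.mul (A.smul 1 1 (A.mul (A.mul t z0) (A.mul ig ir)))
      (A.sub (A.smul P.c4 8 (A.mul c0 (A.sub (A.smul 4 0 (A.mul (A.mul sa.S sb.S) sc.S)) (A.dbl (A.mul s0 c0)))))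
        (A.smul P.c1 8 (A.inv z0)))
  let z := A.cst false 0 0
  let bk := Bool.casesOn k1 z (A.mul (A.mul (A.sub (A.add b c) A.one) (A.inv b)) bc)
  let rest := A.add bs (A.add (vA A P b sa sc (A.mul ia icm) z xx yx) (vA A P b sb sc bc bk xy yy))
  { o := A.add rest (vO A P b sa sb (A.mul ia ib) z (A.sub z xz) yz),
    e := A.add rest (vE A P b sa sb (A.mul ia ib) z xz yz), xz := xz }

/-- chart near `V1`: `a`, `xi`, `gm` (used with slopes), negative type -/
def ccore (neg : Bool) (a xi be gm : α) : Core α :=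
  let m := A.om xi
  let p := A.op xi
  core A P neg a be gm (A.smul 1 1 m) (A.smul 1 1 p) (A.mul m (A.rsq (A.mul m p)))

def eN (a xi x : α) : α :=
  let h := A.smul 1 1 (A.mul xi x)
  let gm := A.mul a h
  let be := A.mul a (A.sub xi h)
  let K := ccore A P true a xi be gm
  qN A P K be gm (A.mul K.a.i (A.om (A.sub xi h))) (A.mul K.a.i (A.om h))

/-- positive type with kink mode `m`: `0 : (k_z, k_x) = (a (1 - xi), a)`, `1 : (0, a xi)`, `2 : (0, 0)` -/
def eP (m : Nat) (ev : Bool) (a xi gm : α) : α :=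
  let K := ccore A P false a xi (A.add gm (A.mul a xi)) gm
  let z := A.cst false 0 0
  match m with
  | 0 => qP A P ev K gm (A.mul K.a.i (A.om xi)) K.a.i K.kd
  | 1 => qP A P ev K gm z (A.mul K.a.i xi) z
  | _ => qP A P ev K gm z z z

/-- positive type with all kinks active, `gm = a g`, `g ≤ 1 - xi` -/
def eF (ev : Bool) (a xi g : α) : α :=
  let gm := A.mul a g
  let K := ccore A P false a xi (A.mul a (A.add g xi)) gm
  let m := A.om xi
  qP A P ev K gm (A.mul K.a.i (A.sub m g)) (A.mul K.a.i (A.om g)) (A.mul (A.om (A.mul g (A.inv m))) K.kd)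

def cmp (x : α) : Cmp α :=
  let z := A.sc x
  let C := A.mul x z
  let m := A.mul C z
  let D := A.om m
  { x := x, z := z, S := A.cs x, C := C, m := m, D := D, p := A.op (A.smul P.c4 10 D),
    q := A.add (A.cst false (256 - P.m) 8) (A.smul P.be 10 D), s := A.add (A.cst false P.m 8) (A.smul P.k 8 D) }

/-- `H` with `G ≥ al be H`; `neg` = negative type, `ez` = positive type with obtuse `z` angle.
Variables `al`, `be = al s`, `gm = be u` (`u = al v` is computed by the caller and `v` is passed too). -/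
def hF (neg ez : Bool) (al s u v : α) : α × α :=
  let be := A.mul al s
  let gm := A.mul be u
  let a := cmp A P al
  let b := cmp A P be
  let c := cmp A P gm
  let cab := A.mul a.S b.S
  let cac := A.mul a.S c.S
  let cbc := A.mul b.S c.S
  let ia := A.inv a.S
  let ib := A.inv b.S
  let ic := A.inv c.S
  let iab := A.mul ia ib
  let iac := A.mul ia ic
  let ibc := A.mul ib ic
  let su := A.mul s u
  let us := A.mul u c.z
  let Ab := A.mul a.C b.z
  let Ac := A.mul a.C c.z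
  -- |tz| / be, |tx| / be, |tx| / al, |ty| / al
  let tzb := A.mul (Bool.casesOn neg (Bool.casesOn ez (A.sub us Ab) (A.sub Ab us)) (A.add us Ab)) iab
  let txb := A.mul (Bool.casesOn neg (A.sub b.z (A.mul u Ac)) (A.add b.z (A.mul u Ac))) iac
  let Cb := A.mul (A.mul s c.C) b.z
  let tya := A.mul (Bool.casesOn neg (A.sub a.z Cb) (A.add a.z Cb)) ibc
  let tz := A.mul tzb be
  let tx := A.mul txb be
  let ty := A.mul tya al
  let z2 := A.mul tz tz
  let x2 := A.mul tx tx
  let y2 := A.mul ty ty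
  -- eps / be (z, x), eps / al (y)
  let ezb := A.mul (A.as z2) tzb
  let exb := A.mul (A.as x2) txb
  -- D^2 = S_a^2 (1 - w)
  let abc := A.dbl (A.mul (A.mul a.C b.C) c.C)
  let ww := A.mul (Bool.casesOn neg (A.sub (A.add (A.mul b.C b.C) (A.mul c.C c.C)) abc) (A.add (A.add (A.mul b.C b.C) (A.mul c.C c.C)) abc)) (A.mul ia ia)
  let ry := A.mul (A.mul cbc ia) (A.rsq (A.om ww))
  let eya := A.mul (A.as y2) tya
  let epz := A.mul ezb be
  let epx := A.mul exb be
  let epy := A.mul eya al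
  -- (C - |tz|) / (al be) etc.
  let mB := A.mul b.m s
  let mC := A.mul c.m su
  let zz := A.mul a.z b.z
  let k1 := A.mul (A.mul us (A.sub (A.add a.m mB) (A.mul a.m (A.mul b.C b.C)))) (A.inv (A.op cab))
  let dz := Bool.casesOn neg
    (Bool.casesOn ez (A.mul (A.sub zz k1) iab) (A.sub (A.mul (A.mul v c.z) (A.op iab)) (A.mul zz iab)))
    (A.mul (A.sub (A.cst false 0 0) (A.add zz k1)) iab)
  let k2 := A.mul (A.mul b.z (A.sub (A.add a.m mC) (A.mul a.m (A.mul c.C c.C)))) (A.inv (A.op cac))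
  let zu := A.mul a.z us
  let dx := A.mul (Bool.casesOn neg (A.sub zu k2) (A.sub (A.cst false 0 0) (A.add zu k2))) iac
  let k3 := A.mul (A.mul a.z (A.sub (A.add b.m (A.mul c.m u)) (A.mul b.m (A.mul c.C c.C)))) (A.inv (A.op cbc))
  let zs := A.mul (A.mul b.z su) c.z
  let dy := A.mul (Bool.casesOn neg (A.sub zs k3) (A.sub (A.cst false 0 0) (A.add zs k3))) ibc
  let l1 := A.mul dz (A.add (A.smul (256 - P.m) 7 (A.mul A.ip (A.rsq (A.om z2)))) (A.smul P.m 8 (A.add c.C tz)))
  let l2 := A.mul dx (A.add (A.smul (256 - P.m) 7 (A.mul A.ip (A.rsq (A.om x2)))) (A.smul P.m 8 (A.add b.C tx)))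
  let l3 := A.mul dy (A.add (A.smul (256 - P.m) 7 (A.mul A.ip ry)) (A.smul P.m 8 (A.add a.C ty)))
  -- products
  let pr (f : Cmp α → α) (wz wx wy : α) : α :=
    A.add (A.mul (A.mul (f a) (f b)) wz) (A.add (A.mul (A.mul u (A.mul (f a) (f c))) wx) (A.mul (A.mul su (A.mul (f b) (f c))) wy))
  let ep := P.ep A
  let P1 := A.mul (A.op ep) (A.add (A.mul a.p b.p) (A.add (A.mul u (A.mul a.p c.p)) (A.mul su (A.mul b.p c.p))))
  let P2 := A.mul (P.cB A) (pr (fun k => k.q) (A.sub ep epz) (A.sub ep epx) (A.sub ep epy))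
  let P3 := A.mul (P.cE A) (pr (fun k => k.s) (A.sub ep z2) (A.sub ep x2) (A.sub ep y2))
  let lin (f : Cmp α → α) (wz wx wy : α) : α :=
    (A.add (A.mul (A.add (f a) (A.mul s (f b))) wz) (A.add (A.mul (A.add (f a) (A.mul su (f c))) wx) (A.mul (A.add (f b) (A.mul u (f c))) wy)))
  let L2 := lin (fun k => k.q) ezb exb eya
  let zt := A.mul tz tzb
  let xt := A.mul tx txb
  let yt := A.mul ty tya
  let L3 := lin (fun k => k.s) zt xt yt
  -- - W T
  let Wz := A.mul (A.mul (A.sub (A.cst false P.c1 9) (A.smul P.c4 8 (A.mul cab Ab))) s) (A.smul 1 1 (A.add tzb ezb))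
  let Wx := A.mul (A.mul (A.sub (A.cst false P.c1 9) (A.smul P.c4 8 (A.mul cac Ac))) su) (A.smul 1 1 (A.add txb exb))
  let Wy := A.mul (A.mul (A.sub (A.cst false P.c1 9) (A.smul P.c4 8 (A.mul cbc (A.mul b.C c.z)))) u) (A.smul 1 1 (A.add tya eya))
  let WT := Bool.casesOn neg
    (A.add (Bool.casesOn ez (A.sub (A.cst false 0 0) Wz) Wz) (A.sub (A.cst false 0 0) (A.add Wx Wy)))
    (A.add Wz (A.add Wx Wy))
  -- - R t^2
  let o2a := A.smul P.c1 9 (A.om (A.dbl al))
  let RT := A.sub (A.mul (P.rho A) (pr (fun k => k.D) z2 x2 y2))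
    (A.add (A.mul (A.mul o2a s) zt) (A.add (A.mul (A.mul o2a su) xt) (A.mul (A.mul (A.smul P.c1 9 (A.om (A.dbl be))) u) yt)))
  (A.add (A.add (A.add l1 (A.add l2 l3)) (A.sub (A.add P2 P3) P1)) (A.add (A.add L2 L3) (A.add WT RT)), tzb)

end
end Pool.Agent.FTN
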