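import Pool.Agent.FTN.Prog

/-! Regions and slope lists of the certificates in dimension `n`. -/

namespace Pool.Agent.FTN

open Pool.Agent.FTA (TM Alg tmA slA SL Side Core PR Cmp Tr)

section
variable {α : Type} (A : Alg α) (P : Par)

/-- chart `N`, variables `a, x, t`, `t ≤ 113/128` -/
def gN (a x t : α) : List (List α) :=
  let t2 := A.mul t t
  let f1 := A.inv (A.op t2)
  let xi := A.sub f1 (A.mul t2 f1)
  let be := A.mul a (A.mul xi (A.om (A.smul 1 1 x)))
  [[A.sub (A.add a be) A.one, cN A P a x t]]

/-- chart `A`, variables `a, x, t`; excluded: `xi < 1/8` and (`gm < a/8` or `a < 3/32`) -/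
def gA (a x t : α) : List (List α) :=
  let t2 := A.mul t t
  let f1 := A.inv (A.op t2)
  let f0 := A.mul t2 f1
  let xi := A.sub f1 f0
  let g := A.dbl (A.mul f0 x)
  let o1 := A.sub (A.add a (A.mul a (A.add g xi))) A.one
  let o2 := A.sub (A.cst false 1 3) xi
  let o3 := A.sub (A.cst false 1 3) g
  let o4 := A.sub (A.cst false 3 5) a
  let r := cA A P a x t
  let nz := A.sub (A.cst false 0 0) r.xz
  [[o1, o2, r.xz, r.o], [o1, o3, o4, r.xz, r.o], [o1, o2, nz, r.e], [o1, o3, o4, nz, r.e]]

/-- chart `B`, variables `a, x, t`; excluded: `xi < 1/8` and `a < 3/32` -/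
def gB (a x t : α) : List (List α) :=
  let t2 := A.mul t t
  let f1 := A.inv (A.op t2)
  let f0 := A.mul t2 f1
  let xi := A.sub f1 f0
  let gm := A.mul a (A.add (A.dbl f0) (A.mul xi x))
  let o1 := A.sub (A.add a (A.add gm (A.mul a xi))) A.one
  let o2 := A.sub (A.cst false 1 3) xi
  let o4 := A.sub (A.cst false 3 5) a
  let r := cB A P a x t
  let nz := A.sub (A.cst false 0 0) r.xz
  [[o1, o2, r.xz, r.o], [o1, o4, r.xz, r.o], [o1, o2, nz, r.e], [o1, o4, nz, r.e]]

/-- chart `V`, variables `rho, b, t`; excluded: `xi < 1/8` and `gm < 3/32` -/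
def gV (rho b t : α) : List (List α) :=
  let t2 := A.mul t t
  let f1 := A.inv (A.op t2)
  let f0 := A.mul t2 f1
  let xi := A.sub f1 f0
  let a := A.mul rho b
  let c := A.mul b (A.op (A.mul rho xi))
  let o1 := A.sub (A.add a c) A.one
  let o2 := A.sub (A.cst false 1 3) xi
  let o3 := A.sub (A.cst false 3 5) (A.om c)
  let bc := A.sub (A.add b c) A.one
  let cb := A.sub A.one (A.add b c)
  let r := cV A P false rho b t
  let r' := cV A P true rho b t
  let nz := A.sub (A.cst false 0 0) r.xz
  [[o1, o2, bc, r.xz, r.o], [o1, o3, bc, r.xz, r.o], [o1, o2, bc, nz, r.e], [o1, o3, bc, nz, r.e],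
   [o1, o2, cb, r.xz, r'.o], [o1, o3, cb, r.xz, r'.o], [o1, o2, cb, nz, r'.e], [o1, o3, cb, nz, r'.e]]

/-- complement charts near `V3` (`al ≤ 3/16`), variables `al, s, u`, negative type -/
def gHN (al s u : α) : List (List α) := [[(hF A P true false al s u u).1]]

/-- positive type, `tz ≥ 0` -/
def gHP (al s u : α) : List (List α) :=
  let h := hF A P false false al s u u
  [[A.sub (A.cst false 0 0) h.2, h.1]]

/-- positive type, `tz ≤ 0`, `u = al v` -/
def gHE (al s v : α) : List (List α) :=
  let h := hF A P false true al s (A.mul al v) v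
  [[A.sub (A.cst false 0 0) h.2, h.1]]

end

section
variable {α : Type} (A : Alg α) (P : Par)

/-- negative type near `V1`: `a`, `xi = r`, `x = s` -/
def fN (a r s : α) : List α := [eN A P a r s]

def fPm (a xi gm : α) : List α :=
  [eP A P 0 false a xi gm, eP A P 0 true a xi gm, eP A P 1 false a xi gm, eP A P 1 true a xi gm, eP A P 2 false a xi gm, eP A P 2 true a xi gm]
/-- positive type near `V1`: `xi = r`, `gm = r s` -/
def fP1 (a r s : α) : List α := fPm A P a r (A.mul r s)
/-- positive type near `V1`: `gm = r`, `xi = r s` -/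
def fP2 (a r s : α) : List α := fPm A P a (A.mul r s) r

/-- positive type, `a` away from `0` -/
def fF1 (a r s : α) : List α := [eF A P false a r (A.mul r s), eF A P true a r (A.mul r s)]
def fF2 (a r s : α) : List α := [eF A P false a (A.mul r s) r, eF A P true a (A.mul r s) r]

/-- corner of the chart `V`: `1 - rho`, `b`, `t` -/
def fV (x b t : α) : List α := [(cV A P false (A.om x) b t).o]
def fV1 (w r s : α) : List α := fV A P r (A.mul r s) (A.mul r w)
def fV2 (w r s : α) : List α := fV A P (A.mul r s) r (A.mul r w)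
def fV3 (w r s : α) : List α := fV A P (A.mul r s) (A.mul r w) r

end


end Pool.Agent.FTN
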