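import Mathlib
import Pool.Agent.FTA.Real
import Pool.Agent.FTN.Region

/-! Real side of the certificates in dimension `n`. -/

open Real

namespace Pool.Agent.FTN

open Pool.Agent.FTA (TM Alg tmA slA SL Side Core PR Cmp Tr sn cn De kk T1 tt gram reA prA)

noncomputable section

variable (P : Par)

def eps : ℝ := 1 / ((P.n : ℝ) - 1)
def sig : ℝ := (P.m : ℝ) / 256
def k3 : ℝ := (P.k : ℝ) / 256
def kap : ℝ := ((P.n : ℝ) - 2) * sig P / 4
def bet : ℝ := kap P + ((P.n : ℝ) - 1) * sig P / 2 - k3 P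
def rh : ℝ := 4 * kap P + (1 + eps P) * kap P ^ 2 + (1 - eps P) * (bet P ^ 2 / (1 - sig P) + k3 P ^ 2 / sig P)

def p0 (a : ℝ) : ℝ := 1 - 1 / (P.n : ℝ) - a - kap P * De a
def pB (a : ℝ) : ℝ := (1 - sig P) * a + bet P * De a
def pE (a : ℝ) : ℝ := sig P * a + k3 P * De a
def Wf (p q : ℝ) : ℝ := (1 + 2 * kap P) * (min p q - kk p q) - kap P * (Real.sin (π * p) * Real.sin (π * q))
def Rf (p q : ℝ) : ℝ := (1 + 2 * kap P) * (min p q * (1 - 2 * max p q) + kk p q) - rh P * (De p * De q)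
/-- the kernel at a pole, `t` = inner product of the directions -/
def F (p q t : ℝ) : ℝ :=
  (1 + eps P) * p0 P p * p0 P q + (1 - sig P)⁻¹ * (pB P p * pB P q) * (|T1 t| - eps P)
    + (sig P)⁻¹ * (pE P p * pE P q) * (t ^ 2 - eps P) + Wf P p q * (t + T1 t) / 2 + Rf P p q * t ^ 2
/-- the slack -/
def Gf (a b c s : ℝ) : ℝ :=
  3 - 3 / (P.n : ℝ) - a - b - c - F P a b (tt a b c s) - F P a c (tt a c b s) - F P b c (tt b c a s)

/-- admissible parameters -/
structure Good : Prop where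
  n3 : 3 ≤ P.n
  m0 : 0 < P.m
  m1 : P.m < 256
  be0 : 4 * P.k < (3 * P.n - 4) * P.m
  be1 : bet P ≤ 1 - sig P
  rh1 : rh P * (117 / 1000) ≤ 1 + 2 * kap P
  ka : kap P ≤ 2

end

end Pool.Agent.FTN
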